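import Pool.Agent.V8H80.Nice
import Pool.Agent.Helper984_CP.Log

/-!
A homeomorphism of the plane with local degree one at one point has a lift to `PlaneLift`
(helper80, MP_cbfcf7_gt).
-/

set_option autoImplicit false

open Set Topology Filter
open scoped unitInterval

namespace Pool.Agent.V8H80

open Pool.Agent.Helper11.PlaneEuler (PlaneLift)

/-- `f` preserves orientation: for some point `p`, the image under `f` of the unit circle around `p`,
run once counterclockwise, winds exactly once counterclockwise around `f p`; that is, the vector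
`f (p + exp (i θ)) - f p` has a continuous argument `φ θ` with `φ (θ + 2 π) = φ θ + 2 π` -/
def OrientPres (f : ℂ ≃ₜ ℂ) : Prop :=
  ∃ (p : ℂ) (φ : ℝ → ℝ), Continuous φ ∧
    (∀ θ : ℝ, f (p + Complex.exp (θ * Complex.I)) - f p =
      (‖f (p + Complex.exp (θ * Complex.I)) - f p‖ : ℂ) * Complex.exp (φ θ * Complex.I)) ∧
    ∀ θ : ℝ, φ (θ + 2 * Real.pi) = φ θ + 2 * Real.pi

theorem ori_of_orientPres {f : ℂ ≃ₜ ℂ} (hf : OrientPres f) : Ori f := by
  obtain ⟨p0, φ, hφ, hφ1, hφ2⟩ := hf
  set h : ℂ × ℂ → ℂ := fun x => (f (x.1 + Complex.exp x.2) - f x.1) / Complex.exp x.2 with hh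
  have hc : Continuous h := by
    have := f.continuous
    apply Continuous.div
    · fun_prop
    · fun_prop
    · exact fun x => Complex.exp_ne_zero _
  have hne : ∀ x, h x ≠ 0 := by
    intro x
    apply div_ne_zero _ (Complex.exp_ne_zero _)
    rw [sub_ne_zero]
    intro e
    have := f.injective e
    have h2 : Complex.exp x.2 = 0 := by linear_combination this
    exact Complex.exp_ne_zero _ h2
  -- the logarithm
  obtain ⟨G, hG, hGe⟩ : ∃ G : ℂ × ℂ → ℂ, Continuous G ∧ ∀ x, Complex.exp (G x) = h x := by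
    let H : C(I × (ℂ × ℂ), ℂ) := ⟨fun q => h ((q.1 : ℝ) • q.2) / h 0, by
      apply Continuous.div_const
      apply hc.comp
      fun_prop⟩
    obtain ⟨L, -, hL⟩ := Helper984_CP.exists_log H (fun q => div_ne_zero (hne _) (hne _)) (by
      intro a
      show h (((0 : I) : ℝ) • a) / h 0 = 1
      simp [hne])
    refine ⟨fun x => L (1, x) + Complex.log (h 0), by fun_prop, fun x => ?_⟩
    rw [Complex.exp_add, hL, Complex.exp_log (hne _)]
    show h (((1 : I) : ℝ) • x) / h 0 * h 0 = h x
    rw [div_mul_cancel₀ _ (hne _)]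
    simp
  -- periodicity
  have hper0 : ∀ x : ℂ × ℂ, G (x.1, x.2 + 2 * Real.pi * Complex.I) - G x =
      G (p0, 0 + 2 * Real.pi * Complex.I) - G (p0, 0) := by
    intro x
    have := Helper984_CP.exp_rigid (u := fun x : ℂ × ℂ => G (x.1, x.2 + 2 * Real.pi * Complex.I))
      (v := G) (by fun_prop) hG (by
        intro a
        rw [hGe, hGe]
        simp only [hh]
        rw [Complex.exp_add, Complex.exp_two_pi_mul_I, mul_one]) x (p0, 0)
    exact this
  have hper1 : G (p0, 0 + 2 * Real.pi * Complex.I) - G (p0, 0) = 0 := by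
    have hhθ : ∀ θ : ℝ, h (p0, θ * Complex.I) = Complex.exp ((Real.log ‖h (p0, θ * Complex.I)‖ : ℝ) +
        (φ θ - θ) * Complex.I) := by
      intro θ
      rw [Complex.exp_add, ← Complex.ofReal_exp, Real.exp_log (norm_pos_iff.2 (hne _))]
      simp only [hh]
      rw [sub_mul, Complex.exp_sub, norm_div, Complex.norm_exp_ofReal_mul_I, div_one]
      nth_rewrite 1 [hφ1 θ]
      ring
    have hcont : Continuous fun θ : ℝ => ((Real.log ‖h (p0, θ * Complex.I)‖ : ℝ) : ℂ) +
        (φ θ - θ) * Complex.I := by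
      have h1 : Continuous fun θ : ℝ => Real.log ‖h (p0, θ * Complex.I)‖ := by
        apply Continuous.log
        · fun_prop
        · exact fun θ => norm_ne_zero_iff.2 (hne _)
      have h2 : Continuous fun θ : ℝ => ((φ θ : ℝ) : ℂ) := Complex.continuous_ofReal.comp hφ
      exact (Complex.continuous_ofReal.comp h1).add
        ((h2.sub Complex.continuous_ofReal).mul continuous_const)
    have := Helper984_CP.exp_rigid (u := fun θ : ℝ => G (p0, θ * Complex.I))
      (v := fun θ : ℝ => ((Real.log ‖h (p0, θ * Complex.I)‖ : ℝ) : ℂ) + (φ θ - θ) * Complex.I)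
      (by fun_prop) hcont (by
        intro θ
        rw [hGe]
        exact hhθ θ) (0 + 2 * Real.pi) 0
    have e1 : h (p0, ((0 + 2 * Real.pi : ℝ) : ℂ) * Complex.I) = h (p0, ((0 : ℝ) : ℂ) * Complex.I) := by
      simp only [hh]
      push_cast
      rw [zero_add, Complex.exp_two_pi_mul_I, zero_mul, Complex.exp_zero]
    rw [e1, hφ2 0] at this
    push_cast at this
    rw [zero_mul, zero_add] at this
    rw [zero_add]
    linear_combination this
  have hper : ∀ (p ζ ζ' : ℂ), Complex.exp ζ = Complex.exp ζ' → G (p, ζ) = G (p, ζ') := by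
    intro p ζ ζ' he
    obtain ⟨n, rfl⟩ := Complex.exp_eq_exp_iff_exists_int.1 he
    have step : ∀ ζ : ℂ, G (p, ζ + 2 * Real.pi * Complex.I) = G (p, ζ) := by
      intro ζ
      have := hper0 (p, ζ)
      rw [hper1] at this
      exact sub_eq_zero.1 this
    have hpos : ∀ (n : ℕ) (ζ : ℂ), G (p, ζ + n * (2 * Real.pi * Complex.I)) = G (p, ζ) := by
      intro n
      induction n with
      | zero => intro ζ; simp
      | succ n ih =>
        intro ζ
        rw [← ih ζ, ← step (ζ + n * (2 * Real.pi * Complex.I))]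
        congr 2
        push_cast
        ring
    rcases Int.eq_nat_or_neg n with ⟨m, rfl | rfl⟩
    · have := hpos m ζ'
      push_cast
      exact this
    · have := hpos m (ζ' + ((-(m : ℤ) : ℤ) : ℂ) * (2 * Real.pi * Complex.I))
      rw [← this]
      congr 2
      push_cast
      ring
  -- the angle
  have hconf : ∀ x : Pool.Agent.Helper11.PlaneEuler.Conf, x.1.2 - x.1.1 ≠ 0 :=
    Pool.Agent.Helper11.PlaneEuler.sub_ne
  have hcontG : Continuous fun x : Pool.Agent.Helper11.PlaneEuler.Conf =>
      G (x.1.1, Complex.log (x.1.2 - x.1.1)) := by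
    rw [continuous_iff_continuousAt]
    intro x0
    have hw0 := hconf x0
    have hev : (fun x : Pool.Agent.Helper11.PlaneEuler.Conf =>
        G (x.1.1, Complex.log (x.1.2 - x.1.1))) = fun x =>
        G (x.1.1, Complex.log ((x.1.2 - x.1.1) / (x0.1.2 - x0.1.1)) +
          Complex.log (x0.1.2 - x0.1.1)) := by
      funext x
      apply hper
      rw [Complex.exp_add, Complex.exp_log (hconf x), Complex.exp_log hw0,
        Complex.exp_log (div_ne_zero (hconf x) hw0), div_mul_cancel₀ _ hw0]
    rw [hev]
    have h1 : ContinuousAt (fun x : Pool.Agent.Helper11.PlaneEuler.Conf =>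
        Complex.log ((x.1.2 - x.1.1) / (x0.1.2 - x0.1.1))) x0 := by
      apply ContinuousAt.clog
      · apply Continuous.continuousAt
        fun_prop
      · rw [div_self hw0]
        exact Complex.one_mem_slitPlane
    have h2 : ContinuousAt (fun x : Pool.Agent.Helper11.PlaneEuler.Conf =>
        (x.1.1, Complex.log ((x.1.2 - x.1.1) / (x0.1.2 - x0.1.1)) +
          Complex.log (x0.1.2 - x0.1.1))) x0 := by
      apply ContinuousAt.prodMk
      · apply Continuous.continuousAt
        fun_prop
      · exact h1.add continuousAt_const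
    exact ContinuousAt.comp (g := G) hG.continuousAt h2
  refine ⟨⟨f, ⟨fun x => (G (x.1.1, Complex.log (x.1.2 - x.1.1))).im,
    Complex.continuous_im.comp hcontG⟩, fun x => ?_⟩, rfl⟩
  have e1 : (f x.1.2 - f x.1.1) / (x.1.2 - x.1.1) =
      Complex.exp (G (x.1.1, Complex.log (x.1.2 - x.1.1))) := by
    rw [hGe]
    simp only [hh]
    rw [Complex.exp_log (hconf x), add_sub_cancel]
  rw [e1, Complex.norm_exp]
  show _ = _ * Complex.exp (((G (x.1.1, Complex.log (x.1.2 - x.1.1))).im : ℂ) * Complex.I)
  rw [Complex.ofReal_exp, ← Complex.exp_add, Complex.re_add_im]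

end Pool.Agent.V8H80
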