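import Pool.Agent.V8H80.Defs
import Pool.Agent.Helper22.FC.T5

/-!
MP_cbfcf7_gt, statements of the independent parts (helper80).
-/

set_option autoImplicit false

namespace Pool.Agent.V8H80

open MeasureTheory

/-- P1: area correction -/
def S_area : Prop := ∀ (f : ℂ ≃ₜ ℂ), MeasurePreserving (⇑f) → ∀ r ε : ℝ, 0 < ε →
  ∃ R δ : ℝ, 0 < δ ∧ ∀ g : ℂ ≃ₜ ℂ, Dif g → (∀ z : ℂ, ‖z‖ ≤ R → ‖g z - f z‖ ≤ δ) →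
    ∃ h : ℂ ≃ₜ ℂ, (ContDiff ℝ ((⊤ : ℕ∞) : WithTop ℕ∞) (⇑h) ∧
      ContDiff ℝ ((⊤ : ℕ∞) : WithTop ℕ∞) (⇑h.symm) ∧ ∀ z : ℂ, (fderiv ℝ (⇑h) z).det = 1) ∧
      ∀ z : ℂ, ‖z‖ ≤ r → ‖h z - f z‖ < ε

/-- P2: polygonal approximation of the image of a straight-line graph -/
def S_graph : Prop := ∀ (f : ℂ ≃ₜ ℂ) (E : Finset (ℂ × ℂ)), (∀ e ∈ E, e.1 ≠ e.2) →
  (∀ e ∈ E, ∀ e' ∈ E, e ≠ e' →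
    segment ℝ e.1 e.2 ∩ segment ℝ e'.1 e'.2 ⊆ ({e.1, e.2} ∩ {e'.1, e'.2} : Set ℂ)) →
  ∀ δ : ℝ, 0 < δ → ∃ A : ℂ × ℂ → Set ℂ, (∀ e ∈ E, IsArc (A e) (f e.1) (f e.2)) ∧
    (∀ e ∈ E, A e ⊆ Metric.thickening δ (f '' segment ℝ e.1 e.2)) ∧
    ∀ e ∈ E, ∀ e' ∈ E, e ≠ e' → A e ∩ A e' ⊆ f '' ({e.1, e.2} ∩ {e'.1, e'.2} : Set ℂ)

open Pool.Agent.Helper22.FC in
/-- P3: a simple polygon has an ear outside a given base edge `(q, p)` -/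
def S_ear : Prop := ∀ (p q : ℂ) (B : List ℂ), SimpleL ([p] ++ B ++ [q]) →
  Good ([p] ++ B ++ [q]) → 2 ≤ B.length →
  ∃ (B₁ B₂ : List ℂ) (a b c : ℂ), B = B₁ ++ [b] ++ B₂ ∧ (p :: B₁).getLast? = some a ∧
    (B₂ ++ [q]).head? = some c ∧ 0 < side a b c ∧
    SimpleL ([p] ++ (B₁ ++ B₂) ++ [q]) ∧ Good ([p] ++ (B₁ ++ B₂) ++ [q]) ∧
    ∀ e ∈ cyc ([p] ++ B ++ [q]), e ≠ (a, b) → e ≠ (b, c) →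
      segment ℝ e.1 e.2 ∩ convexHull ℝ {a, b, c} ⊆ ({a, c} : Set ℂ)

/-- P4: smoothing of a move along one direction -/
def S_smooth : Prop := ∀ (w : ℂ) (κ : ℝ) (f : ℂ → ℝ), 0 < κ → Continuous f →
  HasCompactSupport f → (∀ (z : ℂ) (s : ℝ), 0 ≤ s → f z - (1 - κ) * s ≤ f (z + s * w)) →
  ∀ ε : ℝ, 0 < ε → ∃ g : ℂ ≃ₜ ℂ, Dif g ∧ ∀ z : ℂ, ‖g z - (z + f z * w)‖ ≤ ε

end Pool.Agent.V8H80
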