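import Pool.Agent.V8H80.KiteB
import Pool.Agent.V8H80.Stm

/-!
MP_cbfcf7_gt, second set of statements (helper80).
-/

set_option autoImplicit false

namespace Pool.Agent.V8H80

/-- union of the sets of a chain of arcs -/
def chU : List (Set ℂ × ℂ) → Set ℂ
  | [] => ∅
  | e :: l => e.1 ∪ chU l

/-- a chain of arcs from `p` to `q`; each arc comes with its end point, and meets the union of the
following arcs only at that end point -/
def Ch : ℂ → List (Set ℂ × ℂ) → ℂ → Prop
  | _, [], _ => False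
  | p, [e], q => Arc e.1 p e.2 ∧ e.2 = q
  | p, e :: e' :: l, q => Arc e.1 p e.2 ∧ e.1 ∩ chU (e' :: l) = {e.2} ∧ Ch e.2 (e' :: l) q

/-- P6: sliding marked points along a segment -/
def S_slide : Prop := ∀ (l l' : List (Set ℂ × ℂ)) (p q : ℂ), Ch p l q → Ch p l' q →
  l.length = l'.length → chU l = segment ℝ p q → chU l' = segment ℝ p q →
  ∀ O : Set ℂ, IsOpen O → openSegment ℝ p q ⊆ O →
  ∃ θ : ℂ ≃ₜ ℂ, Nice θ ∧ (∀ z, z ∉ O → θ z = z) ∧ l.map (fun e => (θ '' e.1, θ e.2)) = l'

/-- complex conjugation -/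
noncomputable def conjH : ℂ ≃ₜ ℂ := Complex.conjCLE.toHomeomorph

/-- P7: a homeomorphism which is close to `f` on the boundary of a convex set -/
def S_face : Prop := ∀ (f γ : ℂ ≃ₜ ℂ) (F : Set ℂ) (m : ℂ), Ori f → Convex ℝ F → IsCompact F →
  m ∈ interior F → (∀ x ∈ frontier F, ‖γ x - f x‖ < ‖f x - f m‖) → f m ∈ γ '' interior F

/-- P8: an orientation reversing homeomorphism is not close to an orientation preserving one on
the boundary of a convex set -/
def S_rev : Prop := ∀ (f γ : ℂ ≃ₜ ℂ) (F : Set ℂ) (m : ℂ), Ori f → Ori (γ * conjH) → Convex ℝ F →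
  IsCompact F → m ∈ interior F → ¬ ∀ x ∈ frontier F, ‖γ x - f x‖ < ‖f x - f m‖

end Pool.Agent.V8H80
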