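import Pool.Agent.V8H80.Defs

/-!
Simple polygonal arcs (helper80, MP_cbfcf7_gt).
-/

set_option autoImplicit false

open Set

namespace Pool.Agent.V8H80

/-- inductive form of `IsArc` -/
inductive Arc : Set ℂ → ℂ → ℂ → Prop
  | seg (p q : ℂ) (h : p ≠ q) : Arc (segment ℝ p q) p q
  | cons (p x q : ℂ) (A : Set ℂ) (h : p ≠ x) (hA : Arc A x q) (hi : segment ℝ p x ∩ A = {x}) :
      Arc (segment ℝ p x ∪ A) p q

lemma head_mem_pset (x : ℂ) (l : List ℂ) : x ∈ pset (x :: l) := by
  cases l with
  | nil => simp [pset]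
  | cons y l => exact Or.inl (left_mem_segment ℝ x y)

theorem Arc.isArc {A : Set ℂ} {p q : ℂ} (h : Arc A p q) : IsArc A p q := by
  induction h with
  | seg p q h =>
    refine ⟨[q], by simp, ⟨h, ?_, trivial⟩, by simp, ?_⟩
    · simp [pset, right_mem_segment]
    · simp [pset, right_mem_segment]
  | cons p x q A h _ hi ih =>
    obtain ⟨l, h1, h2, h3, h4⟩ := ih
    refine ⟨x :: l, by simp, ⟨h, ?_, h2⟩, by simpa using h3, ?_⟩
    · rw [h4]; exact hi
    · show segment ℝ p x ∪ pset (x :: l) = _
      rw [h4]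

theorem IsArc.arc {A : Set ℂ} {p q : ℂ} (h : IsArc A p q) : Arc A p q := by
  obtain ⟨l, h1, h2, h3, h4⟩ := h
  induction l generalizing p A with
  | nil => exact absurd rfl h1
  | cons x l ih =>
    obtain ⟨k1, k2, k3⟩ := h2
    subst h4
    by_cases hl : l = []
    · subst hl
      have : x = q := by simpa using h3
      subst this
      have e : pset [p, x] = segment ℝ p x := by simp [pset, right_mem_segment]
      rw [e]
      exact Arc.seg p x k1
    · refine Arc.cons p x q _ k1 (ih hl k3 (by simpa using h3) rfl) k2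

theorem isArc_iff {A : Set ℂ} {p q : ℂ} : IsArc A p q ↔ Arc A p q := ⟨IsArc.arc, Arc.isArc⟩

variable {A B : Set ℂ} {p q r x : ℂ}

theorem Arc.left_mem (h : Arc A p q) : p ∈ A := by
  cases h with
  | seg p q h => exact left_mem_segment ℝ _ _
  | cons p x q A h hA hi => exact Or.inl (left_mem_segment ℝ _ _)

theorem Arc.right_mem (h : Arc A p q) : q ∈ A := by
  induction h with
  | seg p q h => exact right_mem_segment ℝ _ _
  | cons p x q A h hA hi ih => exact Or.inr ih

theorem isCompact_segment' (p q : ℂ) : IsCompact (segment ℝ p q) := by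
  rw [segment_eq_image_lineMap]
  exact isCompact_Icc.image AffineMap.lineMap_continuous

theorem Arc.isCompact (h : Arc A p q) : IsCompact A := by
  induction h with
  | seg p q h => exact isCompact_segment' _ _
  | cons p x q A h hA hi ih => exact (isCompact_segment' _ _).union ih

theorem Arc.isConnected (h : Arc A p q) : IsConnected A := by
  induction h with
  | seg p q h => exact ⟨⟨p, left_mem_segment ℝ _ _⟩, (convex_segment p q).isPreconnected⟩
  | cons p x q A h hA hi ih =>
    refine ⟨⟨p, Or.inl (left_mem_segment ℝ _ _)⟩, ?_⟩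
    exact (convex_segment p x).isPreconnected.union x (right_mem_segment ℝ _ _) hA.left_mem
      ih.isPreconnected

theorem Arc.ne (h : Arc A p q) : p ≠ q := by
  cases h with
  | seg p q h => exact h
  | cons p x q A h hA hi =>
    rintro rfl
    have : p ∈ segment ℝ p x ∩ A := ⟨left_mem_segment ℝ _ _, hA.right_mem⟩
    rw [hi] at this
    exact h this

/-- concatenation -/
theorem Arc.append (hA : Arc A p q) (hB : Arc B q r) (hAB : A ∩ B = {q}) : Arc (A ∪ B) p r := by
  induction hA with
  | seg p q h => exact Arc.cons p q r B h hB hAB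
  | cons p x q A h hA hi ih =>
    have h1 : A ∩ B = {q} := by
      apply Subset.antisymm
      · rintro z ⟨hz1, hz2⟩
        rw [← hAB]
        exact ⟨Or.inr hz1, hz2⟩
      · rintro z rfl
        exact ⟨hA.right_mem, hB.left_mem⟩
    rw [union_assoc]
    refine Arc.cons p x r (A ∪ B) h (ih hB h1) ?_
    apply Subset.antisymm
    · rintro z ⟨hz1, hz2 | hz2⟩
      · rw [← hi]; exact ⟨hz1, hz2⟩
      · have hz : z ∈ ({q} : Set ℂ) := by
          rw [← hAB]; exact ⟨Or.inl hz1, hz2⟩
        rw [mem_singleton_iff] at hz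
        subst hz
        rw [← hi]
        exact ⟨hz1, hA.right_mem⟩
    · rintro z rfl
      exact ⟨right_mem_segment ℝ _ _, Or.inl hA.left_mem⟩

theorem Arc.symm (h : Arc A p q) : Arc A q p := by
  induction h with
  | seg p q h => rw [segment_symm]; exact Arc.seg q p h.symm
  | cons p x q A h hA hi ih =>
    rw [union_comm]
    refine ih.append (B := segment ℝ p x) ?_ ?_
    · rw [segment_symm]; exact Arc.seg x p h.symm
    · rw [inter_comm]; exact hi

theorem Arc.cons' (h : p ≠ x) (hA : Arc A x q) (hi : segment ℝ p x ∩ A ⊆ {x}) :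
    Arc (segment ℝ p x ∪ A) p q := by
  refine Arc.cons p x q A h hA (Subset.antisymm hi ?_)
  rintro z rfl
  exact ⟨right_mem_segment ℝ _ _, hA.left_mem⟩

theorem Arc.append' (hA : Arc A p q) (hB : Arc B q r) (hAB : A ∩ B ⊆ {q}) :
    Arc (A ∪ B) p r := by
  refine hA.append hB (Subset.antisymm hAB ?_)
  rintro z rfl
  exact ⟨hA.right_mem, hB.left_mem⟩

end Pool.Agent.V8H80
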