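import Pool.Agent.V8H80.Perim

/-!
Making a boundary point of the square strictly extreme (helper80, MP_cbfcf7_gt).
-/

set_option autoImplicit false

open Set Topology Filter

namespace Pool.Agent.V8H80

lemma bump1 {L : ℝ} (hL : 0 < L) {r0 : ℂ} (hr : r0 ∈ bdS L) (hre : r0.re = L) :
    ∃ g : ℂ ≃ₜ ℂ, Nice g ∧ Ext (g r0) (g '' bdS L) := by
  have h1 : ⇑(1 : ℂ ≃ₜ ℂ) = id := rfl
  obtain ⟨r1, r2, r3, r4, -⟩ := hr
  rcases r4.eq_or_lt with h | h
  · -- upper corner
    refine ⟨1, Nice.one, fun z => z.re + z.im, ⟨0, 1, 1, fun z => by ring⟩, ?_⟩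
    rw [h1, image_id]
    rintro z ⟨z1, z2, z3, z4, -⟩ hne
    show z.re + z.im < r0.re + r0.im
    rw [hre, h]
    by_contra hcon
    apply hne
    apply Complex.ext
    · show z.re = r0.re
      linarith
    · show z.im = r0.im
      linarith
  rcases r3.eq_or_lt with h' | h'
  · -- lower corner
    refine ⟨1, Nice.one, fun z => z.re - z.im, ⟨0, 1, -1, fun z => by ring⟩, ?_⟩
    rw [h1, image_id]
    rintro z ⟨z1, z2, z3, z4, -⟩ hne
    show z.re - z.im < r0.re - r0.im
    rw [hre, ← h']
    by_contra hcon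
    apply hne
    apply Complex.ext
    · show z.re = r0.re
      linarith
    · show z.im = r0.im
      linarith
  -- inside a side
  obtain ⟨η, hη, hη1, hη2⟩ : ∃ h : ℝ, 0 < h ∧ r0.im + h < L ∧ -L < r0.im - h := by
    refine ⟨min (L - r0.im) (L + r0.im) / 2, ?_, ?_, ?_⟩
    · have : 0 < min (L - r0.im) (L + r0.im) := lt_min (by linarith) (by linarith)
      linarith
    · have := min_le_left (L - r0.im) (L + r0.im)
      linarith
    · have := min_le_right (L - r0.im) (L + r0.im)
      linarith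
  obtain ⟨a, ha⟩ : ∃ a : ℂ, a = r0 - η * Complex.I := ⟨_, rfl⟩
  obtain ⟨c, hc⟩ : ∃ c : ℂ, c = r0 + η * Complex.I := ⟨_, rfl⟩
  obtain ⟨b, hb⟩ : ∃ b : ℂ, b = r0 + 1 := ⟨_, rfl⟩
  have hmid : (a + c) / 2 = r0 := by rw [ha, hc]; ring
  have hca : c - a = 2 * η * Complex.I := by rw [ha, hc]; ring
  have hba : b - a = 1 + η * Complex.I := by rw [ha, hb]; ring
  have hcr : cr (c - a) (b - a) ≠ 0 := by
    rw [hca, hba]
    unfold cr
    simp
    exact hη.ne'
  obtain ⟨g, g1, g2, g3, g4, g5, g6, g7⟩ := exists_ear_move hcr hL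
  refine ⟨g⁻¹, g1.inv, ?_⟩
  have e1 : (g⁻¹ : ℂ ≃ₜ ℂ) r0 = b := by
    rw [← hmid, ← g6]
    exact g.symm_apply_apply b
  rw [e1]
  refine ⟨fun z => z.re, ⟨0, 1, 0, fun z => by ring⟩, ?_⟩
  have hbre : b.re = L + 1 := by rw [hb]; simp [hre]
  rintro z ⟨y, ⟨y1, y2, y3, y4, y5⟩, rfl⟩ hne
  show ((g⁻¹ : ℂ ≃ₜ ℂ) y).re < b.re
  by_cases hk : y ∈ kite a b c L
  · -- in the kite
    have hX := kite_abs hL hk
    obtain ⟨k1, k2⟩ := hk
    have hrep := k_rep hcr y
    rw [hmid, hca] at hrep
    have hb' : b - r0 = 1 := by rw [hb]; ring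
    rw [hb'] at hrep
    have ere : y.re = L + kY a b c y := by
      have := congrArg Complex.re hrep
      simp at this
      rw [this, hre]
    have eim : y.im = r0.im + kX a b c y * η := by
      have := congrArg Complex.im hrep
      simp at this
      rw [this]
    rw [abs_le] at hX
    have him1 : y.im < L := by rw [eim]; nlinarith
    have him2 : -L < y.im := by rw [eim]; nlinarith
    have hre1 : -L < y.re := by
      rw [ere]
      have : 0 ≤ |kX a b c y| := abs_nonneg _
      nlinarith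
    have hreL : y.re = L := by
      rcases y5 with h | h | h | h
      · linarith
      · exact h
      · linarith
      · linarith
    have hY : kY a b c y = 0 := by linarith
    have hyac : y ∈ segment ℝ a c := by
      rw [mem_seg_iff]
      refine ⟨(1 + kX a b c y) / 2, by linarith [hX.1], by linarith [hX.2], ?_⟩
      rw [hca]
      nth_rewrite 1 [hrep]
      rw [hY]
      push_cast
      linear_combination (-1 : ℂ) * ha
    rw [← g7] at hyac
    obtain ⟨y', hy', hyy⟩ := hyac
    have e2 : (g⁻¹ : ℂ ≃ₜ ℂ) y = y' := by rw [← hyy]; exact g.symm_apply_apply y'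
    rw [e2] at hne ⊢
    rw [hbre]
    have haf : IsAf fun z : ℂ => z.re := ⟨0, 1, 0, fun z => by ring⟩
    have are : a.re = L := by rw [ha]; simp [hre]
    have cre : c.re = L := by rw [hc]; simp [hre]
    rcases hy' with h | h
    · obtain ⟨s, s0, s1, rfl⟩ := mem_seg_iff.1 h
      have : (a + (s : ℂ) * (b - a)).re = a.re + s * (b.re - a.re) := haf.line a b s
      rw [this, are, hbre]
      rcases s1.eq_or_lt with rfl | s1
      · exfalso; apply hne; push_cast; ring
      · linarith
    · obtain ⟨s, s0, s1, rfl⟩ := mem_seg_iff.1 h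
      have : (b + (s : ℂ) * (c - b)).re = b.re + s * (c.re - b.re) := haf.line b c s
      rw [this, cre, hbre]
      rcases s0.eq_or_lt with rfl | s0
      · exfalso; apply hne; push_cast; ring
      · linarith
  · have : (g⁻¹ : ℂ ≃ₜ ℂ) y = y := by
      nth_rewrite 1 [← g2 y hk]
      exact g.symm_apply_apply y
    rw [this, hbre]
    linarith

/-- the rotation by a right angle preserves the boundary of the square -/
lemma bump_rot (haff : S_aff) {L : ℝ} {r0 : ℂ} (a : ℂ) (ha : a ≠ 0)
    (hmap : ∀ z ∈ bdS L, a * z ∈ bdS L) (hmap' : ∀ z ∈ bdS L, ∃ y ∈ bdS L, a * y = z)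
    (h : ∃ g : ℂ ≃ₜ ℂ, Nice g ∧ Ext (g (a * r0)) (g '' bdS L)) :
    ∃ g : ℂ ≃ₜ ℂ, Nice g ∧ Ext (g r0) (g '' bdS L) := by
  obtain ⟨g, h1, h2⟩ := h
  obtain ⟨ρ, r1, r2⟩ := haff a 0 0 (by simpa using ha)
  have hρ : ∀ z, ρ z = a * z := fun z => by rw [r2]; ring
  refine ⟨g * ρ, h1.mul r1, ?_⟩
  have e1 : (g * ρ) r0 = g (a * r0) := by
    show g (ρ r0) = _
    rw [hρ]
  have e2 : (g * ρ) '' bdS L = g '' bdS L := by
    have : ρ '' bdS L = bdS L := by
      apply Subset.antisymm
      · rintro z ⟨y, hy, rfl⟩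
        rw [hρ]
        exact hmap y hy
      · intro z hz
        obtain ⟨y, hy, rfl⟩ := hmap' z hz
        exact ⟨y, hy, hρ y⟩
    show (⇑g ∘ ⇑ρ) '' bdS L = _
    rw [image_comp, this]
  rw [e1, e2]
  exact h2

theorem bump (haff : S_aff) {L : ℝ} (hL : 0 < L) {r0 : ℂ} (hr : r0 ∈ bdS L) :
    ∃ g : ℂ ≃ₜ ℂ, Nice g ∧ Ext (g r0) (g '' bdS L) := by
  obtain ⟨r1, r2, r3, r4, r5⟩ := hr
  rcases r5 with h | h | h | h
  · -- left side
    refine bump_rot haff (-1) (by norm_num) ?_ ?_ (bump1 hL ?_ (by simp [h]))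
    · rintro z ⟨z1, z2, z3, z4, z5⟩
      refine ⟨by simp; linarith, by simp; linarith, by simp; linarith, by simp; linarith, ?_⟩
      rcases z5 with h | h | h | h
      · exact Or.inr (Or.inl (by simp [h]))
      · exact Or.inl (by simp [h])
      · exact Or.inr (Or.inr (Or.inr (by simp [h])))
      · exact Or.inr (Or.inr (Or.inl (by simp [h])))
    · rintro z ⟨z1, z2, z3, z4, z5⟩
      refine ⟨-1 * z, ⟨by simp; linarith, by simp; linarith, by simp; linarith,
        by simp; linarith, ?_⟩, by ring⟩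
      rcases z5 with h | h | h | h
      · exact Or.inr (Or.inl (by simp [h]))
      · exact Or.inl (by simp [h])
      · exact Or.inr (Or.inr (Or.inr (by simp [h])))
      · exact Or.inr (Or.inr (Or.inl (by simp [h])))
    · exact ⟨by simp; linarith, by simp; linarith, by simp; linarith, by simp; linarith,
        Or.inr (Or.inl (by simp [h]))⟩
  · exact bump1 hL ⟨r1, r2, r3, r4, Or.inr (Or.inl h)⟩ h
  · -- lower side
    refine bump_rot haff Complex.I Complex.I_ne_zero ?_ ?_ (bump1 hL ?_ (by simp [h]))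
    · rintro z ⟨z1, z2, z3, z4, z5⟩
      refine ⟨by simp; linarith, by simp; linarith, by simp; linarith, by simp; linarith, ?_⟩
      rcases z5 with h | h | h | h
      · exact Or.inr (Or.inr (Or.inl (by simp [h])))
      · exact Or.inr (Or.inr (Or.inr (by simp [h])))
      · exact Or.inr (Or.inl (by simp [h]))
      · exact Or.inl (by simp [h])
    · rintro z ⟨z1, z2, z3, z4, z5⟩
      refine ⟨-Complex.I * z, ⟨by simp; linarith, by simp; linarith, by simp; linarith,
        by simp; linarith, ?_⟩, by rw [← mul_assoc]; simp⟩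
      rcases z5 with h | h | h | h
      · exact Or.inr (Or.inr (Or.inr (by simp [h])))
      · exact Or.inr (Or.inr (Or.inl (by simp [h])))
      · exact Or.inl (by simp [h])
      · exact Or.inr (Or.inl (by simp [h]))
    · exact ⟨by simp; linarith, by simp; linarith, by simp; linarith, by simp; linarith,
        Or.inr (Or.inl (by simp [h]))⟩
  · -- upper side
    refine bump_rot haff (-Complex.I) (neg_ne_zero.2 Complex.I_ne_zero) ?_ ?_
      (bump1 hL ?_ (by simp [h]))
    · rintro z ⟨z1, z2, z3, z4, z5⟩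
      refine ⟨by simp; linarith, by simp; linarith, by simp; linarith, by simp; linarith, ?_⟩
      rcases z5 with h | h | h | h
      · exact Or.inr (Or.inr (Or.inr (by simp [h])))
      · exact Or.inr (Or.inr (Or.inl (by simp [h])))
      · exact Or.inl (by simp [h])
      · exact Or.inr (Or.inl (by simp [h]))
    · rintro z ⟨z1, z2, z3, z4, z5⟩
      refine ⟨Complex.I * z, ⟨by simp; linarith, by simp; linarith, by simp; linarith,
        by simp; linarith, ?_⟩, by rw [← mul_assoc]; simp⟩
      rcases z5 with h | h | h | h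
      · exact Or.inr (Or.inr (Or.inl (by simp [h])))
      · exact Or.inr (Or.inr (Or.inr (by simp [h])))
      · exact Or.inr (Or.inl (by simp [h]))
      · exact Or.inl (by simp [h])
    · exact ⟨by simp; linarith, by simp; linarith, by simp; linarith, by simp; linarith,
        Or.inr (Or.inl (by simp [h]))⟩

end Pool.Agent.V8H80
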