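import Pool.Agent.Helper22.FC.W1
import Pool.Agent.Helper22.FC.W2
import Pool.Agent.Helper22.FC.T1
import Pool.Agent.Helper22.FC.T2
import Pool.Agent.Helper22.FC.T3
import Pool.Agent.Helper22.FC.T4
import Pool.Agent.Helper22.FC.T5

/-!
Facts about simple polygons, copied from the starting file `Pool/Agent/Helper22/FC/Build.lean`
(which imports much more) (helper80, MP_cbfcf7_gt).
-/

namespace Pool.Agent.V8H80

open Complex Pool.Agent.Helper22.FC

noncomputable section

theorem wndFacts : WndFacts where
  const := wnd_const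
  closed := curve_isClosed
  half := wnd_half
  rot := wnd_rotate
  crot := curve_rotate
  swap := ang_swap
  add := ang_add
  int := wnd_int
  jump := wnd_jump

theorem tri_ne {a b c : ℂ} (h : SimpleL [b, c, a]) : side a b c ≠ 0 := by
  obtain ⟨v, hv, u, hu⟩ := exists_dir [b, c, a] (by simp)
  have hnd := h.2.1
  simp only [List.nodup_cons, List.mem_cons, List.not_mem_nil, or_false, not_or] at hnd
  obtain ⟨⟨hbc, hba⟩, hca, _⟩ := hnd
  have hc1 : side b c a = side a b c := by simp only [side_eq']; ring
  have hc2 : side c a b = side a b c := by simp only [side_eq']; ring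
  simp only [List.mem_cons, List.not_mem_nil, or_false] at hv
  rcases hv with rfl | rfl | rfl
  · refine (near_extreme wndFacts (a := a) (b := v) (c := c) (u := u) (M := []) h ?_).1
    intro w hw
    simp at hw
    rcases hw with rfl | rfl
    · exact hu _ (by simp) (Ne.symm hbc)
    · exact hu _ (by simp) (Ne.symm hba)
  · rw [← hc1]
    have h' : SimpleL [v, a, b] := h.rotate 1
    refine (near_extreme wndFacts (a := b) (b := v) (c := a) (u := u) (M := []) h' ?_).1
    intro w hw
    simp at hw
    rcases hw with rfl | rfl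
    · exact hu _ (by simp) (Ne.symm hca)
    · exact hu _ (by simp) hbc
  · rw [← hc2]
    have h' : SimpleL [v, b, c] := h.rotate 2
    refine (near_extreme wndFacts (a := c) (b := v) (c := b) (u := u) (M := []) h' ?_).1
    intro w hw
    simp at hw
    rcases hw with rfl | rfl
    · exact hu _ (by simp) hba
    · exact hu _ (by simp) hca

theorem tri3 (a b c : ℂ) (h : SimpleL [b, c, a]) (x : ℂ) (hx : x ∉ curve [b, c, a]) :
    wnd x [b, c, a] = 0 ∨
      wnd x [b, c, a] = if 0 < side a b c then 2 * Real.pi else - (2 * Real.pi) := by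
  have hs := tri_ne h
  have hcurve : ∀ p q, (p, q) ∈ cyc [b, c, a] → x ∉ segment ℝ p q := fun p q hpq hx' =>
    hx ⟨(p, q), hpq, hx'⟩
  by_cases hA : side b c x / side a b c < 0
  · exact Or.inl (tri_out wndFacts hs (Or.inl hA))
  by_cases hB : side c a x / side a b c < 0
  · exact Or.inl (tri_out wndFacts hs (Or.inr (Or.inl hB)))
  by_cases hC : side a b x / side a b c < 0
  · exact Or.inl (tri_out wndFacts hs (Or.inr (Or.inr hC)))
  rw [not_lt] at hA hB hC
  have h1 := bary_one (x := x) hs
  have he := bary_eq (x := x) hs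
  rcases hA.eq_or_lt with hA0 | hA0
  · exfalso
    refine hcurve b c (by simp [cyc]) ?_
    refine seg_of_coord0 hB hC (by rw [← hA0] at h1; linarith) ?_
    rw [← hA0] at he
    simpa using he
  rcases hB.eq_or_lt with hB0 | hB0
  · exfalso
    refine hcurve c a (by simp [cyc]) ?_
    refine seg_of_coord0 hC hA (by rw [← hB0] at h1; linarith) ?_
    rw [← hB0] at he
    rw [add_comm]
    simpa using he
  rcases hC.eq_or_lt with hC0 | hC0
  · exfalso
    refine hcurve a b (by simp [cyc]) ?_
    refine seg_of_coord0 hA hB (by rw [← hC0] at h1; linarith) ?_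
    rw [← hC0] at he
    simpa using he
  have hin := tri_in wndFacts hs (x := x) ⟨hA0, hB0, hC0⟩
  right
  split_ifs with hpos
  · exact hin.1 hpos
  · exact hin.2 (lt_of_le_of_ne (not_lt.1 hpos) hs)

theorem simple_good' {V : List ℂ} (hV : SimpleL V) :
    ∃ s : ℝ, (s = 1 ∨ s = -1) ∧ (∀ x, x ∉ curve V → wnd x V = 0 ∨ wnd x V = 2 * Real.pi * s) ∧
      (s = 1 → Good V) :=
  simple_good wnd_rotate curve_rotate tri3 (fun h hu => (near_extreme wndFacts h hu).1)
    (fun h hM hs => ear_or_diag h hM hs)
    (fun hM hV hu h2 hT hs _ hs1 hw => ear_values wndFacts hM hV hu h2 hT hs hs1 hw)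
    (fun hV hu h1 h2 hd hsub _ _ hs1 hs2 hw1 hw2 =>
      split_values wndFacts (fun h hu => near_extreme wndFacts h hu) hV hu h1 h2 hd hsub hs1 hs2
        hw1 hw2) hV


end

end Pool.Agent.V8H80
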