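import Pool.Agent.V8H80.KiteB
import Pool.Agent.V8H80.FCx
import Pool.Agent.V8H80.Stm

/-!
Collapsing a simple polygon onto a base edge (helper80, MP_cbfcf7_gt).
-/

set_option autoImplicit false

open Filter Topology Set

namespace Pool.Agent.V8H80

open Pool.Agent.Helper22.FC

lemma pset_pth : ∀ (x y : ℂ) (L : List ℂ),
    pset (x :: y :: L) = {z | ∃ e ∈ pth1329 (x :: y :: L), z ∈ segment ℝ e.1 e.2} := by
  intro x y L
  induction L generalizing x y with
  | nil =>
    ext z
    simp only [pset, pth1329, mem_union, mem_singleton_iff, List.mem_singleton, exists_eq_left,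
      mem_ofPred_eq]
    constructor
    · rintro (h | rfl)
      · exact h
      · exact right_mem_segment ℝ _ _
    · exact Or.inl
  | cons v L ih =>
    have := ih y v
    ext z
    show z ∈ segment ℝ x y ∪ pset (y :: v :: L) ↔ _
    rw [this]
    simp only [pth1329, List.mem_cons, mem_union, mem_ofPred_eq]
    constructor
    · rintro (h | ⟨e, he, hz⟩)
      · exact ⟨(x, y), Or.inl rfl, h⟩
      · exact ⟨e, Or.inr he, hz⟩
    · rintro ⟨e, rfl | he, hz⟩
      · exact Or.inl hz
      · exact Or.inr ⟨e, he, hz⟩

lemma pset_append : ∀ (P : List ℂ) (a c : ℂ) (Q : List ℂ), P.getLast? = some a →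
    Q.head? = some c → pset (P ++ Q) = pset P ∪ segment ℝ a c ∪ pset Q := by
  intro P a c Q hP hQ
  obtain ⟨Q', rfl⟩ : ∃ Q', Q = c :: Q' := by
    cases Q with
    | nil => simp at hQ
    | cons d Q' => simp at hQ; exact ⟨Q', by rw [hQ]⟩
  induction P with
  | nil => simp at hP
  | cons x P ih =>
    cases P with
    | nil =>
      have : x = a := by simpa using hP
      subst this
      show segment ℝ x c ∪ pset (c :: Q') = {x} ∪ segment ℝ x c ∪ pset (c :: Q')
      have : ({x} : Set ℂ) ∪ segment ℝ x c = segment ℝ x c := by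
        apply union_eq_self_of_subset_left
        rintro z rfl
        exact left_mem_segment ℝ _ _
      rw [this]
    | cons y P =>
      have h := ih (by simpa using hP)
      show segment ℝ x y ∪ pset (y :: P ++ c :: Q') = segment ℝ x y ∪ pset (y :: P) ∪ segment ℝ a c ∪ pset (c :: Q')
      rw [h]
      simp only [union_assoc]

lemma side_cr (a b c : ℂ) : side a b c = cr (b - a) (c - a) := by
  unfold side cr
  simp [Complex.mul_im]
  ring

lemma cr_swap (u v : ℂ) : cr u v = - cr v u := by
  unfold cr; ring

lemma side_cr' (a b c : ℂ) : side a b c = - cr (c - a) (b - a) := by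
  rw [side_cr, cr_swap]

/-- the edges of an initial piece of a polygon -/
lemma pth_mem_cyc_left {P Q : List ℂ} {e : ℂ × ℂ} (h : e ∈ pth1329 P) (hP : P ≠ []) :
    e ∈ cyc (P ++ Q) := by
  cases P with
  | nil => exact absurd rfl hP
  | cons x P =>
    rw [List.cons_append, cyc_cons1329]
    clear hP
    induction P generalizing x with
    | nil => simp [pth1329] at h
    | cons y P ih =>
      simp only [pth1329, List.mem_cons] at h
      simp only [List.cons_append, pth1329, List.mem_cons]
      rcases h with h | h
      · exact Or.inl h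
      · right
        have key : ∀ (P : List ℂ) (y : ℂ) (T : List ℂ), e ∈ pth1329 (y :: P) →
            e ∈ pth1329 (y :: (P ++ T)) := by
          intro P
          induction P with
          | nil => intro y T h; simp [pth1329] at h
          | cons v P ih2 =>
            intro y T h
            simp only [pth1329, List.mem_cons] at h
            simp only [List.cons_append, pth1329, List.mem_cons]
            rcases h with h | h
            · exact Or.inl h
            · exact Or.inr (ih2 v T h)
        have := key P y (Q ++ [x]) h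
        simpa using this

lemma pth_mem_append_right {e : ℂ × ℂ} : ∀ (P Q : List ℂ), e ∈ pth1329 Q → e ∈ pth1329 (P ++ Q) := by
  intro P
  induction P with
  | nil => intro Q h; exact h
  | cons x P ih =>
    intro Q h
    have h1 := ih Q h
    cases hPQ : P ++ Q with
    | nil => rw [hPQ] at h1; simp [pth1329] at h1
    | cons y T =>
      rw [hPQ] at h1
      show e ∈ pth1329 (x :: (P ++ Q))
      rw [hPQ]
      simp only [pth1329, List.mem_cons]
      exact Or.inr h1

lemma pth_mem_append_left {e : ℂ × ℂ} : ∀ (P Q : List ℂ), e ∈ pth1329 P → e ∈ pth1329 (P ++ Q) := by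
  intro P
  induction P with
  | nil => intro Q h; simp [pth1329] at h
  | cons x P ih =>
    intro Q h
    cases P with
    | nil => simp [pth1329] at h
    | cons y T =>
      simp only [pth1329, List.mem_cons] at h
      simp only [List.cons_append, pth1329, List.mem_cons]
      rcases h with h | h
      · exact Or.inl h
      · exact Or.inr (by simpa using ih Q h)

lemma pth_mem_cyc {V : List ℂ} {e : ℂ × ℂ} (h : e ∈ pth1329 V) : e ∈ cyc V := by
  have hV : V ≠ [] := by rintro rfl; simp [pth1329] at h
  have := pth_mem_cyc_left (Q := []) h hV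
  rwa [List.append_nil] at this

lemma base_mem_cyc (p q : ℂ) (B : List ℂ) : (q, p) ∈ cyc ([p] ++ B ++ [q]) := by
  have : [p] ++ B ++ [q] = p :: (B ++ [q]) := by simp
  rw [this, cyc_cons1329]
  have e : p :: (B ++ [q] ++ [p]) = (p :: B) ++ [q, p] := by simp
  rw [e]
  exact pth_mem_append_right _ _ (by simp [pth1329])

lemma pth_fst_mem {P : List ℂ} {e : ℂ × ℂ} (h : e ∈ pth1329 P) : e.1 ∈ P ∧ e.2 ∈ P := by
  induction P with
  | nil => simp [pth1329] at h
  | cons x P ih =>
    cases P with
    | nil => simp [pth1329] at h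
    | cons y T =>
      simp only [pth1329, List.mem_cons] at h
      rcases h with rfl | h
      · simp
      · have := ih h
        exact ⟨List.mem_cons_of_mem _ this.1, List.mem_cons_of_mem _ this.2⟩

/-- a set of points fixed by a move -/
lemma image_eq_of_fixed {g : ℂ ≃ₜ ℂ} {S : Set ℂ} (h : ∀ z ∈ S, g z = z) : g '' S = S := by
  ext z
  constructor
  · rintro ⟨w, hw, rfl⟩
    rw [h w hw]; exact hw
  · intro hz
    exact ⟨z, hz, h z hz⟩

theorem collapse (hear : S_ear) : ∀ (n : ℕ) (p q : ℂ) (B : List ℂ), B.length = n + 1 →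
    SimpleL ([p] ++ B ++ [q]) → Good ([p] ++ B ++ [q]) → ∀ S : Set ℂ,
    (∀ a b c : ℂ, a ∈ [p] ++ B ++ [q] → b ∈ B → c ∈ [p] ++ B ++ [q] → cr (c - a) (b - a) ≠ 0 →
      ∃ η₀ : ℝ, 0 < η₀ ∧ ∀ η : ℝ, 0 < η → η ≤ η₀ → kite a b c η ⊆ S) →
    ∃ θ : ℂ ≃ₜ ℂ, Nice θ ∧ (∀ z, z ∉ S → θ z = z) ∧ θ p = p ∧ θ q = q ∧
      θ '' pset ([p] ++ B ++ [q]) = segment ℝ p q := by
  intro n
  induction n with
  | zero =>
    intro p q B hB hV hG S hS
    obtain ⟨b, rfl⟩ : ∃ b, B = [b] := List.length_eq_one_iff.1 (by simpa using hB)
    have hne : cr (q - p) (b - p) ≠ 0 := by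
      have h1 : side q p b ≠ 0 := tri_ne (a := q) (b := p) (c := b) hV
      have h2 : side q p b = side p b q := by simp only [side_eq']; ring
      rw [h2, side_cr'] at h1
      intro h
      rw [h] at h1
      simp at h1
    obtain ⟨η₀, hη₀, hk⟩ := hS p b q (by simp) (by simp) (by simp) hne
    obtain ⟨θ, h1, h2, h3, h4, h5, h6, h7⟩ := exists_ear_move hne hη₀
    refine ⟨θ, h1, fun z hz => h2 z fun hz' => hz (hk η₀ hη₀ le_rfl hz'), h4, h5, ?_⟩
    rw [← h7]
    congr 1
    show segment ℝ p b ∪ (segment ℝ b q ∪ {q}) = _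
    have : segment ℝ b q ∪ ({q} : Set ℂ) = segment ℝ b q := by
      apply union_eq_self_of_subset_right
      rintro z rfl
      exact right_mem_segment ℝ _ _
    rw [this]
  | succ n ih =>
    intro p q B hB hV hG S hS
    obtain ⟨B₁, B₂, a, b, c, hBB, ha, hc, hside, hV', hG', hedge⟩ := hear p q B hV hG (by omega)
    have hne : cr (c - a) (b - a) ≠ 0 := by
      rw [side_cr'] at hside
      intro h
      rw [h] at hside
      simp at hside
    have haP : a ∈ p :: B₁ := List.mem_of_getLast? ha
    have hcQ : c ∈ B₂ ++ [q] := List.mem_of_mem_head? hc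
    have haV : a ∈ [p] ++ B ++ [q] := by
      rw [hBB]
      simp only [List.mem_cons] at haP
      simp only [List.mem_append, List.mem_cons, List.not_mem_nil, or_false]
      tauto
    have hcV : c ∈ [p] ++ B ++ [q] := by
      rw [hBB]
      simp only [List.mem_append, List.mem_cons, List.not_mem_nil, or_false] at hcQ ⊢
      tauto
    have hbB : b ∈ B := by rw [hBB]; simp
    obtain ⟨η₁, hη₁, hk₁⟩ := hS a b c haV hbB hcV hne
    obtain ⟨η₂, hη₂, hk₂⟩ := thin_list hne ((cyc ([p] ++ B ++ [q])).filter
      (fun e => e ≠ (a, b) ∧ e ≠ (b, c))) (by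
        intro e he
        rw [List.mem_filter] at he
        simp only [decide_eq_true_eq] at he
        exact hedge e he.1 he.2.1 he.2.2)
    obtain ⟨η, hη, hηa, hηb⟩ : ∃ η : ℝ, 0 < η ∧ η ≤ η₁ ∧ η ≤ η₂ :=
      ⟨min η₁ η₂, lt_min hη₁ hη₂, min_le_left _ _, min_le_right _ _⟩
    obtain ⟨g, g1, g2, g3, g4, g5, g6, g7⟩ := exists_ear_move hne hη
    -- the other edges are fixed
    have hfix : ∀ e ∈ cyc ([p] ++ B ++ [q]), e ≠ (a, b) → e ≠ (b, c) →
        ∀ z ∈ segment ℝ e.1 e.2, g z = z := by
      intro e he h1 h2 z hz
      by_cases hzk : z ∈ kite a b c η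
      · have := hk₂ η hη hηb e (by
          rw [List.mem_filter]
          simp only [decide_eq_true_eq]
          exact ⟨he, h1, h2⟩) ⟨hz, hzk⟩
        rcases this with rfl | this
        · exact g4
        · rw [mem_singleton_iff] at this
          subst this
          exact g5
      · exact g2 z hzk
    have hnd : ([p] ++ B ++ [q]).Nodup := hV.2.1
    rw [hBB] at hnd
    have hbP : b ∉ p :: B₁ := by
      intro h
      have e : [p] ++ (B₁ ++ [b] ++ B₂) ++ [q] = (p :: B₁) ++ (b :: (B₂ ++ [q])) := by simp
      rw [e, List.nodup_append] at hnd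
      exact hnd.2.2 b h b (by simp) rfl
    have hbQ : b ∉ B₂ ++ [q] := by
      intro h
      have e : [p] ++ (B₁ ++ [b] ++ B₂) ++ [q] = (p :: B₁) ++ (b :: (B₂ ++ [q])) := by simp
      rw [e, List.nodup_append] at hnd
      have := hnd.2.1
      rw [List.nodup_cons] at this
      exact this.1 h
    have eV : [p] ++ B ++ [q] = (p :: B₁) ++ ([b] ++ (B₂ ++ [q])) := by rw [hBB]; simp
    have hp : g p = p := by
      refine hfix (q, p) (base_mem_cyc p q B) ?_ ?_ p (right_mem_segment ℝ _ _)
      · intro h
        have : p = b := congrArg Prod.snd h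
        exact hbP (by rw [this]; simp)
      · intro h
        have : q = b := congrArg Prod.fst h
        exact hbQ (by rw [this]; simp)
    have hq : g q = q := by
      refine hfix (q, p) (base_mem_cyc p q B) ?_ ?_ q (left_mem_segment ℝ _ _)
      · intro h
        have : p = b := congrArg Prod.snd h
        exact hbP (by rw [this]; simp)
      · intro h
        have : q = b := congrArg Prod.fst h
        exact hbQ (by rw [this]; simp)
    have hP : g '' pset (p :: B₁) = pset (p :: B₁) := by
      apply image_eq_of_fixed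
      intro z hz
      cases hB1 : B₁ with
      | nil =>
        rw [hB1] at hz
        have : z = p := by simpa [pset] using hz
        rw [this]; exact hp
      | cons y T =>
        rw [hB1, pset_pth] at hz
        obtain ⟨e, he, hz⟩ := hz
        rw [← hB1] at he
        refine hfix e ?_ ?_ ?_ z hz
        · rw [eV]
          exact pth_mem_cyc (pth_mem_append_left _ _ he)
        · rintro rfl
          exact hbP (pth_fst_mem he).2
        · rintro rfl
          exact hbP (pth_fst_mem he).1
    have hQ : g '' pset (B₂ ++ [q]) = pset (B₂ ++ [q]) := by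
      apply image_eq_of_fixed
      intro z hz
      cases hB2 : B₂ with
      | nil =>
        rw [hB2] at hz
        have : z = q := by simpa [pset] using hz
        rw [this]; exact hq
      | cons y T =>
        obtain ⟨v, T', hT⟩ : ∃ v T', T ++ [q] = v :: T' := by
          cases T with
          | nil => exact ⟨q, [], rfl⟩
          | cons v T' => exact ⟨v, T' ++ [q], rfl⟩
        have e2 : B₂ ++ [q] = y :: v :: T' := by rw [hB2, List.cons_append, hT]
        rw [e2, pset_pth, ← e2] at hz
        obtain ⟨e, he, hz⟩ := hz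
        refine hfix e ?_ ?_ ?_ z hz
        · rw [eV]
          exact pth_mem_cyc (pth_mem_append_right _ _ (pth_mem_append_right _ _ he))
        · rintro rfl
          exact hbQ (pth_fst_mem he).2
        · rintro rfl
          exact hbQ (pth_fst_mem he).1
    have e1 : pset ([p] ++ B ++ [q]) = pset (p :: B₁) ∪ (segment ℝ a b ∪ segment ℝ b c) ∪
        pset (B₂ ++ [q]) := by
      rw [eV, pset_append (p :: B₁) a b _ ha (by simp), pset_append [b] b c (B₂ ++ [q]) (by simp) hc]
      have : pset [b] ∪ segment ℝ b c = segment ℝ b c := by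
        apply union_eq_self_of_subset_left
        intro z hz
        have : z = b := by simpa [pset] using hz
        rw [this]
        exact left_mem_segment ℝ _ _
      rw [this]
      simp only [union_assoc]
    have e2 : pset ([p] ++ (B₁ ++ B₂) ++ [q]) = pset (p :: B₁) ∪ segment ℝ a c ∪
        pset (B₂ ++ [q]) := by
      have : [p] ++ (B₁ ++ B₂) ++ [q] = (p :: B₁) ++ (B₂ ++ [q]) := by simp
      rw [this, pset_append (p :: B₁) a c _ ha hc]
    have e3 : g '' pset ([p] ++ B ++ [q]) = pset ([p] ++ (B₁ ++ B₂) ++ [q]) := by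
      rw [e1, e2, image_union, image_union, g7, hP, hQ]
    have hlen : (B₁ ++ B₂).length = n + 1 := by
      have := hB
      rw [hBB] at this
      simp only [List.length_append, List.length_cons, List.length_nil] at this ⊢
      omega
    obtain ⟨θ, t1, t2, t3, t4, t5⟩ := ih p q (B₁ ++ B₂) hlen hV' hG' S (by
      intro a' b' c' ha' hb' hc' hn
      have sub : ∀ v, v ∈ [p] ++ (B₁ ++ B₂) ++ [q] → v ∈ [p] ++ B ++ [q] := by
        intro v hv
        rw [hBB]
        simp only [List.mem_append, List.mem_cons, List.not_mem_nil, or_false] at hv ⊢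
        tauto
      refine hS a' b' c' (sub _ ha') ?_ (sub _ hc') hn
      rw [hBB]
      simp only [List.mem_append, List.mem_cons, List.not_mem_nil, or_false] at hb' ⊢
      tauto)
    refine ⟨θ * g, t1.mul g1, fun z hz => ?_, ?_, ?_, ?_⟩
    · show θ (g z) = z
      rw [g2 z fun h => hz (hk₁ η hη hηa h), t2 z hz]
    · show θ (g p) = p
      rw [hp, t3]
    · show θ (g q) = q
      rw [hq, t4]
    · have : ⇑(θ * g) = ⇑θ ∘ ⇑g := rfl
      rw [this, image_comp, e3, t5]

end Pool.Agent.V8H80
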