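import Pool.Agent.V8H80.Head

/-!
Straightening a crosscut of a parallelogram (helper80, MP_cbfcf7_gt).
-/

set_option autoImplicit false

open Set Topology Filter

namespace Pool.Agent.V8H80

/-- affine coordinates, the second one is constant in the direction `w` -/
structure Crd (u v : ℂ → ℝ) (w : ℂ) : Prop where
  hu : IsAf u
  hv : IsAf v
  sh : ∀ (z : ℂ) (s : ℝ), u (z + s * w) = u z + s ∧ v (z + s * w) = v z
  bd : ∀ x0 x1 y0 y1 : ℝ, IsCompact {z | x0 ≤ u z ∧ u z ≤ x1 ∧ y0 ≤ v z ∧ v z ≤ y1}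

lemma isCompact_rect (x0 x1 y0 y1 : ℝ) :
    IsCompact {z : ℂ | x0 ≤ z.re ∧ z.re ≤ x1 ∧ y0 ≤ z.im ∧ z.im ≤ y1} := by
  have h1 : {z : ℂ | x0 ≤ z.re ∧ z.re ≤ x1 ∧ y0 ≤ z.im ∧ z.im ≤ y1} =
      Icc x0 x1 ×ℂ Icc y0 y1 := by
    ext z
    simp only [Complex.mem_reProdIm, mem_Icc]
    show (_ ∧ _ ∧ _ ∧ _) ↔ _
    tauto
  rw [h1]
  exact isCompact_Icc.reProdIm isCompact_Icc

lemma crd_one : Crd (fun z => z.re) (fun z => z.im) 1 where
  hu := ⟨0, 1, 0, fun z => by ring⟩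
  hv := ⟨0, 0, 1, fun z => by ring⟩
  sh := fun z s => by simp
  bd := fun x0 x1 y0 y1 => isCompact_rect x0 x1 y0 y1

lemma crd_I : Crd (fun z => z.im) (fun z => z.re) Complex.I where
  hu := ⟨0, 0, 1, fun z => by ring⟩
  hv := ⟨0, 1, 0, fun z => by ring⟩
  sh := fun z s => by simp
  bd := fun x0 x1 y0 y1 => by
    have := isCompact_rect y0 y1 x0 x1
    have e : {z : ℂ | x0 ≤ z.im ∧ z.im ≤ x1 ∧ y0 ≤ z.re ∧ z.re ≤ y1} =
        {z : ℂ | y0 ≤ z.re ∧ z.re ≤ y1 ∧ x0 ≤ z.im ∧ z.im ≤ x1} := by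
      ext z
      show (_ ∧ _ ∧ _ ∧ _) ↔ (_ ∧ _ ∧ _ ∧ _)
      tauto
    rw [e]
    exact this

variable {u v : ℂ → ℝ} {w : ℂ} {x0 x1 y0 y1 : ℝ}

/-- the parallelogram -/
def pg (u v : ℂ → ℝ) (x0 x1 y0 y1 : ℝ) : Set ℂ := {z | x0 ≤ u z ∧ u z ≤ x1 ∧ y0 ≤ v z ∧ v z ≤ y1}

lemma pg_convex (hu : IsAf u) (hv : IsAf v) : Convex ℝ (pg u v x0 x1 y0 y1) := by
  intro x hx y hy a b ha hb hab
  obtain ⟨h1, h2, h3, h4⟩ := hx
  obtain ⟨k1, k2, k3, k4⟩ := hy
  show x0 ≤ u _ ∧ u _ ≤ x1 ∧ y0 ≤ v _ ∧ v _ ≤ y1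
  rw [hu.comb _ _ _ _ hab, hv.comb _ _ _ _ hab]
  have lo : ∀ m s t : ℝ, m ≤ s → m ≤ t → m ≤ a * s + b * t := by
    intro m s t h h'
    have e : m = a * m + b * m := by rw [← add_mul, hab, one_mul]
    rw [e]
    exact add_le_add (mul_le_mul_of_nonneg_left h ha) (mul_le_mul_of_nonneg_left h' hb)
  have hi : ∀ m s t : ℝ, s ≤ m → t ≤ m → a * s + b * t ≤ m := by
    intro m s t h h'
    have e : m = a * m + b * m := by rw [← add_mul, hab, one_mul]
    rw [e]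
    exact add_le_add (mul_le_mul_of_nonneg_left h ha) (mul_le_mul_of_nonneg_left h' hb)
  exact ⟨lo _ _ _ h1 k1, hi _ _ _ h2 k2, lo _ _ _ h3 k3, hi _ _ _ h4 k4⟩

lemma pg_int (hu : IsAf u) (hv : IsAf v) {z : ℂ} (h1 : x0 < u z) (h2 : u z < x1) (h3 : y0 < v z)
    (h4 : v z < y1) : z ∈ interior (pg u v x0 x1 y0 y1) := by
  have hs : {z | x0 < u z ∧ u z < x1 ∧ y0 < v z ∧ v z < y1} ⊆ pg u v x0 x1 y0 y1 :=
    fun z hz => ⟨hz.1.le, hz.2.1.le, hz.2.2.1.le, hz.2.2.2.le⟩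
  have ho : IsOpen {z | x0 < u z ∧ u z < x1 ∧ y0 < v z ∧ v z < y1} := by
    apply (isOpen_lt continuous_const hu.cont).inter
    apply (isOpen_lt hu.cont continuous_const).inter
    exact (isOpen_lt continuous_const hv.cont).inter (isOpen_lt hv.cont continuous_const)
  exact interior_maximal hs ho ⟨h1, h2, h3, h4⟩

/-- the push -/
lemma exists_push (hc : Crd u v w) {p q : ℂ} {β : Set ℂ} (hβ : Arc β p q) {xe : ℝ}
    (hx0 : x0 < xe) (hx1 : xe < x1) (hy : y0 < y1) (hpu : u p = xe) (hpv : v p = y0)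
    (hqu : u q = xe) (hqv : v q = y1)
    (hin : ∀ z ∈ β, z ≠ p → z ≠ q → x0 < u z ∧ u z < x1 ∧ y0 < v z ∧ v z < y1) :
    ∃ μ : ℂ ≃ₜ ℂ, Nice μ ∧ (∀ z, ¬ (x0 < u z ∧ u z < x1 ∧ y0 < v z ∧ v z < y1) → μ z = z) ∧
      ∀ z ∈ β, z ≠ p → z ≠ q → xe < u (μ z) := by
  have hall : ∀ z ∈ β, x0 < u z ∧ u z < x1 ∧ y0 ≤ v z ∧ v z ≤ y1 := by
    intro z hz
    by_cases h1 : z = p
    · subst h1; rw [hpu, hpv]; exact ⟨hx0, hx1, le_rfl, hy.le⟩
    by_cases h2 : z = q
    · subst h2; rw [hqu, hqv]; exact ⟨hx0, hx1, hy.le, le_rfl⟩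
    obtain ⟨k1, k2, k3, k4⟩ := hin z hz h1 h2
    exact ⟨k1, k2, k3.le, k4.le⟩
  obtain ⟨C0, hC0, hC0'⟩ := hβ.cone hc.hu hc.hv (by
    intro z hz hzp
    rw [hpv]
    by_cases h2 : z = q
    · subst h2; rw [hqv]; exact hy
    · exact (hin z hz hzp h2).2.2.1)
  obtain ⟨C1, hC1, hC1'⟩ := hβ.symm.cone hc.hu (v := fun z => (-1) * v z) (hc.hv.smul (-1)) (by
    intro z hz hzq
    show (-1) * v q < (-1) * v z
    rw [hqv]
    by_cases h2 : z = p
    · subst h2; rw [hpv]; linarith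
    · have := (hin z hz h2 hzq).2.2.2
      linarith)
  obtain ⟨m, hmβ, hm⟩ := hβ.isCompact.exists_isMinOn ⟨p, hβ.left_mem⟩ hc.hu.cont.continuousOn
  have hm0 : 0 < u m - x0 := by have := (hall m hmβ).1; linarith
  obtain ⟨C2, hC2, hC2'⟩ : ∃ C2 : ℝ, 0 < C2 ∧ ∀ z ∈ β, xe - u z < C2 * (u z - x0) := by
    refine ⟨(xe - x0) / (u m - x0) + 1, by have : 0 < xe - x0 := by linarith
                                           positivity, fun z hz => ?_⟩
    have h1 : u m ≤ u z := hm hz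
    have h2 : 0 < (xe - x0) / (u m - x0) := by
      apply div_pos <;> linarith
    have h3 : (xe - x0) / (u m - x0) * (u m - x0) = xe - x0 := by field_simp
    nlinarith
  obtain ⟨C, hC, hCC0, hCC1, hCC2⟩ : ∃ C : ℝ, 0 < C ∧ C0 < C ∧ C1 < C ∧ C2 ≤ C := by
    refine ⟨C0 + C1 + C2, by positivity, by linarith, by linarith, by linarith⟩
  obtain ⟨c0, hc0, hc1, hc2⟩ : ∃ c0 : ℝ, 0 < c0 ∧ c0 < 1 ∧ xe - x0 < c0 * (x1 - x0) := by
    refine ⟨1 - (x1 - xe) / (2 * (x1 - x0)), ?_, ?_, ?_⟩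
    · have : (x1 - xe) / (2 * (x1 - x0)) < 1 := by
        rw [div_lt_one (by linarith)]; linarith
      linarith
    · have : 0 < (x1 - xe) / (2 * (x1 - x0)) := by
        apply div_pos <;> linarith
      linarith
    · have : (x1 - xe) / (2 * (x1 - x0)) * (x1 - x0) = (x1 - xe) / 2 := by
        have : x1 - x0 ≠ 0 := by linarith
        field_simp
      nlinarith
  set A : Fin 4 → ℂ → ℝ := ![fun z => C * (v z - y0), fun z => C * (y1 - v z),
    fun z => C * (u z - x0), fun z => c0 * (x1 - u z)] with hA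
  have hA0 : ∀ z, A 0 z = C * (v z - y0) := fun z => rfl
  have hA1 : ∀ z, A 1 z = C * (y1 - v z) := fun z => rfl
  have hA2 : ∀ z, A 2 z = C * (u z - x0) := fun z => rfl
  have hA3 : ∀ z, A 3 z = c0 * (x1 - u z) := fun z => rfl
  have hpos : ∀ z, (x0 < u z ∧ u z < x1 ∧ y0 < v z ∧ v z < y1) → ∀ i, 0 < A i z := by
    rintro z ⟨h1, h2, h3, h4⟩ i
    fin_cases i
    · show 0 < C * (v z - y0)
      exact mul_pos hC (by linarith)
    · show 0 < C * (y1 - v z)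
      exact mul_pos hC (by linarith)
    · show 0 < C * (u z - x0)
      exact mul_pos hC (by linarith)
    · show 0 < c0 * (x1 - u z)
      exact mul_pos hc0 (by linarith)
  have hzero : ∀ z, ¬ (x0 < u z ∧ u z < x1 ∧ y0 < v z ∧ v z < y1) → quad A z = 0 := by
    intro z hz
    apply quad_zero
    rw [not_and_or, not_and_or, not_and_or, not_lt, not_lt, not_lt, not_lt] at hz
    rcases hz with h | h | h | h
    · exact ⟨2, by rw [hA2]; exact mul_nonpos_of_nonneg_of_nonpos hC.le (by linarith)⟩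
    · exact ⟨3, by rw [hA3]; exact mul_nonpos_of_nonneg_of_nonpos hc0.le (by linarith)⟩
    · exact ⟨0, by rw [hA0]; exact mul_nonpos_of_nonneg_of_nonpos hC.le (by linarith)⟩
    · exact ⟨1, by rw [hA1]; exact mul_nonpos_of_nonneg_of_nonpos hC.le (by linarith)⟩
  obtain ⟨μ, h1, h2⟩ := nice_quad (w := w) (A := A) (by
    intro i
    fin_cases i
    · exact (hc.hv.sub (IsAf.const y0)).smul C
    · exact ((IsAf.const y1).sub hc.hv).smul C
    · exact (hc.hu.sub (IsAf.const x0)).smul C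
    · exact ((IsAf.const x1).sub hc.hu).smul c0) ![0, 0, C, -c0] (by
    intro i z s
    obtain ⟨e1, e2⟩ := hc.sh z s
    fin_cases i
    · show C * (v (z + s * w) - y0) = C * (v z - y0) + s * 0
      rw [e2]; ring
    · show C * (y1 - v (z + s * w)) = C * (y1 - v z) + s * 0
      rw [e2]; ring
    · show C * (u (z + s * w) - x0) = C * (u z - x0) + s * C
      rw [e1]; ring
    · show c0 * (x1 - u (z + s * w)) = c0 * (x1 - u z) + s * (-c0)
      rw [e1]; ring) (by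
    intro i
    fin_cases i
    · show (0 : ℝ) < 1 + 0
      norm_num
    · show (0 : ℝ) < 1 + 0
      norm_num
    · show (0 : ℝ) < 1 + C
      positivity
    · show (0 : ℝ) < 1 + -c0
      linarith) (by
    refine HasCompactSupport.intro (hc.bd x0 x1 y0 y1) fun z hz => hzero z fun h => hz ?_
    exact ⟨h.1.le, h.2.1.le, h.2.2.1.le, h.2.2.2.le⟩)
  refine ⟨μ, h1, fun z hz => ?_, fun z hz hzp hzq => ?_⟩
  · rw [h2, hzero z hz]; simp
  · have hzin := hin z hz hzp hzq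
    have hq := quad_pos_of (hpos z hzin)
    rw [h2, (hc.sh z _).1]
    by_cases hxe : xe < u z
    · linarith
    push Not at hxe
    obtain ⟨k1, k2, k3, k4⟩ := hzin
    rcases quad_spec (A := A) (z := z) with ⟨h3, -⟩ | ⟨h3, h4, i, hi⟩
    · rw [h3] at hq; exact absurd hq (lt_irrefl _)
    rw [← hi]
    have g0 : xe - u z < A 0 z := by
      rw [hA0]
      have := hC0' z hz
      rw [hpu, hpv] at this
      nlinarith
    have g1 : xe - u z < A 1 z := by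
      rw [hA1]
      have : u q - u z ≤ C1 * ((-1) * v z - (-1) * v q) := hC1' z hz
      rw [hqu, hqv] at this
      nlinarith
    have g2 : xe - u z < A 2 z := by
      rw [hA2]
      have := hC2' z hz
      nlinarith
    have g3 : xe - u z < A 3 z := by
      rw [hA3]
      nlinarith
    have : ∀ i, xe - u z < A i z := by
      intro i
      fin_cases i
      · exact g0
      · exact g1
      · exact g2
      · exact g3
    linarith [this i]

/-- P: straightening a crosscut -/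
theorem cross (hear : S_ear) (hc : Crd u v w) {p q : ℂ} {β : Set ℂ} (hβ : Arc β p q) {xe : ℝ}
    (hx0 : x0 < xe) (hx1 : xe < x1) (hy : y0 < y1) (hpu : u p = xe) (hpv : v p = y0)
    (hqu : u q = xe) (hqv : v q = y1)
    (hin : ∀ z ∈ β, z ≠ p → z ≠ q → x0 < u z ∧ u z < x1 ∧ y0 < v z ∧ v z < y1) :
    ∃ θ : ℂ ≃ₜ ℂ, Nice θ ∧ (∀ z, z ∉ pg u v x0 x1 y0 y1 → θ z = z) ∧ θ p = p ∧ θ q = q ∧
      θ '' β = segment ℝ p q := by
  obtain ⟨μ, h1, h2, h3⟩ := exists_push hc hβ hx0 hx1 hy hpu hpv hqu hqv hin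
  have hμp : μ p = p := h2 p (by rw [hpv]; simp)
  have hμq : μ q = q := h2 q (by rw [hqv]; simp)
  have hβ' : Arc (μ '' β) p q := by
    have := h1.poly β p q hβ
    rwa [hμp, hμq] at this
  have hμin : ∀ z, (x0 < u z ∧ u z < x1 ∧ y0 < v z ∧ v z < y1) →
      (x0 < u (μ z) ∧ u (μ z) < x1 ∧ y0 < v (μ z) ∧ v (μ z) < y1) := by
    intro z hz
    by_contra hcon
    have e1 := h2 _ hcon
    have e2 := μ.injective e1
    rw [e2] at hcon
    exact hcon hz
  have hpq : p ≠ q := hβ'.ne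
  obtain ⟨θ, g1, g2, g3, g4, g5⟩ := collapse_arc hear hβ' (by
    rintro z ⟨hz1, ⟨y, hy1, rfl⟩⟩
    by_contra hcon
    have hyp : y ≠ p := by
      rintro rfl
      exact hcon (Or.inl hμp)
    have hyq : y ≠ q := by
      rintro rfl
      exact hcon (Or.inr hμq)
    have e1 := h3 y hy1 hyp hyq
    obtain ⟨t, ht0, ht1, e2⟩ := mem_seg_iff.1 hz1
    rw [e2, hc.hu.line, hpu, hqu] at e1
    linarith) (S := pg u v x0 x1 y0 y1)
    (T := {z | x0 < u z ∧ u z < x1 ∧ y0 < v z ∧ v z < y1} ∪ {p, q}) (by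
    rintro z ⟨y, hy1, rfl⟩
    by_cases hyp : y = p
    · right; left; rw [hyp]; exact hμp
    by_cases hyq : y = q
    · right; right; rw [hyq]; exact hμq
    left
    exact hμin y (hin y hy1 hyp hyq)) (by
    intro a b c ha hb hbp hbq hc' hcr
    have hP : p ∈ pg u v x0 x1 y0 y1 := by
      refine ⟨?_, ?_, ?_, ?_⟩
      · rw [hpu]; exact hx0.le
      · rw [hpu]; exact hx1.le
      · rw [hpv]
      · rw [hpv]; exact hy.le
    have hQ : q ∈ pg u v x0 x1 y0 y1 := by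
      refine ⟨?_, ?_, ?_, ?_⟩
      · rw [hqu]; exact hx0.le
      · rw [hqu]; exact hx1.le
      · rw [hqv]; exact hy.le
      · rw [hqv]
    have hsub : ∀ z ∈ {z | x0 < u z ∧ u z < x1 ∧ y0 < v z ∧ v z < y1} ∪ ({p, q} : Set ℂ),
        z ∈ pg u v x0 x1 y0 y1 := by
      rintro z (hz | rfl | rfl)
      · exact ⟨hz.1.le, hz.2.1.le, hz.2.2.1.le, hz.2.2.2.le⟩
      · exact hP
      · exact hQ
    have hbin : b ∈ interior (pg u v x0 x1 y0 y1) := by
      rcases hb with hb | rfl | rfl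
      · exact pg_int hc.hu hc.hv hb.1 hb.2.1 hb.2.2.1 hb.2.2.2
      · exact absurd rfl hbp
      · exact absurd rfl hbq
    have hac : a ≠ c := by
      rintro rfl
      apply hcr
      simp [cr]
    apply kite_convex hcr (pg_convex hc.hu hc.hv) (hsub a ha) (hsub c hc') hbin
    have ha' := hsub a ha
    have hc'' := hsub c hc'
    obtain ⟨a1, a2, a3, a4⟩ := ha'
    obtain ⟨c1, c2, c3, c4⟩ := hc''
    have hmid : ∀ a c : ℂ, a ∈ {z | x0 < u z ∧ u z < x1 ∧ y0 < v z ∧ v z < y1} →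
        c ∈ pg u v x0 x1 y0 y1 → (a + c) / 2 ∈ interior (pg u v x0 x1 y0 y1) := by
      rintro a c ⟨a1, a2, a3, a4⟩ ⟨c1, c2, c3, c4⟩
      apply pg_int hc.hu hc.hv
      · rw [hc.hu.mid]; linarith
      · rw [hc.hu.mid]; linarith
      · rw [hc.hv.mid]; linarith
      · rw [hc.hv.mid]; linarith
    have hpqm : (p + q) / 2 ∈ interior (pg u v x0 x1 y0 y1) := by
      apply pg_int hc.hu hc.hv
      · rw [hc.hu.mid]; linarith
      · rw [hc.hu.mid]; linarith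
      · rw [hc.hv.mid]; linarith
      · rw [hc.hv.mid]; linarith
    rcases ha with ha | ha
    · exact hmid a c ha (hsub c hc')
    rcases hc' with hc' | hc'
    · rw [add_comm]; exact hmid c a hc' (hsub a (Or.inr ha))
    rcases ha with rfl | rfl <;> rcases hc' with rfl | rfl
    · exact absurd rfl hac
    · exact hpqm
    · rw [add_comm]; exact hpqm
    · exact absurd rfl hac)
  refine ⟨θ * μ, g1.mul h1, fun z hz => ?_, ?_, ?_, ?_⟩
  · show θ (μ z) = z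
    rw [h2 z (fun h => hz ⟨h.1.le, h.2.1.le, h.2.2.1.le, h.2.2.2.le⟩), g2 z hz]
  · show θ (μ p) = p
    rw [hμp, g3]
  · show θ (μ q) = q
    rw [hμq, g4]
  · show (⇑θ ∘ ⇑μ) '' β = _
    rw [image_comp, g5]

end Pool.Agent.V8H80
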