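import Pool.Agent.V8H80.LE

/-!
Splitting arcs, rotating closed chains (helper80, MP_cbfcf7_gt).
-/

set_option autoImplicit false

open Set Topology Filter

namespace Pool.Agent.V8H80

variable {A : Set ℂ} {p q R : ℂ}

theorem Arc.split (h : Arc A p q) (hR : R ∈ A) (hp : R ≠ p) (hq : R ≠ q) :
    ∃ A1 A2 : Set ℂ, Arc A1 p R ∧ Arc A2 R q ∧ A1 ∩ A2 = {R} ∧ A1 ∪ A2 = A := by
  induction h with
  | seg p q h =>
    exact ⟨segment ℝ p R, segment ℝ R q, Arc.seg _ _ hp.symm, Arc.seg _ _ hq, seg_inter h hR,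
      seg_split hR⟩
  | cons p x q A h hA hi ih =>
    by_cases hRx : R = x
    · subst hRx
      exact ⟨segment ℝ p R, A, Arc.seg _ _ h, hA, hi, rfl⟩
    by_cases hRs : R ∈ segment ℝ p x
    · obtain ⟨h1, h2⟩ := head_cut h hi hRs hRx
      refine ⟨segment ℝ p R, segment ℝ R x ∪ A, Arc.seg _ _ hp.symm, ?_, h1, h2⟩
      refine hA.cons' hRx ?_
      rw [← hi]
      exact inter_subset_inter_left _ (seg_sub' hRs)
    · have hRA : R ∈ A := hR.resolve_left hRs
      obtain ⟨A1, A2, h1, h2, h3, h4⟩ := ih hRA hRx hq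
      have hx2 : x ∉ A2 := by
        intro hx
        have : x ∈ A1 ∩ A2 := ⟨h1.left_mem, hx⟩
        rw [h3] at this
        exact hRx this.symm
      refine ⟨segment ℝ p x ∪ A1, A2, h1.cons' h ?_, h2, ?_, ?_⟩
      · rw [← hi]
        refine inter_subset_inter_right _ ?_
        rw [← h4]
        exact subset_union_left
      · rw [union_inter_distrib_right, h3]
        apply Subset.antisymm
        · rintro z (⟨hz1, hz2⟩ | hz)
          · exfalso
            have : z ∈ segment ℝ p x ∩ A := ⟨hz1, by rw [← h4]; exact Or.inr hz2⟩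
            rw [hi, mem_singleton_iff] at this
            subst this
            exact hx2 hz2
          · exact hz
        · exact subset_union_right
      · rw [union_assoc, h4]

theorem seg_preconn {p x : ℂ} (h : p ≠ x) : IsPreconnected (segment ℝ p x \ {p}) := by
  have e : segment ℝ p x \ {p} = (fun t : ℝ => p + (t : ℂ) * (x - p)) '' Ioc 0 1 := by
    ext z
    constructor
    · rintro ⟨hz, hzp⟩
      obtain ⟨t, h0, h1, rfl⟩ := mem_seg_iff.1 hz
      refine ⟨t, ⟨?_, h1⟩, rfl⟩
      rcases h0.eq_or_lt with h | h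
      · exfalso
        apply hzp
        rw [← h]
        simp
      · exact h
    · rintro ⟨t, ht, rfl⟩
      refine ⟨mem_seg_iff.2 ⟨t, ht.1.le, ht.2, rfl⟩, ?_⟩
      intro he
      have h1 : (t : ℂ) * (x - p) = 0 := by
        have : p + (t : ℂ) * (x - p) = p := he
        linear_combination this
      rcases mul_eq_zero.1 h1 with h2 | h2
      · have : t = 0 := by exact_mod_cast h2
        exact ht.1.ne' this
      · exact h (sub_eq_zero.1 h2).symm
  rw [e]
  refine isPreconnected_Ioc.image _ ?_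
  fun_prop

theorem Arc.preconn (h : Arc A p q) : IsPreconnected (A \ {p}) := by
  cases h with
  | seg p q h => exact seg_preconn h
  | cons p x q K h hK hi =>
    have hp := head_notMem h hi
    have e : (segment ℝ p x ∪ K) \ {p} = (segment ℝ p x \ {p}) ∪ K := by
      rw [union_sdiff_distrib]
      congr 1
      exact sdiff_singleton_eq_self hp
    rw [e]
    exact (seg_preconn h).union x ⟨right_mem_segment ℝ _ _, fun e => h e.symm⟩ hK.left_mem
      hK.isConnected.isPreconnected

section

variable {n : ℕ} {A : ℕ → Set ℂ} {r : ℕ → ℂ}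

theorem Cyn.rotate (h : Cyn n A r) {s : ℕ} (hs : s < n) :
    Cyn n (fun i => A ((i + s) % n)) (fun i => r ((i + s) % n)) := by
  obtain ⟨h1, h2, h3⟩ := h
  have hmod : ∀ i, i < n → (i + s < n ∧ (i + s) % n = i + s) ∨
      (n ≤ i + s ∧ (i + s) % n = i + s - n) := by
    intro i hi
    rcases lt_or_ge (i + s) n with h | h
    · exact Or.inl ⟨h, Nat.mod_eq_of_lt h⟩
    · right
      refine ⟨h, ?_⟩
      rw [Nat.mod_eq_sub_mod h, Nat.mod_eq_of_lt (by omega)]
  have hrn : ∀ k, k ≤ n → r (k % n) = r k := by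
    intro k hk
    rcases hk.eq_or_lt with rfl | hk
    · rw [Nat.mod_self, h2]
    · rw [Nat.mod_eq_of_lt hk]
  have hsucc : ∀ i, i < n → r ((i + 1 + s) % n) = r ((i + s) % n + 1) := by
    intro i hi
    have : (i + 1 + s) % n = ((i + s) % n + 1) % n := by
      rw [Nat.mod_add_mod]
      congr 1
      ring
    rw [this]
    apply hrn
    have := Nat.mod_lt (i + s) (show 0 < n by omega)
    omega
  refine ⟨?_, ?_, ?_⟩
  · intro i hi
    show Arc (A ((i + s) % n)) (r ((i + s) % n)) (r ((i + 1 + s) % n))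
    rw [hsucc i hi]
    exact h1 _ (Nat.mod_lt _ (by omega))
  · show r ((n + s) % n) = r ((0 + s) % n)
    simp
  · intro i j hij hj z hz1 hz2
    have hz1' : z ∈ A ((i + s) % n) := hz1
    have hz2' : z ∈ A ((j + s) % n) := hz2
    show (j = i + 1 ∧ z = r ((j + s) % n)) ∨ (i = 0 ∧ j + 1 = n ∧ z = r ((0 + s) % n))
    rw [zero_add, Nat.mod_eq_of_lt hs]
    rcases hmod i (by omega) with ⟨a1, a2⟩ | ⟨a1, a2⟩ <;>
      rcases hmod j hj with ⟨b1, b2⟩ | ⟨b1, b2⟩ <;> rw [a2] at hz1' <;> rw [b2] at hz2' ⊢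
    · rcases h3 _ _ (by omega) b1 z hz1' hz2' with ⟨c1, c2⟩ | ⟨c1, c2, c3⟩
      · left
        exact ⟨by omega, c2⟩
      · right
        refine ⟨by omega, by omega, ?_⟩
        rw [c3]
        congr 1
        omega
    · rcases h3 _ _ (by omega) a1 z hz2' hz1' with ⟨c1, c2⟩ | ⟨c1, c2, c3⟩
      · right
        refine ⟨by omega, by omega, ?_⟩
        rw [c2]
        congr 1
        omega
      · left
        refine ⟨by omega, ?_⟩
        rw [c3, c1]
    · omega
    · rcases h3 _ _ (by omega) (by omega) z hz1' hz2' with ⟨c1, c2⟩ | ⟨c1, c2, c3⟩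
      · left
        exact ⟨by omega, c2⟩
      · omega

/-- the new arcs -/
def spA (n : ℕ) (A : ℕ → Set ℂ) (A1 A2 : Set ℂ) (i : ℕ) : Set ℂ :=
  if i = 0 then A2 else if i = n then A1 else A i

/-- the new marks -/
def spr (n : ℕ) (r : ℕ → ℂ) (R : ℂ) (i : ℕ) : ℂ :=
  if i = 0 then R else if i = n + 1 then R else r i

theorem Cyn.split (h : Cyn n A r) (hn : 2 ≤ n) {A1 A2 : Set ℂ} (g1 : Arc A1 (r 0) R)
    (g2 : Arc A2 R (r 1)) (g3 : A1 ∩ A2 = {R}) (g4 : A1 ∪ A2 = A 0) :
    Cyn (n + 1) (spA n A A1 A2) (spr n r R) := by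
  obtain ⟨h1, h2, h3⟩ := h
  have A0 : spA n A A1 A2 0 = A2 := by simp [spA]
  have An : spA n A A1 A2 n = A1 := by
    show (if n = 0 then _ else if n = n then _ else _) = _
    rw [if_neg (by omega), if_pos rfl]
  have Am : ∀ i, 0 < i → i < n → spA n A A1 A2 i = A i := by
    intro i hi0 hin
    unfold spA
    rw [if_neg (by omega), if_neg (by omega)]
  have r0 : spr n r R 0 = R := by simp [spr]
  have rn : spr n r R (n + 1) = R := by
    show (if n + 1 = 0 then _ else if n + 1 = n + 1 then _ else _) = _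
    rw [if_neg (by omega), if_pos rfl]
  have rm : ∀ i, 0 < i → i ≤ n → spr n r R i = r i := by
    intro i hi0 hin
    unfold spr
    rw [if_neg (by omega), if_neg (by omega)]
  have hr0 : r 0 ∉ A2 := by
    intro hx
    have : r 0 ∈ A1 ∩ A2 := ⟨g1.left_mem, hx⟩
    rw [g3] at this
    exact g1.ne this
  have hr1 : r 1 ∉ A1 := by
    intro hx
    have : r 1 ∈ A1 ∩ A2 := ⟨hx, g2.right_mem⟩
    rw [g3] at this
    exact g2.ne this.symm
  have s1 : A1 ⊆ A 0 := by rw [← g4]; exact subset_union_left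
  have s2 : A2 ⊆ A 0 := by rw [← g4]; exact subset_union_right
  refine ⟨?_, by rw [rn, r0], ?_⟩
  · intro i hi
    by_cases hi0 : i = 0
    · subst hi0
      rw [A0, r0, rm 1 one_pos (by omega)]
      exact g2
    by_cases hin : i = n
    · subst hin
      rw [An, rn, rm i (by omega) le_rfl, h2]
      exact g1
    · rw [Am i (by omega) (by omega), rm i (by omega) (by omega), rm (i + 1) (by omega) (by omega)]
      exact h1 i (by omega)
  · intro i j hij hj z hz1 hz2
    by_cases hi0 : i = 0
    · subst hi0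
      rw [A0] at hz1
      by_cases hjn : j = n
      · subst hjn
        rw [An] at hz2
        right
        refine ⟨rfl, rfl, ?_⟩
        rw [r0]
        have : z ∈ A1 ∩ A2 := ⟨hz2, hz1⟩
        rw [g3] at this
        exact this
      · rw [Am j hij (by omega)] at hz2
        rcases h3 0 j hij (by omega) z (s2 hz1) hz2 with ⟨c1, c2⟩ | ⟨c1, c2, c3⟩
        · left
          refine ⟨c1, ?_⟩
          rw [rm j hij (by omega)]
          exact c2
        · exfalso
          rw [c3] at hz1
          exact hr0 hz1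
    · rw [Am i (by omega) (by omega)] at hz1
      by_cases hjn : j = n
      · subst hjn
        rw [An] at hz2
        rcases h3 0 i (by omega) (by omega) z (s1 hz2) hz1 with ⟨c1, c2⟩ | ⟨c1, c2, c3⟩
        · exfalso
          rw [c2, c1] at hz2
          exact hr1 hz2
        · left
          refine ⟨c2.symm, ?_⟩
          rw [rm j (by omega) le_rfl, h2]
          exact c3
      · rw [Am j (by omega) (by omega)] at hz2
        rcases h3 i j hij (by omega) z hz1 hz2 with ⟨c1, c2⟩ | ⟨c1, c2, c3⟩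
        · left
          refine ⟨c1, ?_⟩
          rw [rm j (by omega) (by omega)]
          exact c2
        · omega

lemma spA_union (hn : 2 ≤ n) {A1 A2 : Set ℂ} (g4 : A1 ∪ A2 = A 0) :
    (⋃ i < n + 1, spA n A A1 A2 i) = ⋃ i < n, A i := by
  have A0 : spA n A A1 A2 0 = A2 := by simp [spA]
  have An : spA n A A1 A2 n = A1 := by
    show (if n = 0 then _ else if n = n then _ else _) = _
    rw [if_neg (by omega), if_pos rfl]
  have Am : ∀ i, 0 < i → i < n → spA n A A1 A2 i = A i := by
    intro i hi0 hin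
    unfold spA
    rw [if_neg (by omega), if_neg (by omega)]
  ext z
  simp only [mem_iUnion, exists_prop]
  constructor
  · rintro ⟨i, hi, hz⟩
    by_cases hi0 : i = 0
    · subst hi0
      rw [A0] at hz
      exact ⟨0, by omega, by rw [← g4]; exact Or.inr hz⟩
    by_cases hin : i = n
    · subst hin
      rw [An] at hz
      exact ⟨0, by omega, by rw [← g4]; exact Or.inl hz⟩
    · rw [Am i (by omega) (by omega)] at hz
      exact ⟨i, by omega, hz⟩
  · rintro ⟨i, hi, hz⟩
    by_cases hi0 : i = 0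
    · subst hi0
      rw [← g4] at hz
      rcases hz with hz | hz
      · exact ⟨n, by omega, by rw [An]; exact hz⟩
      · exact ⟨0, by omega, by rw [A0]; exact hz⟩
    · exact ⟨i, by omega, by rw [Am i (by omega) hi]; exact hz⟩

end

/-- the farthest point from the origin -/
lemma exists_ext {K : Set ℂ} (hK : IsCompact K) (hne : ∃ x ∈ K, ∃ y ∈ K, x ≠ y) :
    ∃ R ∈ K, Ext R K := by
  obtain ⟨x, hx, y, hy, hxy⟩ := hne
  obtain ⟨R, hR, hmax⟩ := hK.exists_isMaxOn ⟨x, hx⟩ continuous_norm.continuousOn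
  refine ⟨R, hR, fun z => R.re * z.re + R.im * z.im, ⟨0, R.re, R.im, fun z => by ring⟩, ?_⟩
  intro z hz hzR
  have h1 : ‖z‖ ≤ ‖R‖ := hmax hz
  have h2 : z.re * z.re + z.im * z.im ≤ R.re * R.re + R.im * R.im := by
    have := pow_le_pow_left₀ (norm_nonneg z) h1 2
    rw [← Complex.normSq_eq_norm_sq, ← Complex.normSq_eq_norm_sq, Complex.normSq_apply,
      Complex.normSq_apply] at this
    exact this
  have h3 : 0 < (z.re - R.re) * (z.re - R.re) + (z.im - R.im) * (z.im - R.im) := by
    have := Complex.normSq_pos.2 (sub_ne_zero.2 hzR)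
    rwa [Complex.normSq_apply, Complex.sub_re, Complex.sub_im] at this
  show R.re * z.re + R.im * z.im < R.re * R.re + R.im * R.im
  nlinarith

end Pool.Agent.V8H80
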