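import Pool.Agent.V8H80.Step
import Pool.Agent.V8H80.Split

/-!
The cut lemma: step lemma together with the face argument (helper80, MP_cbfcf7_gt).
-/

set_option autoImplicit false

open Set Topology Filter

namespace Pool.Agent.V8H80

variable {u v : ℂ → ℝ} {w : ℂ} {x0 x1 y0 y1 : ℝ}

/-- the open parallelogram -/
def st (u v : ℂ → ℝ) (x0 x1 y0 y1 : ℝ) : Set ℂ := {z | x0 < u z ∧ u z < x1 ∧ y0 < v z ∧ v z < y1}

lemma st_open (hu : IsAf u) (hv : IsAf v) : IsOpen (st u v x0 x1 y0 y1) := by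
  apply (isOpen_lt continuous_const hu.cont).inter
  apply (isOpen_lt hu.cont continuous_const).inter
  exact (isOpen_lt continuous_const hv.cont).inter (isOpen_lt hv.cont continuous_const)

lemma st_sub : st u v x0 x1 y0 y1 ⊆ pg u v x0 x1 y0 y1 :=
  fun _ hz => ⟨hz.1.le, hz.2.1.le, hz.2.2.1.le, hz.2.2.2.le⟩

lemma int_pg (hu : IsAf u) (hv : IsAf v) {m : ℂ} (hm : m ∈ st u v x0 x1 y0 y1) :
    interior (pg u v x0 x1 y0 y1) ⊆ st u v x0 x1 y0 y1 := by
  intro z hz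
  by_contra hcon
  obtain ⟨m1, m2, m3, m4⟩ := hm
  have hout : ∀ t : ℝ, t ∈ Ioi (1 : ℝ) → m + (t : ℂ) * (z - m) ∉ pg u v x0 x1 y0 y1 := by
    rintro t ht ⟨h1, h2, h3, h4⟩
    have ht' : 1 < t := ht
    rw [hu.line] at h1 h2
    rw [hv.line] at h3 h4
    apply hcon
    refine ⟨?_, ?_, ?_, ?_⟩ <;> nlinarith
  have hcl : IsClosed {t : ℝ | m + (t : ℂ) * (z - m) ∈ (interior (pg u v x0 x1 y0 y1))ᶜ} := by
    apply isOpen_interior.isClosed_compl.preimage
    fun_prop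
  have hsub : closure (Ioi (1 : ℝ)) ⊆
      {t : ℝ | m + (t : ℂ) * (z - m) ∈ (interior (pg u v x0 x1 y0 y1))ᶜ} :=
    hcl.closure_subset_iff.2 fun t ht h => hout t ht (interior_subset h)
  rw [closure_Ioi] at hsub
  have := hsub (mem_Ici.2 (le_refl (1 : ℝ)))
  have h1 : m + ((1 : ℝ) : ℂ) * (z - m) ∈ (interior (pg u v x0 x1 y0 y1))ᶜ := this
  apply h1
  have e : m + ((1 : ℝ) : ℂ) * (z - m) = z := by push_cast; ring
  rw [e]
  exact hz

lemma pg_closed (hu : IsAf u) (hv : IsAf v) : IsClosed (pg u v x0 x1 y0 y1) := by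
  apply (isClosed_le continuous_const hu.cont).inter
  apply (isClosed_le hu.cont continuous_const).inter
  exact (isClosed_le continuous_const hv.cont).inter (isClosed_le hv.cont continuous_const)

lemma frontier_pg (hu : IsAf u) (hv : IsAf v) {z : ℂ} (hz : z ∈ frontier (pg u v x0 x1 y0 y1)) :
    z ∈ pg u v x0 x1 y0 y1 ∧ z ∉ st u v x0 x1 y0 y1 := by
  rw [(pg_closed hu hv).frontier_eq] at hz
  refine ⟨hz.1, fun h => hz.2 ?_⟩
  exact interior_maximal st_sub (st_open hu hv) h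

theorem cut (hear : S_ear) (hsl : S_slideN) (hface : S_face) (hc : Crd u v w) {f γ : ℂ ≃ₜ ℂ}
    (hf : Ori f) (hγ : Nice γ) {n : ℕ} {B : ℕ → Set ℂ} {r : ℕ → ℂ}
    (hB : Chn n B (fun i => f (r i)))
    (hr : Chn n (fun i => segment ℝ (r i) (r (i + 1))) r)
    (hun : (⋃ i < n, segment ℝ (r i) (r (i + 1))) = segment ℝ (r 0) (r n))
    (h0 : γ (r 0) = f (r 0)) (hl : γ (r n) = f (r n)) {xe : ℝ} (hx0 : x0 < xe) (hx1 : xe < x1)
    (hpu : u (r 0) = xe) (hpv : v (r 0) = y0) (hqu : u (r n) = xe) (hqv : v (r n) = y1)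
    {k : ℕ} (hk0 : 0 < k) (hkn : k < n) (hku : u (r k) = xe) (hkv : y0 < v (r k) ∧ v (r k) < y1)
    (hbd : ∀ x ∈ pg u v x0 x1 y0 y1, x ∉ st u v x0 x1 y0 y1 → ‖γ x - f x‖ < ‖f x - f (r k)‖)
    (hdis : ∀ x ∈ pg u v x0 x1 y0 y1, x ∉ st u v x0 x1 y0 y1 → ∀ i, i < n → γ x ∈ B i →
      γ x = f (r 0) ∨ γ x = f (r n)) :
    ∃ γ' : ℂ ≃ₜ ℂ, Nice γ' ∧ (∀ z, z ∉ st u v x0 x1 y0 y1 → γ' z = γ z) ∧
      (∀ i, i < n → γ' '' segment ℝ (r i) (r (i + 1)) = B i) ∧
      ∀ i, i ≤ n → γ' (r i) = f (r i) := by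
  have hkst : r k ∈ st u v x0 x1 y0 y1 := by
    refine ⟨?_, ?_, hkv.1, hkv.2⟩
    · rw [hku]; exact hx0
    · rw [hku]; exact hx1
  -- connected sets through the middle point
  have key : ∀ W : Set ℂ, IsPreconnected W → f (r k) ∈ W →
      (∀ x ∈ pg u v x0 x1 y0 y1, x ∉ st u v x0 x1 y0 y1 → γ x ∉ W) →
      ∀ z ∈ W, ∃ y, γ y = z ∧ x0 < u y ∧ u y < x1 ∧ y0 < v y ∧ v y < y1 := by
    intro W hW hkW hdW
    have hU1 : IsOpen (γ '' st u v x0 x1 y0 y1) := γ.isOpenMap _ (st_open hc.hu hc.hv)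
    have hU2 : IsOpen (γ '' (pg u v x0 x1 y0 y1)ᶜ) :=
      γ.isOpenMap _ (pg_closed hc.hu hc.hv).isOpen_compl
    have hcov : W ⊆ γ '' st u v x0 x1 y0 y1 ∪ γ '' (pg u v x0 x1 y0 y1)ᶜ := by
      intro z hz
      obtain ⟨y, rfl⟩ := γ.surjective z
      by_cases h1 : y ∈ pg u v x0 x1 y0 y1
      · by_cases h2 : y ∈ st u v x0 x1 y0 y1
        · exact Or.inl ⟨y, h2, rfl⟩
        · exact absurd hz (hdW y h1 h2)
      · exact Or.inr ⟨y, h1, rfl⟩
    have hdisj : W ∩ (γ '' st u v x0 x1 y0 y1 ∩ γ '' (pg u v x0 x1 y0 y1)ᶜ) = ∅ := by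
      rw [← image_inter γ.injective]
      have : st u v x0 x1 y0 y1 ∩ (pg u v x0 x1 y0 y1)ᶜ = ∅ := by
        ext z
        simp only [mem_inter_iff, mem_compl_iff, mem_empty_iff_false, iff_false, not_and, not_not]
        exact fun h => st_sub h
      rw [this, image_empty, inter_empty]
    have hk1 : f (r k) ∈ γ '' st u v x0 x1 y0 y1 := by
      have := hface f γ (pg u v x0 x1 y0 y1) (r k) hf (pg_convex hc.hu hc.hv)
        (hc.bd x0 x1 y0 y1) (interior_maximal st_sub (st_open hc.hu hc.hv) hkst) (by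
          intro x hx
          obtain ⟨h1, h2⟩ := frontier_pg hc.hu hc.hv hx
          exact hbd x h1 h2)
      exact image_mono (int_pg hc.hu hc.hv hkst) this
    rcases isPreconnected_iff_subset_of_disjoint.1 hW _ _ hU1 hU2 hcov hdisj with h | h
    · intro z hz
      obtain ⟨y, hy, rfl⟩ := h hz
      exact ⟨y, rfl, hy⟩
    · exfalso
      have h1 := h hkW
      have : f (r k) ∈ W ∩ (γ '' st u v x0 x1 y0 y1 ∩ γ '' (pg u v x0 x1 y0 y1)ᶜ) :=
        ⟨hkW, hk1, h1⟩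
      rw [hdisj] at this
      exact this
  have hn : 0 < n := by omega
  have hy : y0 < y1 := hkv.1.trans hkv.2
  have htot := hB.arc hn
  have hne : f (r 0) ≠ f (r n) := htot.ne
  -- the two halves
  have hC1 : Chn k B (fun i => f (r i)) :=
    ⟨fun i hi => hB.1 i (by omega), fun i j hij hj => hB.2 i j hij (by omega)⟩
  have a1 := hC1.arc hk0
  have hC2 : Chn (n - k) (fun i => B (k + i)) (fun i => f (r (k + i))) := by
    refine ⟨fun i hi => hB.1 (k + i) (by omega), fun i j hij hj z hz1 hz2 => ?_⟩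
    obtain ⟨h1, h2⟩ := hB.2 (k + i) (k + j) (by omega) (by omega) z hz1 hz2
    exact ⟨by omega, h2⟩
  have a2 : Arc (⋃ i < n - k, B (k + i)) (f (r k)) (f (r n)) := by
    have := hC2.arc (by omega)
    have e : k + (n - k) = n := by omega
    simp only [add_zero, e] at this
    exact this
  have hinter : ∀ i j, i < k → k ≤ j → j < n → ∀ z, z ∈ B i → z ∈ B j → z = f (r k) := by
    intro i j hi hj hjn z hz1 hz2
    obtain ⟨h1, h2⟩ := hB.2 i j (by omega) hjn z hz1 hz2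
    rw [h2]
    have : j = k := by omega
    rw [this]
  have hr0k : f (r 0) ≠ f (r k) := a1.ne
  have hrkn : f (r k) ≠ f (r n) := a2.ne
  refine step hear hsl hc hn hγ hB hr hun h0 hl hx0 hx1 hy hpu hpv hqu hqv ?_
  intro i hi z hz hz0 hzn
  have hz0' : z ≠ f (r 0) := hz0
  have hzn' : z ≠ f (r n) := hzn
  rcases Nat.lt_or_ge i k with hik | hik
  · refine key ((⋃ i < k, B i) \ {f (r 0)}) a1.preconn ⟨a1.right_mem, hr0k.symm⟩ ?_ z ⟨?_, hz0'⟩
    · rintro x hx1 hx2 ⟨hx3, hx4⟩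
      simp only [mem_iUnion, exists_prop] at hx3
      obtain ⟨j, hj, hx3⟩ := hx3
      rcases hdis x hx1 hx2 j (by omega) hx3 with h | h
      · exact hx4 h
      · have hlast : f (r n) ∈ B (n - 1) := by
          have := (hB.1 (n - 1) (by omega)).right_mem
          rwa [show n - 1 + 1 = n by omega] at this
        rw [h] at hx3
        have := hinter j (n - 1) hj (by omega) (by omega) _ hx3 hlast
        exact hrkn this.symm
    · simp only [mem_iUnion, exists_prop]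
      exact ⟨i, hik, hz⟩
  · refine key ((⋃ i < n - k, B (k + i)) \ {f (r n)}) a2.symm.preconn ⟨a2.left_mem, hrkn⟩ ?_ z
      ⟨?_, hzn'⟩
    · rintro x hx1 hx2 ⟨hx3, hx4⟩
      simp only [mem_iUnion, exists_prop] at hx3
      obtain ⟨j, hj, hx3⟩ := hx3
      rcases hdis x hx1 hx2 (k + j) (by omega) hx3 with h | h
      · have hfirst : f (r 0) ∈ B 0 := (hB.1 0 (by omega)).left_mem
        rw [h] at hx3
        have := hinter 0 (k + j) hk0 (by omega) (by omega) _ hfirst hx3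
        exact hr0k this
      · exact hx4 h
    · simp only [mem_iUnion, exists_prop]
      exact ⟨i - k, by omega, by rw [show k + (i - k) = i by omega]; exact hz⟩

end Pool.Agent.V8H80
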