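import Mathlib

/-!
Basic definitions for the approximation of plane homeomorphisms (helper80, MP_cbfcf7_gt).
-/

set_option autoImplicit false

namespace Pool.Agent.V8H80

/-- the union of the segments of a polygonal path -/
def pset : List ℂ → Set ℂ
  | [] => ∅
  | [x] => {x}
  | x :: y :: l => segment ℝ x y ∪ pset (y :: l)

/-- simple polygonal paths -/
def SP : List ℂ → Prop
  | [] => False
  | [_] => True
  | x :: y :: l => x ≠ y ∧ segment ℝ x y ∩ pset (y :: l) = {y} ∧ SP (y :: l)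

/-- `A` is a simple polygonal arc from `p` to `q` -/
def IsArc (A : Set ℂ) (p q : ℂ) : Prop :=
  ∃ l : List ℂ, l ≠ [] ∧ SP (p :: l) ∧ (p :: l).getLast? = some q ∧ pset (p :: l) = A

/-- smooth with smooth inverse, Jacobian determinant between two positive constants -/
def Dif (h : ℂ ≃ₜ ℂ) : Prop :=
  ContDiff ℝ ((⊤ : ℕ∞) : WithTop ℕ∞) (⇑h) ∧ ContDiff ℝ ((⊤ : ℕ∞) : WithTop ℕ∞) (⇑h.symm) ∧
    ∃ c C : ℝ, 0 < c ∧ ∀ z : ℂ, c ≤ (fderiv ℝ (⇑h) z).det ∧ (fderiv ℝ (⇑h) z).det ≤ C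

end Pool.Agent.V8H80
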