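import Pool.Agent.V8H80.FCx
import Pool.Agent.Helper22.FC.F1

/-!
Orientation of simple polygons, copied from the starting file `Pool/Agent/Helper22/FC/Final.lean`
(which imports much more) (helper80, MP_cbfcf7_gt).
-/

namespace Pool.Agent.V8H80

open Complex Pool.Agent.Helper22.FC

noncomputable section

theorem simple_edge_ne {U : List ℂ} (hU : SimpleL U) : ∀ e ∈ cyc U, e.1 ≠ e.2 := by
  intro e he h
  obtain ⟨h3, hnd, _⟩ := hU
  obtain ⟨i, hi, rfl⟩ := List.getElem_of_mem he
  have hlen : i < U.length := by simpa [cyc] using hi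
  have h1 : ((cyc U)[i]).1 = U[i] := by simp [cyc]
  have h2 : ((cyc U)[i]).2 = U[(i + 1) % U.length]'(Nat.mod_lt _ (by omega)) := by
    simp [cyc, List.getElem_rotate]
  rw [h1, h2] at h
  have h4 := (List.Nodup.getElem_inj_iff hnd).1 h
  rcases Nat.lt_or_ge (i + 1) U.length with h5 | h5
  · rw [Nat.mod_eq_of_lt h5] at h4; omega
  · have h6 : i + 1 = U.length := by omega
    rw [h6, Nat.mod_self] at h4
    omega

/-- near each point of a simple polygon there are points where the winding angle differs -/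
theorem two_sides {U : List ℂ} (hU : SimpleL U) {x : ℂ} (hx : x ∈ curve U) {ε : ℝ} (hε : 0 < ε) :
    ∃ z₁ ∈ Metric.ball x ε, ∃ z₂ ∈ Metric.ball x ε, z₁ ∉ curve U ∧ z₂ ∉ curve U ∧
      wnd z₁ U = wnd z₂ U + 2 * Real.pi := by
  obtain ⟨e, he, hxe⟩ := hx
  have hab : e.1 ≠ e.2 := simple_edge_ne hU e he
  -- a point of the open edge near x
  have hcl : x ∈ closure (openSegment ℝ e.1 e.2) := segment_subset_closure_openSegment hxe
  obtain ⟨y, hyo, hyx⟩ := Metric.mem_closure_iff.1 hcl (ε / 2) (by positivity)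
  have hys : y ∈ segment ℝ e.1 e.2 := openSegment_subset_segment ℝ _ _ hyo
  have hne1 : y ≠ e.1 := by
    intro h
    rw [h] at hyo
    exact hab (left_mem_openSegment_iff.1 hyo)
  have hne2 : y ≠ e.2 := by
    intro h
    rw [h] at hyo
    exact hab (right_mem_openSegment_iff.1 hyo)
  have hperm : (cyc U).Perm ((e.1, e.2) :: (cyc U).erase e) := by
    have := List.perm_cons_erase he
    simpa using this
  have hother : ∀ e' ∈ (cyc U).erase e, y ∉ segment ℝ e'.1 e'.2 := by
    intro e' he' hxe'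
    have h1 := (cyc_nodup hU.2.1).mem_erase_iff.1 he'
    have h2 := hU.2.2 e he e' h1.2 h1.1.symm ⟨hys, hxe'⟩
    rcases h2.1 with h3 | h3
    · exact hne1 h3
    · exact hne2 h3
  obtain ⟨δ, hδ, hj⟩ := wndFacts.jump hab hperm hyo hother
  have hside0 : side e.1 e.2 y = 0 := side_seg hys
  have hshift : ∀ c : ℝ, side e.1 e.2 (y + c * I * (e.2 - e.1)) =
      c * Complex.normSq (e.2 - e.1) := by
    intro c
    have : side e.1 e.2 (y + c * I * (e.2 - e.1)) =
        side e.1 e.2 y + c * Complex.normSq (e.2 - e.1) := by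
      unfold side
      rw [Complex.normSq_apply]
      simp only [Complex.mul_im, Complex.sub_re, Complex.sub_im, Complex.add_re,
        Complex.add_im, Complex.mul_re, Complex.ofReal_re, Complex.ofReal_im, Complex.conj_re,
        Complex.conj_im, Complex.I_re, Complex.I_im]
      ring
    rw [this, hside0, zero_add]
  have hnsq : 0 < Complex.normSq (e.2 - e.1) := Complex.normSq_pos.2 (sub_ne_zero.2 hab.symm)
  have hnrm : 0 < ‖e.2 - e.1‖ := norm_pos_iff.2 (sub_ne_zero.2 hab.symm)
  set ε' := min δ (ε / 2) with hε'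
  have hε'pos : 0 < ε' := lt_min hδ (by positivity)
  set c0 : ℝ := ε' / (2 * ‖e.2 - e.1‖) with hc0
  have hc0pos : 0 < c0 := by positivity
  have hc0lt : c0 * ‖e.2 - e.1‖ < ε' := by
    rw [hc0]
    have : ε' / (2 * ‖e.2 - e.1‖) * ‖e.2 - e.1‖ = ε' / 2 := by field_simp
    rw [this]; linarith
  have hdist : ∀ c : ℝ, |c| = c0 → ‖(y + c * I * (e.2 - e.1)) - y‖ < ε' := by
    intro c hc'
    have : y + c * I * (e.2 - e.1) - y = c * I * (e.2 - e.1) := by ring
    rw [this, norm_mul, norm_mul, Complex.norm_I, Complex.norm_real, Real.norm_eq_abs, mul_one,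
      hc']
    exact hc0lt
  have hball : ∀ z, ‖z - y‖ < ε' → z ∈ Metric.ball x ε ∧ ‖z - y‖ < δ := by
    intro z hz
    refine ⟨?_, lt_of_lt_of_le hz (min_le_left _ _)⟩
    rw [Metric.mem_ball]
    have h1 : dist z y < ε / 2 := by
      rw [dist_eq_norm]; exact lt_of_lt_of_le hz (min_le_right _ _)
    have h2 : dist y x < ε / 2 := by rw [dist_comm]; exact hyx
    have := dist_triangle z y x
    linarith
  have ha1 := hdist c0 (abs_of_pos hc0pos)
  have ha2 := hdist (-c0) (by rw [abs_neg, abs_of_pos hc0pos])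
  obtain ⟨hb1, hd1⟩ := hball _ ha1
  obtain ⟨hb2, hd2⟩ := hball _ ha2
  have hs1 : 0 < side e.1 e.2 (y + (c0 : ℝ) * I * (e.2 - e.1)) := by rw [hshift]; positivity
  have hs2 : side e.1 e.2 (y + ((-c0 : ℝ) : ℂ) * I * (e.2 - e.1)) < 0 := by
    rw [hshift]
    have := mul_pos hc0pos hnsq
    linarith
  obtain ⟨g1, g2, g3⟩ := hj _ _ hd1 hd2 hs1 hs2
  exact ⟨_, hb1, _, hb2, g1, g2, g3⟩

theorem curve_nonempty {U : List ℂ} (hU : SimpleL U) : (curve U).Nonempty := by
  obtain ⟨h3, _⟩ := hU
  have hne : cyc U ≠ [] := by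
    intro h
    have : (cyc U).length = 0 := by rw [h]; rfl
    simp [cyc] at this
    rw [this] at h3
    simp at h3
  obtain ⟨e, he⟩ := List.exists_mem_of_ne_nil _ hne
  exact ⟨e.1, e, he, left_mem_segment ℝ _ _⟩

/-- each simple polygon or its reverse is positively oriented -/
theorem orient {V : List ℂ} (hV : SimpleL V) : ∃ U : List ℂ, (U = V ∨ U = V.reverse) ∧ SimpleL U ∧
    curve U = curve V ∧ (∀ x, x ∈ U ↔ x ∈ V) ∧
    (∀ x, x ∉ curve U → wnd x U = 0 ∨ wnd x U = 2 * Real.pi) ∧ Good U := by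
  obtain ⟨s, hs, hw, hg⟩ := simple_good' hV
  rcases hs with rfl | rfl
  · refine ⟨V, Or.inl rfl, hV, rfl, fun x => Iff.rfl, ?_, hg rfl⟩
    intro x hx
    simpa using hw x hx
  · have hR := simple_reverse hV
    have hc := curve_reverse V
    obtain ⟨s', hs', hw', hg'⟩ := simple_good' hR
    have hw1 : ∀ x, x ∉ curve V.reverse → wnd x V.reverse = 0 ∨ wnd x V.reverse = 2 * Real.pi := by
      intro x hx
      rw [hc] at hx
      rw [wnd_reverse wndFacts hx]
      rcases hw x hx with h | h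
      · left; rw [h]; simp
      · right; rw [h]; ring
    rcases hs' with rfl | rfl
    · exact ⟨V.reverse, Or.inr rfl, hR, hc, fun x => by simp, hw1, hg' rfl⟩
    · exfalso
      obtain ⟨x, hx⟩ := curve_nonempty hR
      obtain ⟨z₁, _, z₂, _, h1, h2, h3⟩ := two_sides hR hx one_pos
      have hpi := Real.pi_pos
      have a1 := hw1 z₁ h1
      have a2 := hw' z₁ h1
      have b1 := hw1 z₂ h2
      have b2 := hw' z₂ h2
      rcases a1 with a1 | a1 <;> rcases a2 with a2 | a2 <;> rcases b1 with b1 | b1 <;>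
        rcases b2 with b2 | b2 <;> linarith


end

end Pool.Agent.V8H80
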