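import Pool.Agent.V8H80.Net

/-!
The fine grid (helper80, MP_cbfcf7_gt).
-/

set_option autoImplicit false

open Set Topology Filter

namespace Pool.Agent.V8H80

/-- lattice points -/
def V (t : ℝ) (a b : ℤ) : ℂ := ⟨t * a, t * b⟩

/-- oriented edges -/
def GE (t : ℝ) (M K : ℤ) : Set (ℂ × ℂ) := {e | ∃ a b : ℤ,
  (-K ≤ a ∧ a + 1 ≤ K ∧ -K ≤ b ∧ b ≤ K ∧ M ∣ b ∧ e = (V t a b, V t (a + 1) b)) ∨
  (-K ≤ a ∧ a ≤ K ∧ -K ≤ b ∧ b + 1 ≤ K ∧ M ∣ a ∧ e = (V t a b, V t a (b + 1)))}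

/-- adjacency -/
def GA (t : ℝ) (M K : ℤ) (x y : ℂ) : Prop := (x, y) ∈ GE t M K ∨ (y, x) ∈ GE t M K

variable {t : ℝ} {M K : ℤ}

lemma V_inj (ht : 0 < t) {a b a' b' : ℤ} (h : V t a b = V t a' b') : a = a' ∧ b = b' := by
  have h1 := congrArg Complex.re h
  have h2 := congrArg Complex.im h
  simp only [V] at h1 h2
  have h3 := mul_left_cancel₀ ht.ne' h1
  have h4 := mul_left_cancel₀ ht.ne' h2
  exact ⟨by exact_mod_cast h3, by exact_mod_cast h4⟩

lemma mem_hseg (ht : 0 < t) {a b : ℤ} {z : ℂ} : z ∈ segment ℝ (V t a b) (V t (a + 1) b) ↔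
    z.im = t * b ∧ t * a ≤ z.re ∧ z.re ≤ t * (a + 1) := by
  rw [mem_seg_iff]
  constructor
  · rintro ⟨s, h0, h1, rfl⟩
    simp only [V, Complex.add_im, Complex.add_re, Complex.mul_im, Complex.mul_re,
      Complex.ofReal_re, Complex.ofReal_im, Complex.sub_re, Complex.sub_im]
    push_cast
    refine ⟨by ring, by nlinarith, by nlinarith⟩
  · rintro ⟨h1, h2, h3⟩
    refine ⟨(z.re - t * a) / t, div_nonneg (by linarith) ht.le,
      (div_le_one ht).2 (by linarith), ?_⟩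
    apply Complex.ext
    · simp only [V, Complex.add_re, Complex.mul_re, Complex.ofReal_re, Complex.ofReal_im,
        Complex.sub_re, Complex.sub_im]
      push_cast
      field_simp
      ring
    · simp only [V, Complex.add_im, Complex.mul_im, Complex.ofReal_re, Complex.ofReal_im,
        Complex.sub_re, Complex.sub_im]
      rw [h1]
      ring

lemma mem_vseg (ht : 0 < t) {a b : ℤ} {z : ℂ} : z ∈ segment ℝ (V t a b) (V t a (b + 1)) ↔
    z.re = t * a ∧ t * b ≤ z.im ∧ z.im ≤ t * (b + 1) := by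
  rw [mem_seg_iff]
  constructor
  · rintro ⟨s, h0, h1, rfl⟩
    simp only [V, Complex.add_im, Complex.add_re, Complex.mul_im, Complex.mul_re,
      Complex.ofReal_re, Complex.ofReal_im, Complex.sub_re, Complex.sub_im]
    push_cast
    refine ⟨by ring, by nlinarith, by nlinarith⟩
  · rintro ⟨h1, h2, h3⟩
    refine ⟨(z.im - t * b) / t, div_nonneg (by linarith) ht.le,
      (div_le_one ht).2 (by linarith), ?_⟩
    apply Complex.ext
    · simp only [V, Complex.add_re, Complex.mul_re, Complex.ofReal_re, Complex.ofReal_im,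
        Complex.sub_re, Complex.sub_im]
      rw [h1]
      ring
    · simp only [V, Complex.add_im, Complex.mul_im, Complex.ofReal_re, Complex.ofReal_im,
        Complex.sub_re, Complex.sub_im]
      push_cast
      field_simp
      ring

lemma int_of_le (ht : 0 < t) {a b : ℤ} (h : t * (a : ℝ) ≤ t * (b : ℝ)) : a ≤ b := by
  have := le_of_mul_le_mul_left h ht
  exact_mod_cast this

lemma int_of_le' (ht : 0 < t) {a b : ℤ} (h : t * (a : ℝ) ≤ t * ((b : ℝ) + 1)) : a ≤ b + 1 := by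
  have := le_of_mul_le_mul_left h ht
  exact_mod_cast this

lemma int_of_eq (ht : 0 < t) {a b : ℤ} (h : t * (a : ℝ) = t * (b : ℝ)) : a = b := by
  have := mul_left_cancel₀ ht.ne' h
  exact_mod_cast this

/-- two edges only meet in common end points -/
lemma GE_int (ht : 0 < t) {e e' : ℂ × ℂ} (he : e ∈ GE t M K) (he' : e' ∈ GE t M K) (hne : e ≠ e') :
    segment ℝ e.1 e.2 ∩ segment ℝ e'.1 e'.2 ⊆ ({e.1, e.2} ∩ {e'.1, e'.2} : Set ℂ) := by
  obtain ⟨a, b, h⟩ := he
  obtain ⟨a', b', h'⟩ := he'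
  rintro z ⟨hz, hz'⟩
  -- horizontal and vertical
  have HV : ∀ a b a' b' : ℤ, z ∈ segment ℝ (V t a b) (V t (a + 1) b) →
      z ∈ segment ℝ (V t a' b') (V t a' (b' + 1)) →
      (z = V t a b ∨ z = V t (a + 1) b) ∧ (z = V t a' b' ∨ z = V t a' (b' + 1)) := by
    intro a b a' b' h1 h2
    rw [mem_hseg ht] at h1
    rw [mem_vseg ht] at h2
    obtain ⟨c1, c2, c3⟩ := h1
    obtain ⟨d1, d2, d3⟩ := h2
    have hz : z = V t a' b := Complex.ext d1 c1
    rw [d1] at c2 c3
    rw [c1] at d2 d3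
    have e1 := int_of_le ht c2
    have e2 := int_of_le' ht c3
    have e3 := int_of_le ht d2
    have e4 := int_of_le' ht d3
    have e5 : a' = a ∨ a' = a + 1 := by omega
    have e6 : b = b' ∨ b = b' + 1 := by omega
    rw [hz]
    constructor
    · rcases e5 with rfl | rfl
      · exact Or.inl rfl
      · exact Or.inr rfl
    · rcases e6 with rfl | rfl
      · exact Or.inl rfl
      · exact Or.inr rfl
  have HH : ∀ a b a' b' : ℤ, ¬ (a = a' ∧ b = b') → z ∈ segment ℝ (V t a b) (V t (a + 1) b) →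
      z ∈ segment ℝ (V t a' b') (V t (a' + 1) b') →
      (z = V t a b ∨ z = V t (a + 1) b) ∧ (z = V t a' b' ∨ z = V t (a' + 1) b') := by
    intro a b a' b' hab h1 h2
    rw [mem_hseg ht] at h1
    rw [mem_hseg ht] at h2
    obtain ⟨c1, c2, c3⟩ := h1
    obtain ⟨d1, d2, d3⟩ := h2
    have e1 : b = b' := int_of_eq ht (c1.symm.trans d1)
    subst e1
    have e2 := int_of_le' ht (d2.trans c3)
    have e3 := int_of_le' ht (c2.trans d3)
    have e4 : a' = a + 1 ∨ a = a' + 1 := by omega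
    rcases e4 with rfl | rfl
    · have : z = V t (a + 1) b := by
        apply Complex.ext
        · show z.re = t * ((a + 1 : ℤ) : ℝ)
          push_cast
          push_cast at d2
          linarith
        · exact c1
      exact ⟨Or.inr this, Or.inl this⟩
    · have : z = V t (a' + 1) b := by
        apply Complex.ext
        · show z.re = t * ((a' + 1 : ℤ) : ℝ)
          push_cast
          push_cast at c2
          linarith
        · exact c1
      exact ⟨Or.inl this, Or.inr this⟩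
  have VV : ∀ a b a' b' : ℤ, ¬ (a = a' ∧ b = b') → z ∈ segment ℝ (V t a b) (V t a (b + 1)) →
      z ∈ segment ℝ (V t a' b') (V t a' (b' + 1)) →
      (z = V t a b ∨ z = V t a (b + 1)) ∧ (z = V t a' b' ∨ z = V t a' (b' + 1)) := by
    intro a b a' b' hab h1 h2
    rw [mem_vseg ht] at h1
    rw [mem_vseg ht] at h2
    obtain ⟨c1, c2, c3⟩ := h1
    obtain ⟨d1, d2, d3⟩ := h2
    have e1 : a = a' := int_of_eq ht (c1.symm.trans d1)
    subst e1
    have e2 := int_of_le' ht (d2.trans c3)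
    have e3 := int_of_le' ht (c2.trans d3)
    have e4 : b' = b + 1 ∨ b = b' + 1 := by omega
    rcases e4 with rfl | rfl
    · have : z = V t a (b + 1) := by
        apply Complex.ext
        · exact c1
        · show z.im = t * ((b + 1 : ℤ) : ℝ)
          push_cast
          push_cast at d2
          linarith
      exact ⟨Or.inr this, Or.inl this⟩
    · have : z = V t a (b' + 1) := by
        apply Complex.ext
        · exact c1
        · show z.im = t * ((b' + 1 : ℤ) : ℝ)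
          push_cast
          push_cast at c2
          linarith
      exact ⟨Or.inl this, Or.inr this⟩
  rcases h with ⟨-, -, -, -, -, rfl⟩ | ⟨-, -, -, -, -, rfl⟩ <;>
    rcases h' with ⟨-, -, -, -, -, rfl⟩ | ⟨-, -, -, -, -, rfl⟩
  · exact HH a b a' b' (fun ⟨e1, e2⟩ => hne (by rw [e1, e2])) hz hz'
  · exact HV a b a' b' hz hz'
  · exact (HV a' b' a b hz' hz).symm
  · exact VV a b a' b' (fun ⟨e1, e2⟩ => hne (by rw [e1, e2])) hz hz'

lemma GE_ne (ht : 0 < t) {e : ℂ × ℂ} (he : e ∈ GE t M K) : e.1 ≠ e.2 := by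
  obtain ⟨a, b, ⟨-, -, -, -, -, rfl⟩ | ⟨-, -, -, -, -, rfl⟩⟩ := he
  · intro h
    have := (V_inj ht h).1
    omega
  · intro h
    have := (V_inj ht h).2
    omega

lemma GE_asymm (ht : 0 < t) {x y : ℂ} (h : (x, y) ∈ GE t M K) : (y, x) ∉ GE t M K := by
  intro h'
  have key : ∀ x y : ℂ, (x, y) ∈ GE t M K → x.re + x.im < y.re + y.im := by
    rintro x y ⟨a, b, ⟨-, -, -, -, -, e⟩ | ⟨-, -, -, -, -, e⟩⟩
    · rw [Prod.mk.injEq] at e
      obtain ⟨rfl, rfl⟩ := e
      simp only [V]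
      push_cast
      nlinarith
    · rw [Prod.mk.injEq] at e
      obtain ⟨rfl, rfl⟩ := e
      simp only [V]
      push_cast
      nlinarith
  exact absurd (key _ _ h) (not_lt.2 (key _ _ h').le)

lemma GE_finite (t : ℝ) (M K : ℤ) : (GE t M K).Finite := by
  have h1 : ((Set.Icc (-K) K ×ˢ Set.Icc (-K) K).image
      (fun x : ℤ × ℤ => (V t x.1 x.2, V t (x.1 + 1) x.2))).Finite :=
    ((Set.finite_Icc _ _).prod (Set.finite_Icc _ _)).image _
  have h2 : ((Set.Icc (-K) K ×ˢ Set.Icc (-K) K).image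
      (fun x : ℤ × ℤ => (V t x.1 x.2, V t x.1 (x.2 + 1)))).Finite :=
    ((Set.finite_Icc _ _).prod (Set.finite_Icc _ _)).image _
  refine (h1.union h2).subset ?_
  rintro e ⟨a, b, ⟨c1, c2, c3, c4, c5, rfl⟩ | ⟨c1, c2, c3, c4, c5, rfl⟩⟩
  · exact Or.inl ⟨(a, b), ⟨⟨c1, by omega⟩, ⟨c3, c4⟩⟩, rfl⟩
  · exact Or.inr ⟨(a, b), ⟨⟨c1, c2⟩, ⟨c3, by omega⟩⟩, rfl⟩

/-- the net of straight edges -/
theorem net_straight (ht : 0 < t) : Net (GA t M K) (fun x y => segment ℝ x y) 1 where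
  symm := fun x y h => h.symm
  comm := fun x y _ => segment_symm ℝ x y
  arc := fun x y h => by
    rcases h with h | h
    · exact Arc.seg x y (GE_ne ht h)
    · exact Arc.seg x y (GE_ne ht h).symm
  int := by
    intro x y x' y' h h' h1 h2 z hz hz'
    have fin : ∀ a b a' b' : ℂ, (a, b) ∈ GE t M K → (a', b') ∈ GE t M K → z ∈ segment ℝ a b →
        z ∈ segment ℝ a' b' → ¬ (a = a' ∧ b = b') →
        ∃ p, z = p ∧ (p = a ∨ p = b) ∧ (p = a' ∨ p = b') := by
      intro a b a' b' k1 k2 k3 k4 k5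
      have := GE_int ht k1 k2 (fun e => k5 (by rw [Prod.mk.injEq] at e; exact e)) ⟨k3, k4⟩
      exact ⟨z, rfl, this.1, this.2⟩
    rcases h with h | h <;> rcases h' with h' | h'
    · exact fin _ _ _ _ h h' hz hz' h1
    · rw [segment_symm] at hz'
      obtain ⟨p, a1, a2, a3⟩ := fin _ _ _ _ h h' hz hz' h2
      exact ⟨p, a1, a2, a3.symm⟩
    · rw [segment_symm] at hz
      obtain ⟨p, a1, a2, a3⟩ := fin _ _ _ _ h h' hz hz' (fun e => h2 ⟨e.2, e.1⟩)
      exact ⟨p, a1, a2.symm, a3⟩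
    · rw [segment_symm] at hz hz'
      obtain ⟨p, a1, a2, a3⟩ := fin _ _ _ _ h h' hz hz' (fun e => h1 ⟨e.2, e.1⟩)
      exact ⟨p, a1, a2.symm, a3.symm⟩

lemma GA_h {a b : ℤ} (h1 : -K ≤ a) (h2 : a + 1 ≤ K) (h3 : -K ≤ b) (h4 : b ≤ K) (h5 : M ∣ b) :
    GA t M K (V t a b) (V t (a + 1) b) := Or.inl ⟨a, b, Or.inl ⟨h1, h2, h3, h4, h5, rfl⟩⟩

lemma GA_v {a b : ℤ} (h1 : -K ≤ a) (h2 : a ≤ K) (h3 : -K ≤ b) (h4 : b + 1 ≤ K) (h5 : M ∣ a) :
    GA t M K (V t a b) (V t a (b + 1)) := Or.inl ⟨a, b, Or.inr ⟨h1, h2, h3, h4, h5, rfl⟩⟩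

end Pool.Agent.V8H80
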