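import Pool.Agent.V8H80.SPx

/-!
Initial segments of polygonal arcs, bounds near an end point (helper80, MP_cbfcf7_gt).
-/

set_option autoImplicit false

open Set Topology Filter

namespace Pool.Agent.V8H80

variable {A : Set ℂ} {p q : ℂ}

lemma IsAf.comb {f : ℂ → ℝ} (h : IsAf f) (x y : ℂ) (a b : ℝ) (hab : a + b = 1) :
    f (a • x + b • y) = a * f x + b * f y := by
  obtain ⟨α, β, γ, h⟩ := h
  rw [h, h, h]
  simp
  have : a = 1 - b := by linarith
  subst this
  ring

lemma IsAf.mid {f : ℂ → ℝ} (h : IsAf f) (x y : ℂ) : f ((x + y) / 2) = (f x + f y) / 2 := by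
  have := h.comb x y (1 / 2) (1 / 2) (by norm_num)
  have e : ((1 / 2 : ℝ) • x + (1 / 2 : ℝ) • y) = (x + y) / 2 := by
    simp only [Complex.real_smul]
    push_cast
    ring
  rw [e] at this
  rw [this]
  ring

/-- subsegments of a segment -/
lemma seg_sub {x y z : ℂ} (h : y ∈ segment ℝ x z) : segment ℝ x y ⊆ segment ℝ x z :=
  (convex_segment x z).segment_subset (left_mem_segment ℝ _ _) h

lemma seg_sub' {x y z : ℂ} (h : y ∈ segment ℝ x z) : segment ℝ y z ⊆ segment ℝ x z :=
  (convex_segment x z).segment_subset h (right_mem_segment ℝ _ _)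

lemma mem_seg_iff {x z w : ℂ} : w ∈ segment ℝ x z ↔
    ∃ t : ℝ, 0 ≤ t ∧ t ≤ 1 ∧ w = x + (t : ℂ) * (z - x) := by
  rw [segment_eq_image_mul]
  constructor
  · rintro ⟨t, ht, rfl⟩
    exact ⟨t, ht.1, ht.2, rfl⟩
  · rintro ⟨t, h1, h2, rfl⟩
    exact ⟨t, ⟨h1, h2⟩, rfl⟩

/-- a point in the segment splits it -/
lemma seg_split {x y z : ℂ} (h : y ∈ segment ℝ x z) :
    segment ℝ x y ∪ segment ℝ y z = segment ℝ x z := by
  apply Subset.antisymm
  · exact union_subset (seg_sub h) (seg_sub' h)
  · obtain ⟨s, hs0, hs1, rfl⟩ := mem_seg_iff.1 h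
    intro w hw
    obtain ⟨t, ht0, ht1, rfl⟩ := mem_seg_iff.1 hw
    rcases le_total t s with h1 | h1
    · left
      rw [mem_seg_iff]
      rcases hs0.eq_or_lt with h0 | h0
      · have : t = 0 := by linarith
        subst this
        exact ⟨0, le_rfl, zero_le_one, by push_cast; ring⟩
      · refine ⟨t / s, by positivity, (div_le_one h0).2 h1, ?_⟩
        have : (s : ℂ) ≠ 0 := by exact_mod_cast h0.ne'
        push_cast
        field_simp
        ring
    · right
      rw [mem_seg_iff]
      rcases hs1.eq_or_lt with h0 | h0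
      · have : t = 1 := by linarith
        subst this
        rw [h0]
        exact ⟨0, le_rfl, zero_le_one, by push_cast; ring⟩
      · refine ⟨(t - s) / (1 - s), div_nonneg (by linarith) (by linarith),
          (div_le_one (by linarith)).2 (by linarith), ?_⟩
        have : (1 - s : ℂ) ≠ 0 := by
          have : (1 - s : ℝ) ≠ 0 := by linarith
          exact_mod_cast this
        push_cast
        field_simp
        ring

lemma seg_inter {x y z : ℂ} (hxz : x ≠ z) (h : y ∈ segment ℝ x z) :
    segment ℝ x y ∩ segment ℝ y z = {y} := by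
  apply Subset.antisymm
  · rintro w ⟨hw1, hw2⟩
    obtain ⟨s, hs0, hs1, rfl⟩ := mem_seg_iff.1 h
    obtain ⟨t, ht0, ht1, rfl⟩ := mem_seg_iff.1 hw1
    obtain ⟨t', ht'0, ht'1, he⟩ := mem_seg_iff.1 hw2
    have hzx : z - x ≠ 0 := sub_ne_zero.2 hxz.symm
    have e1 : ((t * s : ℝ) : ℂ) * (z - x) = ((s + t' * (1 - s) : ℝ) : ℂ) * (z - x) := by
      push_cast
      linear_combination he
    have e2 : t * s = s + t' * (1 - s) := by exact_mod_cast mul_right_cancel₀ hzx e1
    have e3 : 0 ≤ t' * (1 - s) := mul_nonneg ht'0 (by linarith)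
    have e4 : t * s ≤ s := mul_le_of_le_one_left hs0 ht1
    have e5 : t * s = s := le_antisymm e4 (by linarith)
    rw [mem_singleton_iff]
    have : ((t * s : ℝ) : ℂ) = (s : ℂ) := by rw [e5]
    push_cast at this
    linear_combination this * (z - x)
  · rintro w rfl
    exact ⟨right_mem_segment ℝ _ _, left_mem_segment ℝ _ _⟩

/-- the first segment of an arc -/
theorem Arc.head (h : Arc A p q) : ∃ (x : ℂ) (K : Set ℂ), p ≠ x ∧ IsCompact K ∧ x ∈ K ∧ q ∈ K ∧
    A = segment ℝ p x ∪ K ∧ segment ℝ p x ∩ K = {x} ∧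
    ∀ y ∈ segment ℝ p x, y ≠ x → Arc (segment ℝ y x ∪ K) y q := by
  cases h with
  | seg p q h =>
    refine ⟨q, {q}, h, isCompact_singleton, rfl, rfl, ?_, ?_, ?_⟩
    · rw [union_eq_self_of_subset_right]
      rintro z rfl
      exact right_mem_segment ℝ _ _
    · apply Subset.antisymm
      · exact inter_subset_right
      · rintro z rfl
        exact ⟨right_mem_segment ℝ _ _, rfl⟩
    · intro y hy hyx
      rw [union_eq_self_of_subset_right]
      · exact Arc.seg y q hyx
      · rintro z rfl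
        exact right_mem_segment ℝ _ _
  | cons p x q K h hK hi =>
    refine ⟨x, K, h, hK.isCompact, hK.left_mem, hK.right_mem, rfl, hi, ?_⟩
    intro y hy hyx
    refine hK.cons' hyx ?_
    rw [← hi]
    exact inter_subset_inter_left _ (seg_sub' hy)

lemma head_notMem {x : ℂ} {K : Set ℂ} (h : p ≠ x) (hi : segment ℝ p x ∩ K = {x}) : p ∉ K := by
  intro hp
  have : p ∈ segment ℝ p x ∩ K := ⟨left_mem_segment ℝ _ _, hp⟩
  rw [hi] at this
  exact h this

lemma head_cut {x y : ℂ} {K : Set ℂ} (h : p ≠ x) (hi : segment ℝ p x ∩ K = {x})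
    (hy : y ∈ segment ℝ p x) (hyx : y ≠ x) :
    segment ℝ p y ∩ (segment ℝ y x ∪ K) = {y} ∧
      segment ℝ p y ∪ (segment ℝ y x ∪ K) = segment ℝ p x ∪ K := by
  constructor
  · rw [inter_union_distrib_left, seg_inter h hy]
    apply Subset.antisymm
    · rintro z (hz | ⟨hz1, hz2⟩)
      · exact hz
      · exfalso
        have : z ∈ segment ℝ p x ∩ K := ⟨seg_sub hy hz1, hz2⟩
        rw [hi, mem_singleton_iff] at this
        subst this
        have h1 := seg_inter h hy
        have h2 : z ∈ segment ℝ p y ∩ segment ℝ y z := ⟨hz1, right_mem_segment ℝ _ _⟩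
        rw [h1] at h2
        exact hyx h2.symm
    · exact subset_union_left
  · rw [← union_assoc, seg_split hy]

/-- the bound near an end point -/
theorem Arc.cone (h : Arc A p q) {u v : ℂ → ℝ} (hu : IsAf u) (hv : IsAf v)
    (hvp : ∀ z ∈ A, z ≠ p → v p < v z) : ∃ C : ℝ, 0 < C ∧ ∀ z ∈ A, u p - u z ≤ C * (v z - v p) := by
  obtain ⟨x, K, h1, h2, h3, h4, rfl, h6, h7⟩ := h.head
  have hpK := head_notMem h1 h6
  have hvx : 0 < v x - v p := by
    have := hvp x (Or.inr h3) h1.symm
    linarith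
  -- the compact part
  obtain ⟨m, hmK, hm⟩ := h2.exists_isMinOn ⟨x, h3⟩ hv.cont.continuousOn
  obtain ⟨m', hm'K, hm'⟩ := h2.exists_isMinOn ⟨x, h3⟩ hu.cont.continuousOn
  have hvm : 0 < v m - v p := by
    have := hvp m (Or.inr hmK) (fun e => hpK (e ▸ hmK))
    linarith
  refine ⟨|u p - u x| / (v x - v p) + |u p - u m'| / (v m - v p) + 1, by positivity, ?_⟩
  have hA : 0 ≤ |u p - u x| / (v x - v p) := by positivity
  have hB : 0 ≤ |u p - u m'| / (v m - v p) := by positivity
  rintro z (hz | hz)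
  · obtain ⟨t, ht0, ht1, rfl⟩ := mem_seg_iff.1 hz
    rw [hu.line, hv.line]
    have e1 : |u p - u x| = |u p - u x| / (v x - v p) * (v x - v p) := by
      field_simp
    have e2 := le_abs_self (u p - u x)
    have e3 : 0 ≤ t * (v x - v p) := mul_nonneg ht0 hvx.le
    calc u p - (u p + t * (u x - u p)) = t * (u p - u x) := by ring
      _ ≤ t * |u p - u x| := mul_le_mul_of_nonneg_left e2 ht0
      _ = |u p - u x| / (v x - v p) * (t * (v x - v p)) := by rw [e1]; field_simp
      _ ≤ _ := by
        have : v p + t * (v x - v p) - v p = t * (v x - v p) := by ring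
        rw [this]
        exact mul_le_mul_of_nonneg_right (by linarith) e3
  · have e1 : v m ≤ v z := hm hz
    have e2 : u m' ≤ u z := hm' hz
    have e3 := le_abs_self (u p - u m')
    calc u p - u z ≤ |u p - u m'| := by linarith
      _ = |u p - u m'| / (v m - v p) * (v m - v p) := by field_simp
      _ ≤ |u p - u m'| / (v m - v p) * (v z - v p) :=
        mul_le_mul_of_nonneg_left (by linarith) hB
      _ ≤ _ := mul_le_mul_of_nonneg_right (by linarith) (by linarith)

end Pool.Agent.V8H80
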