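import Pool.Agent.V8H80.Quad

/-!
Kite moves (helper80, MP_cbfcf7_gt).
-/

set_option autoImplicit false

open Filter Topology Set

namespace Pool.Agent.V8H80

/-- the cross product -/
def cr (u v : ℂ) : ℝ := u.re * v.im - u.im * v.re

/-- first coordinate with respect to the triangle `a b c` -/
noncomputable def kX (a b c z : ℂ) : ℝ :=
  2 * cr (z - (a + c) / 2) (b - (a + c) / 2) / cr (c - a) (b - a)

/-- second coordinate with respect to the triangle `a b c` -/
noncomputable def kY (a b c z : ℂ) : ℝ :=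
  cr (c - a) (z - (a + c) / 2) / cr (c - a) (b - a)

section

variable {a b c : ℂ}

lemma two_re (z : ℂ) : (z / 2).re = z.re / 2 := by
  simp

lemma two_im (z : ℂ) : (z / 2).im = z.im / 2 := by
  simp

theorem k_rep (h : cr (c - a) (b - a) ≠ 0) (z : ℂ) :
    z = (a + c) / 2 + (kX a b c z : ℂ) * ((c - a) / 2) + (kY a b c z : ℂ) * (b - (a + c) / 2) := by
  unfold kX kY
  unfold cr at *
  apply Complex.ext
  · simp only [Complex.add_re, Complex.mul_re, Complex.ofReal_re, Complex.ofReal_im, two_re, two_im,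
      Complex.sub_re, Complex.sub_im, Complex.add_im, zero_mul, sub_zero] at h ⊢
    field_simp
    ring
  · simp only [Complex.add_im, Complex.mul_im, Complex.ofReal_re, Complex.ofReal_im, two_re, two_im,
      Complex.sub_re, Complex.sub_im, Complex.add_re, zero_mul, add_zero] at h ⊢
    field_simp
    ring

lemma kX_af (a b c : ℂ) : IsAf (kX a b c) := by
  unfold kX cr
  refine ⟨-(2 * ((a + c) / 2).re * (b - (a + c) / 2).im - 2 * ((a + c) / 2).im * (b - (a + c) / 2).re) /
      ((c - a).re * (b - a).im - (c - a).im * (b - a).re),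
    2 * (b - (a + c) / 2).im / ((c - a).re * (b - a).im - (c - a).im * (b - a).re),
    -(2 * (b - (a + c) / 2).re) / ((c - a).re * (b - a).im - (c - a).im * (b - a).re), fun z => ?_⟩
  beta_reduce
  rw [Complex.sub_re z, Complex.sub_im z]
  ring

lemma kY_af (a b c : ℂ) : IsAf (kY a b c) := by
  unfold kY cr
  refine ⟨-((c - a).re * ((a + c) / 2).im - (c - a).im * ((a + c) / 2).re) /
      ((c - a).re * (b - a).im - (c - a).im * (b - a).re),
    -(c - a).im / ((c - a).re * (b - a).im - (c - a).im * (b - a).re),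
    (c - a).re / ((c - a).re * (b - a).im - (c - a).im * (b - a).re), fun z => ?_⟩
  beta_reduce
  rw [Complex.sub_re z, Complex.sub_im z]
  ring

lemma kX_shift (h : cr (c - a) (b - a) ≠ 0) (z : ℂ) (s t : ℝ) :
    kX a b c (z + (s : ℂ) * ((c - a) / 2) + (t : ℂ) * (b - (a + c) / 2)) = kX a b c z + s := by
  unfold kX
  unfold cr at *
  simp only [Complex.add_im, Complex.add_re, Complex.mul_re, Complex.mul_im, Complex.ofReal_re,
    Complex.ofReal_im, two_re, two_im, Complex.sub_re, Complex.sub_im, zero_mul, add_zero,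
    sub_zero] at h ⊢
  field_simp
  ring

lemma kY_shift (h : cr (c - a) (b - a) ≠ 0) (z : ℂ) (s t : ℝ) :
    kY a b c (z + (s : ℂ) * ((c - a) / 2) + (t : ℂ) * (b - (a + c) / 2)) = kY a b c z + t := by
  unfold kY
  unfold cr at *
  simp only [Complex.add_im, Complex.add_re, Complex.mul_re, Complex.mul_im, Complex.ofReal_re,
    Complex.ofReal_im, two_re, two_im, Complex.sub_re, Complex.sub_im, zero_mul, add_zero,
    sub_zero] at h ⊢
  field_simp
  ring

lemma k_mid : kX a b c ((a + c) / 2) = 0 ∧ kY a b c ((a + c) / 2) = 0 := by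
  unfold kX kY cr
  simp

lemma k_of (h : cr (c - a) (b - a) ≠ 0) (s t : ℝ) :
    kX a b c ((a + c) / 2 + (s : ℂ) * ((c - a) / 2) + (t : ℂ) * (b - (a + c) / 2)) = s ∧
    kY a b c ((a + c) / 2 + (s : ℂ) * ((c - a) / 2) + (t : ℂ) * (b - (a + c) / 2)) = t := by
  rw [kX_shift h, kY_shift h, k_mid.1, k_mid.2]
  simp

lemma k_a (h : cr (c - a) (b - a) ≠ 0) : kX a b c a = -1 ∧ kY a b c a = 0 := by
  have := k_of h (-1) 0
  have e : (a + c) / 2 + ((-1 : ℝ) : ℂ) * ((c - a) / 2) + ((0 : ℝ) : ℂ) * (b - (a + c) / 2) = a := by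
    push_cast; ring
  rwa [e] at this

lemma k_c (h : cr (c - a) (b - a) ≠ 0) : kX a b c c = 1 ∧ kY a b c c = 0 := by
  have := k_of h 1 0
  have e : (a + c) / 2 + ((1 : ℝ) : ℂ) * ((c - a) / 2) + ((0 : ℝ) : ℂ) * (b - (a + c) / 2) = c := by
    push_cast; ring
  rwa [e] at this

lemma k_b (h : cr (c - a) (b - a) ≠ 0) : kX a b c b = 0 ∧ kY a b c b = 1 := by
  have := k_of h 0 1
  have e : (a + c) / 2 + ((0 : ℝ) : ℂ) * ((c - a) / 2) + ((1 : ℝ) : ℂ) * (b - (a + c) / 2) = b := by
    push_cast; ring
  rwa [e] at this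

/-- the kite around the triangle `a b c` -/
def kite (a b c : ℂ) (η : ℝ) : Set ℂ :=
  {z | -η * (1 - |kX a b c z|) ≤ kY a b c z ∧ kY a b c z ≤ (1 + η) * (1 - |kX a b c z|)}

lemma kite_abs {η : ℝ} (hη : 0 < η) {z : ℂ} (hz : z ∈ kite a b c η) : |kX a b c z| ≤ 1 := by
  obtain ⟨h1, h2⟩ := hz
  have : 0 ≤ (1 + 2 * η) * (1 - |kX a b c z|) := by nlinarith
  have := nonneg_of_mul_nonneg_right this (by positivity)
  linarith

/-- the four functions of the kite -/
noncomputable def kA (a b c : ℂ) (η : ℝ) : Fin 4 → ℂ → ℝ :=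
  ![fun z => (kY a b c z + η * (1 - kX a b c z)) / (1 + η),
    fun z => (kY a b c z + η * (1 + kX a b c z)) / (1 + η),
    fun z => ((1 + η) * (1 - kX a b c z) - kY a b c z) / η,
    fun z => ((1 + η) * (1 + kX a b c z) - kY a b c z) / η]

lemma kA_af (a b c : ℂ) (η : ℝ) (i : Fin 4) : IsAf (kA a b c η i) := by
  have hX := kX_af a b c
  have hY := kY_af a b c
  fin_cases i
  · exact (hY.add (((IsAf.const 1).sub hX).smul η)).div _
  · exact (hY.add (((IsAf.const 1).add hX).smul η)).div _
  · exact ((((IsAf.const 1).sub hX).smul (1 + η)).sub hY).div _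
  · exact ((((IsAf.const 1).add hX).smul (1 + η)).sub hY).div _

lemma kA_zero {η : ℝ} (hη : 0 < η) {z : ℂ} (hz : z ∉ kite a b c η) :
    quad (kA a b c η) z = 0 := by
  apply quad_zero
  have hz' : ¬ (-η * (1 - |kX a b c z|) ≤ kY a b c z ∧
    kY a b c z ≤ (1 + η) * (1 - |kX a b c z|)) := hz
  rw [not_and_or, not_le, not_le] at hz'
  rcases le_total 0 (kX a b c z) with hx | hx
  · rw [abs_of_nonneg hx] at hz'
    rcases hz' with h | h
    · refine ⟨0, ?_⟩
      show (kY a b c z + η * (1 - kX a b c z)) / (1 + η) ≤ 0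
      exact div_nonpos_of_nonpos_of_nonneg (by linarith) (by positivity)
    · refine ⟨2, ?_⟩
      show ((1 + η) * (1 - kX a b c z) - kY a b c z) / η ≤ 0
      exact div_nonpos_of_nonpos_of_nonneg (by linarith) (by positivity)
  · rw [abs_of_nonpos hx] at hz'
    rcases hz' with h | h
    · refine ⟨1, ?_⟩
      show (kY a b c z + η * (1 + kX a b c z)) / (1 + η) ≤ 0
      exact div_nonpos_of_nonpos_of_nonneg (by linarith) (by positivity)
    · refine ⟨3, ?_⟩
      show ((1 + η) * (1 + kX a b c z) - kY a b c z) / η ≤ 0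
      exact div_nonpos_of_nonpos_of_nonneg (by linarith) (by positivity)

lemma kA_top {η : ℝ} (hη : 0 < η) {z : ℂ} (h : kY a b c z = 1 - |kX a b c z|)
    (h0 : 0 ≤ kY a b c z) : quad (kA a b c η) z = kY a b c z := by
  have h1 : (1 + η) ≠ 0 := by positivity
  apply quad_of h0
  · intro i
    have e1 := le_abs_self (kX a b c z)
    have e2 := neg_abs_le (kX a b c z)
    fin_cases i
    · show kY a b c z ≤ (kY a b c z + η * (1 - kX a b c z)) / (1 + η)
      rw [le_div_iff₀ (by positivity)]
      nlinarith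
    · show kY a b c z ≤ (kY a b c z + η * (1 + kX a b c z)) / (1 + η)
      rw [le_div_iff₀ (by positivity)]
      nlinarith
    · show kY a b c z ≤ ((1 + η) * (1 - kX a b c z) - kY a b c z) / η
      rw [le_div_iff₀ (by positivity)]
      nlinarith
    · show kY a b c z ≤ ((1 + η) * (1 + kX a b c z) - kY a b c z) / η
      rw [le_div_iff₀ (by positivity)]
      nlinarith
  · rcases le_total 0 (kX a b c z) with hx | hx
    · rw [abs_of_nonneg hx] at h
      refine ⟨0, ?_⟩
      show (kY a b c z + η * (1 - kX a b c z)) / (1 + η) = kY a b c z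
      rw [div_eq_iff h1, h]
      ring
    · rw [abs_of_nonpos hx] at h
      refine ⟨1, ?_⟩
      show (kY a b c z + η * (1 + kX a b c z)) / (1 + η) = kY a b c z
      rw [div_eq_iff h1, h]
      ring

theorem exists_kite (h : cr (c - a) (b - a) ≠ 0) {η : ℝ} (hη : 0 < η) :
    ∃ g : ℂ ≃ₜ ℂ, Nice g ∧ (∀ z, z ∉ kite a b c η → g z = z) ∧
      (∀ z, ∃ t : ℝ, g z = z + (t : ℂ) * (b - (a + c) / 2)) ∧
      (∀ z, kY a b c z = 1 - |kX a b c z| → 0 ≤ kY a b c z →
        g z = z - (kY a b c z : ℂ) * (b - (a + c) / 2)) := by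
  obtain ⟨g, h1, h2⟩ := nice_quad (w := -(b - (a + c) / 2)) (A := kA a b c η) (kA_af a b c η)
    ![-(1 / (1 + η)), -(1 / (1 + η)), 1 / η, 1 / η] (by
      intro i z s
      have eX : kX a b c (z + (s : ℂ) * -(b - (a + c) / 2)) = kX a b c z := by
        have := kX_shift h z 0 (-s)
        rw [add_zero] at this
        rw [← this]
        congr 1
        push_cast
        ring
      have eY : kY a b c (z + (s : ℂ) * -(b - (a + c) / 2)) = kY a b c z - s := by
        have := kY_shift h z 0 (-s)
        rw [← sub_eq_add_neg] at this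
        rw [← this]
        congr 1
        push_cast
        ring
      fin_cases i
      · show (kY a b c _ + η * (1 - kX a b c _)) / (1 + η) =
          (kY a b c z + η * (1 - kX a b c z)) / (1 + η) + s * (-(1 / (1 + η)))
        rw [eX, eY]; ring
      · show (kY a b c _ + η * (1 + kX a b c _)) / (1 + η) =
          (kY a b c z + η * (1 + kX a b c z)) / (1 + η) + s * (-(1 / (1 + η)))
        rw [eX, eY]; ring
      · show ((1 + η) * (1 - kX a b c _) - kY a b c _) / η =
          ((1 + η) * (1 - kX a b c z) - kY a b c z) / η + s * (1 / η)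
        rw [eX, eY]; ring
      · show ((1 + η) * (1 + kX a b c _) - kY a b c _) / η =
          ((1 + η) * (1 + kX a b c z) - kY a b c z) / η + s * (1 / η)
        rw [eX, eY]; ring) (by
      have e1 : (0 : ℝ) < 1 + -(1 / (1 + η)) := by
        have : 1 / (1 + η) < 1 := by
          rw [div_lt_one (by positivity)]; linarith
        linarith
      have e2 : (0 : ℝ) < 1 + 1 / η := by positivity
      intro i
      fin_cases i
      · exact e1
      · exact e1
      · exact e2
      · exact e2) (by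
      refine HasCompactSupport.intro (K := Metric.closedBall 0
        (‖(a + c) / 2‖ + ‖(c - a) / 2‖ + (1 + η) * ‖b - (a + c) / 2‖)) (isCompact_closedBall _ _) ?_
      intro z hz
      apply kA_zero hη
      intro hk
      apply hz
      have k1 := kite_abs hη hk
      have k2 : |kY a b c z| ≤ 1 + η := by
        obtain ⟨h3, h4⟩ := hk
        have h5 := abs_nonneg (kX a b c z)
        rw [abs_le]
        constructor <;> nlinarith
      rw [mem_closedBall_zero_iff, k_rep h z]
      refine (norm_add_le _ _).trans (add_le_add ((norm_add_le _ _).trans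
        (add_le_add le_rfl ?_)) ?_)
      · rw [norm_mul, Complex.norm_real, Real.norm_eq_abs]
        calc |kX a b c z| * ‖(c - a) / 2‖ ≤ 1 * ‖(c - a) / 2‖ :=
              mul_le_mul_of_nonneg_right k1 (norm_nonneg _)
          _ = _ := one_mul _
      · rw [norm_mul, Complex.norm_real, Real.norm_eq_abs]
        exact mul_le_mul_of_nonneg_right k2 (norm_nonneg _))
  refine ⟨g, h1, fun z hz => ?_, fun z => ⟨-quad (kA a b c η) z, ?_⟩, fun z hz hz0 => ?_⟩
  · rw [h2, kA_zero hη hz]; simp
  · rw [h2]; push_cast; ring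
  · rw [h2, kA_top hη hz hz0]; ring

end

end Pool.Agent.V8H80
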