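import Pool.Agent.V8H80.Thin

/-!
Kites: hulls and images of the two edges (helper80, MP_cbfcf7_gt).
-/

set_option autoImplicit false

open Filter Topology Set

namespace Pool.Agent.V8H80

variable {a b c : ℂ}

lemma kite_sub_of {η : ℝ} (h : cr (c - a) (b - a) ≠ 0) (hη : 0 < η) {F : Set ℂ} (hF : Convex ℝ F)
    (ha : a ∈ F) (hc : c ∈ F) (hb : (a + c) / 2 + ((1 + η : ℝ) : ℂ) * (b - (a + c) / 2) ∈ F)
    (hm : (a + c) / 2 + ((-η : ℝ) : ℂ) * (b - (a + c) / 2) ∈ F) : kite a b c η ⊆ F := by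
  intro z hz
  have hX := kite_abs hη hz
  obtain ⟨h1, h2⟩ := hz
  have e1 := le_abs_self (kX a b c z)
  have e2 := neg_abs_le (kX a b c z)
  have hηc : (1 + η : ℂ) ≠ 0 := by
    have : (1 + η : ℝ) ≠ 0 := by positivity
    exact_mod_cast this
  have hηc' : (η : ℂ) ≠ 0 := by exact_mod_cast hη.ne'
  have comb : ∀ (v : ℂ) (β : ℝ), v ∈ F → 0 ≤ β → β ≤ 1 - |kX a b c z| →
      β • v + ((1 - β - kX a b c z) / 2 : ℝ) • a + ((1 - β + kX a b c z) / 2 : ℝ) • c ∈ F := by
    intro v β hv hβ hβ'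
    have key := hF.sum_mem (t := Finset.univ) (w := ![β, (1 - β - kX a b c z) / 2,
      (1 - β + kX a b c z) / 2]) (z := ![v, a, c]) (by
        intro i _
        fin_cases i
        · exact hβ
        · show (0 : ℝ) ≤ (1 - β - kX a b c z) / 2
          linarith
        · show (0 : ℝ) ≤ (1 - β + kX a b c z) / 2
          linarith) (by
        simp only [Fin.sum_univ_three]
        show β + (1 - β - kX a b c z) / 2 + (1 - β + kX a b c z) / 2 = 1
        ring) (by
        intro i _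
        fin_cases i
        · exact hv
        · exact ha
        · exact hc)
    rw [Fin.sum_univ_three] at key
    exact key
  rcases le_total 0 (kY a b c z) with hY | hY
  · have h3 : kY a b c z / (1 + η) ≤ 1 - |kX a b c z| := by
      rw [div_le_iff₀ (by positivity)]; linarith
    have h4 := comb _ (kY a b c z / (1 + η)) hb (by positivity) h3
    have hz : z = (kY a b c z / (1 + η)) • ((a + c) / 2 + ((1 + η : ℝ) : ℂ) * (b - (a + c) / 2)) +
        ((1 - kY a b c z / (1 + η) - kX a b c z) / 2 : ℝ) • a +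
        ((1 - kY a b c z / (1 + η) + kX a b c z) / 2 : ℝ) • c := by
      nth_rewrite 1 [k_rep h z]
      simp only [Complex.real_smul]
      push_cast
      field_simp
      ring
    rw [hz]
    exact h4
  · have h3 : -kY a b c z / η ≤ 1 - |kX a b c z| := by
      rw [div_le_iff₀ hη]; linarith
    have h4 := comb _ (-kY a b c z / η) hm (div_nonneg (by linarith) hη.le) h3
    have hz : z = (-kY a b c z / η) • ((a + c) / 2 + ((-η : ℝ) : ℂ) * (b - (a + c) / 2)) +
        ((1 - -kY a b c z / η - kX a b c z) / 2 : ℝ) • a +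
        ((1 - -kY a b c z / η + kX a b c z) / 2 : ℝ) • c := by
      nth_rewrite 1 [k_rep h z]
      simp only [Complex.real_smul]
      push_cast
      field_simp
      ring
    rw [hz]
    exact h4

/-- thin kites in convex sets -/
theorem kite_convex (h : cr (c - a) (b - a) ≠ 0) {F : Set ℂ} (hF : Convex ℝ F)
    (ha : a ∈ F) (hc : c ∈ F) (hb : b ∈ interior F) (hm : (a + c) / 2 ∈ interior F) :
    ∃ η₀ : ℝ, 0 < η₀ ∧ ∀ η : ℝ, 0 < η → η ≤ η₀ → kite a b c η ⊆ F := by
  have h1 : Tendsto (fun η : ℝ => (a + c) / 2 + ((1 + η : ℝ) : ℂ) * (b - (a + c) / 2)) (𝓝 0)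
      (𝓝 ((a + c) / 2 + ((1 + 0 : ℝ) : ℂ) * (b - (a + c) / 2))) := by
    apply Continuous.tendsto'
    · fun_prop
    · rfl
  have h2 : Tendsto (fun η : ℝ => (a + c) / 2 + ((-η : ℝ) : ℂ) * (b - (a + c) / 2)) (𝓝 0)
      (𝓝 ((a + c) / 2 + ((-0 : ℝ) : ℂ) * (b - (a + c) / 2))) := by
    apply Continuous.tendsto'
    · fun_prop
    · rfl
  have e1 : (a + c) / 2 + ((1 + 0 : ℝ) : ℂ) * (b - (a + c) / 2) = b := by push_cast; ring
  have e2 : (a + c) / 2 + ((-0 : ℝ) : ℂ) * (b - (a + c) / 2) = (a + c) / 2 := by push_cast; ring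
  rw [e1] at h1
  rw [e2] at h2
  have h3 := (h1.eventually (mem_interior_iff_mem_nhds.1 hb)).and
    (h2.eventually (mem_interior_iff_mem_nhds.1 hm))
  obtain ⟨δ, hδ, h4⟩ := Metric.eventually_nhds_iff.1 h3
  refine ⟨δ / 2, half_pos hδ, fun η h5 h6 => ?_⟩
  have h7 := h4 (y := η) (by rw [Real.dist_eq, sub_zero, abs_of_pos h5]; linarith)
  exact kite_sub_of h h5 hF ha hc h7.1 h7.2

/-- the move removing the vertex `b` -/
theorem exists_ear_move (h : cr (c - a) (b - a) ≠ 0) {η : ℝ} (hη : 0 < η) :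
    ∃ g : ℂ ≃ₜ ℂ, Nice g ∧ (∀ z, z ∉ kite a b c η → g z = z) ∧
      (∀ z, ∃ t : ℝ, g z = z + (t : ℂ) * (b - (a + c) / 2)) ∧ g a = a ∧ g c = c ∧
      g b = (a + c) / 2 ∧ g '' (segment ℝ a b ∪ segment ℝ b c) = segment ℝ a c := by
  obtain ⟨g, h1, h2, h3, h4⟩ := exists_kite h hη
  have L1 : ∀ t : ℝ, t ∈ Icc (0 : ℝ) 1 → g (a + (t : ℂ) * (b - a)) = a + ((t / 2 : ℝ) : ℂ) * (c - a) := by
    intro t ht
    have e : a + (t : ℂ) * (b - a) = (a + c) / 2 + ((-(1 - t) : ℝ) : ℂ) * ((c - a) / 2) +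
        (t : ℂ) * (b - (a + c) / 2) := by push_cast; ring
    have k := k_of h (-(1 - t)) t
    rw [← e] at k
    have ha : |kX a b c (a + (t : ℂ) * (b - a))| = 1 - t := by
      rw [k.1, abs_neg, abs_of_nonneg (by linarith [ht.2])]
    rw [h4 _ (by rw [ha, k.2]; ring) (by rw [k.2]; exact ht.1), k.2]
    push_cast
    ring
  have L2 : ∀ t : ℝ, t ∈ Icc (0 : ℝ) 1 → g (c + (t : ℂ) * (b - c)) = c + ((t / 2 : ℝ) : ℂ) * (a - c) := by
    intro t ht
    have e : c + (t : ℂ) * (b - c) = (a + c) / 2 + ((1 - t : ℝ) : ℂ) * ((c - a) / 2) +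
        (t : ℂ) * (b - (a + c) / 2) := by push_cast; ring
    have k := k_of h (1 - t) t
    rw [← e] at k
    have ha : |kX a b c (c + (t : ℂ) * (b - c))| = 1 - t := by
      rw [k.1, abs_of_nonneg (by linarith [ht.2])]
    rw [h4 _ (by rw [ha, k.2]; ring) (by rw [k.2]; exact ht.1), k.2]
    push_cast
    ring
  refine ⟨g, h1, h2, h3, ?_, ?_, ?_, ?_⟩
  · have := L1 0 (by simp)
    simpa using this
  · have := L2 0 (by simp)
    simpa using this
  · have := L1 1 (by simp)
    have e : a + ((1 : ℝ) : ℂ) * (b - a) = b := by push_cast; ring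
    rw [e] at this
    rw [this]
    push_cast
    ring
  · rw [image_union, segment_symm ℝ b c, segment_eq_image_mul a b, segment_eq_image_mul c b,
      segment_eq_image_mul a c, ← image_comp, ← image_comp]
    ext z
    simp only [mem_union, mem_image, Function.comp]
    constructor
    · rintro (⟨t, ht, rfl⟩ | ⟨t, ht, rfl⟩)
      · exact ⟨t / 2, ⟨by linarith [ht.1], by linarith [ht.2]⟩, (L1 t ht).symm⟩
      · refine ⟨1 - t / 2, ⟨by linarith [ht.2], by linarith [ht.1]⟩, ?_⟩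
        rw [L2 t ht]
        push_cast
        ring
    · rintro ⟨t, ht, rfl⟩
      rcases le_total t (1 / 2) with h5 | h5
      · left
        refine ⟨2 * t, ⟨by linarith [ht.1], by linarith⟩, ?_⟩
        rw [L1 _ ⟨by linarith [ht.1], by linarith⟩]
        push_cast
        ring
      · right
        refine ⟨2 * (1 - t), ⟨by linarith [ht.2], by linarith⟩, ?_⟩
        rw [L2 _ ⟨by linarith [ht.2], by linarith⟩]
        push_cast
        ring

end Pool.Agent.V8H80
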