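import Pool.Agent.V8H80.Loop

/-!
Closed polygonal chains with strictly extreme base points are equivalent (helper80,
MP_cbfcf7_gt).
-/

set_option autoImplicit false

open Set Topology Filter

namespace Pool.Agent.V8H80

open Pool.Agent.Helper11.PlaneEuler



@[simp] lemma conjH_apply (z : ℂ) : conjH z = (starRingEnd ℂ) z := rfl

lemma conjH_inv : conjH⁻¹ = conjH := by
  ext z
  rfl

lemma conjH_mul_self : conjH * conjH = 1 := by
  ext z
  show (starRingEnd ℂ) ((starRingEnd ℂ) z) = z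
  simp

theorem Ori.conj {θ : ℂ ≃ₜ ℂ} (h : Ori θ) : Ori (conjH * θ * conjH) := by
  obtain ⟨F, rfl⟩ := h
  have hx : ∀ x : Conf, (onConf conjH x).1.1 = (starRingEnd ℂ) x.1.1 ∧ (onConf conjH x).1.2 = (starRingEnd ℂ) x.1.2 :=
    fun x => ⟨rfl, rfl⟩
  refine ⟨⟨conjH * F.homeo * conjH, ⟨fun x => - F.angle (onConf conjH x), ?_⟩, ?_⟩, rfl⟩
  · exact (F.angle.continuous.comp (continuous_onConf conjH)).neg
  · intro x
    have h1 := F.spec (onConf conjH x)
    have h2 := congrArg (starRingEnd ℂ) h1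
    have e1 : ∀ z, (conjH * F.homeo * conjH) z = (starRingEnd ℂ) (F.homeo ((starRingEnd ℂ) z)) := fun z => rfl
    have e0 : ((conjH * F.homeo * conjH) x.1.2 - (conjH * F.homeo * conjH) x.1.1) /
        (x.1.2 - x.1.1) = (starRingEnd ℂ) ((F.homeo ((starRingEnd ℂ) x.1.2) - F.homeo ((starRingEnd ℂ) x.1.1)) /
          ((starRingEnd ℂ) x.1.2 - (starRingEnd ℂ) x.1.1)) := by
      rw [e1, e1, map_div₀, map_sub, map_sub]
      simp
    rw [e0, Complex.norm_conj]
    rw [(hx x).1, (hx x).2] at h2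
    rw [h2]
    rw [map_mul, Complex.conj_ofReal, ← Complex.exp_conj]
    simp

lemma cr_lin (a b x y : ℂ) : cr (a * x + b * (starRingEnd ℂ) x) (a * y + b * (starRingEnd ℂ) y) =
    (Complex.normSq a - Complex.normSq b) * cr x y := by
  unfold cr
  simp only [Complex.normSq_apply, Complex.add_re, Complex.add_im, Complex.mul_re, Complex.mul_im,
    Complex.conj_re, Complex.conj_im]
  ring

lemma line_of_cr {d e : ℂ} (hd : d ≠ 0) (h : cr d e = 0) : ∃ l : ℝ, e = l * d := by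
  have hn : 0 < Complex.normSq d := Complex.normSq_pos.2 hd
  refine ⟨(d.re * e.re + d.im * e.im) / Complex.normSq d, ?_⟩
  unfold cr at h
  apply Complex.ext
  · simp only [Complex.mul_re, Complex.ofReal_re, Complex.ofReal_im, zero_mul, sub_zero]
    rw [div_mul_eq_mul_div, eq_div_iff hn.ne', Complex.normSq_apply]
    linear_combination -d.im * h
  · simp only [Complex.mul_im, Complex.ofReal_re, Complex.ofReal_im, zero_mul, add_zero]
    rw [div_mul_eq_mul_div, eq_div_iff hn.ne', Complex.normSq_apply]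
    linear_combination d.re * h

lemma aff_line (a b c x y : ℂ) (t : ℝ) :
    a * (x + t * (y - x)) + b * (starRingEnd ℂ) (x + t * (y - x)) + c =
      (a * x + b * (starRingEnd ℂ) x + c) + t * ((a * y + b * (starRingEnd ℂ) y + c) - (a * x + b * (starRingEnd ℂ) x + c)) := by
  simp only [map_add, map_mul, map_sub, Complex.conj_ofReal]
  ring

lemma aff_seg {g : ℂ ≃ₜ ℂ} {a b c : ℂ} (hg : ∀ z, g z = a * z + b * (starRingEnd ℂ) z + c) (x y : ℂ) :
    g '' segment ℝ x y = segment ℝ (g x) (g y) := by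
  rw [segment_eq_image_mul, segment_eq_image_mul, image_image]
  refine image_congr fun t _ => ?_
  rw [hg, hg, hg, aff_line]

lemma aff_poly {g : ℂ ≃ₜ ℂ} {a b c : ℂ} (hg : ∀ z, g z = a * z + b * (starRingEnd ℂ) z + c) : PolyM g := by
  intro S p q hS
  refine PLc.arc (g := g) (fun x y => ?_) g.injective hS
  refine PA.one 0 1 one_pos (g x) (g y - g x) fun r _ => ?_
  rw [hg, hg, hg, aff_line, Complex.real_smul]

/-- affine maps between triangles -/
theorem exists_affine (haff : S_aff) {p1 q1 R1 p2 q2 R2 : ℂ} (h1 : cr (q1 - p1) (R1 - p1) ≠ 0)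
    (h2 : cr (q2 - p2) (R2 - p2) ≠ 0) :
    ∃ g : ℂ ≃ₜ ℂ, PolyM g ∧ (∀ x y, g '' segment ℝ x y = segment ℝ (g x) (g y)) ∧
      (Nice g ∨ ∃ g', Nice g' ∧ g = g' * conjH) ∧ g p1 = p2 ∧ g q1 = q2 ∧ g R1 = R2 := by
  set d1 := q1 - p1 with hd1
  set e1 := R1 - p1 with he1
  set d2 := q2 - p2 with hd2
  set e2 := R2 - p2 with he2
  have hD : d1 * (starRingEnd ℂ) e1 - e1 * (starRingEnd ℂ) d1 ≠ 0 := by
    intro h
    apply h1
    have := congrArg Complex.im h
    simp only [Complex.sub_im, Complex.mul_im, Complex.conj_re, Complex.conj_im,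
      Complex.zero_im] at this
    unfold cr
    linarith
  set D := d1 * (starRingEnd ℂ) e1 - e1 * (starRingEnd ℂ) d1 with hDD
  obtain ⟨a, ha⟩ : ∃ a, a = (d2 * (starRingEnd ℂ) e1 - e2 * (starRingEnd ℂ) d1) / D := ⟨_, rfl⟩
  obtain ⟨b, hb⟩ : ∃ b, b = (d1 * e2 - e1 * d2) / D := ⟨_, rfl⟩
  have k1 : a * d1 + b * (starRingEnd ℂ) d1 = d2 := by
    rw [ha, hb]
    field_simp
    rw [hDD]
    ring
  have k2 : a * e1 + b * (starRingEnd ℂ) e1 = e2 := by
    rw [ha, hb]
    field_simp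
    rw [hDD]
    ring
  have hne : Complex.normSq a ≠ Complex.normSq b := by
    intro h
    apply h2
    rw [← k1, ← k2, cr_lin, h, sub_self, zero_mul]
  obtain ⟨c, hc⟩ : ∃ c, c = p2 - a * p1 - b * (starRingEnd ℂ) p1 := ⟨_, rfl⟩
  have m1 : a * p1 + b * (starRingEnd ℂ) p1 + c = p2 := by rw [hc]; ring
  have m2 : a * q1 + b * (starRingEnd ℂ) q1 + c = q2 := by
    have : q1 = p1 + d1 := by rw [hd1]; ring
    rw [this, map_add]
    have e : q2 = p2 + d2 := by rw [hd2]; ring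
    rw [e]
    linear_combination m1 + k1
  have m3 : a * R1 + b * (starRingEnd ℂ) R1 + c = R2 := by
    have : R1 = p1 + e1 := by rw [he1]; ring
    rw [this, map_add]
    have e : R2 = p2 + e2 := by rw [he2]; ring
    rw [e]
    linear_combination m1 + k2
  have fin : ∀ g : ℂ ≃ₜ ℂ, (∀ z, g z = a * z + b * (starRingEnd ℂ) z + c) →
      (Nice g ∨ ∃ g', Nice g' ∧ g = g' * conjH) →
      ∃ g : ℂ ≃ₜ ℂ, PolyM g ∧ (∀ x y, g '' segment ℝ x y = segment ℝ (g x) (g y)) ∧
      (Nice g ∨ ∃ g', Nice g' ∧ g = g' * conjH) ∧ g p1 = p2 ∧ g q1 = q2 ∧ g R1 = R2 := by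
    intro g hg hn
    refine ⟨g, aff_poly hg, aff_seg hg, hn, ?_, ?_, ?_⟩
    · rw [hg, m1]
    · rw [hg, m2]
    · rw [hg, m3]
  rcases lt_or_gt_of_ne hne with h | h
  · -- reversing
    have hlt : ‖a‖ < ‖b‖ := by
      rw [Complex.normSq_eq_norm_sq, Complex.normSq_eq_norm_sq] at h
      exact lt_of_pow_lt_pow_left₀ 2 (norm_nonneg _) h
    obtain ⟨g', hg', hg''⟩ := haff b a c hlt
    refine fin (g' * conjH) (fun z => ?_) (Or.inr ⟨g', hg', rfl⟩)
    show g' ((starRingEnd ℂ) z) = _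
    rw [hg'']
    simp only [Complex.conj_conj]
    ring
  · have hlt : ‖b‖ < ‖a‖ := by
      rw [Complex.normSq_eq_norm_sq, Complex.normSq_eq_norm_sq] at h
      exact lt_of_pow_lt_pow_left₀ 2 (norm_nonneg _) h
    obtain ⟨g', hg', hg''⟩ := haff a b c hlt
    exact fin g' hg'' (Or.inl hg')

lemma cr_of_level {u : ℂ → ℝ} (hu : IsAf u) {p q R : ℂ} (hpq : p ≠ q) (h1 : u p = u q)
    (h2 : u p < u R) : cr (q - p) (R - p) ≠ 0 := by
  intro h
  obtain ⟨l, hl⟩ := line_of_cr (sub_ne_zero.2 hpq.symm) h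
  have : R = p + (l : ℂ) * (q - p) := by rw [← hl]; ring
  rw [this, hu.line, ← h1] at h2
  simp at h2

theorem loop_equiv (hear : S_ear) (hsl : S_slideN) (haff : S_aff) {n : ℕ} (hn : 2 ≤ n)
    {A A' : ℕ → Set ℂ} {r r' : ℕ → ℂ} (h : Cyn n A r) (h' : Cyn n A' r')
    (he : Ext (r 0) (⋃ i < n, A i)) (he' : Ext (r' 0) (⋃ i < n, A' i)) :
    ∃ γ : ℂ ≃ₜ ℂ, (Nice γ ∨ Ori (γ * conjH)) ∧ (∀ i, i < n → γ '' A i = A' i) ∧
      ∀ i, i < n → γ (r i) = r' i := by
  obtain ⟨θ1, p1, q1, B1, b1, u1, a1, a2, a3, a4, a5, a6, a7, a8, a9, a10, a11, a12, a13, a14⟩ :=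
    normal_form hear hn h he
  obtain ⟨θ2, p2, q2, B2, b2, u2, c1, c2, c3, c4, c5, c6, c7, c8, c9, c10, c11, c12, c13, c14⟩ :=
    normal_form hear hn h' he'
  obtain ⟨g, g1, g2, g3, g4, g5, g6⟩ := exists_affine haff (cr_of_level a2 a5 a3 a4)
    (cr_of_level c2 c5 c3 c4)
  set R1 := r 0 with hR1
  set R2 := r' 0 with hR2
  have hch := a6.image g1
  have hun : (⋃ i < n, g '' B1 i) = segment ℝ p2 q2 := by
    rw [image_biUnion, a9, g2, g4, g5]
  -- level
  have lev : ∀ z ∈ segment ℝ R2 p2 ∪ segment ℝ R2 q2, z ∉ openSegment ℝ p2 q2 := by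
    intro z hz hz'
    have e1 : u2 z = u2 p2 := by
      rw [openSegment_eq_image_lineMap] at hz'
      obtain ⟨t, -, rfl⟩ := hz'
      rw [AffineMap.lineMap_apply, vsub_eq_sub, vadd_eq_add, Complex.real_smul, add_comm,
        c2.line, c3]
      ring
    have e2 : z ≠ p2 := by
      intro e
      rw [e] at hz'
      exact c5 (left_mem_openSegment_iff.1 hz')
    have e3 : z ≠ q2 := by
      intro e
      rw [e] at hz'
      exact c5 (right_mem_openSegment_iff.1 hz')
    rcases hz with hz | hz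
    · obtain ⟨t, ht0, ht1, rfl⟩ := mem_seg_iff.1 hz
      rw [c2.line] at e1
      have : (1 - t) * (u2 R2 - u2 p2) = 0 := by linarith
      rcases mul_eq_zero.1 this with h | h
      · have : t = 1 := by linarith
        subst this
        apply e2
        push_cast
        ring
      · linarith
    · obtain ⟨t, ht0, ht1, rfl⟩ := mem_seg_iff.1 hz
      rw [c2.line, ← c3] at e1
      have : (1 - t) * (u2 R2 - u2 p2) = 0 := by linarith
      rcases mul_eq_zero.1 this with h | h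
      · have : t = 1 := by linarith
        subst this
        apply e3
        push_cast
        ring
      · linarith
  obtain ⟨σ, s1, s2, s3, s4⟩ := hsl n (fun i => g '' B1 i) B2 (fun i => g (b1 i)) b2 (by omega)
    hch c6 (by show g (b1 0) = b2 0; rw [a7, g4, c7]) (by show g (b1 n) = b2 n; rw [a8, g5, c8])
    (by show _ = segment ℝ (g (b1 0)) (g (b1 n)); rw [hun, a7, a8, g4, g5])
    (by show _ = segment ℝ (g (b1 0)) (g (b1 n)); rw [c9, a7, a8, g4, g5])
    ((segment ℝ R2 p2 ∪ segment ℝ R2 q2)ᶜ)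
    ((isCompact_segment' _ _).isClosed.union (isCompact_segment' _ _).isClosed).isOpen_compl
    (by
      show openSegment ℝ (g (b1 0)) (g (b1 n)) ⊆ _
      rw [a7, a8, g4, g5]
      exact fun z hz hz' => lev z hz' hz)
  have fp : σ '' segment ℝ R2 p2 = segment ℝ R2 p2 :=
    image_eq_of_fixed fun z hz => s2 z fun h => h (Or.inl hz)
  have fq : σ '' segment ℝ R2 q2 = segment ℝ R2 q2 :=
    image_eq_of_fixed fun z hz => s2 z fun h => h (Or.inr hz)
  have fR : σ R2 = R2 := s2 R2 fun h => h (Or.inl (left_mem_segment ℝ _ _))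
  have back : ∀ S T : Set ℂ, θ2 '' T = S → ⇑(θ2⁻¹) '' S = T := by
    rintro S T rfl
    rw [← image_comp]
    have : ⇑(θ2⁻¹) ∘ ⇑θ2 = id := by
      ext z
      exact θ2.symm_apply_apply z
    rw [this, image_id]
  have back' : ∀ z w, θ2 w = z → (θ2⁻¹ : ℂ ≃ₜ ℂ) z = w := by
    rintro z w rfl
    exact θ2.symm_apply_apply w
  have key : ∀ S : Set ℂ, (θ2⁻¹ * σ * g * θ1) '' S = ⇑(θ2⁻¹) '' (σ '' (g '' (θ1 '' S))) := by
    intro S
    rw [← image_comp, ← image_comp, ← image_comp]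
    rfl
  refine ⟨θ2⁻¹ * σ * g * θ1, ?_, ?_, ?_⟩
  · rcases g3 with g3 | ⟨g', g7, rfl⟩
    · left
      exact ((c1.inv.mul s1).mul g3).mul a1
    · right
      have : θ2⁻¹ * σ * (g' * conjH) * θ1 * conjH = θ2⁻¹ * σ * g' * (conjH * θ1 * conjH) := by
        simp only [mul_assoc]
      rw [this]
      exact ((c1.inv.mul s1).mul g7).ori.mul a1.ori.conj
  · intro i hi
    rw [key]
    apply back
    by_cases hi0 : i = 0
    · subst hi0
      rw [c12, a12, image_union, image_union, g2, g6, g4, fp, s3 0 hi]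
    by_cases hil : i = n - 1
    · subst hil
      rw [c13, a13, image_union, image_union, g2, g6, g5, fq, s3 _ hi]
    rw [a14 i (by omega) (by omega), c14 i (by omega) (by omega), s3 i hi]
  · intro i hi
    show (θ2⁻¹ : ℂ ≃ₜ ℂ) (σ (g (θ1 (r i)))) = _
    apply back'
    by_cases hi0 : i = 0
    · subst hi0
      rw [← hR1, ← hR2, a10, c10, g6, fR]
    · rw [a11 i (by omega) hi, c11 i (by omega) hi, s4 i hi.le]

end Pool.Agent.V8H80
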