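import Pool.Agent.V8H80.Cut
import Pool.Agent.V8H80.Grid

/-!
The cut lemma on the lattice, in both directions (helper80, MP_cbfcf7_gt).
-/

set_option autoImplicit false

open Set Topology Filter

namespace Pool.Agent.V8H80

/-- lattice coordinates -/
structure Lat (u v : ℂ → ℝ) (w : ℂ) (t : ℝ) (M K : ℤ) (W : ℤ → ℤ → ℂ) : Prop where
  crd : Crd u v w
  inj : ∀ {a b a' b' : ℤ}, W a b = W a' b' → a = a' ∧ b = b'
  uW : ∀ a b, u (W a b) = t * a
  vW : ∀ a b, v (W a b) = t * b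
  hs : ∀ {a b : ℤ} {z : ℂ}, z ∈ segment ℝ (W a b) (W (a + 1) b) ↔
    v z = t * b ∧ t * a ≤ u z ∧ u z ≤ t * (a + 1)
  vs : ∀ {a b : ℤ} {z : ℂ}, z ∈ segment ℝ (W a b) (W a (b + 1)) ↔
    u z = t * a ∧ t * b ≤ v z ∧ v z ≤ t * (b + 1)
  uv : ∀ z z', u z = u z' → v z = v z' → z = z'
  hA : ∀ {a b : ℤ}, -K ≤ a → a + 1 ≤ K → -K ≤ b → b ≤ K → M ∣ b → GA t M K (W a b) (W (a + 1) b)
  vA : ∀ {a b : ℤ}, -K ≤ a → a ≤ K → -K ≤ b → b + 1 ≤ K → M ∣ a → GA t M K (W a b) (W a (b + 1))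
  nu : ∀ z z', |u z - u z'| ≤ ‖z - z'‖
  nv : ∀ z z', |v z - v z'| ≤ ‖z - z'‖
  box : ∀ z, (-(t * K) ≤ u z ∧ u z ≤ t * K ∧ -(t * K) ≤ v z ∧ v z ≤ t * K) ↔
    (-(t * K) ≤ z.re ∧ z.re ≤ t * K ∧ -(t * K) ≤ z.im ∧ z.im ≤ t * K)

theorem lat1 {t : ℝ} (ht : 0 < t) (M K : ℤ) :
    Lat (fun z => z.re) (fun z => z.im) 1 t M K (V t) where
  crd := crd_one
  inj := V_inj ht
  uW := fun a b => rfl
  vW := fun a b => rfl
  hs := mem_hseg ht
  vs := mem_vseg ht
  uv := fun z z' h1 h2 => Complex.ext h1 h2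
  hA := GA_h
  vA := GA_v
  nu := fun z z' => by
    rw [← Complex.sub_re]; exact Complex.abs_re_le_norm _
  nv := fun z z' => by
    rw [← Complex.sub_im]; exact Complex.abs_im_le_norm _
  box := fun z => Iff.rfl

theorem lat2 {t : ℝ} (ht : 0 < t) (M K : ℤ) :
    Lat (fun z => z.im) (fun z => z.re) Complex.I t M K (fun a b => V t b a) where
  crd := crd_I
  inj := fun h => (V_inj ht h).symm
  uW := fun a b => rfl
  vW := fun a b => rfl
  hs := mem_vseg ht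
  vs := mem_hseg ht
  uv := fun z z' h1 h2 => Complex.ext h2 h1
  hA := fun h1 h2 h3 h4 h5 => GA_v h3 h4 h1 h2 h5
  vA := fun h1 h2 h3 h4 h5 => GA_h h3 h4 h1 h2 h5
  nu := fun z z' => by
    rw [← Complex.sub_im]; exact Complex.abs_im_le_norm _
  nv := fun z z' => by
    rw [← Complex.sub_re]; exact Complex.abs_re_le_norm _
  box := fun z => by tauto

variable {u v : ℂ → ℝ} {w : ℂ} {t : ℝ} {M K : ℤ} {W : ℤ → ℤ → ℂ}
  {A : ℂ → ℂ → Set ℂ} {f γ : ℂ ≃ₜ ℂ}

/-- the boundary edges of a lattice rectangle -/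
def BE (W : ℤ → ℤ → ℂ) (a0 a1 b0 b1 : ℤ) (x y : ℂ) : Prop :=
  (∃ a b : ℤ, a0 ≤ a ∧ a + 1 ≤ a1 ∧ (b = b0 ∨ b = b1) ∧ x = W a b ∧ y = W (a + 1) b) ∨
  (∃ a b : ℤ, b0 ≤ b ∧ b + 1 ≤ b1 ∧ (a = a0 ∨ a = a1) ∧ x = W a b ∧ y = W a (b + 1))

/-- unit intervals cover -/
lemma int_cover {t : ℝ} (ht : 0 < t) {a b : ℤ} (hab : a < b) {x : ℝ} (h1 : t * a ≤ x)
    (h2 : x ≤ t * b) : ∃ c : ℤ, a ≤ c ∧ c + 1 ≤ b ∧ t * c ≤ x ∧ x ≤ t * (c + 1) := by
  rcases h2.eq_or_lt with h | h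
  · refine ⟨b - 1, by omega, by omega, ?_, ?_⟩
    · rw [h]; push_cast; nlinarith
    · rw [h]; push_cast; nlinarith
  · refine ⟨⌊x / t⌋, ?_, ?_, ?_, ?_⟩
    · rw [Int.le_floor, le_div_iff₀ ht]; linarith
    · rw [Int.add_one_le_iff, Int.floor_lt, div_lt_iff₀ ht]; linarith
    · have := Int.floor_le (x / t)
      rw [le_div_iff₀ ht] at this
      linarith
    · have := (Int.lt_floor_add_one (x / t)).le
      rw [div_le_iff₀ ht] at this
      linarith

lemma BE_cover (hL : Lat u v w t M K W) (ht : 0 < t) {a0 a1 b0 b1 : ℤ} (ha : a0 < a1)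
    (hb : b0 < b1) {z : ℂ} (h1 : z ∈ pg u v (t * a0) (t * a1) (t * b0) (t * b1))
    (h2 : z ∉ st u v (t * a0) (t * a1) (t * b0) (t * b1)) :
    ∃ x y, BE W a0 a1 b0 b1 x y ∧ z ∈ segment ℝ x y := by
  obtain ⟨c1, c2, c3, c4⟩ := h1
  have hH : ∀ b : ℤ, (b = b0 ∨ b = b1) → v z = t * b →
      ∃ x y, BE W a0 a1 b0 b1 x y ∧ z ∈ segment ℝ x y := by
    intro b hb h
    obtain ⟨c, d1, d2, d3, d4⟩ := int_cover ht ha c1 c2
    exact ⟨_, _, Or.inl ⟨c, b, d1, d2, hb, rfl, rfl⟩, hL.hs.2 ⟨h, d3, d4⟩⟩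
  have hV : ∀ a : ℤ, (a = a0 ∨ a = a1) → u z = t * a →
      ∃ x y, BE W a0 a1 b0 b1 x y ∧ z ∈ segment ℝ x y := by
    intro a ha h
    obtain ⟨c, d1, d2, d3, d4⟩ := int_cover ht hb c3 c4
    exact ⟨_, _, Or.inr ⟨a, c, d1, d2, ha, rfl, rfl⟩, hL.vs.2 ⟨h, d3, d4⟩⟩
  by_cases e1 : u z = t * a0
  · exact hV a0 (Or.inl rfl) e1
  by_cases e2 : u z = t * a1
  · exact hV a1 (Or.inr rfl) e2
  by_cases e3 : v z = t * b0
  · exact hH b0 (Or.inl rfl) e3
  by_cases e4 : v z = t * b1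
  · exact hH b1 (Or.inr rfl) e4
  exfalso
  exact h2 ⟨lt_of_le_of_ne c1 (Ne.symm e1), lt_of_le_of_ne c2 e2, lt_of_le_of_ne c3 (Ne.symm e3),
    lt_of_le_of_ne c4 e4⟩

/-- the union of the edges on a line -/
lemma line_union (hL : Lat u v w t M K W) (ht : 0 < t) (c b0 : ℤ) {n : ℕ} (hn : 0 < n) :
    (⋃ i < n, segment ℝ (W c (b0 + i)) (W c (b0 + (i + 1 : ℕ)))) =
      {z | u z = t * c ∧ t * b0 ≤ v z ∧ v z ≤ t * (b0 + n)} := by
  have e : ∀ i : ℕ, W c (b0 + (i + 1 : ℕ)) = W c (b0 + i + 1) := by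
    intro i
    congr 1
    push_cast
    ring
  ext z
  simp only [mem_iUnion, exists_prop]
  constructor
  · rintro ⟨i, hi, hz⟩
    rw [e, hL.vs] at hz
    obtain ⟨z1, z2, z3⟩ := hz
    push_cast at z2 z3
    have : (i : ℝ) + 1 ≤ n := by exact_mod_cast hi
    have h0 : (0 : ℝ) ≤ i := Nat.cast_nonneg i
    exact ⟨z1, by nlinarith, by nlinarith⟩
  · rintro ⟨z1, z2, z3⟩
    obtain ⟨d, d1, d2, d3, d4⟩ := int_cover (a := b0) (b := b0 + n) ht (by omega) z2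
      (by push_cast; exact z3)
    refine ⟨(d - b0).toNat, by omega, ?_⟩
    rw [e, hL.vs]
    have : b0 + ((d - b0).toNat : ℤ) = d := by omega
    rw [this]
    exact ⟨z1, d3, d4⟩

lemma line_seg (hL : Lat u v w t M K W) (ht : 0 < t) (c b0 : ℤ) {n : ℕ} (hn : 0 < n) :
    segment ℝ (W c (b0 + (0 : ℕ))) (W c (b0 + n)) =
      {z | u z = t * c ∧ t * b0 ≤ v z ∧ v z ≤ t * (b0 + n)} := by
  ext z
  rw [mem_seg_iff]
  have hn' : (0 : ℝ) < n := by exact_mod_cast hn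
  have hp : 0 < t * n := mul_pos ht hn'
  constructor
  · rintro ⟨s, h0, h1, rfl⟩
    show u _ = _ ∧ _ ≤ v _ ∧ v _ ≤ _
    rw [hL.crd.hu.line, hL.crd.hv.line, hL.uW, hL.uW, hL.vW, hL.vW]
    push_cast
    have h2 : 0 ≤ s * (t * n) := mul_nonneg h0 hp.le
    have h3 : s * (t * n) ≤ t * n := mul_le_of_le_one_left hp.le h1
    refine ⟨by ring, by nlinarith, by nlinarith⟩
  · rintro ⟨h1, h2, h3⟩
    refine ⟨(v z - t * b0) / (t * n), div_nonneg (by linarith) hp.le,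
      (div_le_one hp).2 (by linarith), ?_⟩
    apply hL.uv
    · rw [hL.crd.hu.line, hL.uW, hL.uW, h1]
      ring
    · rw [hL.crd.hv.line, hL.vW, hL.vW]
      push_cast
      field_simp
      ring

theorem vcut (hear : S_ear) (hsl : S_slideN) (hface : S_face) (hf : Ori f) (ht : 0 < t)
    {M' : ℤ} (hM' : 0 < M') (hM : M = 2 * M') (hL : Lat u v w t M K W) (hN : Net (GA t M K) A f)
    {ρ : ℝ}
    (hcl : ∀ x y, GA t M K x y → ∀ p ∈ segment ℝ x y, ∀ q ∈ A x y, ‖q - f p‖ < ρ)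
    (hsep : ∀ p m : ℂ, (-(t * K) ≤ p.re ∧ p.re ≤ t * K ∧ -(t * K) ≤ p.im ∧ p.im ≤ t * K) →
      (-(t * K) ≤ m.re ∧ m.re ≤ t * K ∧ -(t * K) ≤ m.im ∧ m.im ≤ t * K) →
      t * M' ≤ ‖p - m‖ → ρ ≤ ‖f p - f m‖)
    {a0 a1 b0 b1 c : ℤ} (k1 : -K ≤ a0) (k2 : a1 ≤ K) (k3 : -K ≤ b0) (k4 : b1 ≤ K)
    (k5 : a0 + M ≤ c) (k6 : c + M ≤ a1) (k7 : b0 + M ≤ b1) (hc : M ∣ c) (hb0 : M ∣ b0)
    (hb1 : M ∣ b1) (ha0 : M ∣ a0) (ha1 : M ∣ a1) (hγ : Nice γ)
    (hB : ∀ x y, BE W a0 a1 b0 b1 x y → Mt A f γ x y) :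
    ∃ γ' : ℂ ≃ₜ ℂ, Nice γ' ∧
      (∀ z, z ∉ st u v (t * a0) (t * a1) (t * b0) (t * b1) → γ' z = γ z) ∧
      ∀ b, b0 ≤ b → b + 1 ≤ b1 → Mt A f γ' (W c b) (W c (b + 1)) := by
  obtain ⟨n, hn⟩ : ∃ n : ℕ, (n : ℤ) = b1 - b0 := ⟨(b1 - b0).toNat, by omega⟩
  obtain ⟨k, hk⟩ : ∃ k : ℕ, (k : ℤ) = M' := ⟨M'.toNat, by omega⟩
  have hn0 : 0 < n := by omega
  obtain ⟨r, hr⟩ : ∃ r : ℕ → ℂ, ∀ i, r i = W c (b0 + i) := ⟨fun i => W c (b0 + i), fun i => rfl⟩
  have hr1 : ∀ i : ℕ, r (i + 1) = W c (b0 + i + 1) := by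
    intro i
    rw [hr]
    congr 1
    push_cast
    ring
  have hinj : ∀ i j, i ≤ n → j ≤ n → r i = r j → i = j := by
    intro i j _ _ h
    rw [hr, hr] at h
    have := (hL.inj h).2
    omega
  have hadj : ∀ i, i < n → GA t M K (r i) (r (i + 1)) := by
    intro i hi
    rw [hr, hr1]
    exact hL.vA (by omega) (by omega) (by omega) (by omega) hc
  have hC := hN.chn hinj hadj
  have hC' := (net_straight ht).chn hinj hadj
  have hun : (⋃ i < n, segment ℝ (r i) (r (i + 1))) = segment ℝ (r 0) (r n) := by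
    have h1 := line_union hL ht c b0 hn0
    rw [← line_seg hL ht c b0 hn0] at h1
    simp only [hr]
    exact h1
  have hBEadj : ∀ x y, BE W a0 a1 b0 b1 x y → GA t M K x y := by
    rintro x y (⟨a, b, h1, h2, h3, rfl, rfl⟩ | ⟨a, b, h1, h2, h3, rfl, rfl⟩)
    · rcases h3 with rfl | rfl
      · exact hL.hA (by omega) (by omega) (by omega) (by omega) hb0
      · exact hL.hA (by omega) (by omega) (by omega) (by omega) hb1
    · rcases h3 with rfl | rfl
      · exact hL.vA (by omega) (by omega) (by omega) (by omega) ha0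
      · exact hL.vA (by omega) (by omega) (by omega) (by omega) ha1
  have hrn : r n = W c b1 := by
    rw [hr]
    congr 1
    omega
  have hr0 : r 0 = W c b0 := by
    rw [hr]
    congr 1
    simp
  -- the end points
  have h0 : γ (r 0) = f (r 0) := by
    rw [hr0]
    exact (hB _ _ (Or.inl ⟨c, b0, by omega, by omega, Or.inl rfl, rfl, rfl⟩)).1
  have hl : γ (r n) = f (r n) := by
    rw [hrn]
    exact (hB _ _ (Or.inl ⟨c, b1, by omega, by omega, Or.inr rfl, rfl, rfl⟩)).1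
  have hu0 : u (r 0) = t * c := by rw [hr, hL.uW]
  have hun' : u (r n) = t * c := by rw [hr, hL.uW]
  have huk : u (r k) = t * c := by rw [hr, hL.uW]
  have hv0 : v (r 0) = t * b0 := by rw [hr0, hL.vW]
  have hvn : v (r n) = t * b1 := by rw [hrn, hL.vW]
  have hvk : v (r k) = t * (b0 + M') := by
    rw [hr, hL.vW, hk]
    push_cast
    ring
  have cast1 : (a0 : ℝ) + M ≤ c := by exact_mod_cast k5
  have cast2 : (c : ℝ) + M ≤ a1 := by exact_mod_cast k6
  have cast3 : (b0 : ℝ) + M ≤ b1 := by exact_mod_cast k7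
  have cast4 : (M : ℝ) = 2 * M' := by exact_mod_cast hM
  have cast5 : (0 : ℝ) < M' := by exact_mod_cast hM'
  have cast6 : -(K : ℝ) ≤ a0 := by exact_mod_cast k1
  have cast7 : (a1 : ℝ) ≤ K := by exact_mod_cast k2
  have cast8 : -(K : ℝ) ≤ b0 := by exact_mod_cast k3
  have cast9 : (b1 : ℝ) ≤ K := by exact_mod_cast k4
  have htM : 0 < t * M' := mul_pos ht cast5
  have f1 : t * a0 + 2 * (t * M') ≤ t * c := by
    have := mul_le_mul_of_nonneg_left cast1 ht.le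
    rw [cast4] at this
    linarith
  have f2 : t * c + 2 * (t * M') ≤ t * a1 := by
    have := mul_le_mul_of_nonneg_left cast2 ht.le
    rw [cast4] at this
    linarith
  have f3 : t * b0 + 2 * (t * M') ≤ t * b1 := by
    have := mul_le_mul_of_nonneg_left cast3 ht.le
    rw [cast4] at this
    linarith
  have f4 : t * (b0 + M') = t * b0 + t * M' := by ring
  have f5 : -(t * K) ≤ t * a0 := by
    have := mul_le_mul_of_nonneg_left cast6 ht.le
    linarith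
  have f6 : t * a1 ≤ t * K := mul_le_mul_of_nonneg_left cast7 ht.le
  have f7 : -(t * K) ≤ t * b0 := by
    have := mul_le_mul_of_nonneg_left cast8 ht.le
    linarith
  have f8 : t * b1 ≤ t * K := mul_le_mul_of_nonneg_left cast9 ht.le
  obtain ⟨γ', g1, g2, g3, g4⟩ := cut hear hsl hface hL.crd hf hγ hC hC' hun h0 hl
    (x0 := t * a0) (x1 := t * a1) (y0 := t * b0) (y1 := t * b1) (xe := t * c)
    (by linarith) (by linarith) hu0 hv0 hun' hvn (k := k) (by omega) (by omega) huk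
    (by rw [hvk, f4]; constructor <;> linarith) (by
      intro x hx1 hx2
      obtain ⟨p, q, hpq, hx⟩ := BE_cover hL ht (by omega) (by omega) hx1 hx2
      have h1 : ‖γ x - f x‖ < ρ := by
        apply hcl p q (hBEadj p q hpq) x hx
        rw [← (hB p q hpq).2.2]
        exact ⟨x, hx, rfl⟩
      refine h1.trans_le (hsep x (r k) ?_ ?_ ?_)
      · rw [← hL.box]
        obtain ⟨x1, x2, x3, x4⟩ := hx1
        refine ⟨by linarith, by linarith, by linarith, by linarith⟩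
      · rw [← hL.box, huk, hvk, f4]
        refine ⟨by linarith, by linarith, by linarith, by linarith⟩
      · have e1 := hL.nu x (r k)
        have e2 := hL.nv x (r k)
        rw [huk] at e1
        rw [hvk, f4] at e2
        have e3 := le_abs_self (u x - t * c)
        have e4 := neg_abs_le (u x - t * c)
        have e5 := le_abs_self (v x - (t * b0 + t * M'))
        have e6 := neg_abs_le (v x - (t * b0 + t * M'))
        obtain ⟨x1, x2, x3, x4⟩ := hx1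
        by_contra hcon
        push Not at hcon
        apply hx2
        refine ⟨?_, ?_, ?_, ?_⟩ <;> linarith) (by
      intro x hx1 hx2 i hi hx3
      obtain ⟨p, q, hpq, hx⟩ := BE_cover hL ht (by omega) (by omega) hx1 hx2
      have hx4 : γ x ∈ A p q := by
        rw [← (hB p q hpq).2.2]
        exact ⟨x, hx, rfl⟩
      -- the edges are different
      have hvert : ∀ y, (y = r i ∨ y = r (i + 1)) → (y = p ∨ y = q) → y = r 0 ∨ y = r n := by
        intro y hy1 hy2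
        obtain ⟨j, hj, hyj⟩ : ∃ j : ℕ, j ≤ n ∧ y = W c (b0 + j) := by
          rcases hy1 with rfl | rfl
          · exact ⟨i, hi.le, hr i⟩
          · exact ⟨i + 1, hi, hr (i + 1)⟩
        have : j = 0 ∨ j = n := by
          rcases hpq with ⟨a, b, h1, h2, h3, rfl, rfl⟩ | ⟨a, b, h1, h2, h3, rfl, rfl⟩
          · rcases hy2 with h | h <;> rw [hyj] at h <;> have := hL.inj h <;> omega
          · rcases hy2 with h | h <;> rw [hyj] at h <;> have := hL.inj h <;> omega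
        rcases this with rfl | rfl
        · left; rw [hyj, hr]
        · right; rw [hyj, hr]
      obtain ⟨y, h1, h2, h3⟩ := hN.int p q (r i) (r (i + 1)) (hBEadj p q hpq) (hadj i hi)
        (by
          rintro ⟨e1, e2⟩
          rw [hr] at e1
          rw [hr1] at e2
          rcases hpq with ⟨a, b, h1, h2, h3, rfl, rfl⟩ | ⟨a, b, h1, h2, h3, rfl, rfl⟩
          · have := hL.inj e1; have := hL.inj e2; omega
          · have := hL.inj e1; have := hL.inj e2; omega)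
        (by
          rintro ⟨e1, e2⟩
          rw [hr1] at e1
          rw [hr] at e2
          rcases hpq with ⟨a, b, h1, h2, h3, rfl, rfl⟩ | ⟨a, b, h1, h2, h3, rfl, rfl⟩
          · have := hL.inj e1; have := hL.inj e2; omega
          · have := hL.inj e1; have := hL.inj e2; omega) (γ x) hx4 hx3
      rw [h1]
      rcases hvert y h3 h2 with rfl | rfl
      · exact Or.inl rfl
      · exact Or.inr rfl)
  refine ⟨γ', g1, g2, fun b h1 h2 => ?_⟩
  obtain ⟨i, hi⟩ : ∃ i : ℕ, (i : ℤ) = b - b0 := ⟨(b - b0).toNat, by omega⟩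
  have e1 : r i = W c b := by rw [hr]; congr 1; omega
  have e2 : r (i + 1) = W c (b + 1) := by rw [hr1]; congr 1; omega
  rw [← e1, ← e2]
  exact ⟨g4 i (by omega), g4 (i + 1) (by omega), g3 i (by omega)⟩

end Pool.Agent.V8H80
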