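import Pool.Agent.V8H80.KiteB
import Pool.Agent.V8H80.Stm2

/-!
MP_cbfcf7_gt, third set of statements (helper80).
-/

set_option autoImplicit false

namespace Pool.Agent.V8H80

/-- chains of arcs: the arc `A i` goes from `r i` to `r (i + 1)`, for `i < n` -/
def Chn (n : ℕ) (A : ℕ → Set ℂ) (r : ℕ → ℂ) : Prop :=
  (∀ i, i < n → Arc (A i) (r i) (r (i + 1))) ∧
    ∀ i j, i < j → j < n → ∀ z, z ∈ A i → z ∈ A j → j = i + 1 ∧ z = r j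

/-- P6 (new form): sliding marked points along a segment -/
def S_slideN : Prop := ∀ (n : ℕ) (A A' : ℕ → Set ℂ) (r r' : ℕ → ℂ), 0 < n → Chn n A r →
  Chn n A' r' → r 0 = r' 0 → r n = r' n → (⋃ i < n, A i) = segment ℝ (r 0) (r n) →
  (⋃ i < n, A' i) = segment ℝ (r 0) (r n) → ∀ O : Set ℂ, IsOpen O →
  openSegment ℝ (r 0) (r n) ⊆ O →
  ∃ θ : ℂ ≃ₜ ℂ, Nice θ ∧ (∀ z, z ∉ O → θ z = z) ∧ (∀ i, i < n → θ '' A i = A' i) ∧
    ∀ i, i ≤ n → θ (r i) = r' i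

/-- P5: orientation preserving affine maps -/
def S_aff : Prop := ∀ a b c : ℂ, ‖b‖ < ‖a‖ →
  ∃ g : ℂ ≃ₜ ℂ, Nice g ∧ ∀ z, g z = a * z + b * (starRingEnd ℂ) z + c

end Pool.Agent.V8H80
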