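import Pool.Agent.V8H80.Head
import Pool.Agent.V8H80.Stm3

/-!
Normal form of closed polygonal chains with a strictly extreme base point (helper80,
MP_cbfcf7_gt).
-/

set_option autoImplicit false

open Set Topology Filter

namespace Pool.Agent.V8H80

/-- strictly extreme points -/
def Ext (R : ℂ) (J : Set ℂ) : Prop := ∃ u : ℂ → ℝ, IsAf u ∧ ∀ z ∈ J, z ≠ R → u z < u R

/-- closed chains -/
def Cyn (n : ℕ) (A : ℕ → Set ℂ) (r : ℕ → ℂ) : Prop :=
  (∀ i, i < n → Arc (A i) (r i) (r (i + 1))) ∧ r n = r 0 ∧
    ∀ i j, i < j → j < n → ∀ z, z ∈ A i → z ∈ A j →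
      (j = i + 1 ∧ z = r j) ∨ (i = 0 ∧ j + 1 = n ∧ z = r 0)

variable {n : ℕ} {A : ℕ → Set ℂ} {r : ℕ → ℂ}

theorem Chn.image (h : Chn n A r) {g : ℂ ≃ₜ ℂ} (hg : PolyM g) :
    Chn n (fun i => g '' A i) (fun i => g (r i)) := by
  refine ⟨fun i hi => hg _ _ _ (h.1 i hi), ?_⟩
  rintro i j hij hj z ⟨x, hx, rfl⟩ ⟨y, hy, e⟩
  have e' := g.injective e
  subst e'
  obtain ⟨h1, h2⟩ := h.2 i j hij hj y hx hy
  exact ⟨h1, by rw [h2]⟩

theorem Cyn.image (h : Cyn n A r) {g : ℂ ≃ₜ ℂ} (hg : PolyM g) :
    Cyn n (fun i => g '' A i) (fun i => g (r i)) := by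
  refine ⟨fun i hi => hg _ _ _ (h.1 i hi), by show g (r n) = g (r 0); rw [h.2.1], ?_⟩
  rintro i j hij hj z ⟨x, hx, rfl⟩ ⟨y, hy, e⟩
  have e' := g.injective e
  subst e'
  rcases h.2.2 i j hij hj y hx hy with ⟨h1, h2⟩ | ⟨h1, h2, h3⟩
  · exact Or.inl ⟨h1, by rw [h2]⟩
  · exact Or.inr ⟨h1, h2, by rw [h3]⟩

theorem Chn.arc (hn : 0 < n) (h : Chn n A r) : Arc (⋃ i < n, A i) (r 0) (r n) := by
  induction n with
  | zero => exact absurd hn (lt_irrefl _)
  | succ n ih =>
    rcases Nat.eq_zero_or_pos n with rfl | hn'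
    · have e : (⋃ i < 1, A i) = A 0 := by
        ext z
        simp
      rw [e]
      exact h.1 0 one_pos
    · have h' : Chn n A r := ⟨fun i hi => h.1 i (by omega), fun i j hij hj => h.2 i j hij (by omega)⟩
      have e : (⋃ i < n + 1, A i) = (⋃ i < n, A i) ∪ A n := by
        ext z
        simp only [mem_iUnion, mem_union]
        constructor
        · rintro ⟨i, hi, hz⟩
          rcases Nat.lt_succ_iff_lt_or_eq.1 hi with h | rfl
          · exact Or.inl ⟨i, h, hz⟩
          · exact Or.inr hz
        · rintro (⟨i, hi, hz⟩ | hz)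
          · exact ⟨i, by omega, hz⟩
          · exact ⟨n, by omega, hz⟩
      rw [e]
      refine (ih hn' h').append' (h.1 n (by omega)) ?_
      rintro z ⟨hz1, hz2⟩
      simp only [mem_iUnion] at hz1
      obtain ⟨i, hi, hz1⟩ := hz1
      exact (h.2 i n hi (by omega) z hz1 hz2).2

lemma image_biUnion (g : ℂ → ℂ) (n : ℕ) (A : ℕ → Set ℂ) :
    (⋃ i < n, g '' A i) = g '' (⋃ i < n, A i) := by
  rw [image_iUnion₂]

lemma convex_level {u : ℂ → ℝ} (hu : IsAf u) {t : ℝ} {q : ℂ} (hq : u q = t) :
    Convex ℝ ({z | u z < t} ∪ {q}) := by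
  intro x hx y hy a b ha hb hab
  rcases hx with hx | hx <;> rcases hy with hy | hy
  · left
    show u _ < t
    have hx' : u x < t := hx
    have hy' : u y < t := hy
    rw [hu.comb _ _ _ _ hab]
    have e : t = a * t + b * t := by rw [← add_mul, hab, one_mul]
    rw [e]
    rcases ha.eq_or_lt with h0 | h0
    · have : b = 1 := by linarith
      subst this
      rw [← h0]
      linarith
    · have := mul_lt_mul_of_pos_left hx' h0
      have := mul_le_mul_of_nonneg_left hy'.le hb
      linarith
  · rw [mem_singleton_iff] at hy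
    have hx' : u x < t := hx
    subst hy
    rcases ha.eq_or_lt with h0 | h0
    · right
      have : b = 1 := by linarith
      subst this
      rw [← h0]
      simp
    · left
      show u _ < t
      rw [hu.comb _ _ _ _ hab, hq]
      have e : t = a * t + b * t := by rw [← add_mul, hab, one_mul]
      have := mul_lt_mul_of_pos_left hx' h0
      linarith
  · rw [mem_singleton_iff] at hx
    have hy' : u y < t := hy
    subst hx
    rcases hb.eq_or_lt with h0 | h0
    · right
      have : a = 1 := by linarith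
      subst this
      rw [← h0]
      simp
    · left
      show u _ < t
      rw [hu.comb _ _ _ _ hab, hq]
      have e : t = a * t + b * t := by rw [← add_mul, hab, one_mul]
      have := mul_lt_mul_of_pos_left hy' h0
      linarith
  · rw [mem_singleton_iff] at hx hy
    subst hx
    subst hy
    right
    rw [mem_singleton_iff, ← add_smul, hab, one_smul]

/-- the normal form -/
theorem normal_form (hear : S_ear) (hn : 2 ≤ n) (h : Cyn n A r)
    (he : Ext (r 0) (⋃ i < n, A i)) :
    ∃ (θ : ℂ ≃ₜ ℂ) (p q : ℂ) (B : ℕ → Set ℂ) (b : ℕ → ℂ) (u : ℂ → ℝ),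
      Nice θ ∧ IsAf u ∧ u p = u q ∧ u p < u (r 0) ∧ p ≠ q ∧ Chn n B b ∧ b 0 = p ∧ b n = q ∧
      (⋃ i < n, B i) = segment ℝ p q ∧ θ (r 0) = r 0 ∧ (∀ i, 0 < i → i < n → θ (r i) = b i) ∧
      θ '' A 0 = segment ℝ (r 0) p ∪ B 0 ∧ θ '' A (n - 1) = segment ℝ (r 0) q ∪ B (n - 1) ∧
      ∀ i, 0 < i → i + 1 < n → θ '' A i = B i := by
  obtain ⟨u, hu, hlt⟩ := he
  set R := r 0 with hR
  obtain ⟨h1, h2, h3⟩ := h
  have a0 : Arc (A 0) R (r 1) := h1 0 (by omega)
  have al : Arc (A (n - 1)) (r (n - 1)) R := by
    have := h1 (n - 1) (by omega)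
    rwa [show n - 1 + 1 = n by omega, h2] at this
  obtain ⟨x, K, x1, x2, x3, x4, x5, x6, x7⟩ := a0.head
  obtain ⟨y, L, y1, y2, y3, y4, y5, y6, y7⟩ := al.symm.head
  have hRK := head_notMem x1 x6
  have hRL := head_notMem y1 y6
  have hRA : ∀ i, 0 < i → i + 1 < n → R ∉ A i := by
    intro i hi0 hin hRi
    rcases h3 0 i hi0 (by omega) R a0.left_mem hRi with ⟨e1, e2⟩ | ⟨e1, e2, e3⟩
    · rw [e1] at e2
      exact a0.ne e2
    · omega
  -- the level
  obtain ⟨M, hM, hMR⟩ : ∃ M : ℝ, (∀ z, (z ∈ K ∨ z ∈ L ∨ ∃ i, 0 < i ∧ i + 1 < n ∧ z ∈ A i) →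
      u z ≤ M) ∧ M < u R := by
    have hcp : IsCompact (K ∪ L ∪ ⋃ i ∈ {i | 0 < i ∧ i + 1 < n}, A i) := by
      refine (x2.union y2).union ?_
      refine Set.Finite.isCompact_biUnion ?_ ?_
      · exact (finite_lt_nat n).subset fun i hi => by
          have h := hi.2
          show i < n
          omega
      · intro i hi
        exact (h1 i (by have h := hi.2; omega)).isCompact
    obtain ⟨m, hm1, hm2⟩ := hcp.exists_isMaxOn ⟨x, Or.inl (Or.inl x3)⟩ hu.cont.continuousOn
    refine ⟨u m, ?_, ?_⟩
    · intro z hz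
      apply hm2
      rcases hz with hz | hz | ⟨i, h1, h2, hz⟩
      · exact Or.inl (Or.inl hz)
      · exact Or.inl (Or.inr hz)
      · right
        simp only [mem_iUnion]
        exact ⟨i, ⟨h1, h2⟩, hz⟩
    · rcases hm1 with (hm | hm) | hm
      · apply hlt
        · simp only [mem_iUnion]
          exact ⟨0, by omega, by rw [x5]; exact Or.inr hm⟩
        · rintro rfl; exact hRK hm
      · apply hlt
        · simp only [mem_iUnion]
          exact ⟨n - 1, by omega, by rw [y5]; exact Or.inr hm⟩
        · rintro rfl; exact hRL hm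
      · simp only [mem_iUnion] at hm
        obtain ⟨i, hi, hm⟩ := hm
        apply hlt
        · simp only [mem_iUnion]
          exact ⟨i, by have h := hi.2; omega, hm⟩
        · rintro rfl; exact hRA i hi.1 hi.2 hm
  obtain ⟨t, ht1, ht2⟩ := exists_between hMR
  have hux : u x < t := (hM x (Or.inl x3)).trans_lt ht1
  have huy : u y < t := (hM y (Or.inr (Or.inl y3))).trans_lt ht1
  -- the points p and q
  have key : ∀ x : ℂ, R ≠ x → u x < t → ∃ p, p ∈ segment ℝ R x ∧ p ≠ x ∧ u p = t ∧
      (∀ z ∈ segment ℝ p x, z ≠ p → u z < t) ∧ (∀ z ∈ segment ℝ R p, z ≠ p → t < u z) := by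
    intro x hRx hux
    have hd : 0 < u R - u x := by linarith
    have hs0 : 0 < (u R - t) / (u R - u x) := div_pos (by linarith) hd
    have hs1 : (u R - t) / (u R - u x) < 1 := by rw [div_lt_one hd]; linarith
    have hup : u (R + (((u R - t) / (u R - u x) : ℝ) : ℂ) * (x - R)) = t := by
      rw [hu.line]
      field_simp
      ring
    refine ⟨R + (((u R - t) / (u R - u x) : ℝ) : ℂ) * (x - R),
      mem_seg_iff.2 ⟨_, hs0.le, hs1.le, rfl⟩, ?_, hup, ?_, ?_⟩
    · intro e
      rw [e] at hup
      exact absurd hup hux.ne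
    · intro z hz hzp
      obtain ⟨τ, hτ0, hτ1, rfl⟩ := mem_seg_iff.1 hz
      rw [hu.line, hup]
      have : 0 < τ := by
        rcases hτ0.eq_or_lt with h | h
        · exfalso; apply hzp; rw [← h]; push_cast; ring
        · exact h
      nlinarith
    · intro z hz hzp
      obtain ⟨τ, hτ0, hτ1, rfl⟩ := mem_seg_iff.1 hz
      rw [hu.line, hup]
      have : τ < 1 := by
        rcases hτ1.eq_or_lt with h | h
        · exfalso; apply hzp; rw [h]; push_cast; ring
        · exact h
      nlinarith
  obtain ⟨p, p1, p2, p3, p4, p5⟩ := key x x1 hux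
  obtain ⟨q, q1, q2, q3, q4, q5⟩ := key y y1 huy
  have hb0 := x7 p p1 p2
  have hbl := (y7 q q1 q2).symm
  obtain ⟨x8, x9⟩ := head_cut x1 x6 p1 p2
  obtain ⟨y8, y9⟩ := head_cut y1 y6 q1 q2
  rw [← x9] at x5
  rw [← y9] at y5
  -- the chain
  set B : ℕ → Set ℂ := fun i => if i = 0 then segment ℝ p x ∪ K else
    if i = n - 1 then segment ℝ q y ∪ L else A i with hB
  set b : ℕ → ℂ := fun i => if i = 0 then p else if i = n then q else r i with hb
  have B0 : B 0 = segment ℝ p x ∪ K := by simp [hB]
  have Bl : B (n - 1) = segment ℝ q y ∪ L := by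
    show (if n - 1 = 0 then _ else if n - 1 = n - 1 then _ else _) = _
    rw [if_neg (by omega), if_pos rfl]
  have Bm : ∀ i, 0 < i → i + 1 < n → B i = A i := by
    intro i hi0 hin
    simp only [hB]
    rw [if_neg (by omega), if_neg (by omega)]
  have b0 : b 0 = p := by simp [hb]
  have bn : b n = q := by
    show (if n = 0 then _ else if n = n then _ else _) = _
    rw [if_neg (by omega), if_pos rfl]
  have bm : ∀ i, 0 < i → i < n → b i = r i := by
    intro i hi0 hin
    simp only [hb]
    rw [if_neg (by omega), if_neg (by omega)]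
  have hlev0 : ∀ i, i < n → ∀ z ∈ B i, z ≠ p → z ≠ q → u z < t := by
    intro i hi z hz hzp hzq
    by_cases hi0 : i = 0
    · subst hi0
      rw [B0] at hz
      rcases hz with hz | hz
      · exact p4 z hz hzp
      · exact (hM z (Or.inl hz)).trans_lt ht1
    by_cases hil : i = n - 1
    · subst hil
      rw [Bl] at hz
      rcases hz with hz | hz
      · exact q4 z hz hzq
      · exact (hM z (Or.inr (Or.inl hz))).trans_lt ht1
    rw [Bm i (by omega) (by omega)] at hz
    exact (hM z (Or.inr (Or.inr ⟨i, by omega, by omega, hz⟩))).trans_lt ht1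
  have hRB : ∀ i, i < n → R ∉ B i := by
    intro i hi hRi
    have := hlev0 i hi R hRi (by rintro e; rw [← e] at p3; linarith)
      (by rintro e; rw [← e] at q3; linarith)
    linarith
  have hBA : ∀ i, i < n → B i ⊆ A i := by
    intro i hi
    by_cases hi0 : i = 0
    · subst hi0
      rw [B0, x5]
      exact subset_union_right
    by_cases hil : i = n - 1
    · subst hil
      rw [Bl, y5]
      exact subset_union_right
    rw [Bm i (by omega) (by omega)]
  have hch : Chn n B b := by
    constructor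
    · intro i hi
      by_cases hi0 : i = 0
      · subst hi0
        rw [B0, b0, bm 1 one_pos (by omega)]
        exact hb0
      by_cases hil : i = n - 1
      · subst hil
        rw [Bl, bm _ (by omega) (by omega), show n - 1 + 1 = n by omega, bn]
        exact hbl
      rw [Bm i (by omega) (by omega), bm i (by omega) hi, bm (i + 1) (by omega) (by omega)]
      exact h1 i hi
    · intro i j hij hj z hz1 hz2
      rcases h3 i j hij hj z (hBA i (by omega) hz1) (hBA j hj hz2) with ⟨e1, e2⟩ | ⟨e1, e2, e3⟩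
      · exact ⟨e1, by rw [bm j (by omega) hj]; exact e2⟩
      · exfalso
        rw [e3] at hz1
        exact hRB i (by omega) hz1
  have harc := hch.arc (by omega)
  rw [b0, bn] at harc
  have hlev : ∀ z ∈ (⋃ i < n, B i), z ≠ p → z ≠ q → u z < t := by
    intro z hz
    simp only [mem_iUnion] at hz
    obtain ⟨i, hi, hz⟩ := hz
    exact hlev0 i hi z hz
  have hpq := harc.ne
  obtain ⟨θ, g1, g2, g3, g4, g5⟩ := collapse_arc hear harc (by
    rintro z ⟨hz1, hz2⟩
    by_contra hcon
    have e1 := hlev z hz2 (fun e => hcon (Or.inl e)) (fun e => hcon (Or.inr e))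
    obtain ⟨τ, hτ0, hτ1, e2⟩ := mem_seg_iff.1 hz1
    rw [e2, hu.line, p3, q3] at e1
    linarith) (S := {z | (z ∉ segment ℝ R p ∧ z ∉ segment ℝ R q) ∨ z = p ∨ z = q})
    (T := {z | u z < t} ∪ {p, q}) (by
    intro z hz
    by_cases hzp : z = p
    · exact Or.inr (Or.inl hzp)
    by_cases hzq : z = q
    · exact Or.inr (Or.inr hzq)
    exact Or.inl (hlev z hz hzp hzq)) (by
    intro a b c ha hb hbp hbq hc hcr
    have hbt : u b < t := by
      rcases hb with hb | rfl | rfl
      · exact hb
      · exact absurd rfl hbp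
      · exact absurd rfl hbq
    -- the hull only meets the two segments in a or c
    have hull : ∀ p q : ℂ, p ≠ q → u p = t → u q = t → (a ∈ {z | u z < t} ∪ {p, q}) →
        (c ∈ {z | u z < t} ∪ {p, q}) → (∀ z ∈ segment ℝ R p, z ≠ p → t < u z) →
        segment ℝ R p ∩ convexHull ℝ {a, b, c} ⊆ ({a, c} : Set ℂ) := by
      rintro p q hpq hp hq ha hc hseg z ⟨hz1, hz2⟩
      have hle : u z ≤ t := by
        have hcv : Convex ℝ {z | u z ≤ t} := by
          intro x hx y hy a b ha hb hab
          have hx' : u x ≤ t := hx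
          have hy' : u y ≤ t := hy
          show u _ ≤ t
          rw [hu.comb _ _ _ _ hab]
          have e : t = a * t + b * t := by rw [← add_mul, hab, one_mul]
          rw [e]
          exact add_le_add (mul_le_mul_of_nonneg_left hx' ha) (mul_le_mul_of_nonneg_left hy' hb)
        have hT : ∀ a, a ∈ {z | u z < t} ∪ ({p, q} : Set ℂ) → a ∈ {z | u z ≤ t} := by
          rintro a (ha | rfl | rfl)
          · exact (show u a < t from ha).le
          · exact hp.le
          · exact hq.le
        have := convexHull_min (s := {a, b, c}) (t := {z | u z ≤ t}) (by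
          rintro y (rfl | rfl | rfl)
          · exact hT _ ha
          · exact hbt.le
          · exact hT _ hc) hcv hz2
        exact this
      have hzp : z = p := by
        by_contra hne
        have := hseg z hz1 hne
        linarith
      subst hzp
      by_contra hcon
      have haz : a ≠ z := fun e => hcon (Or.inl e.symm)
      have hcz : c ≠ z := fun e => hcon (Or.inr e.symm)
      have hT : ∀ a, a ∈ {z | u z < t} ∪ ({z, q} : Set ℂ) → a ≠ z →
          a ∈ {z | u z < t} ∪ ({q} : Set ℂ) := by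
        rintro a (ha | rfl | rfl) hne
        · exact Or.inl ha
        · exact absurd rfl hne
        · exact Or.inr rfl
      have := convexHull_min (s := {a, b, c}) (t := {z | u z < t} ∪ {q}) (by
          rintro y (rfl | rfl | rfl)
          · exact hT _ ha haz
          · exact Or.inl hbt
          · exact hT _ hc hcz) (convex_level hu hq) hz2
      rcases this with h | h
      · have h' : u z < t := h
        linarith
      · exact hpq h
    obtain ⟨η₀, k1, k2⟩ := thin_list hcr [(R, p), (R, q)] (by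
      intro e he
      simp only [List.mem_cons, List.not_mem_nil, or_false] at he
      rcases he with rfl | rfl
      · exact hull p q hpq p3 q3 ha hc p5
      · refine hull q p hpq.symm q3 p3 ?_ ?_ q5
        · rw [pair_comm]; exact ha
        · rw [pair_comm]; exact hc)
    refine ⟨η₀, k1, fun η k3 k4 z hz => ?_⟩
    have hTS : ∀ a, a ∈ {z | u z < t} ∪ ({p, q} : Set ℂ) →
        a ∈ {z | (z ∉ segment ℝ R p ∧ z ∉ segment ℝ R q) ∨ z = p ∨ z = q} := by
      rintro a (ha | rfl | rfl)
      · have ha' : u a < t := ha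
        left
        constructor
        · intro hs
          have hne : a ≠ p := by rintro rfl; rw [p3] at ha'; exact lt_irrefl _ ha'
          have := p5 a hs hne
          linarith
        · intro hs
          have hne : a ≠ q := by rintro rfl; rw [q3] at ha'; exact lt_irrefl _ ha'
          have := q5 a hs hne
          linarith
      · exact Or.inr (Or.inl rfl)
      · exact Or.inr (Or.inr rfl)
    by_cases hz1 : z ∈ segment ℝ R p
    · have := k2 η k3 k4 (R, p) (by simp) ⟨hz1, hz⟩
      rcases this with rfl | rfl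
      · exact hTS _ ha
      · exact hTS _ hc
    by_cases hz2 : z ∈ segment ℝ R q
    · have := k2 η k3 k4 (R, q) (by simp) ⟨hz2, hz⟩
      rcases this with rfl | rfl
      · exact hTS _ ha
      · exact hTS _ hc
    exact Or.inl ⟨hz1, hz2⟩)
  have hfixp : ∀ z ∈ segment ℝ R p, θ z = z := by
    intro z hz
    by_cases hzp : z = p
    · rw [hzp, g3]
    by_cases hzq : z = q
    · rw [hzq, g4]
    apply g2
    rintro (⟨h, -⟩ | h | h)
    · exact h hz
    · exact hzp h
    · exact hzq h
  have hfixq : ∀ z ∈ segment ℝ R q, θ z = z := by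
    intro z hz
    by_cases hzp : z = p
    · rw [hzp, g3]
    by_cases hzq : z = q
    · rw [hzq, g4]
    apply g2
    rintro (⟨-, h⟩ | h | h)
    · exact h hz
    · exact hzp h
    · exact hzq h
  refine ⟨θ, p, q, fun i => θ '' B i, fun i => θ (b i), u, g1, hu, by rw [p3, q3],
    by rw [p3]; exact ht2, hpq, hch.image g1.poly,
    by show θ (b 0) = p; rw [b0, g3], by show θ (b n) = q; rw [bn, g4], ?_,
    hfixp R (left_mem_segment ℝ _ _), fun i hi0 hin => by
      show θ (r i) = θ (b i); rw [bm i hi0 hin], ?_, ?_,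
    fun i hi0 hin => by show θ '' A i = θ '' B i; rw [Bm i hi0 hin]⟩
  · rw [image_biUnion, g5]
  · show θ '' A 0 = segment ℝ R p ∪ θ '' B 0
    rw [x5, image_union, image_eq_of_fixed hfixp, B0]
  · show θ '' A (n - 1) = segment ℝ R q ∪ θ '' B (n - 1)
    rw [y5, image_union, image_eq_of_fixed hfixq, Bl]

end Pool.Agent.V8H80
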