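import Pool.Agent.V8H80.Top
import Pool.Agent.V8H86.Graph
import Pool.Agent.V8H86.Ear
import Pool.Agent.V8H60.Area.Main
import Pool.Agent.V8H60.Win.Main
import Pool.Agent.V8H60.Win.Aff
import Pool.Agent.V8H86.Slide

/-!
Area preserving, orientation preserving homeomorphisms of the plane are limits, uniform on compact
sets, of area preserving diffeomorphisms (helper80, MP_cbfcf7_gt).
-/

set_option autoImplicit false

open Set Topology Filter MeasureTheory

namespace Pool.Agent.V8H80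

/-- orientation preserving homeomorphisms of the plane are limits of diffeomorphisms -/
theorem appr_of_ori (f : ℂ ≃ₜ ℂ) (hf : Ori f) : Appr f := by
  intro R ε hε
  obtain ⟨γ, h1, h2⟩ := top_thm Pool.Agent.V8H86.Graph.t_graph Pool.Agent.V8H86.Ear.t_ear
    Pool.Agent.V8H86.Slide.t_slideN Pool.Agent.V8H60.Win.t_aff
    Pool.Agent.V8H60.Win.t_face Pool.Agent.V8H60.Win.t_rev f hf R (ε / 2) (half_pos hε)
  obtain ⟨h, h3, h4⟩ := h1.appr R (ε / 2) (half_pos hε)
  refine ⟨h, h3, fun z hz => ?_⟩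
  have e : h z - f z = (h z - γ z) + (γ z - f z) := by ring
  rw [e]
  exact (norm_add_le _ _).trans_lt (by linarith [h2 z hz, h4 z hz])

/-- area preserving, orientation preserving homeomorphisms of the plane are limits of area
preserving diffeomorphisms -/
theorem area_limit (f : ℂ ≃ₜ ℂ) (hf : Ori f)
    (hm : MeasurePreserving (⇑f)) (r ε : ℝ) (hε : 0 < ε) :
    ∃ h : ℂ ≃ₜ ℂ, (ContDiff ℝ ((⊤ : ℕ∞) : WithTop ℕ∞) (⇑h) ∧
      ContDiff ℝ ((⊤ : ℕ∞) : WithTop ℕ∞) (⇑h.symm) ∧ ∀ z : ℂ, (fderiv ℝ (⇑h) z).det = 1) ∧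
      ∀ z : ℂ, ‖z‖ ≤ r → ‖h z - f z‖ < ε := by
  obtain ⟨R, δ, hδ, hR⟩ := Pool.Agent.V8H60.Area.t_area f hm r ε hε
  obtain ⟨g, hg1, hg2⟩ := appr_of_ori f hf R δ hδ
  exact hR g hg1 fun z hz => (hg2 z hz).le

end Pool.Agent.V8H80
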