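import Pool.Agent.V8H80.Split

/-!
Matching two closed chains (helper80, MP_cbfcf7_gt).
-/

set_option autoImplicit false

open Set Topology Filter

namespace Pool.Agent.V8H80

variable {n : ℕ} {A A' : ℕ → Set ℂ} {r r' : ℕ → ℂ}

lemma rot_union {n : ℕ} (A : ℕ → Set ℂ) {s : ℕ} (hs : s < n) :
    (⋃ i < n, A ((i + s) % n)) = ⋃ i < n, A i := by
  ext z
  simp only [mem_iUnion, exists_prop]
  constructor
  · rintro ⟨i, hi, hz⟩
    exact ⟨_, Nat.mod_lt _ (by omega), hz⟩
  · rintro ⟨i, hi, hz⟩
    rcases le_or_gt s i with h | h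
    · refine ⟨i - s, by omega, ?_⟩
      rw [Nat.sub_add_cancel h, Nat.mod_eq_of_lt hi]
      exact hz
    · refine ⟨i + n - s, by omega, ?_⟩
      rw [Nat.sub_add_cancel (by omega), Nat.add_mod_right, Nat.mod_eq_of_lt hi]
      exact hz

/-- composition of the loop equivalence with a nice map making the base point extreme -/
theorem loop_equiv' (hear : S_ear) (hsl : S_slideN) (haff : S_aff) (hn : 2 ≤ n)
    (h : Cyn n A r) (h' : Cyn n A' r')
    (he : ∃ g : ℂ ≃ₜ ℂ, Nice g ∧ Ext (g (r 0)) (g '' ⋃ i < n, A i))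
    (he' : Ext (r' 0) (⋃ i < n, A' i)) :
    ∃ γ : ℂ ≃ₜ ℂ, (Nice γ ∨ Ori (γ * conjH)) ∧ (∀ i, i < n → γ '' A i = A' i) ∧
      ∀ i, i < n → γ (r i) = r' i := by
  obtain ⟨g, hg, hge⟩ := he
  obtain ⟨γ, h1, h2, h3⟩ := loop_equiv hear hsl haff hn (h.image hg.poly) h' (by
    rw [image_biUnion]; exact hge) he'
  refine ⟨γ * g, ?_, ?_, ?_⟩
  · rcases h1 with h1 | h1
    · exact Or.inl (h1.mul hg)
    · right
      have e : γ * g * conjH = γ * conjH * (conjH * g * conjH) := by
        have : γ * conjH * (conjH * g * conjH) = γ * (conjH * conjH) * g * conjH := by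
          simp only [mul_assoc]
        rw [this, conjH_mul_self, mul_one]
      rw [e]
      exact h1.mul hg.ori.conj
  · intro i hi
    show (⇑γ ∘ ⇑g) '' A i = _
    rw [image_comp]
    exact h2 i hi
  · intro i hi
    exact h3 i hi

/-- matching of closed chains; the first one may be deformed to make any point extreme -/
theorem loop_match (hear : S_ear) (hsl : S_slideN) (haff : S_aff) (hn : 2 ≤ n)
    (h : Cyn n A r) (h' : Cyn n A' r')
    (he : ∀ r0 ∈ ⋃ i < n, A i, ∃ g : ℂ ≃ₜ ℂ, Nice g ∧ Ext (g r0) (g '' ⋃ i < n, A i)) :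
    ∃ γ : ℂ ≃ₜ ℂ, (Nice γ ∨ Ori (γ * conjH)) ∧ (∀ i, i < n → γ '' A i = A' i) ∧
      ∀ i, i < n → γ (r i) = r' i := by
  obtain ⟨h1, h2, h3⟩ := h
  obtain ⟨k1, k2, k3⟩ := id h'
  -- the extreme point
  have hcp : IsCompact (⋃ i < n, A' i) :=
    (finite_lt_nat n).isCompact_biUnion fun i hi => (k1 i hi).isCompact
  obtain ⟨R, hR, hRe⟩ := exists_ext hcp ⟨r' 0, by
    simp only [mem_iUnion]; exact ⟨0, by omega, (k1 0 (by omega)).left_mem⟩, r' 1, by
    simp only [mem_iUnion]; exact ⟨0, by omega, (k1 0 (by omega)).right_mem⟩,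
    (k1 0 (by omega)).ne⟩
  obtain ⟨s, hs, hRs, hRne⟩ : ∃ s, s < n ∧ R ∈ A' s ∧ R ≠ r' (s + 1) := by
    simp only [mem_iUnion] at hR
    obtain ⟨s, hs, hRs⟩ := hR
    by_cases hRr : R = r' (s + 1)
    · rcases Nat.lt_or_ge (s + 1) n with hs1 | hs1
      · refine ⟨s + 1, hs1, ?_, ?_⟩
        · rw [hRr]; exact (k1 _ hs1).left_mem
        · rw [hRr]; exact (k1 _ hs1).ne
      · have : s + 1 = n := by omega
        refine ⟨0, by omega, ?_, ?_⟩
        · rw [hRr, this, k2]; exact (k1 0 (by omega)).left_mem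
        · rw [hRr, this, k2]; exact (k1 0 (by omega)).ne
    · exact ⟨s, hs, hRs, hRr⟩
  -- rotate
  have hrot := Cyn.rotate ⟨h1, h2, h3⟩ hs
  have hrot' := h'.rotate hs
  have hn0 : 0 < n := by omega
  have es : (0 + s) % n = s := by rw [zero_add, Nat.mod_eq_of_lt hs]
  have es1 : r' ((0 + 1 + s) % n) = r' (s + 1) := by
    rcases Nat.lt_or_ge (s + 1) n with hs1 | hs1
    · rw [zero_add, add_comm 1 s, Nat.mod_eq_of_lt hs1]
    · have : s + 1 = n := by omega
      rw [zero_add, add_comm 1 s, this, Nat.mod_self, k2]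
  -- it suffices to match the rotated chains
  suffices hsuf : ∃ γ : ℂ ≃ₜ ℂ, (Nice γ ∨ Ori (γ * conjH)) ∧
      (∀ i, i < n → γ '' A ((i + s) % n) = A' ((i + s) % n)) ∧
      ∀ i, i < n → γ (r ((i + s) % n)) = r' ((i + s) % n) by
    obtain ⟨γ, g1, g2, g3⟩ := hsuf
    have hall : ∀ j, j < n → ∃ i, i < n ∧ (i + s) % n = j := by
      intro j hj
      rcases le_or_gt s j with h | h
      · refine ⟨j - s, by omega, ?_⟩
        rw [Nat.sub_add_cancel h, Nat.mod_eq_of_lt hj]
      · refine ⟨j + n - s, by omega, ?_⟩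
        rw [Nat.sub_add_cancel (by omega), Nat.add_mod_right, Nat.mod_eq_of_lt hj]
    refine ⟨γ, g1, fun j hj => ?_, fun j hj => ?_⟩
    · obtain ⟨i, hi, rfl⟩ := hall j hj
      exact g2 i hi
    · obtain ⟨i, hi, rfl⟩ := hall j hj
      exact g3 i hi
  have hun := rot_union A hs
  have hun' := rot_union A' hs
  by_cases hRr : R = r' s
  · -- the extreme point is a mark
    apply loop_equiv' hear hsl haff hn hrot hrot'
    · rw [hun]
      apply he
      simp only [mem_iUnion]
      refine ⟨s, hs, ?_⟩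
      show r ((0 + s) % n) ∈ A s
      rw [es]
      exact (h1 s hs).left_mem
    · rw [hun']
      show Ext (r' ((0 + s) % n)) _
      rw [es, ← hRr]
      exact hRe
  · -- the extreme point is not a mark
    have a0 : Arc (A ((0 + s) % n)) (r ((0 + s) % n)) (r ((0 + 1 + s) % n)) := hrot.1 0 hn0
    have a0' : Arc (A' ((0 + s) % n)) (r' ((0 + s) % n)) (r' ((0 + 1 + s) % n)) := hrot'.1 0 hn0
    -- a point of the first arc
    obtain ⟨R0, hR0, hR0l, hR0r⟩ : ∃ R0 ∈ A ((0 + s) % n), R0 ≠ r ((0 + s) % n) ∧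
        R0 ≠ r ((0 + 1 + s) % n) := by
      by_contra hcon
      push Not at hcon
      have hsub : A ((0 + s) % n) ⊆ {r ((0 + s) % n), r ((0 + 1 + s) % n)} := by
        intro z hz
        by_cases hz1 : z = r ((0 + s) % n)
        · exact Or.inl hz1
        · exact Or.inr (hcon z hz hz1)
      have hfin : (A ((0 + s) % n)).Finite := (Set.toFinite _).subset hsub
      exact a0.isConnected.isPreconnected.infinite_of_nontrivial
        ⟨_, a0.left_mem, _, a0.right_mem, a0.ne⟩ hfin
    obtain ⟨A1, A2, b1, b2, b3, b4⟩ := a0.split hR0 hR0l hR0r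
    obtain ⟨A1', A2', c1, c2, c3, c4⟩ := a0'.split (R := R) (by rw [es]; exact hRs)
      (by rw [es]; exact hRr) (by rw [es1]; exact hRne)
    have hS := hrot.split hn b1 b2 b3 b4
    have hS' := hrot'.split hn c1 c2 c3 c4
    have hU := spA_union (A := fun i => A ((i + s) % n)) hn b4
    have hU' := spA_union (A := fun i => A' ((i + s) % n)) hn c4
    obtain ⟨γ, g1, g2, g3⟩ := loop_equiv' hear hsl haff (by omega) hS hS' (by
      rw [hU, hun]
      show ∃ g : ℂ ≃ₜ ℂ, Nice g ∧ Ext (g R0) _
      apply he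
      simp only [mem_iUnion]
      exact ⟨s, hs, by rw [es] at hR0; exact hR0⟩) (by
      rw [hU', hun']
      show Ext R _
      exact hRe)
    have q2 : γ '' A2 = A2' := by
      have := g2 0 (by omega)
      simpa [spA] using this
    have q1 : γ '' A1 = A1' := by
      have := g2 n (by omega)
      unfold spA at this
      rwa [if_neg (by omega), if_pos rfl, if_neg (by omega), if_pos rfl] at this
    refine ⟨γ, g1, fun i hi => ?_, fun i hi => ?_⟩
    · by_cases hi0 : i = 0
      · subst hi0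
        rw [← b4, ← c4, image_union, q1, q2]
      · have := g2 i (by omega)
        unfold spA at this
        rwa [if_neg (by omega), if_neg (by omega), if_neg (by omega), if_neg (by omega)] at this
    · by_cases hi0 : i = 0
      · subst hi0
        have := g3 n (by omega)
        unfold spr at this
        rw [if_neg (by omega), if_neg (by omega), if_neg (by omega), if_neg (by omega)] at this
        have this' : γ (r ((n + s) % n)) = r' ((n + s) % n) := this
        have e : (n + s) % n = (0 + s) % n := by simp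
        rwa [e] at this'
      · have := g3 i (by omega)
        unfold spr at this
        rwa [if_neg (by omega), if_neg (by omega), if_neg (by omega), if_neg (by omega)] at this

end Pool.Agent.V8H80
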