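import Pool.Agent.V8H80.Defs

/-!
Moves of the plane along one direction (helper80, MP_cbfcf7_gt).
-/

set_option autoImplicit false

open Filter Topology

namespace Pool.Agent.V8H80

/-- the function decreases slowly in the direction `w` -/
def Slow (w : ℂ) (κ : ℝ) (f : ℂ → ℝ) : Prop :=
  ∀ (z : ℂ) (s : ℝ), 0 ≤ s → f z - (1 - κ) * s ≤ f (z + s * w)

lemma Slow.inf {w : ℂ} {κ : ℝ} {f g : ℂ → ℝ} (hf : Slow w κ f) (hg : Slow w κ g) :
    Slow w κ fun z => min (f z) (g z) := by
  intro z s hs
  have h1 := hf z s hs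
  have h2 := hg z s hs
  have h3 := min_le_left (f z) (g z)
  have h4 := min_le_right (f z) (g z)
  show min (f z) (g z) - (1 - κ) * s ≤ _
  exact le_min (by linarith) (by linarith)

lemma Slow.sup {w : ℂ} {κ : ℝ} {f g : ℂ → ℝ} (hf : Slow w κ f) (hg : Slow w κ g) :
    Slow w κ fun z => max (f z) (g z) := by
  intro z s hs
  have h1 := hf z s hs
  have h2 := hg z s hs
  show max (f z) (g z) - (1 - κ) * s ≤ max (f (z + s * w)) (g (z + s * w))
  rcases max_cases (f z) (g z) with ⟨h, -⟩ | ⟨h, -⟩
  · rw [h]; exact h1.trans (le_max_left _ _)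
  · rw [h]; exact h2.trans (le_max_right _ _)

lemma Slow.const {w : ℂ} {κ : ℝ} (h : κ ≤ 1) (c : ℝ) : Slow w κ fun _ => c := by
  intro z s hs
  have : 0 ≤ (1 - κ) * s := mul_nonneg (by linarith) hs
  show c - (1 - κ) * s ≤ c
  linarith

lemma Slow.mono {w : ℂ} {κ κ' : ℝ} {f : ℂ → ℝ} (hf : Slow w κ f) (h : κ' ≤ κ) : Slow w κ' f := by
  intro z s hs
  have h1 := hf z s hs
  have : (1 - κ) * s ≤ (1 - κ') * s := mul_le_mul_of_nonneg_right (by linarith) hs
  linarith

section

variable {w : ℂ} {κ : ℝ} {f : ℂ → ℝ}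

lemma Slow.inj (hκ : 0 < κ) (hf : Slow w κ f) :
    Function.Injective fun z : ℂ => z + (f z : ℂ) * w := by
  have key : ∀ z z' : ℂ, f z' ≤ f z → z + (f z : ℂ) * w = z' + (f z' : ℂ) * w → z = z' := by
    intro z z' h1 h2
    have h3 : z' = z + ((f z - f z' : ℝ) : ℂ) * w := by
      push_cast
      linear_combination -h2
    have h4 := hf z (f z - f z') (by linarith)
    rw [← h3] at h4
    have h5 : f z - f z' = 0 := by nlinarith
    rw [h3, h5]
    simp
  intro z z' h
  rcases le_total (f z') (f z) with h1 | h1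
  · exact key z z' h1 h
  · exact (key z' z h1 h.symm).symm

lemma Slow.surj (hκ : 0 < κ) (hf : Slow w κ f) (hc : Continuous f) :
    Function.Surjective fun z : ℂ => z + (f z : ℂ) * w := by
  intro y
  let φ : ℝ → ℝ := fun s => s - f (y - s * w)
  have hφ : Continuous φ := by
    have : Continuous fun s : ℝ => y - (s : ℂ) * w := by fun_prop
    exact continuous_id.sub (hc.comp this)
  have hmono : ∀ s s' : ℝ, s ≤ s' → κ * (s' - s) ≤ φ s' - φ s := by
    intro s s' h
    have h1 := hf (y - s' * w) (s' - s) (by linarith)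
    have h2 : y - (s' : ℂ) * w + ((s' - s : ℝ) : ℂ) * w = y - s * w := by push_cast; ring
    rw [h2] at h1
    show κ * (s' - s) ≤ (s' - f (y - s' * w)) - (s - f (y - s * w))
    nlinarith
  have hs : Function.Surjective φ := by
    apply hφ.surjective
    · refine tendsto_atTop_mono' _ (f₁ := fun s => κ * s + φ 0) ?_ ?_
      · filter_upwards [eventually_ge_atTop 0] with s hs
        have := hmono 0 s hs
        simp only [sub_zero] at this
        linarith
      · exact tendsto_atTop_add_const_right _ _ (tendsto_id.const_mul_atTop hκ)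
    · refine tendsto_atBot_mono' _ (f₁ := fun s => κ * s + φ 0) ?_ ?_
      · filter_upwards [eventually_le_atBot 0] with s hs
        have := hmono s 0 hs
        simp only [zero_sub] at this
        linarith
      · exact tendsto_atBot_add_const_right _ _ (tendsto_id.const_mul_atBot hκ)
  obtain ⟨s, hs⟩ := hs 0
  refine ⟨y - s * w, ?_⟩
  have : f (y - s * w) = s := by
    have h : s - f (y - s * w) = 0 := hs
    linarith
  show y - s * w + (f (y - s * w) : ℂ) * w = y
  rw [this]
  ring

/-- a continuous bijection of the plane with bounded displacement is a homeomorphism -/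
theorem exists_homeo_of_bdd {φ : ℂ → ℂ} (hφ : Function.Bijective φ) (hc : Continuous φ) {B : ℝ}
    (hB : ∀ z, ‖φ z - z‖ ≤ B) : ∃ g : ℂ ≃ₜ ℂ, ∀ z, g z = φ z := by
  have hprop : IsProperMap φ := by
    rw [isProperMap_iff_tendsto_cocompact]
    refine ⟨hc, ?_⟩
    rw [← Metric.cobounded_eq_cocompact, ← tendsto_norm_atTop_iff_cobounded]
    have h1 : Tendsto (fun z : ℂ => ‖z‖ + (-B)) (Bornology.cobounded ℂ) atTop :=
      tendsto_atTop_add_const_right _ _ tendsto_norm_cobounded_atTop
    refine tendsto_atTop_mono (fun z => ?_) h1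
    have h2 := norm_sub_norm_le z (φ z)
    rw [norm_sub_rev] at h2
    have := hB z
    linarith
  exact ⟨(Equiv.ofBijective φ hφ).toHomeomorphOfContinuousClosed hc hprop.isClosedMap,
    fun _ => rfl⟩

/-- a move along one direction is a homeomorphism -/
theorem exists_mv (hκ : 0 < κ) (hf : Slow w κ f) (hc : Continuous f) {B : ℝ}
    (hB : ∀ z, |f z| ≤ B) : ∃ g : ℂ ≃ₜ ℂ, ∀ z, g z = z + (f z : ℂ) * w := by
  refine exists_homeo_of_bdd ⟨hf.inj hκ, hf.surj hκ hc⟩ (by fun_prop) (B := B * ‖w‖) fun z => ?_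
  rw [add_sub_cancel_left, norm_mul, Complex.norm_real, Real.norm_eq_abs]
  exact mul_le_mul_of_nonneg_right (hB z) (norm_nonneg _)

/-- the difference quotients of a move avoid the negative real axis -/
theorem mv_slit (hκ : 0 < κ) (hf : Slow w κ f) {x y : ℂ} (hxy : x ≠ y) :
    ((y + (f y : ℂ) * w) - (x + (f x : ℂ) * w)) / (y - x) ∈ Complex.slitPlane := by
  have hne : y - x ≠ 0 := sub_ne_zero.2 hxy.symm
  have e : ((y + (f y : ℂ) * w) - (x + (f x : ℂ) * w)) / (y - x) =
      1 + ((f y - f x : ℝ) : ℂ) * (w / (y - x)) := by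
    field_simp
    push_cast
    ring
  rw [e]
  by_cases him : (w / (y - x)).im = 0
  · left
    obtain ⟨r, hr⟩ : ∃ r : ℝ, w / (y - x) = r := ⟨(w / (y - x)).re, by
      apply Complex.ext <;> simp [him]⟩
    have hw : w = r * (y - x) := by rw [← hr]; field_simp
    rw [hr]
    have h1 : (1 + ((f y - f x : ℝ) : ℂ) * (r : ℂ)).re = 1 + (f y - f x) * r := by simp
    rw [h1]
    rcases lt_trichotomy r 0 with h | h | h
    · -- x = y + s w with s = -1/r
      have hs : 0 ≤ -(1 / r) := by
        have := one_div_neg.2 h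
        linarith
      have h2 := hf y (-(1 / r)) hs
      have h3 : y + ((-(1 / r) : ℝ) : ℂ) * w = x := by
        rw [hw]
        have hr' : (r : ℂ) ≠ 0 := by exact_mod_cast h.ne
        push_cast
        field_simp
        ring
      rw [h3] at h2
      have h4 : (1 / r) * r = 1 := one_div_mul_cancel h.ne
      nlinarith
    · rw [h]; simp
    · have hs : 0 ≤ 1 / r := by positivity
      have h2 := hf x (1 / r) hs
      have h3 : x + ((1 / r : ℝ) : ℂ) * w = y := by
        rw [hw]
        have hr' : (r : ℂ) ≠ 0 := by exact_mod_cast h.ne'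
        push_cast
        field_simp
        ring
      rw [h3] at h2
      have h4 : (1 / r) * r = 1 := by field_simp
      nlinarith
  · by_cases hf0 : f y - f x = 0
    · rw [hf0]; simp
    · right
      have : (1 + ((f y - f x : ℝ) : ℂ) * (w / (y - x))).im = (f y - f x) * (w / (y - x)).im := by
        simp [Complex.add_im, Complex.mul_im]
      rw [this]
      exact mul_ne_zero hf0 him

end

end Pool.Agent.V8H80
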