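import Pool.Agent.V8H80.Split

/-!
Nets of arcs (helper80, MP_cbfcf7_gt).
-/

set_option autoImplicit false

open Set Topology Filter

namespace Pool.Agent.V8H80

/-- nets of arcs along the edges of a graph -/
structure Net (E : ℂ → ℂ → Prop) (A : ℂ → ℂ → Set ℂ) (f : ℂ ≃ₜ ℂ) : Prop where
  symm : ∀ x y, E x y → E y x
  comm : ∀ x y, E x y → A x y = A y x
  arc : ∀ x y, E x y → Arc (A x y) (f x) (f y)
  int : ∀ x y x' y', E x y → E x' y' → ¬ (x = x' ∧ y = y') → ¬ (x = y' ∧ y = x') →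
    ∀ z, z ∈ A x y → z ∈ A x' y' → ∃ p, z = f p ∧ (p = x ∨ p = y) ∧ (p = x' ∨ p = y')

variable {E : ℂ → ℂ → Prop} {A : ℂ → ℂ → Set ℂ} {f : ℂ ≃ₜ ℂ}

theorem Net.chn (h : Net E A f) {n : ℕ} {r : ℕ → ℂ} (hinj : ∀ i j, i ≤ n → j ≤ n → r i = r j → i = j)
    (he : ∀ i, i < n → E (r i) (r (i + 1))) :
    Chn n (fun i => A (r i) (r (i + 1))) (fun i => f (r i)) := by
  refine ⟨fun i hi => h.arc _ _ (he i hi), ?_⟩
  intro i j hij hj z hz1 hz2
  obtain ⟨p, h1, h2, h3⟩ := h.int _ _ _ _ (he i (by omega)) (he j hj)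
    (fun e => by have := hinj _ _ (by omega) (by omega) e.1; omega)
    (fun e => by
      have h1 := hinj _ _ (by omega) (by omega) e.1
      omega) z hz1 hz2
  show j = i + 1 ∧ z = f (r j)
  rcases h2 with rfl | rfl <;> rcases h3 with h3 | h3
  · have := hinj _ _ (by omega) (by omega) h3; omega
  · have := hinj _ _ (by omega) (by omega) h3; omega
  · have := hinj _ _ (by omega) (by omega) h3
    exact ⟨by omega, by rw [h1, h3]⟩
  · have := hinj _ _ (by omega) (by omega) h3; omega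

theorem Net.cyn (h : Net E A f) {n : ℕ} (hn : 3 ≤ n) {r : ℕ → ℂ}
    (hinj : ∀ i j, i < n → j < n → r i = r j → i = j) (hcl : r n = r 0)
    (he : ∀ i, i < n → E (r i) (r (i + 1))) :
    Cyn n (fun i => A (r i) (r (i + 1))) (fun i => f (r i)) := by
  refine ⟨fun i hi => h.arc _ _ (he i hi), by show f (r n) = f (r 0); rw [hcl], ?_⟩
  intro i j hij hj z hz1 hz2
  have key : ∀ a b, a ≤ n → b ≤ n → r a = r b → a = b ∨ (a = 0 ∧ b = n) ∨ (a = n ∧ b = 0) := by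
    intro a b ha hb hab
    rcases ha.eq_or_lt with rfl | ha <;> rcases hb.eq_or_lt with rfl | hb
    · exact Or.inl rfl
    · rw [hcl] at hab
      exact Or.inr (Or.inr ⟨rfl, (hinj _ _ (by omega) hb hab).symm⟩)
    · rw [hcl] at hab
      exact Or.inr (Or.inl ⟨hinj _ _ ha (by omega) hab, rfl⟩)
    · exact Or.inl (hinj _ _ ha hb hab)
  obtain ⟨p, h1, h2, h3⟩ := h.int _ _ _ _ (he i (by omega)) (he j hj)
    (fun e => by have := key _ _ (by omega) (by omega) e.1; omega)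
    (fun e => by
      have h1 := key _ _ (by omega) (by omega) e.1
      have h2 := key _ _ (by omega) (by omega) e.2
      omega) z hz1 hz2
  show (j = i + 1 ∧ z = f (r j)) ∨ (i = 0 ∧ j + 1 = n ∧ z = f (r 0))
  rcases h2 with rfl | rfl <;> rcases h3 with h3 | h3
  · have := key _ _ (by omega) (by omega) h3; omega
  · have := key _ _ (by omega) (by omega) h3
    right
    have h4 : i = 0 := by omega
    refine ⟨h4, by omega, by rw [h1, h4]⟩
  · have := key _ _ (by omega) (by omega) h3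
    left
    exact ⟨by omega, by rw [h1, h3]⟩
  · have := key _ _ (by omega) (by omega) h3; omega

/-- the edge `x y` is matched -/
def Mt (A : ℂ → ℂ → Set ℂ) (f γ : ℂ ≃ₜ ℂ) (x y : ℂ) : Prop :=
  γ x = f x ∧ γ y = f y ∧ γ '' segment ℝ x y = A x y

theorem Mt.symm {γ : ℂ ≃ₜ ℂ} {x y : ℂ} (h : Mt A f γ x y) (hN : Net E A f) (he : E x y) :
    Mt A f γ y x := by
  obtain ⟨h1, h2, h3⟩ := h
  exact ⟨h2, h1, by rw [segment_symm, h3, hN.comm x y he]⟩

theorem Mt.congr {γ γ' : ℂ ≃ₜ ℂ} {x y : ℂ} (h : Mt A f γ x y)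
    (he : ∀ z ∈ segment ℝ x y, γ' z = γ z) : Mt A f γ' x y := by
  obtain ⟨h1, h2, h3⟩ := h
  refine ⟨by rw [he x (left_mem_segment ℝ _ _), h1], by rw [he y (right_mem_segment ℝ _ _), h2], ?_⟩
  rw [← h3]
  exact image_congr he

/-- the net obtained from arcs along oriented edges -/
theorem net_of {F : Set (ℂ × ℂ)} {A : ℂ × ℂ → Set ℂ} {f : ℂ ≃ₜ ℂ}
    (hne : ∀ x y, (x, y) ∈ F → (y, x) ∉ F)
    (harc : ∀ e ∈ F, Arc (A e) (f e.1) (f e.2))
    (hint : ∀ e ∈ F, ∀ e' ∈ F, e ≠ e' → A e ∩ A e' ⊆ f '' ({e.1, e.2} ∩ {e'.1, e'.2} : Set ℂ)) :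
    ∃ A' : ℂ → ℂ → Set ℂ, Net (fun x y => (x, y) ∈ F ∨ (y, x) ∈ F) A' f ∧
      ∀ x y, (x, y) ∈ F → A' x y = A (x, y) := by
  classical
  refine ⟨fun x y => if (x, y) ∈ F then A (x, y) else A (y, x), ⟨?_, ?_, ?_, ?_⟩, ?_⟩
  · intro x y h
    exact h.symm
  · intro x y h
    show (if (x, y) ∈ F then A (x, y) else A (y, x)) = if (y, x) ∈ F then A (y, x) else A (x, y)
    rcases h with h | h
    · rw [if_pos h, if_neg (hne _ _ h)]
    · rw [if_neg (hne _ _ h), if_pos h]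
  · intro x y h
    show Arc (if (x, y) ∈ F then A (x, y) else A (y, x)) _ _
    rcases h with h | h
    · rw [if_pos h]; exact harc _ h
    · rw [if_neg (hne _ _ h)]; exact (harc _ h).symm
  · intro x y x' y' h h' h1 h2 z hz hz'
    have hz0 : z ∈ (if (x, y) ∈ F then A (x, y) else A (y, x)) := hz
    have hz0' : z ∈ (if (x', y') ∈ F then A (x', y') else A (y', x')) := hz'
    have fin : ∀ a b a' b' : ℂ, (a, b) ∈ F → (a', b') ∈ F → z ∈ A (a, b) → z ∈ A (a', b') →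
        ¬ (a = a' ∧ b = b') → ∃ p, z = f p ∧ (p = a ∨ p = b) ∧ (p = a' ∨ p = b') := by
      intro a b a' b' k1 k2 k3 k4 k5
      obtain ⟨p, ⟨hp1, hp2⟩, rfl⟩ := hint _ k1 _ k2 (fun e => k5 (by
        rw [Prod.mk.injEq] at e; exact e)) ⟨k3, k4⟩
      exact ⟨p, rfl, hp1, hp2⟩
    rcases h with h | h <;> rcases h' with h' | h'
    · rw [if_pos h] at hz0
      rw [if_pos h'] at hz0'
      exact fin _ _ _ _ h h' hz0 hz0' h1
    · rw [if_pos h] at hz0
      rw [if_neg (hne _ _ h')] at hz0'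
      obtain ⟨p, a1, a2, a3⟩ := fin _ _ _ _ h h' hz0 hz0' h2
      exact ⟨p, a1, a2, a3.symm⟩
    · rw [if_neg (hne _ _ h)] at hz0
      rw [if_pos h'] at hz0'
      obtain ⟨p, a1, a2, a3⟩ := fin _ _ _ _ h h' hz0 hz0' (fun e => h2 ⟨e.2, e.1⟩)
      exact ⟨p, a1, a2.symm, a3⟩
    · rw [if_neg (hne _ _ h)] at hz0
      rw [if_neg (hne _ _ h')] at hz0'
      obtain ⟨p, a1, a2, a3⟩ := fin _ _ _ _ h h' hz0 hz0' (fun e => h1 ⟨e.2, e.1⟩)
      exact ⟨p, a1, a2.symm, a3.symm⟩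
  · intro x y h
    exact if_pos h

end Pool.Agent.V8H80
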