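import Pool.Agent.V8H80.Mv
import Pool.Agent.V8H80.Stm

/-!
Smoothing of moves (helper80, MP_cbfcf7_gt).
-/

set_option autoImplicit false

open Filter Topology MeasureTheory
open scoped Convolution

namespace Pool.Agent.V8H80

lemma jac_det (A : ℂ →L[ℝ] ℂ) : A.det = (A 1).re * (A Complex.I).im - (A 1).im * (A Complex.I).re := by
  have h : A.det = LinearMap.det (A : ℂ →ₗ[ℝ] ℂ) := rfl
  rw [h, ← LinearMap.det_toMatrix Complex.basisOneI, Matrix.det_fin_two]
  simp [LinearMap.toMatrix_apply]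
  ring

/-- a homeomorphism which is smooth with determinant between two positive constants -/
theorem dif_of {h : ℂ ≃ₜ ℂ} (hs : ContDiff ℝ ((⊤ : ℕ∞) : WithTop ℕ∞) (⇑h)) {c C : ℝ} (hc : 0 < c)
    (h1 : ∀ z : ℂ, c ≤ (fderiv ℝ (⇑h) z).det) (h2 : ∀ z : ℂ, (fderiv ℝ (⇑h) z).det ≤ C) :
    Dif h := by
  refine ⟨hs, ?_, c, C, hc, fun z => ⟨h1 z, h2 z⟩⟩
  have hd : ∀ z, (fderiv ℝ (⇑h) z).det ≠ 0 := fun z => (hc.trans_le (h1 z)).ne'
  refine h.contDiff_symm (f₀' := fun z => (fderiv ℝ (⇑h) z).toContinuousLinearEquivOfDetNeZero (hd z))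
    (fun z => ?_) hs
  rw [ContinuousLinearMap.coe_toContinuousLinearEquivOfDetNeZero]
  exact (hs.differentiable (by simp) z).hasFDerivAt

theorem exists_mollify (w : ℂ) (κ : ℝ) (f : ℂ → ℝ) (hc : Continuous f) (hcs : HasCompactSupport f)
    (hs : Slow w κ f) (ε' : ℝ) (hε' : 0 < ε') :
    ∃ F : ℂ → ℝ, ContDiff ℝ ((⊤ : ℕ∞) : WithTop ℕ∞) F ∧ (∀ z, |F z - f z| ≤ ε') ∧ Slow w κ F ∧
      HasCompactSupport F := by
  have huc : UniformContinuous f := hcs.uniformContinuous_of_continuous hc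
  obtain ⟨δ, hδ, hfδ⟩ := Metric.uniformContinuous_iff.mp huc ε' hε'
  obtain ⟨φ, hφ⟩ : ∃ φ : ContDiffBump (0 : ℂ), φ.rOut = δ := ⟨⟨δ / 2, δ, half_pos hδ, half_lt_self hδ⟩, rfl⟩
  refine ⟨(φ.normed volume ⋆[ContinuousLinearMap.lsmul ℝ ℝ, volume] f : ℂ → ℝ), ?_, ?_, ?_, ?_⟩
  · exact φ.hasCompactSupport_normed.contDiff_convolution_left _ φ.contDiff_normed hc.locallyIntegrable
  · intro z
    have := φ.dist_normed_convolution_le (μ := volume) (g := f) (x₀ := z) (ε := ε')
      hc.aestronglyMeasurable (fun x hx => by rw [hφ] at hx; exact (hfδ hx).le)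
    rwa [Real.dist_eq] at this
  · have hint : ∀ z, Integrable (fun t => φ.normed volume t * f (z - t)) := by
      intro z
      have h1 : Continuous fun t => φ.normed volume t * f (z - t) :=
        φ.continuous_normed.mul (hc.comp (by fun_prop))
      exact h1.integrable_of_hasCompactSupport (φ.hasCompactSupport_normed.mul_right)
    intro z s hs0
    have hF : ∀ z, (φ.normed volume ⋆[ContinuousLinearMap.lsmul ℝ ℝ, volume] f : ℂ → ℝ) z =
        ∫ t, φ.normed volume t * f (z - t) := fun z => by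
      simp only [convolution_def, ContinuousLinearMap.lsmul_apply, smul_eq_mul]
    rw [hF, hF]
    have h1 : (1 - κ) * s = ∫ t, φ.normed volume t * ((1 - κ) * s) := by
      rw [integral_mul_const, φ.integral_normed, one_mul]
    rw [h1, ← integral_sub (hint z) (φ.integrable_normed.mul_const _)]
    refine integral_mono ((hint z).sub (φ.integrable_normed.mul_const _)) (hint _) fun t => ?_
    have h2 := hs (z - t) s hs0
    have h3 : z - t + (s : ℂ) * w = z + s * w - t := by ring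
    rw [h3] at h2
    have h4 := φ.nonneg_normed (μ := volume) t
    show φ.normed volume t * f (z - t) - φ.normed volume t * ((1 - κ) * s) ≤
      φ.normed volume t * f (z + s * w - t)
    rw [← mul_sub]
    exact mul_le_mul_of_nonneg_left h2 h4
  · exact φ.hasCompactSupport_normed.convolution _ hcs

theorem t_smooth : S_smooth := by
  intro w κ f hκ hc hcs hs ε hε
  obtain ⟨ε', hε', hεw⟩ : ∃ ε' : ℝ, 0 < ε' ∧ ε' * ‖w‖ ≤ ε := by
    refine ⟨ε / (‖w‖ + 1), by positivity, ?_⟩
    rw [div_mul_eq_mul_div, div_le_iff₀ (by positivity)]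
    nlinarith [norm_nonneg w]
  obtain ⟨F, hFs, hFd, hFslow, hFcs⟩ := exists_mollify w κ f hc hcs hs ε' hε'
  obtain ⟨B, hB⟩ := hFs.continuous.bounded_above_of_compact_support hFcs
  obtain ⟨g, hg⟩ := exists_mv hκ hFslow hFs.continuous (B := B) (fun z => by
    rw [← Real.norm_eq_abs]; exact hB z)
  have hge : ⇑g = fun z => z + (F z : ℂ) * w := funext hg
  have hgs : ContDiff ℝ ((⊤ : ℕ∞) : WithTop ℕ∞) (⇑g) := by
    rw [hge]
    exact contDiff_id.add ((Complex.ofRealCLM.contDiff.comp hFs).mul contDiff_const)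
  have hdet : ∀ z, (fderiv ℝ (⇑g) z).det = 1 + fderiv ℝ F z w := by
    intro z
    have h1 : HasFDerivAt F (fderiv ℝ F z) z := (hFs.differentiable (by simp) z).hasFDerivAt
    have h2 : HasFDerivAt (⇑g) (ContinuousLinearMap.id ℝ ℂ +
        w • (Complex.ofRealCLM.comp (fderiv ℝ F z))) z := by
      rw [hge]
      have h3 : HasFDerivAt (fun z => ((F z : ℝ) : ℂ)) (Complex.ofRealCLM.comp (fderiv ℝ F z)) z :=
        Complex.ofRealCLM.hasFDerivAt.comp z h1
      exact (hasFDerivAt_id z).add (by simpa using h3.mul_const' w)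
    rw [h2.fderiv, jac_det]
    have h4 : fderiv ℝ F z w = w.re * fderiv ℝ F z 1 + w.im * fderiv ℝ F z Complex.I := by
      have : w = w.re • (1 : ℂ) + w.im • Complex.I := by
        apply Complex.ext <;> simp
      conv_lhs => rw [this]
      rw [map_add, map_smul, map_smul, smul_eq_mul, smul_eq_mul]
    rw [h4]
    simp
    ring
  have hlow : ∀ z, κ ≤ (fderiv ℝ (⇑g) z).det := by
    intro z
    rw [hdet]
    have h1 : HasFDerivAt F (fderiv ℝ F z) z := (hFs.differentiable (by simp) z).hasFDerivAt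
    have h2 : HasDerivAt (fun s : ℝ => z + (s : ℂ) * w) w 0 := by
      have := ((hasDerivAt_id (0 : ℝ)).ofReal_comp).mul_const w
      simpa using this.const_add z
    have h3 : HasDerivAt (fun s : ℝ => F (z + (s : ℂ) * w)) (fderiv ℝ F z w) 0 := by
      have h1' : HasFDerivAt F (fderiv ℝ F z) ((fun s : ℝ => z + (s : ℂ) * w) 0) := by simpa using h1
      exact h1'.comp_hasDerivAt 0 h2
    have h4 := h3.tendsto_slope_zero_right
    have h5 : -(1 - κ) ≤ fderiv ℝ F z w := by
      refine ge_of_tendsto h4 ?_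
      filter_upwards [self_mem_nhdsWithin] with s hs0
      have hs1 : (0 : ℝ) < s := hs0
      have h6 := hFslow z s hs1.le
      simp only [zero_add, Complex.ofReal_zero, zero_mul, add_zero, smul_eq_mul]
      rw [le_inv_mul_iff₀ hs1]
      linarith
    linarith
  have hup : ∃ C, ∀ z, (fderiv ℝ (⇑g) z).det ≤ C := by
    have h1 : Continuous (fderiv ℝ F) := hFs.continuous_fderiv (by simp)
    have h2 : HasCompactSupport (fderiv ℝ F) := hFcs.fderiv (𝕜 := ℝ)
    obtain ⟨C, hC⟩ := h1.bounded_above_of_compact_support h2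
    refine ⟨1 + C * ‖w‖, fun z => ?_⟩
    rw [hdet]
    have h3 := (le_abs_self _).trans ((fderiv ℝ F z).le_opNorm w)
    have h4 : ‖fderiv ℝ F z‖ * ‖w‖ ≤ C * ‖w‖ := mul_le_mul_of_nonneg_right (hC z) (norm_nonneg _)
    linarith
  obtain ⟨C, hC⟩ := hup
  refine ⟨g, dif_of hgs hκ hlow hC, fun z => ?_⟩
  rw [hg]
  have : z + (F z : ℂ) * w - (z + (f z : ℂ) * w) = ((F z - f z : ℝ) : ℂ) * w := by
    push_cast; ring
  rw [this, norm_mul, Complex.norm_real, Real.norm_eq_abs]
  exact (mul_le_mul_of_nonneg_right (hFd z) (norm_nonneg _)).trans hεw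

end Pool.Agent.V8H80
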