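import Pool.Agent.V8H80.PL
import Pool.Agent.V8H80.Smooth
import Pool.Agent.Helper11.PlaneEuler.Lift

/-!
Nice homeomorphisms: piecewise linear, approximated by diffeomorphisms, orientation preserving
(helper80, MP_cbfcf7_gt).
-/

set_option autoImplicit false

open Filter Topology Set

namespace Pool.Agent.V8H80

open Pool.Agent.Helper11.PlaneEuler

/-- locally uniform limits of diffeomorphisms -/
def Appr (g : ℂ ≃ₜ ℂ) : Prop :=
  ∀ R ε : ℝ, 0 < ε → ∃ h : ℂ ≃ₜ ℂ, Dif h ∧ ∀ z : ℂ, ‖z‖ ≤ R → ‖h z - g z‖ < ε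

/-- orientation preserving -/
def Ori (g : ℂ ≃ₜ ℂ) : Prop := ∃ F : PlaneLift, F.homeo = g

/-- images of polygonal arcs are polygonal arcs -/
def PolyM (g : ℂ ≃ₜ ℂ) : Prop :=
  ∀ (A : Set ℂ) (p q : ℂ), Arc A p q → Arc (g '' A) (g p) (g q)

structure Nice (g : ℂ ≃ₜ ℂ) : Prop where
  poly : PolyM g
  poly' : PolyM g⁻¹
  appr : Appr g
  ori : Ori g

theorem PolyM.mul {g h : ℂ ≃ₜ ℂ} (hg : PolyM g) (hh : PolyM h) : PolyM (g * h) := by
  intro A p q hA
  have := hg _ _ _ (hh A p q hA)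
  rw [← image_comp] at this
  exact this

theorem Ori.mul {g h : ℂ ≃ₜ ℂ} (hg : Ori g) (hh : Ori h) : Ori (g * h) := by
  obtain ⟨F, rfl⟩ := hg
  obtain ⟨G, rfl⟩ := hh
  exact ⟨F * G, rfl⟩

theorem Ori.inv {g : ℂ ≃ₜ ℂ} (hg : Ori g) : Ori g⁻¹ := by
  obtain ⟨F, rfl⟩ := hg
  exact ⟨F⁻¹, rfl⟩

theorem det_comp {A B : ℂ →L[ℝ] ℂ} : (A.comp B).det = A.det * B.det := by
  have h1 : (A.comp B).det = LinearMap.det ((A : ℂ →ₗ[ℝ] ℂ).comp (B : ℂ →ₗ[ℝ] ℂ)) := rfl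
  rw [h1, LinearMap.det_comp]

theorem fderiv_det_comp {g h : ℂ ≃ₜ ℂ} (hg : Differentiable ℝ (⇑g)) (hh : Differentiable ℝ (⇑h))
    (z : ℂ) : (fderiv ℝ (⇑(g * h)) z).det = (fderiv ℝ (⇑g) (h z)).det * (fderiv ℝ (⇑h) z).det := by
  have e : ⇑(g * h) = ⇑g ∘ ⇑h := rfl
  rw [e, fderiv_comp z (hg _) (hh _), det_comp]

theorem Dif.mul {g h : ℂ ≃ₜ ℂ} (hg : Dif g) (hh : Dif h) : Dif (g * h) := by
  obtain ⟨h1, h2, c, C, hc, h3⟩ := hg
  obtain ⟨k1, k2, d, D, hd, k3⟩ := hh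
  refine ⟨h1.comp k1, k2.comp h2, c * d, C * D, mul_pos hc hd, fun z => ?_⟩
  rw [fderiv_det_comp (h1.differentiable (by simp)) (k1.differentiable (by simp))]
  have a1 := (h3 (h z)).1
  have a2 := (h3 (h z)).2
  have a3 := (k3 z).1
  have a4 := (k3 z).2
  constructor
  · exact mul_le_mul a1 a3 hd.le (hc.le.trans a1)
  · exact mul_le_mul a2 a4 (hd.le.trans a3) (hc.le.trans (a1.trans a2))

theorem Dif.inv {g : ℂ ≃ₜ ℂ} (hg : Dif g) : Dif g⁻¹ := by
  obtain ⟨h1, h2, c, C, hc, h3⟩ := hg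
  have hC : 0 < C := hc.trans_le ((h3 0).1.trans (h3 0).2)
  refine ⟨h2, h1, C⁻¹, c⁻¹, inv_pos.2 hC, fun z => ?_⟩
  have e : (fderiv ℝ (⇑(g * g⁻¹)) z).det = 1 := by
    rw [mul_inv_cancel]
    have : ⇑(1 : ℂ ≃ₜ ℂ) = id := rfl
    rw [this, fderiv_id]
    show LinearMap.det _ = 1
    exact LinearMap.det_id
  rw [fderiv_det_comp (g := g) (h := g⁻¹) (h1.differentiable (by simp))
    (h2.differentiable (by simp))] at e
  obtain ⟨a1, a2⟩ := h3 (g⁻¹ z)
  have hp : 0 < (fderiv ℝ (⇑g) (g⁻¹ z)).det := hc.trans_le a1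
  have e' : (fderiv ℝ (⇑g⁻¹) z).det = ((fderiv ℝ (⇑g) (g⁻¹ z)).det)⁻¹ := by
    exact eq_inv_of_mul_eq_one_right e
  rw [e']
  exact ⟨inv_anti₀ hp a2, inv_anti₀ hc a1⟩

theorem Appr.mul {g h : ℂ ≃ₜ ℂ} (hg : Appr g) (hh : Appr h) : Appr (g * h) := by
  intro R ε hε
  -- a big ball
  obtain ⟨R1, hR1⟩ : ∃ R1 : ℝ, ∀ z : ℂ, ‖z‖ ≤ R → ‖h z‖ ≤ R1 := by
    obtain ⟨C, hC⟩ := ((isCompact_closedBall (0 : ℂ) R).image h.continuous).isBounded.exists_norm_le
    exact ⟨C, fun z hz => hC _ ⟨z, by simpa using hz, rfl⟩⟩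
  have huc : UniformContinuousOn (⇑g) (Metric.closedBall 0 (R1 + 1)) :=
    (isCompact_closedBall _ _).uniformContinuousOn_of_continuous g.continuous.continuousOn
  obtain ⟨δ, hδ, hgδ⟩ := Metric.uniformContinuousOn_iff.1 huc (ε / 2) (half_pos hε)
  obtain ⟨h', hh'1, hh'2⟩ := hh R (min δ 1) (lt_min hδ one_pos)
  obtain ⟨g', hg'1, hg'2⟩ := hg (R1 + 1) (ε / 2) (half_pos hε)
  refine ⟨g' * h', hg'1.mul hh'1, fun z hz => ?_⟩
  have a1 := hh'2 z hz
  have a2 : ‖h' z‖ ≤ R1 + 1 := by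
    have := hR1 z hz
    have h3 := norm_le_norm_add_norm_sub' (h' z) (h z)
    have := a1.le.trans (min_le_right _ _)
    linarith
  have a3 := hg'2 (h' z) a2
  have a4 : ‖g (h' z) - g (h z)‖ < ε / 2 := by
    rw [← dist_eq_norm]
    refine hgδ _ (by simpa using a2) _ (by simpa using (hR1 z hz).trans (by linarith)) ?_
    rw [dist_eq_norm]
    exact a1.trans_le (min_le_left _ _)
  show ‖g' (h' z) - g (h z)‖ < ε
  have e : g' (h' z) - g (h z) = (g' (h' z) - g (h' z)) + (g (h' z) - g (h z)) := by ring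
  rw [e]
  exact (norm_add_le _ _).trans_lt (by linarith)

/-- a connected set which meets the image of a closed ball, but not that of its boundary -/
theorem covers {h : ℂ ≃ₜ ℂ} {R : ℝ} {Q : Set ℂ} (hQ : IsPreconnected Q) {x : ℂ} (hx : ‖x‖ ≤ R)
    (hxQ : h x ∈ Q) (hb : ∀ z : ℂ, ‖z‖ = R → h z ∉ Q) : ∀ y ∈ Q, ‖h.symm y‖ < R := by
  have h1 : IsOpen (⇑h.symm ⁻¹' Metric.ball 0 R) := Metric.isOpen_ball.preimage h.symm.continuous
  have h2 : IsOpen ((⇑h.symm ⁻¹' Metric.closedBall 0 R)ᶜ) :=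
    (Metric.isClosed_closedBall.preimage h.symm.continuous).isOpen_compl
  have hcov : Q ⊆ (⇑h.symm ⁻¹' Metric.ball 0 R) ∪ (⇑h.symm ⁻¹' Metric.closedBall 0 R)ᶜ := by
    intro y hy
    by_cases hy1 : ‖h.symm y‖ < R
    · left; simpa using hy1
    · right
      have : ‖h.symm y‖ ≠ R := fun e => hb _ e (by rw [h.apply_symm_apply]; exact hy)
      have : R < ‖h.symm y‖ := lt_of_le_of_ne (not_lt.1 hy1) (Ne.symm this)
      simpa using this
  have hdis : Q ∩ ((⇑h.symm ⁻¹' Metric.ball 0 R) ∩ (⇑h.symm ⁻¹' Metric.closedBall 0 R)ᶜ) = ∅ := by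
    ext y
    simp only [mem_inter_iff, mem_preimage, mem_compl_iff, Metric.mem_ball, Metric.mem_closedBall,
      mem_empty_iff_false, iff_false]
    rintro ⟨-, h3, h4⟩
    exact h4 h3.le
  have hsub := isPreconnected_iff_subset_of_disjoint.1 hQ _ _ h1 h2 hcov hdis
  rcases hsub with h3 | h3
  · intro y hy
    simpa using h3 hy
  · exfalso
    have h4 := h3 hxQ
    simp only [mem_compl_iff, mem_preimage, h.symm_apply_apply] at h4
    exact h4 (by simpa using hx)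

theorem Appr.inv {g : ℂ ≃ₜ ℂ} (hg : Appr g) : Appr g⁻¹ := by
  intro R ε hε
  -- the inverse images of the ball of radius `|R| + 2` lie in the ball of radius `R1`
  obtain ⟨R1, hR10, hR1⟩ : ∃ R1 : ℝ, 0 ≤ R1 ∧ ∀ z : ℂ, ‖z‖ ≤ |R| + 2 → ‖g.symm z‖ < R1 := by
    obtain ⟨C, hC⟩ := ((isCompact_closedBall (0 : ℂ) (|R| + 2)).image
      g.symm.continuous).isBounded.exists_norm_le
    have h0 : ‖g.symm 0‖ ≤ C := hC _ ⟨0, by simp; positivity, rfl⟩
    exact ⟨C + 1, by linarith [norm_nonneg (g.symm 0)], fun z hz =>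
      (hC _ ⟨z, by simpa using hz, rfl⟩).trans_lt (by linarith)⟩
  have huc : UniformContinuousOn (⇑g.symm) (Metric.closedBall 0 (|R| + 2)) :=
    (isCompact_closedBall _ _).uniformContinuousOn_of_continuous g.symm.continuous.continuousOn
  obtain ⟨δ, hδ, hgδ⟩ := Metric.uniformContinuousOn_iff.1 huc ε hε
  obtain ⟨h, hh1, hh2⟩ := hg R1 (min δ 1) (lt_min hδ one_pos)
  have hin : ∀ y ∈ Metric.closedBall (0 : ℂ) (|R| + 1), ‖h.symm y‖ < R1 := by
    refine covers (convex_closedBall (0 : ℂ) (|R| + 1)).isPreconnected (x := g.symm 0) ?_ ?_ ?_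
    · exact (hR1 0 (by simp; positivity)).le
    · have a1 := hh2 (g.symm 0) (hR1 0 (by simp; positivity)).le
      rw [g.apply_symm_apply, sub_zero] at a1
      rw [mem_closedBall_zero_iff]
      have := a1.le.trans (min_le_right _ _)
      linarith [abs_nonneg R]
    · intro z hz hzQ
      have a1 := hh2 z hz.le
      have a2 : ‖g z‖ ≤ |R| + 2 := by
        have h3 := norm_le_norm_add_norm_sub (h z) (g z)
        have h4 : ‖h z‖ ≤ |R| + 1 := by simpa using hzQ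
        have := a1.le.trans (min_le_right _ _)
        linarith
      have := hR1 _ a2
      rw [g.symm_apply_apply] at this
      linarith
  refine ⟨h⁻¹, hh1.inv, fun y hy => ?_⟩
  have hyR : ‖y‖ ≤ |R| := hy.trans (le_abs_self R)
  have b1 := hin y (by rw [mem_closedBall_zero_iff]; linarith)
  have b2 := hh2 _ b1.le
  rw [h.apply_symm_apply] at b2
  show ‖h.symm y - g.symm y‖ < ε
  rw [← dist_eq_norm]
  have b3 : h.symm y = g.symm (g (h.symm y)) := (g.symm_apply_apply _).symm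
  rw [b3]
  refine hgδ _ ?_ _ ?_ ?_
  · rw [mem_closedBall_zero_iff]
    have h3 := norm_le_norm_add_norm_sub y (g (h.symm y))
    have := b2.le.trans (min_le_right _ _)
    linarith
  · rw [mem_closedBall_zero_iff]; linarith
  · rw [dist_comm, dist_eq_norm]
    exact b2.trans_le (min_le_left _ _)

theorem Nice.mul {g h : ℂ ≃ₜ ℂ} (hg : Nice g) (hh : Nice h) : Nice (g * h) where
  poly := hg.poly.mul hh.poly
  poly' := by rw [mul_inv_rev]; exact hh.poly'.mul hg.poly'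
  appr := hg.appr.mul hh.appr
  ori := hg.ori.mul hh.ori

theorem Nice.inv {g : ℂ ≃ₜ ℂ} (hg : Nice g) : Nice g⁻¹ where
  poly := hg.poly'
  poly' := by rw [inv_inv]; exact hg.poly
  appr := hg.appr.inv
  ori := hg.ori.inv

theorem Nice.one : Nice 1 where
  poly := fun A p q h => by
    have : ⇑(1 : ℂ ≃ₜ ℂ) = id := rfl
    rw [this, image_id]
    exact h
  poly' := fun A p q h => by
    have : ⇑(1 : ℂ ≃ₜ ℂ)⁻¹ = id := rfl
    rw [this, image_id]
    exact h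
  appr := fun R ε hε => ⟨1, by
    refine ⟨contDiff_id, contDiff_id, 1, 1, one_pos, fun z => ?_⟩
    have : (fderiv ℝ (⇑(1 : ℂ ≃ₜ ℂ)) z).det = 1 := by
      have : ⇑(1 : ℂ ≃ₜ ℂ) = id := rfl
      rw [this, fderiv_id]
      exact LinearMap.det_id
    rw [this]
    exact ⟨le_rfl, le_rfl⟩, fun z _ => by simpa using hε⟩
  ori := ⟨1, rfl⟩

end Pool.Agent.V8H80
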