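import Pool.Agent.V8H80.Arc
import Pool.Agent.V8H80.Mv

/-!
Piecewise linear functions and images of polygonal arcs (helper80, MP_cbfcf7_gt).
-/

set_option autoImplicit false

open Set

namespace Pool.Agent.V8H80

section

variable {E F : Type} [AddCommGroup E] [Module ℝ E] [AddCommGroup F] [Module ℝ F]

/-- piecewise affine on `[s,t]` -/
inductive PA (φ : ℝ → E) : ℝ → ℝ → Prop
  | one (s t : ℝ) (h : s < t) (a b : E) (hφ : ∀ r ∈ Icc s t, φ r = a + r • b) : PA φ s t
  | cut (s u t : ℝ) (h1 : s < u) (h2 : u < t) (hl : PA φ s u) (hr : PA φ u t) : PA φ s t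

theorem PA.lt {φ : ℝ → E} {s t : ℝ} (h : PA φ s t) : s < t := by
  cases h with
  | one _ _ h => exact h
  | cut _ u _ h1 h2 => exact h1.trans h2

theorem PA.restr {φ : ℝ → E} {s t : ℝ} (h : PA φ s t) {s' t' : ℝ} (h1 : s ≤ s') (h2 : s' < t')
    (h3 : t' ≤ t) : PA φ s' t' := by
  induction h generalizing s' t' with
  | one s t h a b hφ =>
    exact PA.one s' t' h2 a b fun r hr => hφ r ⟨h1.trans hr.1, hr.2.trans h3⟩
  | cut s u t k1 k2 _ _ ihl ihr =>
    by_cases hu : t' ≤ u
    · exact ihl h1 h2 hu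
    by_cases hu' : u ≤ s'
    · exact ihr hu' h2 h3
    push Not at hu hu'
    exact PA.cut s' u t' hu' hu (ihl h1 hu' le_rfl) (ihr le_rfl hu h3)

theorem PA.pair {φ : ℝ → E} {ψ : ℝ → F} {s t : ℝ} (h : PA φ s t) (h' : PA ψ s t) :
    PA (fun r => (φ r, ψ r)) s t := by
  induction h with
  | one s t h a b hφ =>
    clear h
    induction h' with
    | one s t h a' b' hψ =>
      exact PA.one s t h (a, a') (b, b') fun r hr => by
        rw [hφ r hr, hψ r hr]; rfl
    | cut s u t k1 k2 _ _ ihl ihr =>
      exact PA.cut s u t k1 k2 (ihl fun r hr => hφ r ⟨hr.1, hr.2.trans k2.le⟩)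
        (ihr fun r hr => hφ r ⟨k1.le.trans hr.1, hr.2⟩)
  | cut s u t k1 k2 _ _ ihl ihr =>
    exact PA.cut s u t k1 k2 (ihl (h'.restr le_rfl k1 k2.le)) (ihr (h'.restr k1.le k2 le_rfl))

theorem PA.lin {φ : ℝ → E} {s t : ℝ} (h : PA φ s t) (L : E →ₗ[ℝ] F) :
    PA (fun r => L (φ r)) s t := by
  induction h with
  | one s t h a b hφ =>
    exact PA.one s t h (L a) (L b) fun r hr => by rw [hφ r hr, map_add, map_smul]
  | cut s u t k1 k2 _ _ ihl ihr => exact PA.cut s u t k1 k2 ihl ihr

theorem PA.congr {φ ψ : ℝ → E} {s t : ℝ} (h : PA φ s t) (he : ∀ r ∈ Icc s t, ψ r = φ r) :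
    PA ψ s t := by
  induction h with
  | one s t h a b hφ => exact PA.one s t h a b fun r hr => by rw [he r hr, hφ r hr]
  | cut s u t k1 k2 _ _ ihl ihr =>
    exact PA.cut s u t k1 k2 (ihl fun r hr => he r ⟨hr.1, hr.2.trans k2.le⟩)
        (ihr fun r hr => he r ⟨k1.le.trans hr.1, hr.2⟩)

end

theorem PA.sup {φ ψ : ℝ → ℝ} {s t : ℝ} (h : PA φ s t) (h' : PA ψ s t) :
    PA (fun r => max (φ r) (ψ r)) s t := by
  have key : ∀ χ : ℝ → ℝ × ℝ, PA χ s t → PA (fun r => max (χ r).1 (χ r).2) s t := by
    intro χ hχ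
    induction hχ with
    | cut s u t k1 k2 _ _ ihl ihr =>
      exact PA.cut s u t k1 k2 (ihl (h.restr le_rfl k1 k2.le) (h'.restr le_rfl k1 k2.le))
        (ihr (h.restr k1.le k2 le_rfl) (h'.restr k1.le k2 le_rfl))
    | one s t hst a b hχ =>
      clear h h'
      obtain ⟨a1, a2⟩ := a
      obtain ⟨b1, b2⟩ := b
      have e1 : ∀ r ∈ Icc s t, (χ r).1 = a1 + r * b1 := fun r hr => by rw [hχ r hr]; simp
      have e2 : ∀ r ∈ Icc s t, (χ r).2 = a2 + r * b2 := fun r hr => by rw [hχ r hr]; simp
      -- subintervals on which the sign is constant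
      have P1 : ∀ s' t', s ≤ s' → s' < t' → t' ≤ t → a2 + s' * b2 ≤ a1 + s' * b1 →
          a2 + t' * b2 ≤ a1 + t' * b1 → PA (fun r => max (χ r).1 (χ r).2) s' t' := by
        intro s' t' k1 k2 k3 k4 k5
        refine PA.one s' t' k2 a1 b1 fun r hr => ?_
        have hr' : r ∈ Icc s t := ⟨k1.trans hr.1, hr.2.trans k3⟩
        rw [e1 r hr', e2 r hr', smul_eq_mul]
        apply max_eq_left
        have hl : 0 < t' - s' := by linarith
        have h1 : 0 ≤ (t' - r) * ((a1 + s' * b1) - (a2 + s' * b2)) +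
            (r - s') * ((a1 + t' * b1) - (a2 + t' * b2)) := by
          have := hr.1; have := hr.2
          apply add_nonneg <;> apply mul_nonneg <;> linarith
        have h2 : (t' - r) * ((a1 + s' * b1) - (a2 + s' * b2)) +
            (r - s') * ((a1 + t' * b1) - (a2 + t' * b2)) =
            (t' - s') * ((a1 + r * b1) - (a2 + r * b2)) := by ring
        rw [h2] at h1
        have := nonneg_of_mul_nonneg_right h1 hl
        linarith
      have P2 : ∀ s' t', s ≤ s' → s' < t' → t' ≤ t → a1 + s' * b1 ≤ a2 + s' * b2 →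
          a1 + t' * b1 ≤ a2 + t' * b2 → PA (fun r => max (χ r).1 (χ r).2) s' t' := by
        intro s' t' k1 k2 k3 k4 k5
        refine PA.one s' t' k2 a2 b2 fun r hr => ?_
        have hr' : r ∈ Icc s t := ⟨k1.trans hr.1, hr.2.trans k3⟩
        rw [e1 r hr', e2 r hr', smul_eq_mul]
        apply max_eq_right
        have hl : 0 < t' - s' := by linarith
        have h1 : 0 ≤ (t' - r) * ((a2 + s' * b2) - (a1 + s' * b1)) +
            (r - s') * ((a2 + t' * b2) - (a1 + t' * b1)) := by
          have := hr.1; have := hr.2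
          apply add_nonneg <;> apply mul_nonneg <;> linarith
        have h2 : (t' - r) * ((a2 + s' * b2) - (a1 + s' * b1)) +
            (r - s') * ((a2 + t' * b2) - (a1 + t' * b1)) =
            (t' - s') * ((a2 + r * b2) - (a1 + r * b1)) := by ring
        rw [h2] at h1
        have := nonneg_of_mul_nonneg_right h1 hl
        linarith
      rcases le_total (a2 + s * b2) (a1 + s * b1) with c1 | c1 <;>
        rcases le_total (a2 + t * b2) (a1 + t * b1) with c2 | c2
      · exact P1 s t le_rfl hst le_rfl c1 c2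
      · -- sign change
        by_cases c1' : a2 + s * b2 = a1 + s * b1
        · exact P2 s t le_rfl hst le_rfl c1'.ge c2
        by_cases c2' : a1 + t * b1 = a2 + t * b2
        · exact P1 s t le_rfl hst le_rfl c1 c2'.ge
        have d1 : 0 < (a1 + s * b1) - (a2 + s * b2) := by
          have := lt_of_le_of_ne c1 c1'; linarith
        have d2 : 0 < (a2 + t * b2) - (a1 + t * b1) := by
          have := lt_of_le_of_ne c2 c2'; linarith
        have hb : 0 < (t - s) * (b2 - b1) := by linarith
        have hb' : 0 < b2 - b1 := by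
          rcases lt_or_ge 0 (b2 - b1) with h | h
          · exact h
          · have := mul_nonpos_of_nonneg_of_nonpos (by linarith : (0:ℝ) ≤ t - s) h
            linarith
        obtain ⟨u, hu⟩ : ∃ u : ℝ, u * (b2 - b1) = a1 - a2 := ⟨(a1 - a2) / (b2 - b1), by
          field_simp⟩
        have hsu : s < u := by nlinarith
        have hut : u < t := by nlinarith
        exact PA.cut s u t hsu hut (P1 s u le_rfl hsu hut.le c1 (by linarith))
          (P2 u t hsu.le hut le_rfl (by linarith) c2)
      · by_cases c1' : a1 + s * b1 = a2 + s * b2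
        · exact P1 s t le_rfl hst le_rfl c1'.ge c2
        by_cases c2' : a2 + t * b2 = a1 + t * b1
        · exact P2 s t le_rfl hst le_rfl c1 c2'.ge
        have d1 : 0 < (a2 + s * b2) - (a1 + s * b1) := by
          have := lt_of_le_of_ne c1 c1'; linarith
        have d2 : 0 < (a1 + t * b1) - (a2 + t * b2) := by
          have := lt_of_le_of_ne c2 c2'; linarith
        have hb : 0 < (t - s) * (b1 - b2) := by linarith
        have hb' : 0 < b1 - b2 := by
          rcases lt_or_ge 0 (b1 - b2) with h | h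
          · exact h
          · have := mul_nonpos_of_nonneg_of_nonpos (by linarith : (0:ℝ) ≤ t - s) h
            linarith
        obtain ⟨u, hu⟩ : ∃ u : ℝ, u * (b1 - b2) = a2 - a1 := ⟨(a2 - a1) / (b1 - b2), by
          field_simp⟩
        have hsu : s < u := by nlinarith
        have hut : u < t := by nlinarith
        exact PA.cut s u t hsu hut (P2 s u le_rfl hsu hut.le c1 (by linarith))
          (P1 u t hsu.le hut le_rfl (by linarith) c2)
      · exact P2 s t le_rfl hst le_rfl c1 c2
  exact key _ (h.pair h')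

theorem PA.inf {φ ψ : ℝ → ℝ} {s t : ℝ} (h : PA φ s t) (h' : PA ψ s t) :
    PA (fun r => min (φ r) (ψ r)) s t := by
  have h1 := h.lin (-LinearMap.id)
  have h2 := h'.lin (-LinearMap.id)
  have h3 := (h1.sup h2).lin (-LinearMap.id)
  refine h3.congr fun r _ => ?_
  simp only [LinearMap.neg_apply, LinearMap.id_apply]
  rw [max_neg_neg, neg_neg]

/-- piecewise linear along all lines -/
def PLr (f : ℂ → ℝ) : Prop := ∀ x y : ℂ, PA (fun t : ℝ => f (x + t * (y - x))) 0 1

/-- piecewise linear along all lines -/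
def PLc (g : ℂ → ℂ) : Prop := ∀ x y : ℂ, PA (fun t : ℝ => g (x + t * (y - x))) 0 1

lemma PLr.sup {f g : ℂ → ℝ} (hf : PLr f) (hg : PLr g) : PLr fun z => max (f z) (g z) :=
  fun x y => (hf x y).sup (hg x y)

lemma PLr.inf {f g : ℂ → ℝ} (hf : PLr f) (hg : PLr g) : PLr fun z => min (f z) (g z) :=
  fun x y => (hf x y).inf (hg x y)

lemma PLr.const (c : ℝ) : PLr fun _ => c := fun _ _ => PA.one 0 1 one_pos c 0 fun r _ => by simp

/-- the real affine function with the given coefficients -/
def af (α β γ : ℝ) (z : ℂ) : ℝ := α + β * z.re + γ * z.im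

lemma PLr.af (α β γ : ℝ) : PLr (af α β γ) := fun x y =>
  PA.one 0 1 one_pos (V8H80.af α β γ x) (β * (y - x).re + γ * (y - x).im) fun r _ => by
    simp [V8H80.af]
    ring

lemma PLr.mv {f : ℂ → ℝ} (hf : PLr f) (w : ℂ) : PLc fun z => z + (f z : ℂ) * w := by
  intro x y
  have h1 : PA (fun t : ℝ => x + (t : ℂ) * (y - x)) 0 1 :=
    PA.one 0 1 one_pos x (y - x) fun r _ => by simp
  have h2 := (h1.pair (hf x y)).lin
    ((LinearMap.fst ℝ ℂ ℝ) + (LinearMap.toSpanSingleton ℝ ℂ w).comp (LinearMap.snd ℝ ℂ ℝ))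
  refine h2.congr fun r _ => ?_
  simp

theorem segment_eq_image_mul (x y : ℂ) :
    segment ℝ x y = (fun t : ℝ => x + (t : ℂ) * (y - x)) '' Icc 0 1 := by
  rw [segment_eq_image']
  simp

theorem PA.arc {φ : ℝ → ℂ} {s t : ℝ} (h : PA φ s t) (hinj : InjOn φ (Icc s t)) :
    Arc (φ '' Icc s t) (φ s) (φ t) := by
  induction h with
  | one s t h a b hφ =>
    have hs : s ∈ Icc s t := left_mem_Icc.2 h.le
    have ht : t ∈ Icc s t := right_mem_Icc.2 h.le
    have hne : φ s ≠ φ t := fun e => h.ne (hinj hs ht e)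
    have e : φ '' Icc s t = segment ℝ (φ s) (φ t) := by
      rw [segment_eq_image_mul]
      have hd : t - s ≠ 0 := by linarith
      have hd' : (t : ℂ) - s ≠ 0 := by exact_mod_cast hd
      ext z
      constructor
      · rintro ⟨r, hr, rfl⟩
        refine ⟨(r - s) / (t - s), ⟨div_nonneg (by linarith [hr.1]) (by linarith),
          (div_le_one (by linarith)).2 (by linarith [hr.2])⟩, ?_⟩
        show φ s + (((r - s) / (t - s) : ℝ) : ℂ) * (φ t - φ s) = φ r
        rw [hφ r hr, hφ s hs, hφ t ht]
        simp only [Complex.real_smul]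
        push_cast
        field_simp
        ring
      · rintro ⟨u, hu, rfl⟩
        have h1 : s + u * (t - s) ∈ Icc s t := by
          constructor
          · nlinarith [hu.1]
          · nlinarith [hu.2]
        refine ⟨s + u * (t - s), h1, ?_⟩
        show φ _ = φ s + (u : ℂ) * (φ t - φ s)
        rw [hφ _ h1, hφ s hs, hφ t ht]
        simp only [Complex.real_smul]
        push_cast
        ring
    rw [e]
    exact Arc.seg _ _ hne
  | cut s u t k1 k2 _ _ ihl ihr =>
    have e : Icc s t = Icc s u ∪ Icc u t := (Icc_union_Icc_eq_Icc k1.le k2.le).symm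
    have hl : Icc s u ⊆ Icc s t := Icc_subset_Icc_right k2.le
    have hr : Icc u t ⊆ Icc s t := Icc_subset_Icc_left k1.le
    rw [e, image_union]
    refine (ihl (hinj.mono hl)).append' (ihr (hinj.mono hr)) ?_
    rintro z ⟨⟨x, hx, rfl⟩, ⟨y, hy, he⟩⟩
    have := hinj (hr hy) (hl hx) he
    subst this
    have : y = u := le_antisymm hx.2 hy.1
    rw [this]
    rfl

/-- the image of a polygonal arc under a piecewise linear injection is a polygonal arc -/
theorem PLc.arc {g : ℂ → ℂ} (hg : PLc g) (hinj : Function.Injective g) {A : Set ℂ} {p q : ℂ}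
    (h : Arc A p q) : Arc (g '' A) (g p) (g q) := by
  have hseg : ∀ x y : ℂ, x ≠ y → Arc (g '' segment ℝ x y) (g x) (g y) := by
    intro x y hxy
    have h1 := (hg x y).arc (by
      intro s _ t _ hst
      have h2 := hinj hst
      have h3 : (s : ℂ) * (y - x) = t * (y - x) := add_left_cancel h2
      have h4 := mul_right_cancel₀ (sub_ne_zero.2 hxy.symm) h3
      exact_mod_cast h4)
    rw [segment_eq_image_mul, ← image_comp]
    simpa using h1
  induction h with
  | seg p q h => exact hseg p q h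
  | cons p x q A h hA hi ih =>
    rw [image_union]
    refine (hseg p x h).append ih ?_
    rw [← image_inter hinj, hi, image_singleton]

end Pool.Agent.V8H80
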