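import Pool.Agent.V8H80.Grid

/-!
The perimeter of the square (helper80, MP_cbfcf7_gt).
-/

set_option autoImplicit false

open Set Topology Filter

namespace Pool.Agent.V8H80

def px (K : ℕ) (k : ℕ) : ℤ :=
  if k ≤ 2 * K then -K + k else if k ≤ 4 * K then K else if k ≤ 6 * K then 5 * K - k else -K

def py (K : ℕ) (k : ℕ) : ℤ :=
  if k ≤ 2 * K then -K else if k ≤ 4 * K then k - 3 * K else if k ≤ 6 * K then K else 7 * K - k

/-- the perimeter -/
def pr (t : ℝ) (K : ℕ) (k : ℕ) : ℂ := V t (px K k) (py K k)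

variable {t : ℝ} {M : ℤ} {K : ℕ}

lemma pr_eq_of {a b : ℤ} {k : ℕ} (h1 : px K k = a) (h2 : py K k = b) : pr t K k = V t a b := by
  unfold pr
  rw [h1, h2]

/-- the four sides -/
lemma pr_side1 {k : ℕ} (h : k < 2 * K) : pr t K k = V t (-K + k) (-K) ∧
    pr t K (k + 1) = V t ((-K + k) + 1) (-K) := by
  constructor
  · apply pr_eq_of
    · unfold px; split_ifs <;> omega
    · unfold py; split_ifs <;> omega
  · apply pr_eq_of
    · unfold px; split_ifs <;> omega
    · unfold py; split_ifs <;> omega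

lemma pr_side2 {k : ℕ} (h0 : 2 * K ≤ k) (h : k < 4 * K) : pr t K k = V t K (k - 3 * K) ∧
    pr t K (k + 1) = V t K ((k - 3 * K) + 1) := by
  constructor
  · apply pr_eq_of
    · unfold px; split_ifs <;> omega
    · unfold py; split_ifs <;> omega
  · apply pr_eq_of
    · unfold px; split_ifs <;> omega
    · unfold py; split_ifs <;> omega

lemma pr_side3 {k : ℕ} (h0 : 4 * K ≤ k) (h : k < 6 * K) : pr t K k = V t ((5 * K - k - 1) + 1) K ∧
    pr t K (k + 1) = V t (5 * K - k - 1) K := by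
  constructor
  · apply pr_eq_of
    · unfold px; split_ifs <;> omega
    · unfold py; split_ifs <;> omega
  · apply pr_eq_of
    · unfold px; split_ifs <;> omega
    · unfold py; split_ifs <;> omega

lemma pr_side4 {k : ℕ} (h0 : 6 * K ≤ k) (h : k < 8 * K) :
    pr t K k = V t (-K) ((7 * K - k - 1) + 1) ∧ pr t K (k + 1) = V t (-K) (7 * K - k - 1) := by
  constructor
  · apply pr_eq_of
    · unfold px; split_ifs <;> omega
    · unfold py; split_ifs <;> omega
  · apply pr_eq_of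
    · unfold px; split_ifs <;> omega
    · unfold py; split_ifs <;> omega

lemma pr_cl (hK : 0 < K) : pr t K (8 * K) = pr t K 0 := by
  unfold pr
  congr 1
  · unfold px; split_ifs <;> omega
  · unfold py; split_ifs <;> omega

lemma pr_inj (ht : 0 < t) (i j : ℕ) (hi : i < 8 * K) (hj : j < 8 * K)
    (h : pr t K i = pr t K j) : i = j := by
  obtain ⟨h1, h2⟩ := V_inj ht h
  unfold px at h1
  unfold py at h2
  split_ifs at h1 h2 <;> omega

lemma pr_adj (hK : 0 < K) (hM : M ∣ (K : ℤ)) {k : ℕ} (hk : k < 8 * K) :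
    GA t M K (pr t K k) (pr t K (k + 1)) := by
  rcases Nat.lt_or_ge k (2 * K) with h1 | h1
  · obtain ⟨e1, e2⟩ := pr_side1 (t := t) h1
    rw [e1, e2]
    exact GA_h (by omega) (by omega) (by omega) (by omega) (by rwa [dvd_neg])
  rcases Nat.lt_or_ge k (4 * K) with h2 | h2
  · obtain ⟨e1, e2⟩ := pr_side2 (t := t) h1 h2
    rw [e1, e2]
    exact GA_v (by omega) (by omega) (by omega) (by omega) hM
  rcases Nat.lt_or_ge k (6 * K) with h3 | h3
  · obtain ⟨e1, e2⟩ := pr_side3 (t := t) h2 h3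
    rw [e1, e2]
    exact (GA_h (by omega) (by omega) (by omega) (by omega) hM).symm
  · obtain ⟨e1, e2⟩ := pr_side4 (t := t) h3 hk
    rw [e1, e2]
    exact (GA_v (by omega) (by omega) (by omega) (by omega) (by rwa [dvd_neg])).symm

/-- the boundary of the square -/
def bdS (L : ℝ) : Set ℂ := {z | -L ≤ z.re ∧ z.re ≤ L ∧ -L ≤ z.im ∧ z.im ≤ L ∧
  (z.re = -L ∨ z.re = L ∨ z.im = -L ∨ z.im = L)}

lemma pr_bd (ht : 0 < t) {k : ℕ} (hk : k < 8 * K) {z : ℂ}
    (hz : z ∈ segment ℝ (pr t K k) (pr t K (k + 1))) : z ∈ bdS (t * K) := by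
  have aux : ∀ a : ℤ, -(K:ℤ) ≤ a → a + 1 ≤ K → -(t * K) ≤ t * (a : ℝ) ∧ t * ((a : ℝ) + 1) ≤ t * K := by
    intro a h1 h2
    have h1' : -(K:ℝ) ≤ a := by exact_mod_cast h1
    have h2' : (a:ℝ) + 1 ≤ K := by exact_mod_cast h2
    constructor <;> nlinarith
  have hK : -(t * K) ≤ t * (K:ℝ) := by
    have : 0 ≤ t * (K:ℝ) := by positivity
    linarith
  rcases Nat.lt_or_ge k (2 * K) with h1 | h1
  · obtain ⟨e1, e2⟩ := pr_side1 (t := t) h1
    rw [e1, e2, mem_hseg ht] at hz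
    obtain ⟨z1, z2, z3⟩ := hz
    obtain ⟨a1, a2⟩ := aux (-K + k) (by omega) (by omega)
    have z1' : z.im = -(t * K) := by rw [z1]; push_cast; ring
    exact ⟨a1.trans z2, z3.trans a2, z1'.ge, by rw [z1']; exact hK, Or.inr (Or.inr (Or.inl z1'))⟩
  rcases Nat.lt_or_ge k (4 * K) with h2 | h2
  · obtain ⟨e1, e2⟩ := pr_side2 (t := t) h1 h2
    rw [e1, e2, mem_vseg ht] at hz
    obtain ⟨z1, z2, z3⟩ := hz
    obtain ⟨a1, a2⟩ := aux (k - 3 * K) (by omega) (by omega)
    have z1' : z.re = t * K := by rw [z1]; push_cast; ring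
    exact ⟨by rw [z1']; exact hK, z1'.le, a1.trans z2, z3.trans a2, Or.inr (Or.inl z1')⟩
  rcases Nat.lt_or_ge k (6 * K) with h3 | h3
  · obtain ⟨e1, e2⟩ := pr_side3 (t := t) h2 h3
    rw [e1, e2, segment_symm, mem_hseg ht] at hz
    obtain ⟨z1, z2, z3⟩ := hz
    obtain ⟨a1, a2⟩ := aux (5 * K - k - 1) (by omega) (by omega)
    have z1' : z.im = t * K := by rw [z1]; push_cast; ring
    exact ⟨a1.trans z2, z3.trans a2, by rw [z1']; exact hK, z1'.le, Or.inr (Or.inr (Or.inr z1'))⟩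
  · obtain ⟨e1, e2⟩ := pr_side4 (t := t) h3 hk
    rw [e1, e2, segment_symm, mem_vseg ht] at hz
    obtain ⟨z1, z2, z3⟩ := hz
    obtain ⟨a1, a2⟩ := aux (7 * K - k - 1) (by omega) (by omega)
    have z1' : z.re = -(t * K) := by rw [z1]; push_cast; ring
    exact ⟨z1'.ge, by rw [z1']; exact hK, a1.trans z2, z3.trans a2, Or.inl z1'⟩

/-- all boundary edges are perimeter edges -/
lemma bd_h {P : ℂ → ℂ → Prop} (hP : ∀ k, k < 8 * K → P (pr t K k) (pr t K (k + 1)))
    (hs : ∀ x y, P x y → P y x) {a : ℤ} (h1 : -K ≤ a) (h2 : a + 1 ≤ K) :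
    P (V t a (-K)) (V t (a + 1) (-K)) ∧ P (V t a K) (V t (a + 1) K) := by
  constructor
  · have hk : (a + K).toNat < 2 * K := by omega
    have := hP (a + K).toNat (by omega)
    obtain ⟨e1, e2⟩ := pr_side1 (t := t) hk
    rw [e1, e2] at this
    have e : (-(K:ℤ) + ((a + K).toNat : ℤ)) = a := by omega
    rwa [e] at this
  · have hk : (5 * K - a - 1).toNat < 6 * K := by omega
    have hk0 : 4 * K ≤ (5 * K - a - 1).toNat := by omega
    have := hP (5 * K - a - 1).toNat (by omega)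
    obtain ⟨e1, e2⟩ := pr_side3 (t := t) hk0 hk
    rw [e1, e2] at this
    have e : (5 * (K:ℤ) - ((5 * K - a - 1).toNat : ℤ) - 1) = a := by omega
    rw [e] at this
    exact hs _ _ this

lemma bd_v {P : ℂ → ℂ → Prop} (hP : ∀ k, k < 8 * K → P (pr t K k) (pr t K (k + 1)))
    (hs : ∀ x y, P x y → P y x) {b : ℤ} (h1 : -K ≤ b) (h2 : b + 1 ≤ K) :
    P (V t (-K) b) (V t (-K) (b + 1)) ∧ P (V t K b) (V t K (b + 1)) := by
  constructor
  · have hk : (7 * K - b - 1).toNat < 8 * K := by omega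
    have hk0 : 6 * K ≤ (7 * K - b - 1).toNat := by omega
    have := hP (7 * K - b - 1).toNat (by omega)
    obtain ⟨e1, e2⟩ := pr_side4 (t := t) hk0 hk
    rw [e1, e2] at this
    have e : (7 * (K:ℤ) - ((7 * K - b - 1).toNat : ℤ) - 1) = b := by omega
    rw [e] at this
    exact hs _ _ this
  · have hk : (b + 3 * K).toNat < 4 * K := by omega
    have hk0 : 2 * K ≤ (b + 3 * K).toNat := by omega
    have := hP (b + 3 * K).toNat (by omega)
    obtain ⟨e1, e2⟩ := pr_side2 (t := t) hk0 hk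
    rw [e1, e2] at this
    have e : (((b + 3 * K).toNat : ℤ) - 3 * (K:ℤ)) = b := by omega
    rwa [e] at this

end Pool.Agent.V8H80
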