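import Pool.Agent.V8H80.Nice

/-!
Moves defined by four affine functions (helper80, MP_cbfcf7_gt).
-/

set_option autoImplicit false

open Filter Topology Set

namespace Pool.Agent.V8H80

open Pool.Agent.Helper11.PlaneEuler

theorem ori_of_slit {g : ℂ ≃ₜ ℂ}
    (h : ∀ x y : ℂ, x ≠ y → (g y - g x) / (y - x) ∈ Complex.slitPlane) : Ori g := by
  refine ⟨⟨g, ⟨fun x => Complex.arg ((g x.1.2 - g x.1.1) / (x.1.2 - x.1.1)), ?_⟩, ?_⟩, rfl⟩
  · rw [continuous_iff_continuousAt]
    intro x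
    have h1 : ContinuousAt (fun x : Conf => (g x.1.2 - g x.1.1) / (x.1.2 - x.1.1)) x := by
      have h2 : Continuous (fun x : Conf => (g x.1.2 - g x.1.1) / (x.1.2 - x.1.1)) := by
        apply Continuous.div
        · have := g.continuous; fun_prop
        · fun_prop
        · exact fun x => sub_ne x
      exact h2.continuousAt
    exact ContinuousAt.comp (g := Complex.arg)
      (f := fun x : Conf => (g x.1.2 - g x.1.1) / (x.1.2 - x.1.1))
      (Complex.continuousAt_arg (h _ _ x.2)) h1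
  · intro x
    exact (Complex.norm_mul_exp_arg_mul_I _).symm

/-- the positive part of the minimum of four functions -/
noncomputable def quad (A : Fin 4 → ℂ → ℝ) (z : ℂ) : ℝ :=
  max 0 (min (min (A 0 z) (A 1 z)) (min (A 2 z) (A 3 z)))

section

variable {A : Fin 4 → ℂ → ℝ} {z : ℂ}

lemma quad_nonneg : 0 ≤ quad A z := le_max_left _ _

lemma quad_zero (h : ∃ i, A i z ≤ 0) : quad A z = 0 := by
  unfold quad
  apply max_eq_left
  obtain ⟨i, hi⟩ := h
  fin_cases i
  · exact (min_le_left _ _).trans ((min_le_left _ _).trans hi)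
  · exact (min_le_left _ _).trans ((min_le_right _ _).trans hi)
  · exact (min_le_right _ _).trans ((min_le_left _ _).trans hi)
  · exact (min_le_right _ _).trans ((min_le_right _ _).trans hi)

lemma quad_of {v : ℝ} (hv : 0 ≤ v) (h1 : ∀ i, v ≤ A i z) (h2 : ∃ i, A i z = v) :
    quad A z = v := by
  unfold quad
  have h3 : min (min (A 0 z) (A 1 z)) (min (A 2 z) (A 3 z)) = v := by
    apply le_antisymm
    · obtain ⟨i, hi⟩ := h2
      rw [← hi]
      fin_cases i
      · exact (min_le_left _ _).trans (min_le_left _ _)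
      · exact (min_le_left _ _).trans (min_le_right _ _)
      · exact (min_le_right _ _).trans (min_le_left _ _)
      · exact (min_le_right _ _).trans (min_le_right _ _)
    · exact le_min (le_min (h1 0) (h1 1)) (le_min (h1 2) (h1 3))
  rw [h3]
  exact max_eq_right hv

lemma quad_le (i : Fin 4) (h : 0 < quad A z) : quad A z ≤ A i z := by
  have h1 : quad A z = min (min (A 0 z) (A 1 z)) (min (A 2 z) (A 3 z)) := by
    unfold quad at h ⊢
    rcases max_cases (0 : ℝ) (min (min (A 0 z) (A 1 z)) (min (A 2 z) (A 3 z))) with ⟨h2, -⟩ | ⟨h2, -⟩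
    · rw [h2] at h; exact absurd h (lt_irrefl _)
    · exact h2
  rw [h1]
  fin_cases i
  · exact (min_le_left _ _).trans (min_le_left _ _)
  · exact (min_le_left _ _).trans (min_le_right _ _)
  · exact (min_le_right _ _).trans (min_le_left _ _)
  · exact (min_le_right _ _).trans (min_le_right _ _)

lemma quad_pos_of (h : ∀ i, 0 < A i z) : 0 < quad A z := by
  unfold quad
  exact lt_max_of_lt_right (lt_min (lt_min (h 0) (h 1)) (lt_min (h 2) (h 3)))

lemma quad_spec : (quad A z = 0 ∧ ∃ i, A i z ≤ 0) ∨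
    (0 < quad A z ∧ (∀ i, quad A z ≤ A i z) ∧ ∃ i, A i z = quad A z) := by
  by_cases h : ∃ i, A i z ≤ 0
  · exact Or.inl ⟨quad_zero h, h⟩
  · push Not at h
    have hp := quad_pos_of h
    refine Or.inr ⟨hp, fun i => quad_le i hp, ?_⟩
    have h1 : quad A z = min (min (A 0 z) (A 1 z)) (min (A 2 z) (A 3 z)) := by
      unfold quad
      exact max_eq_right (le_min (le_min (h 0).le (h 1).le) (le_min (h 2).le (h 3).le))
    rcases min_cases (min (A 0 z) (A 1 z)) (min (A 2 z) (A 3 z)) with ⟨h2, -⟩ | ⟨h2, -⟩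
    · rcases min_cases (A 0 z) (A 1 z) with ⟨h3, -⟩ | ⟨h3, -⟩
      · exact ⟨0, by rw [h1, h2, h3]⟩
      · exact ⟨1, by rw [h1, h2, h3]⟩
    · rcases min_cases (A 2 z) (A 3 z) with ⟨h3, -⟩ | ⟨h3, -⟩
      · exact ⟨2, by rw [h1, h2, h3]⟩
      · exact ⟨3, by rw [h1, h2, h3]⟩

end

/-- real affine functions -/
def IsAf (f : ℂ → ℝ) : Prop := ∃ α β γ : ℝ, ∀ z : ℂ, f z = α + β * z.re + γ * z.im

lemma IsAf.PLr {f : ℂ → ℝ} (h : IsAf f) : PLr f := by
  obtain ⟨α, β, γ, h⟩ := h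
  have : f = af α β γ := funext h
  rw [this]
  exact PLr.af α β γ

lemma IsAf.cont {f : ℂ → ℝ} (h : IsAf f) : Continuous f := by
  obtain ⟨α, β, γ, h⟩ := h
  rw [show f = _ from funext h]
  fun_prop

lemma IsAf.const (c : ℝ) : IsAf fun _ => c := ⟨c, 0, 0, fun z => by ring⟩

lemma IsAf.add {f g : ℂ → ℝ} (hf : IsAf f) (hg : IsAf g) : IsAf fun z => f z + g z := by
  obtain ⟨α, β, γ, h⟩ := hf
  obtain ⟨α', β', γ', h'⟩ := hg
  exact ⟨α + α', β + β', γ + γ', fun z => by simp only [h, h']; ring⟩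

lemma IsAf.smul {f : ℂ → ℝ} (hf : IsAf f) (c : ℝ) : IsAf fun z => c * f z := by
  obtain ⟨α, β, γ, h⟩ := hf
  exact ⟨c * α, c * β, c * γ, fun z => by simp only [h]; ring⟩

lemma IsAf.sub {f g : ℂ → ℝ} (hf : IsAf f) (hg : IsAf g) : IsAf fun z => f z - g z := by
  obtain ⟨α, β, γ, h⟩ := hf
  obtain ⟨α', β', γ', h'⟩ := hg
  exact ⟨α - α', β - β', γ - γ', fun z => by simp only [h, h']; ring⟩

lemma IsAf.div {f : ℂ → ℝ} (hf : IsAf f) (c : ℝ) : IsAf fun z => f z / c := by
  obtain ⟨α, β, γ, h⟩ := hf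
  exact ⟨α / c, β / c, γ / c, fun z => by simp only [h]; ring⟩

lemma PLr.quad {A : Fin 4 → ℂ → ℝ} (hA : ∀ i, IsAf (A i)) : PLr (quad A) :=
  (PLr.const 0).sup (((hA 0).PLr.inf (hA 1).PLr).inf ((hA 2).PLr.inf (hA 3).PLr))

/-- moves defined by four affine functions -/
theorem nice_quad {w : ℂ} {A : Fin 4 → ℂ → ℝ} (hA : ∀ i, IsAf (A i)) (ℓ : Fin 4 → ℝ)
    (hℓ : ∀ i (z : ℂ) (s : ℝ), A i (z + s * w) = A i z + s * ℓ i) (hp : ∀ i, 0 < 1 + ℓ i)
    (hcs : HasCompactSupport (quad A)) :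
    ∃ g : ℂ ≃ₜ ℂ, Nice g ∧ ∀ z, g z = z + (quad A z : ℂ) * w := by
  obtain ⟨κ, hκ0, hκ1, hκ⟩ : ∃ κ : ℝ, 0 < κ ∧ κ ≤ 1 ∧ ∀ i, κ ≤ 1 + ℓ i := by
    refine ⟨min 1 (min (min (1 + ℓ 0) (1 + ℓ 1)) (min (1 + ℓ 2) (1 + ℓ 3))),
      lt_min one_pos (lt_min (lt_min (hp 0) (hp 1)) (lt_min (hp 2) (hp 3))), min_le_left _ _, ?_⟩
    intro i
    refine (min_le_right _ _).trans ?_
    fin_cases i
    · exact (min_le_left _ _).trans (min_le_left _ _)
    · exact (min_le_left _ _).trans (min_le_right _ _)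
    · exact (min_le_right _ _).trans (min_le_left _ _)
    · exact (min_le_right _ _).trans (min_le_right _ _)
  have hslA : ∀ i, Slow w κ (A i) := by
    intro i z s hs
    rw [hℓ]
    have := hκ i
    nlinarith
  have hslow : Slow w κ (quad A) :=
    (Slow.const hκ1 0).sup (((hslA 0).inf (hslA 1)).inf ((hslA 2).inf (hslA 3)))
  have hcont : Continuous (quad A) := by
    unfold quad
    have := fun i => (hA i).cont
    exact continuous_const.max (((this 0).min (this 1)).min ((this 2).min (this 3)))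
  obtain ⟨B, hB⟩ := hcont.bounded_above_of_compact_support hcs
  obtain ⟨g, hg⟩ := exists_mv hκ0 hslow hcont (B := B) (fun z => by
    rw [← Real.norm_eq_abs]; exact hB z)
  -- the inverse
  have hinv : ∀ z, quad (fun i y => A i y / (1 + ℓ i)) (z + (quad A z : ℂ) * w) = quad A z := by
    intro z
    rcases quad_spec (A := A) (z := z) with ⟨h1, i, hi⟩ | ⟨h1, h2, i, hi⟩
    · rw [h1]
      simp only [Complex.ofReal_zero, zero_mul, add_zero]
      exact quad_zero ⟨i, div_nonpos_of_nonpos_of_nonneg hi (hp i).le⟩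
    · refine quad_of h1.le (fun j => ?_) ⟨i, ?_⟩
      · rw [hℓ, le_div_iff₀ (hp j)]
        have := h2 j
        linarith
      · show A i _ / (1 + ℓ i) = _
        rw [hℓ, div_eq_iff (hp i).ne', hi]
        ring
  have hginv : ∀ y, g.symm y = y + (quad (fun i y => A i y / (1 + ℓ i)) y : ℂ) * (-w) := by
    intro y
    obtain ⟨z, rfl⟩ := g.surjective y
    rw [g.symm_apply_apply, hg, hinv]
    ring
  refine ⟨g, ⟨?_, ?_, ?_, ?_⟩, hg⟩
  · intro S p q hS
    have h1 := (PLr.quad hA).mv w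
    have h2 : (fun z => z + (quad A z : ℂ) * w) = ⇑g := (funext hg).symm
    rw [h2] at h1
    exact h1.arc g.injective hS
  · intro S p q hS
    have h1 := (PLr.quad (A := fun i y => A i y / (1 + ℓ i)) fun i => (hA i).div _).mv (-w)
    have h2 : (fun y => y + (quad (fun i y => A i y / (1 + ℓ i)) y : ℂ) * (-w)) = ⇑g⁻¹ :=
      (funext hginv).symm
    rw [h2] at h1
    exact h1.arc g.symm.injective hS
  · intro R ε hε
    obtain ⟨h, h1, h2⟩ := t_smooth w κ (quad A) hκ0 hcont hcs hslow (ε / 2) (half_pos hε)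
    refine ⟨h, h1, fun z _ => ?_⟩
    rw [hg]
    exact (h2 z).trans_lt (half_lt_self hε)
  · refine ori_of_slit fun x y hxy => ?_
    rw [hg, hg]
    exact mv_slit hκ0 hslow hxy

end Pool.Agent.V8H80
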