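import Pool.Agent.V8H80.Lat

/-!
Induction over rectangles (helper80, MP_cbfcf7_gt).
-/

set_option autoImplicit false

open Set Topology Filter

namespace Pool.Agent.V8H80

variable {u v : ℂ → ℝ} {w : ℂ} {t : ℝ} {M K : ℤ} {W : ℤ → ℤ → ℂ}
  {A : ℂ → ℂ → Set ℂ} {f : ℂ ≃ₜ ℂ}

/-- all grid edges in the rectangle are matched -/
def Full (A : ℂ → ℂ → Set ℂ) (f γ : ℂ ≃ₜ ℂ) (M : ℤ) (W : ℤ → ℤ → ℂ) (a0 a1 b0 b1 : ℤ) : Prop :=
  (∀ a b : ℤ, a0 ≤ a → a + 1 ≤ a1 → b0 ≤ b → b ≤ b1 → M ∣ b → Mt A f γ (W a b) (W (a + 1) b)) ∧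
  (∀ a b : ℤ, a0 ≤ a → a ≤ a1 → b0 ≤ b → b + 1 ≤ b1 → M ∣ a → Mt A f γ (W a b) (W a (b + 1)))

/-- the boundary matching extends to the rectangle -/
def RG (A : ℂ → ℂ → Set ℂ) (f : ℂ ≃ₜ ℂ) (M : ℤ) (t : ℝ) (u v : ℂ → ℝ) (W : ℤ → ℤ → ℂ)
    (a0 a1 b0 b1 : ℤ) : Prop :=
  ∀ γ : ℂ ≃ₜ ℂ, Nice γ → (∀ x y, BE W a0 a1 b0 b1 x y → Mt A f γ x y) →
    ∃ γ' : ℂ ≃ₜ ℂ, Nice γ' ∧
      (∀ z, z ∉ st u v (t * a0) (t * a1) (t * b0) (t * b1) → γ' z = γ z) ∧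
      Full A f γ' M W a0 a1 b0 b1

lemma RG.swap {a0 a1 b0 b1 : ℤ} (h : RG A f M t u v W a0 a1 b0 b1) :
    RG A f M t v u (fun a b => W b a) b0 b1 a0 a1 := by
  intro γ hγ hB
  obtain ⟨γ', h1, h2, h3, h4⟩ := h γ hγ (by
    rintro x y (⟨a, b, c1, c2, c3, rfl, rfl⟩ | ⟨a, b, c1, c2, c3, rfl, rfl⟩)
    · exact hB _ _ (Or.inr ⟨b, a, c1, c2, c3, rfl, rfl⟩)
    · exact hB _ _ (Or.inl ⟨b, a, c1, c2, c3, rfl, rfl⟩))
  refine ⟨γ', h1, ?_, ?_, ?_⟩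
  · intro z hz
    apply h2
    intro hz'
    exact hz ⟨hz'.2.2.1, hz'.2.2.2, hz'.1, hz'.2.1⟩
  · intro a b c1 c2 c3 c4 c5
    exact h4 b a c3 c4 c1 c2 c5
  · intro a b c1 c2 c3 c4 c5
    exact h3 b a c3 c4 c1 c2 c5

theorem rstep (hear : S_ear) (hsl : S_slideN) (hface : S_face) (hf : Ori f) (ht : 0 < t)
    {M' : ℤ} (hM' : 0 < M') (hM : M = 2 * M') (hL : Lat u v w t M K W) (hN : Net (GA t M K) A f)
    {ρ : ℝ}
    (hcl : ∀ x y, GA t M K x y → ∀ p ∈ segment ℝ x y, ∀ q ∈ A x y, ‖q - f p‖ < ρ)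
    (hsep : ∀ p m : ℂ, (-(t * K) ≤ p.re ∧ p.re ≤ t * K ∧ -(t * K) ≤ p.im ∧ p.im ≤ t * K) →
      (-(t * K) ≤ m.re ∧ m.re ≤ t * K ∧ -(t * K) ≤ m.im ∧ m.im ≤ t * K) →
      t * M' ≤ ‖p - m‖ → ρ ≤ ‖f p - f m‖)
    {a0 a1 b0 b1 c : ℤ} (k1 : -K ≤ a0) (k2 : a1 ≤ K) (k3 : -K ≤ b0) (k4 : b1 ≤ K)
    (k5 : a0 + M ≤ c) (k6 : c + M ≤ a1) (k7 : b0 + M ≤ b1) (hc : M ∣ c) (hb0 : M ∣ b0)
    (hb1 : M ∣ b1) (ha0 : M ∣ a0) (ha1 : M ∣ a1)
    (hl : RG A f M t u v W a0 c b0 b1) (hr : RG A f M t u v W c a1 b0 b1) :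
    RG A f M t u v W a0 a1 b0 b1 := by
  intro γ hγ hB
  obtain ⟨γ1, g1, g2, g3⟩ := vcut hear hsl hface hf ht hM' hM hL hN hcl hsep k1 k2 k3 k4 k5 k6 k7
    hc hb0 hb1 ha0 ha1 hγ hB
  have c1 : t * a0 < t * c := mul_lt_mul_of_pos_left (by exact_mod_cast (by omega : a0 < c)) ht
  have c2 : t * c < t * a1 := mul_lt_mul_of_pos_left (by exact_mod_cast (by omega : c < a1)) ht
  -- the boundary edges of both halves are matched
  have hB1 : ∀ a b : ℤ, a0 ≤ a → a + 1 ≤ a1 → (b = b0 ∨ b = b1) →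
      Mt A f γ1 (W a b) (W (a + 1) b) := by
    intro a b h1 h2 h3
    refine (hB _ _ (Or.inl ⟨a, b, h1, h2, h3, rfl, rfl⟩)).congr fun z hz => g2 z fun hz' => ?_
    rw [hL.hs] at hz
    obtain ⟨z1, z2, z3, z4⟩ := hz'
    rcases h3 with rfl | rfl
    · linarith [hz.1]
    · linarith [hz.1]
  have hB2 : ∀ a b : ℤ, (a = a0 ∨ a = c ∨ a = a1) → b0 ≤ b → b + 1 ≤ b1 →
      Mt A f γ1 (W a b) (W a (b + 1)) := by
    intro a b h1 h2 h3
    rcases h1 with rfl | rfl | rfl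
    · refine (hB _ _ (Or.inr ⟨a, b, h2, h3, Or.inl rfl, rfl, rfl⟩)).congr fun z hz =>
        g2 z fun hz' => ?_
      rw [hL.vs] at hz
      obtain ⟨z1, z2, z3, z4⟩ := hz'
      linarith [hz.1]
    · exact g3 b h2 h3
    · refine (hB _ _ (Or.inr ⟨a, b, h2, h3, Or.inr rfl, rfl, rfl⟩)).congr fun z hz =>
        g2 z fun hz' => ?_
      rw [hL.vs] at hz
      obtain ⟨z1, z2, z3, z4⟩ := hz'
      linarith [hz.1]
  obtain ⟨γ2, l1, l2, l3, l4⟩ := hl γ1 g1 (by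
    rintro x y (⟨a, b, h1, h2, h3, rfl, rfl⟩ | ⟨a, b, h1, h2, h3, rfl, rfl⟩)
    · exact hB1 a b h1 (by omega) h3
    · exact hB2 a b (by tauto) h1 h2)
  -- edges in the right half are not in the left open half
  have R1 : ∀ a b : ℤ, c ≤ a → ∀ z ∈ segment ℝ (W a b) (W (a + 1) b), γ2 z = γ1 z := by
    intro a b h1 z hz
    apply l2
    intro hz'
    rw [hL.hs] at hz
    obtain ⟨z1, z2, z3, z4⟩ := hz'
    have : t * (c : ℝ) ≤ t * a := mul_le_mul_of_nonneg_left (by exact_mod_cast h1) ht.le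
    linarith [hz.2.1]
  have R2 : ∀ a b : ℤ, c ≤ a → ∀ z ∈ segment ℝ (W a b) (W a (b + 1)), γ2 z = γ1 z := by
    intro a b h1 z hz
    apply l2
    intro hz'
    rw [hL.vs] at hz
    obtain ⟨z1, z2, z3, z4⟩ := hz'
    have : t * (c : ℝ) ≤ t * a := mul_le_mul_of_nonneg_left (by exact_mod_cast h1) ht.le
    linarith [hz.1]
  obtain ⟨γ3, r1, r2, r3, r4⟩ := hr γ2 l1 (by
    rintro x y (⟨a, b, h1, h2, h3, rfl, rfl⟩ | ⟨a, b, h1, h2, h3, rfl, rfl⟩)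
    · exact (hB1 a b (by omega) (by omega) h3).congr (R1 a b h1)
    · exact (hB2 a b (by tauto) h1 h2).congr (R2 a b (by omega)))
  have L1 : ∀ a b : ℤ, a + 1 ≤ c → ∀ z ∈ segment ℝ (W a b) (W (a + 1) b), γ3 z = γ2 z := by
    intro a b h1 z hz
    apply r2
    intro hz'
    rw [hL.hs] at hz
    obtain ⟨z1, z2, z3, z4⟩ := hz'
    have : t * ((a : ℝ) + 1) ≤ t * c := mul_le_mul_of_nonneg_left (by exact_mod_cast h1) ht.le
    linarith [hz.2.2]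
  have L2 : ∀ a b : ℤ, a ≤ c → ∀ z ∈ segment ℝ (W a b) (W a (b + 1)), γ3 z = γ2 z := by
    intro a b h1 z hz
    apply r2
    intro hz'
    rw [hL.vs] at hz
    obtain ⟨z1, z2, z3, z4⟩ := hz'
    have : t * (a : ℝ) ≤ t * c := mul_le_mul_of_nonneg_left (by exact_mod_cast h1) ht.le
    linarith [hz.1]
  refine ⟨γ3, r1, ?_, ?_, ?_⟩
  · intro z hz
    rw [r2, l2, g2 z hz]
    · rintro ⟨z1, z2, z3, z4⟩
      exact hz ⟨z1, z2.trans c2, z3, z4⟩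
    · rintro ⟨z1, z2, z3, z4⟩
      exact hz ⟨c1.trans z1, z2, z3, z4⟩
  · intro a b h1 h2 h3 h4 h5
    rcases lt_or_ge a c with h | h
    · exact (l3 a b h1 (by omega) h3 h4 h5).congr (L1 a b (by omega))
    · exact r3 a b h h2 h3 h4 h5
  · intro a b h1 h2 h3 h4 h5
    rcases lt_or_ge a c with h | h
    · exact (l4 a b h1 (by omega) h3 h4 h5).congr (L2 a b (by omega))
    · exact r4 a b h h2 h3 h4 h5

theorem rect_ind (hear : S_ear) (hsl : S_slideN) (hface : S_face) (hf : Ori f) (ht : 0 < t)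
    {M' : ℤ} (hM' : 0 < M') (hM : M = 2 * M') (hN : Net (GA t M K) A f)
    {ρ : ℝ}
    (hcl : ∀ x y, GA t M K x y → ∀ p ∈ segment ℝ x y, ∀ q ∈ A x y, ‖q - f p‖ < ρ)
    (hsep : ∀ p m : ℂ, (-(t * K) ≤ p.re ∧ p.re ≤ t * K ∧ -(t * K) ≤ p.im ∧ p.im ≤ t * K) →
      (-(t * K) ≤ m.re ∧ m.re ≤ t * K ∧ -(t * K) ≤ m.im ∧ m.im ≤ t * K) →
      t * M' ≤ ‖p - m‖ → ρ ≤ ‖f p - f m‖) :
    ∀ (N : ℕ) (a0 a1 b0 b1 : ℤ), -K ≤ a0 → a1 ≤ K → -K ≤ b0 → b1 ≤ K → M ∣ a0 → M ∣ a1 →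
      M ∣ b0 → M ∣ b1 → a0 < a1 → b0 < b1 → (a1 - a0) + (b1 - b0) ≤ N →
      RG A f M t (fun z => z.re) (fun z => z.im) (V t) a0 a1 b0 b1 := by
  intro N
  induction N with
  | zero => intro a0 a1 b0 b1 _ _ _ _ _ _ _ _ h1 h2 h3; omega
  | succ N ih =>
    intro a0 a1 b0 b1 k1 k2 k3 k4 ha0 ha1 hb0 hb1 hab hbb hN'
    have hda : M ≤ a1 - a0 := Int.le_of_dvd (by omega) (dvd_sub ha1 ha0)
    have hdb : M ≤ b1 - b0 := Int.le_of_dvd (by omega) (dvd_sub hb1 hb0)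
    by_cases h1 : a1 - a0 = M
    · by_cases h2 : b1 - b0 = M
      · -- a cell
        intro γ hγ hB
        refine ⟨γ, hγ, fun z _ => rfl, ?_, ?_⟩
        · intro a b c1 c2 c3 c4 c5
          apply hB
          left
          refine ⟨a, b, c1, c2, ?_, rfl, rfl⟩
          by_contra hcon
          push Not at hcon
          have h3 : 0 < b - b0 := by omega
          have h4 := Int.le_of_dvd h3 (dvd_sub c5 hb0)
          omega
        · intro a b c1 c2 c3 c4 c5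
          apply hB
          right
          refine ⟨a, b, c3, c4, ?_, rfl, rfl⟩
          by_contra hcon
          push Not at hcon
          have h3 : 0 < a - a0 := by omega
          have h4 := Int.le_of_dvd h3 (dvd_sub c5 ha0)
          omega
      · -- horizontal cut
        have h3 : M ≤ b1 - (b0 + M) :=
          Int.le_of_dvd (by omega) (dvd_sub hb1 (dvd_add hb0 (dvd_refl M)))
        have hc : M ∣ b0 + M := dvd_add hb0 (dvd_refl M)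
        have r1 := (ih a0 a1 b0 (b0 + M) k1 k2 k3 (by omega) ha0 ha1 hb0 hc hab (by omega)
          (by omega)).swap
        have r2 := (ih a0 a1 (b0 + M) b1 k1 k2 (by omega) k4 ha0 ha1 hc hb1 hab (by omega)
          (by omega)).swap
        exact (rstep hear hsl hface hf ht hM' hM (lat2 ht M K) hN hcl hsep k3 k4 k1 k2
          (c := b0 + M) le_rfl (by omega) (by omega) hc ha0 ha1 hb0 hb1 r1 r2).swap
    · -- vertical cut
      have h3 : M ≤ a1 - (a0 + M) :=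
        Int.le_of_dvd (by omega) (dvd_sub ha1 (dvd_add ha0 (dvd_refl M)))
      have hc : M ∣ a0 + M := dvd_add ha0 (dvd_refl M)
      have r1 := ih a0 (a0 + M) b0 b1 k1 (by omega) k3 k4 ha0 hc hb0 hb1 (by omega) hbb (by omega)
      have r2 := ih (a0 + M) a1 b0 b1 (by omega) k2 k3 k4 hc ha1 hb0 hb1 (by omega) hbb (by omega)
      exact rstep hear hsl hface hf ht hM' hM (lat1 ht M K) hN hcl hsep k1 k2 k3 k4
        (c := a0 + M) le_rfl (by omega) (by omega) hc hb0 hb1 ha0 ha1 r1 r2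

end Pool.Agent.V8H80
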