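import Pool.Agent.V8H80.Collapse
import Pool.Agent.V8H80.FCy

/-!
From simple paths to simple polygons (helper80, MP_cbfcf7_gt).
-/

set_option autoImplicit false

open Filter Topology Set

namespace Pool.Agent.V8H80

open Pool.Agent.Helper22.FC

lemma mem_pset_of_mem {L : List ℂ} {v : ℂ} (h : v ∈ L) : v ∈ pset L := by
  induction L with
  | nil => simp at h
  | cons x L ih =>
    rcases List.mem_cons.1 h with rfl | h
    · exact head_mem_pset _ _
    · cases L with
      | nil => simp at h
      | cons y l => exact Or.inr (ih h)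

lemma seg_sub_pset {L : List ℂ} {e : ℂ × ℂ} (h : e ∈ pth1329 L) : segment ℝ e.1 e.2 ⊆ pset L := by
  induction L with
  | nil => simp [pth1329] at h
  | cons x L ih =>
    cases L with
    | nil => simp [pth1329] at h
    | cons y l =>
      simp only [pth1329, List.mem_cons] at h
      rcases h with rfl | h
      · exact subset_union_left
      · exact (ih h).trans subset_union_right

lemma SP.head_notMem {x y : ℂ} {l : List ℂ} (h : SP (x :: y :: l)) : x ∉ pset (y :: l) := by
  obtain ⟨h1, h2, h3⟩ := h
  intro hx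
  have : x ∈ segment ℝ x y ∩ pset (y :: l) := ⟨left_mem_segment ℝ _ _, hx⟩
  rw [h2] at this
  exact h1 this

lemma SP.nodup {L : List ℂ} (h : SP L) : L.Nodup := by
  induction L with
  | nil => simp
  | cons x L ih =>
    cases L with
    | nil => simp
    | cons y l =>
      rw [List.nodup_cons]
      exact ⟨fun hx => h.head_notMem (mem_pset_of_mem hx), ih h.2.2⟩

lemma SP.edges {L : List ℂ} (h : SP L) : ∀ e ∈ pth1329 L, ∀ e' ∈ pth1329 L, e ≠ e' →
    segment ℝ e.1 e.2 ∩ segment ℝ e'.1 e'.2 ⊆ ({e.1, e.2} ∩ {e'.1, e'.2} : Set ℂ) := by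
  induction L with
  | nil => intro e he; simp [pth1329] at he
  | cons x L ih =>
    cases L with
    | nil => intro e he; simp [pth1329] at he
    | cons y l =>
      obtain ⟨h1, h2, h3⟩ := h
      -- the first edge and another one
      have key : ∀ e' ∈ pth1329 (y :: l), segment ℝ x y ∩ segment ℝ e'.1 e'.2 ⊆
          ({x, y} ∩ {e'.1, e'.2} : Set ℂ) := by
        rintro e' he' z ⟨hz1, hz2⟩
        have hz : z ∈ segment ℝ x y ∩ pset (y :: l) := ⟨hz1, seg_sub_pset he' hz2⟩
        rw [h2] at hz
        have hz' : z = y := hz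
        subst hz'
        refine ⟨by simp, ?_⟩
        cases l with
        | nil => simp [pth1329] at he'
        | cons v l =>
          simp only [pth1329, List.mem_cons] at he'
          rcases he' with rfl | he'
          · simp
          · exact absurd (seg_sub_pset he' hz2) h3.head_notMem
      intro e he e' he' hne
      simp only [pth1329, List.mem_cons] at he he'
      rcases he with rfl | he <;> rcases he' with rfl | he'
      · exact absurd rfl hne
      · exact key e' he'
      · rw [inter_comm, inter_comm ({e.1, e.2} : Set ℂ)]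
        exact key e he
      · exact ih h3 e he e' he' hne

lemma exists_edge_of_mem {L : List ℂ} (hL : 2 ≤ L.length) {v : ℂ} (h : v ∈ L) :
    ∃ e ∈ pth1329 L, v = e.1 ∨ v = e.2 := by
  induction L with
  | nil => simp at h
  | cons x L ih =>
    cases L with
    | nil => simp at hL
    | cons y l =>
      rcases List.mem_cons.1 h with rfl | h
      · exact ⟨(v, y), by simp [pth1329], Or.inl rfl⟩
      · cases l with
        | nil =>
          have : v = y := by simpa using h
          exact ⟨(x, y), by simp [pth1329], Or.inr this⟩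
        | cons u l =>
          obtain ⟨e, he, h'⟩ := ih (by simp) h
          exact ⟨e, by simp only [pth1329, List.mem_cons] at he ⊢; exact Or.inr he, h'⟩

lemma SP.vertex {L : List ℂ} (h : SP L) (hL : 2 ≤ L.length) {v : ℂ} (hv : v ∈ L) {e : ℂ × ℂ}
    (he : e ∈ pth1329 L) (hve : v ∈ segment ℝ e.1 e.2) : v = e.1 ∨ v = e.2 := by
  obtain ⟨f, hf, hvf⟩ := exists_edge_of_mem hL hv
  by_cases hef : e = f
  · rw [hef]; exact hvf
  · have hvf' : v ∈ segment ℝ f.1 f.2 := by
      rcases hvf with rfl | rfl
      · exact left_mem_segment ℝ _ _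
      · exact right_mem_segment ℝ _ _
    have := (h.edges e he f hf hef ⟨hve, hvf'⟩).1
    simpa using this

/-- closing a simple path by a segment -/
theorem simpleL_of_SP {p q : ℂ} {B : List ℂ} (h : SP ([p] ++ B ++ [q])) (hB : B ≠ [])
    (hc : segment ℝ q p ∩ pset ([p] ++ B ++ [q]) ⊆ {p, q}) : SimpleL ([p] ++ B ++ [q]) := by
  have hlen : 3 ≤ ([p] ++ B ++ [q]).length := by
    have : B.length ≠ 0 := fun h0 => hB (List.length_eq_zero_iff.1 h0)
    simp only [List.length_append, List.length_cons, List.length_nil]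
    omega
  refine ⟨hlen, h.nodup, ?_⟩
  have hcyc : ∀ e ∈ cyc ([p] ++ B ++ [q]), e ∈ pth1329 ([p] ++ B ++ [q]) ∨ e = (q, p) := by
    intro e he
    have e1 : [p] ++ B ++ [q] = p :: (B ++ [q]) := by simp
    rw [e1, cyc_cons1329] at he
    have e2 : p :: (B ++ [q] ++ [p]) = (p :: B) ++ q :: [p] := by simp
    rw [e2, pth_append1329] at he
    rcases List.mem_append.1 he with h1 | h1
    · left
      rw [e1]
      simpa using h1
    · right
      simpa [pth1329] using h1
  have key : ∀ e ∈ pth1329 ([p] ++ B ++ [q]), segment ℝ q p ∩ segment ℝ e.1 e.2 ⊆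
      ({q, p} ∩ {e.1, e.2} : Set ℂ) := by
    rintro e he z ⟨hz1, hz2⟩
    have hz := hc ⟨hz1, seg_sub_pset he hz2⟩
    refine ⟨by rcases hz with rfl | hz; · simp
               · have : z = q := hz
                 simp [this], ?_⟩
    have hzL : z ∈ [p] ++ B ++ [q] := by
      rcases hz with rfl | hz
      · simp
      · have : z = q := hz
        simp [this]
    have := h.vertex (by omega) hzL he hz2
    simpa using this
  intro e he e' he' hne
  rcases hcyc e he with h1 | rfl <;> rcases hcyc e' he' with h2 | rfl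
  · exact h.edges e h1 e' h2 hne
  · rw [inter_comm, inter_comm ({e.1, e.2} : Set ℂ)]
    exact key e h1
  · exact key e' h2
  · exact absurd rfl hne

lemma pset_reverse : ∀ L : List ℂ, pset L.reverse = pset L := by
  intro L
  induction L with
  | nil => rfl
  | cons x L ih =>
    cases L with
    | nil => rfl
    | cons y l =>
      rw [List.reverse_cons]
      rw [pset_append (y :: l).reverse y x [x] (by simp) rfl, ih]
      show pset (y :: l) ∪ segment ℝ y x ∪ {x} = segment ℝ x y ∪ pset (y :: l)
      rw [segment_symm ℝ y x, union_assoc, union_comm (pset (y :: l))]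
      congr 1
      apply union_eq_self_of_subset_right
      rintro z rfl
      exact left_mem_segment ℝ _ _

/-- collapsing an arc onto the segment between its end points -/
theorem collapse_arc (hear : S_ear) {p q : ℂ} {β : Set ℂ} (hβ : Arc β p q)
    (hc : segment ℝ q p ∩ β ⊆ {p, q}) {S T : Set ℂ} (hT : β ⊆ T)
    (hS : ∀ a b c : ℂ, a ∈ T → b ∈ T → b ≠ p → b ≠ q → c ∈ T → cr (c - a) (b - a) ≠ 0 →
      ∃ η₀ : ℝ, 0 < η₀ ∧ ∀ η : ℝ, 0 < η → η ≤ η₀ → kite a b c η ⊆ S) :
    ∃ θ : ℂ ≃ₜ ℂ, Nice θ ∧ (∀ z, z ∉ S → θ z = z) ∧ θ p = p ∧ θ q = q ∧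
      θ '' β = segment ℝ p q := by
  obtain ⟨l, h1, h2, h3, h4⟩ := hβ.isArc
  obtain ⟨B, q', rfl⟩ : ∃ B q', l = B ++ [q'] := by
    rcases List.eq_nil_or_concat l with h | ⟨B, q', h⟩
    · exact absurd h h1
    · exact ⟨B, q', by rw [h, List.concat_eq_append]⟩
  have hq' : q' = q := by
    rw [← List.cons_append, List.getLast?_append] at h3
    simpa using h3
  subst hq'
  by_cases hB : B = []
  · -- the arc is the segment
    subst hB
    have e : β = segment ℝ p q' := by
      rw [← h4]
      show segment ℝ p q' ∪ {q'} = _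
      apply union_eq_self_of_subset_right
      rintro z rfl
      exact right_mem_segment ℝ _ _
    have hne := hβ.ne
    exfalso
    have hm : (p + q') / 2 ∈ segment ℝ p q' := by
      rw [segment_eq_image_mul]
      exact ⟨1 / 2, by constructor <;> norm_num, by push_cast; ring⟩
    have := hc ⟨by rw [segment_symm]; exact hm, by rw [e]; exact hm⟩
    rcases this with h | h
    · apply hne
      linear_combination -2 * h
    · have h' : (p + q') / 2 = q' := h
      apply hne
      linear_combination 2 * h'
  have eV : p :: (B ++ [q']) = [p] ++ B ++ [q'] := by simp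
  rw [eV] at h2 h4
  rw [← h4] at hc
  have hV := simpleL_of_SP h2 hB hc
  have hmem : ∀ v ∈ [p] ++ B ++ [q'], v ∈ T := fun v hv => hT (h4 ▸ mem_pset_of_mem hv)
  have hnd := hV.2.1
  have hBp : ∀ b ∈ B, b ≠ p := by
    rintro b hb rfl
    have e : [b] ++ B ++ [q'] = b :: (B ++ [q']) := by simp
    rw [e, List.nodup_cons] at hnd
    exact hnd.1 (List.mem_append_left _ hb)
  have hBq : ∀ b ∈ B, b ≠ q' := by
    rintro b hb rfl
    rw [List.nodup_append] at hnd
    exact hnd.2.2 b (List.mem_append_right _ hb) b (by simp) rfl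
  obtain ⟨n, hn⟩ : ∃ n, B.length = n + 1 := by
    have : B.length ≠ 0 := fun h0 => hB (List.length_eq_zero_iff.1 h0)
    exact ⟨B.length - 1, by omega⟩
  obtain ⟨U, hU, hUS, -, -, -, hG⟩ := orient hV
  rcases hU with rfl | rfl
  · obtain ⟨θ, t1, t2, t3, t4, t5⟩ := collapse hear n p q' B hn hV hG S (by
      intro a b c ha hb hc' hne
      exact hS a b c (hmem a ha) (hmem b (by simp [hb])) (hBp b hb) (hBq b hb) (hmem c hc') hne)
    exact ⟨θ, t1, t2, t3, t4, by rw [← h4]; exact t5⟩
  · have eR : ([p] ++ B ++ [q']).reverse = [q'] ++ B.reverse ++ [p] := by simp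
    rw [eR] at hUS hG
    obtain ⟨θ, t1, t2, t3, t4, t5⟩ := collapse hear n q' p B.reverse (by simpa using hn) hUS hG S (by
      intro a b c ha hb hc' hne
      have hb' : b ∈ B := by simpa using hb
      have ha' : a ∈ [p] ++ B ++ [q'] := by
        simp only [List.mem_append, List.mem_cons, List.not_mem_nil, or_false, List.mem_reverse] at ha ⊢
        tauto
      have hc'' : c ∈ [p] ++ B ++ [q'] := by
        simp only [List.mem_append, List.mem_cons, List.not_mem_nil, or_false, List.mem_reverse] at hc' ⊢
        tauto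
      exact hS a b c (hmem a ha') (hmem b (by simp [hb'])) (hBp b hb') (hBq b hb') (hmem c hc'') hne)
    refine ⟨θ, t1, t2, t4, t3, ?_⟩
    rw [← eR, pset_reverse, h4, segment_symm] at t5
    exact t5

end Pool.Agent.V8H80
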