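import Pool.Agent.V8H80.Cross
import Pool.Agent.V8H80.Loop

/-!
The step lemma: straightening a crosscut and matching its marks (helper80, MP_cbfcf7_gt).
-/

set_option autoImplicit false

open Set Topology Filter

namespace Pool.Agent.V8H80

variable {u v : ℂ → ℝ} {w : ℂ} {x0 x1 y0 y1 : ℝ}

lemma fix_bdry (hu : IsAf u) (hv : IsAf v) {θ : ℂ ≃ₜ ℂ}
    (h : ∀ z, z ∉ pg u v x0 x1 y0 y1 → θ z = z) {m : ℂ}
    (hm : x0 < u m ∧ u m < x1 ∧ y0 < v m ∧ v m < y1) :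
    ∀ z, ¬ (x0 < u z ∧ u z < x1 ∧ y0 < v z ∧ v z < y1) → θ z = z := by
  intro z hz
  obtain ⟨m1, m2, m3, m4⟩ := hm
  have hout : ∀ t : ℝ, t ∈ Ioi (1 : ℝ) → m + (t : ℂ) * (z - m) ∉ pg u v x0 x1 y0 y1 := by
    rintro t ht ⟨h1, h2, h3, h4⟩
    have ht' : 1 < t := ht
    rw [hu.line] at h1 h2
    rw [hv.line] at h3 h4
    apply hz
    refine ⟨?_, ?_, ?_, ?_⟩ <;> nlinarith
  have hcl : IsClosed {t : ℝ | θ (m + (t : ℂ) * (z - m)) = m + (t : ℂ) * (z - m)} := by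
    apply isClosed_eq
    · have := θ.continuous
      fun_prop
    · fun_prop
  have hsub : closure (Ioi (1 : ℝ)) ⊆ {t : ℝ | θ (m + (t : ℂ) * (z - m)) = m + (t : ℂ) * (z - m)} :=
    hcl.closure_subset_iff.2 fun t ht => h _ (hout t ht)
  rw [closure_Ioi] at hsub
  have := hsub (mem_Ici.2 (le_refl (1 : ℝ)))
  have h1 : θ (m + ((1 : ℝ) : ℂ) * (z - m)) = m + ((1 : ℝ) : ℂ) * (z - m) := this
  simpa using h1

theorem step (hear : S_ear) (hsl : S_slideN) (hc : Crd u v w) {n : ℕ} (hn : 0 < n)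
    {B : ℕ → Set ℂ} {b r : ℕ → ℂ} {γ : ℂ ≃ₜ ℂ} (hγ : Nice γ) (hB : Chn n B b)
    (hr : Chn n (fun i => segment ℝ (r i) (r (i + 1))) r)
    (hun : (⋃ i < n, segment ℝ (r i) (r (i + 1))) = segment ℝ (r 0) (r n))
    (h0 : γ (r 0) = b 0) (hl : γ (r n) = b n) {xe : ℝ} (hx0 : x0 < xe) (hx1 : xe < x1)
    (hy : y0 < y1) (hpu : u (r 0) = xe) (hpv : v (r 0) = y0) (hqu : u (r n) = xe)
    (hqv : v (r n) = y1)
    (hin : ∀ i, i < n → ∀ z ∈ B i, z ≠ b 0 → z ≠ b n →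
      ∃ y, γ y = z ∧ x0 < u y ∧ u y < x1 ∧ y0 < v y ∧ v y < y1) :
    ∃ γ' : ℂ ≃ₜ ℂ, Nice γ' ∧
      (∀ z, ¬ (x0 < u z ∧ u z < x1 ∧ y0 < v z ∧ v z < y1) → γ' z = γ z) ∧
      (∀ i, i < n → γ' '' segment ℝ (r i) (r (i + 1)) = B i) ∧ ∀ i, i ≤ n → γ' (r i) = b i := by
  have g0 : γ⁻¹ (b 0) = r 0 := by rw [← h0]; exact γ.symm_apply_apply _
  have gl : γ⁻¹ (b n) = r n := by rw [← hl]; exact γ.symm_apply_apply _
  have hch := hB.image hγ.poly'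
  have harc := hch.arc hn
  have harc' : Arc (⋃ i < n, ⇑(γ⁻¹) '' B i) (r 0) (r n) := by
    have : Arc (⋃ i < n, ⇑(γ⁻¹) '' B i) ((γ⁻¹ : ℂ ≃ₜ ℂ) (b 0)) ((γ⁻¹ : ℂ ≃ₜ ℂ) (b n)) := harc
    rwa [g0, gl] at this
  obtain ⟨θ, t1, t2, t3, t4, t5⟩ := cross hear hc harc' hx0 hx1 hy hpu hpv hqu hqv (by
    intro z hz hz0 hzn
    simp only [mem_iUnion, exists_prop] at hz
    obtain ⟨i, hi, y, hy1, rfl⟩ := hz
    obtain ⟨x, hx, hx'⟩ := hin i hi y hy1 (by rintro rfl; exact hz0 g0) (by rintro rfl; exact hzn gl)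
    have : (γ⁻¹ : ℂ ≃ₜ ℂ) y = x := by rw [← hx]; exact γ.symm_apply_apply _
    rw [this]
    exact hx')
  -- the middle point
  have hmid : x0 < u ((r 0 + r n) / 2) ∧ u ((r 0 + r n) / 2) < x1 ∧ y0 < v ((r 0 + r n) / 2) ∧
      v ((r 0 + r n) / 2) < y1 := by
    rw [hc.hu.mid, hc.hv.mid, hpu, hqu, hpv, hqv]
    refine ⟨?_, ?_, ?_, ?_⟩ <;> linarith
  have t2' := fix_bdry hc.hu hc.hv t2 hmid
  have hch2 := hch.image t1.poly
  have hO : IsOpen {z | x0 < u z ∧ u z < x1 ∧ y0 < v z ∧ v z < y1} := by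
    apply (isOpen_lt continuous_const hc.hu.cont).inter
    apply (isOpen_lt hc.hu.cont continuous_const).inter
    exact (isOpen_lt continuous_const hc.hv.cont).inter (isOpen_lt hc.hv.cont continuous_const)
  have e0 : θ ((γ⁻¹ : ℂ ≃ₜ ℂ) (b 0)) = r 0 := by rw [g0, t3]
  have en : θ ((γ⁻¹ : ℂ ≃ₜ ℂ) (b n)) = r n := by rw [gl, t4]
  obtain ⟨σ, s1, s2, s3, s4⟩ := hsl n (fun i => segment ℝ (r i) (r (i + 1)))
    (fun i => θ '' ((fun i => ⇑(γ⁻¹) '' B i) i)) r (fun i => θ ((fun i => (γ⁻¹ : ℂ ≃ₜ ℂ) (b i)) i))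
    hn hr hch2 e0.symm en.symm hun (by rw [image_biUnion, t5])
    {z | x0 < u z ∧ u z < x1 ∧ y0 < v z ∧ v z < y1} hO (by
      intro z hz
      rw [openSegment_eq_image_lineMap] at hz
      obtain ⟨t, ht, rfl⟩ := hz
      have ht0 : 0 < t := ht.1
      have ht1 : t < 1 := ht.2
      have e : AffineMap.lineMap (r 0) (r n) t = r 0 + (t : ℂ) * (r n - r 0) := by
        rw [AffineMap.lineMap_apply, vsub_eq_sub, vadd_eq_add, Complex.real_smul, add_comm]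
      show x0 < u _ ∧ u _ < x1 ∧ y0 < v _ ∧ v _ < y1
      rw [e, hc.hu.line, hc.hv.line, hpu, hqu, hpv, hqv]
      refine ⟨?_, ?_, ?_, ?_⟩ <;> nlinarith)
  refine ⟨γ * θ⁻¹ * σ, (hγ.mul t1.inv).mul s1, fun z hz => ?_, fun i hi => ?_, fun i hi => ?_⟩
  · show γ ((θ⁻¹ : ℂ ≃ₜ ℂ) (σ z)) = γ z
    rw [s2 z hz]
    congr 1
    have := t2' z hz
    nth_rewrite 1 [← this]
    exact θ.symm_apply_apply z
  · have e : (γ * θ⁻¹ * σ) '' segment ℝ (r i) (r (i + 1)) =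
        γ '' (⇑(θ⁻¹) '' (σ '' segment ℝ (r i) (r (i + 1)))) := by
      rw [← image_comp, ← image_comp]
      rfl
    rw [e]
    have e2 : σ '' segment ℝ (r i) (r (i + 1)) = θ '' (⇑(γ⁻¹) '' B i) := s3 i hi
    rw [e2]
    have e3 : ∀ S : Set ℂ, ⇑(θ⁻¹) '' (θ '' S) = S := by
      intro S
      rw [← image_comp]
      have : ⇑(θ⁻¹) ∘ ⇑θ = id := by
        ext z
        exact θ.symm_apply_apply z
      rw [this, image_id]
    have e4 : ∀ S : Set ℂ, γ '' (⇑(γ⁻¹) '' S) = S := by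
      intro S
      rw [← image_comp]
      have : ⇑γ ∘ ⇑(γ⁻¹) = id := by
        ext z
        exact γ.apply_symm_apply z
      rw [this, image_id]
    rw [e3, e4]
  · show γ ((θ⁻¹ : ℂ ≃ₜ ℂ) (σ (r i))) = b i
    have e2 : σ (r i) = θ ((γ⁻¹ : ℂ ≃ₜ ℂ) (b i)) := s4 i hi
    rw [e2]
    have e3 : (θ⁻¹ : ℂ ≃ₜ ℂ) (θ ((γ⁻¹ : ℂ ≃ₜ ℂ) (b i))) = (γ⁻¹ : ℂ ≃ₜ ℂ) (b i) :=
      θ.symm_apply_apply _
    rw [e3]
    exact γ.apply_symm_apply _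

end Pool.Agent.V8H80
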