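import Pool.Agent.V8H80.Kite

/-!
Thin kites (helper80, MP_cbfcf7_gt).
-/

set_option autoImplicit false

open Filter Topology Set

namespace Pool.Agent.V8H80

variable {a b c : ℂ}

lemma IsAf.line {f : ℂ → ℝ} (h : IsAf f) (x y : ℂ) (t : ℝ) :
    f (x + (t : ℂ) * (y - x)) = f x + t * (f y - f x) := by
  obtain ⟨α, β, γ, h⟩ := h
  rw [h, h, h]
  simp
  ring

lemma IsAf.line' {f : ℂ → ℝ} (h : IsAf f) (x y : ℂ) (s t : ℝ) :
    f (x + (t : ℂ) * (y - x)) = f (x + (s : ℂ) * (y - x)) + (t - s) * (f y - f x) := by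
  rw [h.line, h.line]
  ring

/-- points in the triangle -/
lemma mem_tri (h : cr (c - a) (b - a) ≠ 0) {z : ℂ} (h1 : 0 ≤ kY a b c z)
    (h2 : kY a b c z ≤ 1 - |kX a b c z|) : z ∈ convexHull ℝ ({a, b, c} : Set ℂ) := by
  have e1 := le_abs_self (kX a b c z)
  have e2 := neg_abs_le (kX a b c z)
  have hz : z = ((1 - kY a b c z - kX a b c z) / 2 : ℝ) • a + (kY a b c z) • b +
      ((1 - kY a b c z + kX a b c z) / 2 : ℝ) • c := by
    nth_rewrite 1 [k_rep h z]
    simp only [Complex.real_smul]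
    push_cast
    ring
  rw [hz]
  have hc : Convex ℝ (convexHull ℝ ({a, b, c} : Set ℂ)) := convex_convexHull _ _
  have ha : a ∈ convexHull ℝ ({a, b, c} : Set ℂ) := subset_convexHull _ _ (by simp)
  have hb : b ∈ convexHull ℝ ({a, b, c} : Set ℂ) := subset_convexHull _ _ (by simp)
  have hcc : c ∈ convexHull ℝ ({a, b, c} : Set ℂ) := subset_convexHull _ _ (by simp)
  have key := hc.sum_mem (t := Finset.univ) (w := ![(1 - kY a b c z - kX a b c z) / 2, kY a b c z,
    (1 - kY a b c z + kX a b c z) / 2]) (z := ![a, b, c]) (by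
      intro i _
      fin_cases i
      · show (0 : ℝ) ≤ (1 - kY a b c z - kX a b c z) / 2
        linarith
      · exact h1
      · show (0 : ℝ) ≤ (1 - kY a b c z + kX a b c z) / 2
        linarith) (by
      simp only [Fin.sum_univ_three]
      show (1 - kY a b c z - kX a b c z) / 2 + kY a b c z + (1 - kY a b c z + kX a b c z) / 2 = 1
      ring) (by
      intro i _
      fin_cases i
      · exact ha
      · exact hb
      · exact hcc)
  rw [Fin.sum_univ_three] at key
  exact key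

lemma kite_mono {η η' : ℝ} (hη : 0 < η) (h : η ≤ η') : kite a b c η ⊆ kite a b c η' := by
  intro z hz
  have h1 := kite_abs hη hz
  obtain ⟨h2, h3⟩ := hz
  exact ⟨by nlinarith, by nlinarith⟩

theorem thin_aux (h : cr (c - a) (b - a) ≠ 0) {x y : ℂ}
    (hT : segment ℝ x y ∩ convexHull ℝ {a, b, c} ⊆ ({a, c} : Set ℂ)) :
    ∃ η : ℝ, 0 < η ∧ segment ℝ x y ∩ kite a b c η ⊆ ({a, c} : Set ℂ) := by
  by_contra hcon
  push Not at hcon
  have hX := kX_af a b c
  have hY := kY_af a b c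
  have H : ∀ n : ℕ, ∃ t : ℝ, t ∈ Icc (0 : ℝ) 1 ∧ x + (t : ℂ) * (y - x) ∈ kite a b c (1 / ((n : ℝ) + 1)) ∧
      x + (t : ℂ) * (y - x) ∉ ({a, c} : Set ℂ) := by
    intro n
    have h1 := hcon (1 / ((n : ℝ) + 1)) (by positivity)
    obtain ⟨z, ⟨hz1, hz2⟩, hz3⟩ := not_subset.1 h1
    rw [segment_eq_image_mul] at hz1
    obtain ⟨t, ht, rfl⟩ := hz1
    exact ⟨t, ht, hz2, hz3⟩
  choose t ht hk hn using H
  obtain ⟨t', ht', φ, hφ, hlim⟩ := isCompact_Icc.tendsto_subseq ht
  -- the limits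
  obtain ⟨p, hp⟩ : ∃ p : ℝ → ℂ, p = fun s : ℝ => x + (s : ℂ) * (y - x) := ⟨_, rfl⟩
  have hpc : Continuous p := by rw [hp]; fun_prop
  have hη : Tendsto (fun n : ℕ => 1 / (((φ n : ℕ) : ℝ) + 1)) atTop (𝓝 0) :=
    tendsto_one_div_add_atTop_nhds_zero_nat.comp hφ.tendsto_atTop
  have hXl : Tendsto (fun n => kX a b c (p (t (φ n)))) atTop (𝓝 (kX a b c (p t'))) :=
    ((hX.cont.comp hpc).tendsto _).comp hlim
  have hYl : Tendsto (fun n => kY a b c (p (t (φ n)))) atTop (𝓝 (kY a b c (p t'))) :=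
    ((hY.cont.comp hpc).tendsto _).comp hlim
  have hDl : Tendsto (fun n => 1 - |kX a b c (p (t (φ n)))|) atTop (𝓝 (1 - |kX a b c (p t')|)) :=
    hXl.abs.const_sub 1
  have hin : p t' ∈ convexHull ℝ ({a, b, c} : Set ℂ) := by
    apply mem_tri h
    · have h1 : Tendsto (fun n => -(1 / (((φ n : ℕ) : ℝ) + 1)) * (1 - |kX a b c (p (t (φ n)))|)) atTop
          (𝓝 (-0 * (1 - |kX a b c (p t')|))) := hη.neg.mul hDl
      have h2 := le_of_tendsto_of_tendsto' h1 hYl fun n => by
        have := (hk (φ n)).1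
        rw [hp]
        exact this
      linarith
    · have h1 : Tendsto (fun n => (1 + (1 / (((φ n : ℕ) : ℝ) + 1))) * (1 - |kX a b c (p (t (φ n)))|)) atTop
          (𝓝 ((1 + 0) * (1 - |kX a b c (p t')|))) := (hη.const_add 1).mul hDl
      have h2 := le_of_tendsto_of_tendsto' hYl h1 fun n => by
        have := (hk (φ n)).2
        rw [hp]
        exact this
      linarith
  have hac : p t' ∈ ({a, c} : Set ℂ) := by
    refine hT ⟨?_, hin⟩
    rw [segment_eq_image_mul, hp]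
    exact ⟨t', ht', rfl⟩
  obtain ⟨σ, hσ, hX', hY'⟩ : ∃ σ : ℝ, (σ = 1 ∨ σ = -1) ∧ kX a b c (p t') = σ ∧
      kY a b c (p t') = 0 := by
    rcases hac with h1 | h1
    · rw [h1]; exact ⟨-1, Or.inr rfl, k_a h⟩
    · rw [mem_singleton_iff] at h1
      rw [h1]; exact ⟨1, Or.inl rfl, k_c h⟩
  have hσ2 : σ * σ = 1 := by rcases hσ with rfl | rfl <;> norm_num
  obtain ⟨dX, hdX⟩ : ∃ dX, dX = kX a b c y - kX a b c x := ⟨_, rfl⟩
  obtain ⟨dY, hdY⟩ : ∃ dY, dY = kY a b c y - kY a b c x := ⟨_, rfl⟩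
  have eX : ∀ n, kX a b c (p (t (φ n))) = σ + (t (φ n) - t') * dX := by
    intro n
    rw [← hX', hdX, hp]
    exact hX.line' x y t' (t (φ n))
  have eY : ∀ n, kY a b c (p (t (φ n))) = (t (φ n) - t') * dY := by
    intro n
    have := hY.line' x y t' (t (φ n))
    rw [← hdY] at this
    rw [hp] at hY' ⊢
    simp only at hY' ⊢
    rw [this, hY']
    ring
  -- choose `n`
  have E1 : ∀ᶠ n in atTop, 0 < σ * kX a b c (p (t (φ n))) := by
    have h1 : Tendsto (fun n => σ * kX a b c (p (t (φ n)))) atTop (𝓝 (σ * σ)) := by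
      rw [hX'] at hXl
      exact hXl.const_mul σ
    rw [hσ2] at h1
    exact h1.eventually (lt_mem_nhds one_pos)
  have hηα : Tendsto (fun n : ℕ => |1 / (((φ n : ℕ) : ℝ) + 1) * (-(σ * dX))|) atTop (𝓝 0) := by
    have := (hη.mul_const (-(σ * dX))).abs
    simpa using this
  have E2 : ∀ᶠ n in atTop, dY ≠ 0 → |1 / (((φ n : ℕ) : ℝ) + 1) * (-(σ * dX))| < |dY| := by
    by_cases h0 : dY = 0
    · exact Eventually.of_forall fun n hn => absurd h0 hn
    · filter_upwards [hηα.eventually (gt_mem_nhds (abs_pos.2 h0))] with n hn _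
      exact hn
  have E3 : ∀ᶠ n in atTop, dY - -(σ * dX) ≠ 0 →
      |1 / (((φ n : ℕ) : ℝ) + 1) * (-(σ * dX))| < |dY - -(σ * dX)| := by
    by_cases h0 : dY - -(σ * dX) = 0
    · exact Eventually.of_forall fun n hn => absurd h0 hn
    · filter_upwards [hηα.eventually (gt_mem_nhds (abs_pos.2 h0))] with n hn _
      exact hn
  obtain ⟨n, n1, n2, n3⟩ := (E1.and (E2.and E3)).exists
  obtain ⟨η, hη'⟩ : ∃ η : ℝ, η = 1 / (((φ n : ℕ) : ℝ) + 1) := ⟨_, rfl⟩
  have hη0 : 0 < η := by rw [hη']; positivity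
  obtain ⟨α, hα⟩ : ∃ α : ℝ, α = -(σ * dX) := ⟨_, rfl⟩
  obtain ⟨τ, hτ⟩ : ∃ τ : ℝ, τ = t (φ n) - t' := ⟨_, rfl⟩
  rw [← hη', ← hα] at n2 n3
  have habs : |kX a b c (p (t (φ n)))| = σ * kX a b c (p (t (φ n))) := by
    rcases hσ with rfl | rfl
    · rw [one_mul] at n1 ⊢; exact abs_of_pos n1
    · have : kX a b c (p (t (φ n))) < 0 := by linarith
      rw [abs_of_neg this]; ring
  have hD : 1 - |kX a b c (p (t (φ n)))| = α * τ := by
    rw [habs, eX, hα, hτ]
    linear_combination -hσ2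
  have hYn : kY a b c (p (t (φ n))) = τ * dY := by rw [eY, hτ]
  have hkn := hk (φ n)
  have hnn := hn (φ n)
  have ep : p (t (φ n)) = x + ((t (φ n) : ℝ) : ℂ) * (y - x) := by rw [hp]
  rw [← ep] at hkn hnn
  have hk1 : -η * (α * τ) ≤ τ * dY := by rw [← hD, ← hYn, hη']; exact hkn.1
  have hk2 : τ * dY ≤ (1 + η) * (α * τ) := by rw [← hD, ← hYn, hη']; exact hkn.2
  have hnT : ¬ (0 ≤ τ * dY ∧ τ * dY ≤ α * τ) := by
    rintro ⟨k1, k2⟩
    apply hnn
    refine hT ⟨?_, mem_tri h (by rw [hYn]; exact k1) (by rw [hYn, hD]; exact k2)⟩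
    rw [segment_eq_image_mul, hp]
    exact ⟨t (φ n), ht _, rfl⟩
  have hτ0 : τ ≠ 0 := by
    intro h0
    apply hnT
    rw [h0]
    simp
  have hA : dY ≠ 0 → -|dY| < η * α ∧ η * α < |dY| := fun h0 => abs_lt.1 (n2 h0)
  have hB : dY - α ≠ 0 → -|dY - α| < η * α ∧ η * α < |dY - α| := fun h0 => abs_lt.1 (n3 h0)
  rcases lt_or_gt_of_ne hτ0 with hs | hs
  · -- negative
    have k1 : dY ≤ -(η * α) := by
      by_contra hc
      push Not at hc
      have := mul_neg_of_neg_of_pos hs (sub_pos.2 hc)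
      nlinarith
    have k2 : (1 + η) * α ≤ dY := by
      by_contra hc
      push Not at hc
      have := mul_neg_of_neg_of_pos hs (sub_pos.2 hc)
      nlinarith
    apply hnT
    constructor
    · by_contra hc
      push Not at hc
      have hd : 0 < dY := by
        by_contra hc'
        push Not at hc'
        have := mul_nonneg_of_nonpos_of_nonpos hs.le hc'
        linarith
      have := hA hd.ne'
      rw [abs_of_pos hd] at this
      linarith
    · by_contra hc
      push Not at hc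
      have hd : dY - α < 0 := by
        by_contra hc'
        push Not at hc'
        have := mul_nonpos_of_nonpos_of_nonneg hs.le hc'
        linarith
      have := hB hd.ne
      rw [abs_of_neg hd] at this
      linarith
  · have k1 : -(η * α) ≤ dY := by
      by_contra hc
      push Not at hc
      have := mul_pos hs (sub_pos.2 hc)
      nlinarith
    have k2 : dY ≤ (1 + η) * α := by
      by_contra hc
      push Not at hc
      have := mul_pos hs (sub_pos.2 hc)
      nlinarith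
    apply hnT
    constructor
    · by_contra hc
      push Not at hc
      have hd : dY < 0 := by
        by_contra hc'
        push Not at hc'
        have := mul_nonneg hs.le hc'
        linarith
      have := hA hd.ne
      rw [abs_of_neg hd] at this
      linarith
    · by_contra hc
      push Not at hc
      have hd : 0 < dY - α := by
        by_contra hc'
        push Not at hc'
        have := mul_nonpos_of_nonneg_of_nonpos hs.le hc'
        linarith
      have := hB hd.ne'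
      rw [abs_of_pos hd] at this
      linarith

/-- a segment which meets the triangle only at two of its vertices meets thin kites only there -/
theorem thin (h : cr (c - a) (b - a) ≠ 0) {x y : ℂ}
    (hT : segment ℝ x y ∩ convexHull ℝ {a, b, c} ⊆ ({a, c} : Set ℂ)) :
    ∃ η₀ : ℝ, 0 < η₀ ∧ ∀ η : ℝ, 0 < η → η ≤ η₀ →
      segment ℝ x y ∩ kite a b c η ⊆ ({a, c} : Set ℂ) := by
  obtain ⟨η₀, h1, h2⟩ := thin_aux h hT
  exact ⟨η₀, h1, fun η h3 h4 => (inter_subset_inter_right _ (kite_mono h3 h4)).trans h2⟩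

/-- many segments at once -/
theorem thin_list (h : cr (c - a) (b - a) ≠ 0) (L : List (ℂ × ℂ))
    (hT : ∀ e ∈ L, segment ℝ e.1 e.2 ∩ convexHull ℝ {a, b, c} ⊆ ({a, c} : Set ℂ)) :
    ∃ η₀ : ℝ, 0 < η₀ ∧ ∀ η : ℝ, 0 < η → η ≤ η₀ → ∀ e ∈ L,
      segment ℝ e.1 e.2 ∩ kite a b c η ⊆ ({a, c} : Set ℂ) := by
  induction L with
  | nil => exact ⟨1, one_pos, fun _ _ _ e he => by simp at he⟩
  | cons f L ih =>
    obtain ⟨η₁, h1, h2⟩ := ih fun e he => hT e (List.mem_cons_of_mem _ he)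
    obtain ⟨η₂, h3, h4⟩ := thin h (hT f List.mem_cons_self)
    refine ⟨min η₁ η₂, lt_min h1 h3, fun η k1 k2 e he => ?_⟩
    rcases List.mem_cons.1 he with rfl | he
    · exact h4 η k1 (k2.trans (min_le_right _ _))
    · exact h2 η k1 (k2.trans (min_le_left _ _)) e he

end Pool.Agent.V8H80
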