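import Pool.Agent.V8H80.Rect
import Pool.Agent.V8H80.Match
import Pool.Agent.V8H80.Bump

/-!
Orientation preserving homeomorphisms of the plane are locally uniform limits of nice ones
(helper80, MP_cbfcf7_gt).
-/

set_option autoImplicit false

open Set Topology Filter

namespace Pool.Agent.V8H80

/-- the closed square -/
def Sq (L : ℝ) : Set ℂ := {z | -L ≤ z.re ∧ z.re ≤ L ∧ -L ≤ z.im ∧ z.im ≤ L}

lemma Sq_compact (L : ℝ) : IsCompact (Sq L) := isCompact_rect _ _ _ _

/-- the maximum principle for homeomorphisms -/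
lemma max_bdry (γ : ℂ ≃ₜ ℂ) {C O : Set ℂ} (hC : IsCompact C) (hO : IsOpen O) (hOC : O ⊆ C)
    {y : ℂ} {s : ℝ} (hs : 0 < s) (h : ∀ x ∈ C, x ∉ O → ‖γ x - y‖ < s) :
    ∀ z ∈ C, ‖γ z - y‖ < s := by
  intro z hz
  obtain ⟨m, hm, hmax⟩ := hC.exists_isMaxOn ⟨z, hz⟩
    (f := fun x => ‖γ x - y‖) (by have := γ.continuous; fun_prop)
  have hzm : ‖γ z - y‖ ≤ ‖γ m - y‖ := hmax hz
  by_cases hmO : m ∈ O
  · by_cases hy : γ m = y
    · rw [hy, sub_self, norm_zero] at hzm
      exact hzm.trans_lt hs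
    · exfalso
      have hopen : IsOpen (γ '' O) := γ.isOpenMap _ hO
      have hcont : Tendsto (fun t : ℝ => γ m + (t : ℂ) * (γ m - y)) (𝓝 0) (𝓝 (γ m)) := by
        apply Continuous.tendsto'
        · fun_prop
        · simp
      have hev := hcont.eventually (hopen.mem_nhds ⟨m, hmO, rfl⟩)
      obtain ⟨δ, hδ, hδ'⟩ := Metric.eventually_nhds_iff.1 hev
      obtain ⟨x, hx, hxe⟩ := hδ' (y := δ / 2) (by
        rw [Real.dist_eq, sub_zero, abs_of_pos (half_pos hδ)]; linarith)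
      have h1 : ‖γ x - y‖ ≤ ‖γ m - y‖ := hmax (hOC hx)
      have h2 : γ x - y = ((1 + δ / 2 : ℝ) : ℂ) * (γ m - y) := by
        rw [hxe]; push_cast; ring
      rw [h2, norm_mul, Complex.norm_real, Real.norm_eq_abs, abs_of_pos (by positivity)] at h1
      have h3 : 0 < ‖γ m - y‖ := norm_pos_iff.2 (sub_ne_zero.2 hy)
      nlinarith
  · exact hzm.trans_lt (h m hm hmO)

/-- edges of the grid are short and lie in the square -/
lemma GA_seg {t : ℝ} (ht : 0 < t) {M K : ℤ} {x y : ℂ} (h : GA t M K x y) :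
    (∀ z ∈ segment ℝ x y, z ∈ Sq (t * K)) ∧
      ∀ z ∈ segment ℝ x y, ∀ z' ∈ segment ℝ x y, ‖z - z'‖ ≤ t := by
  have key : ∀ x y : ℂ, (x, y) ∈ GE t M K → (∀ z ∈ segment ℝ x y, z ∈ Sq (t * K)) ∧
      ∀ z ∈ segment ℝ x y, ∀ z' ∈ segment ℝ x y, ‖z - z'‖ ≤ t := by
    rintro x y ⟨a, b, ⟨h1, h2, h3, h4, h5, e⟩ | ⟨h1, h2, h3, h4, h5, e⟩⟩
    · rw [Prod.mk.injEq] at e
      obtain ⟨rfl, rfl⟩ := e
      have c1 : -(K : ℝ) ≤ a := by exact_mod_cast h1
      have c2 : (a : ℝ) + 1 ≤ K := by exact_mod_cast h2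
      have c3 : -(K : ℝ) ≤ b := by exact_mod_cast h3
      have c4 : (b : ℝ) ≤ K := by exact_mod_cast h4
      constructor
      · intro z hz
        rw [mem_hseg ht] at hz
        obtain ⟨z1, z2, z3⟩ := hz
        refine ⟨by nlinarith, by nlinarith, by nlinarith, by nlinarith⟩
      · intro z hz z' hz'
        rw [mem_hseg ht] at hz hz'
        obtain ⟨z1, z2, z3⟩ := hz
        obtain ⟨z1', z2', z3'⟩ := hz'
        have e : z - z' = ((z.re - z'.re : ℝ) : ℂ) := by
          apply Complex.ext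
          · simp
          · simp [z1, z1']
        rw [e, Complex.norm_real, Real.norm_eq_abs, abs_le]
        constructor <;> linarith
    · rw [Prod.mk.injEq] at e
      obtain ⟨rfl, rfl⟩ := e
      have c1 : -(K : ℝ) ≤ a := by exact_mod_cast h1
      have c2 : (a : ℝ) ≤ K := by exact_mod_cast h2
      have c3 : -(K : ℝ) ≤ b := by exact_mod_cast h3
      have c4 : (b : ℝ) + 1 ≤ K := by exact_mod_cast h4
      constructor
      · intro z hz
        rw [mem_vseg ht] at hz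
        obtain ⟨z1, z2, z3⟩ := hz
        refine ⟨by nlinarith, by nlinarith, by nlinarith, by nlinarith⟩
      · intro z hz z' hz'
        rw [mem_vseg ht] at hz hz'
        obtain ⟨z1, z2, z3⟩ := hz
        obtain ⟨z1', z2', z3'⟩ := hz'
        have e : z - z' = ((z.im - z'.im : ℝ) : ℂ) * Complex.I := by
          apply Complex.ext
          · simp [z1, z1']
          · simp
        rw [e, norm_mul, Complex.norm_real, Complex.norm_I, mul_one, Real.norm_eq_abs, abs_le]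
        constructor <;> linarith
  rcases h with h | h
  · exact key x y h
  · rw [segment_symm]
    exact key y x h

theorem top_thm (hgraph : S_graph) (hear : S_ear) (hsl : S_slideN) (haff : S_aff)
    (hface : S_face) (hrev : S_rev) (f : ℂ ≃ₜ ℂ) (hf : Ori f) (R ε : ℝ) (hε : 0 < ε) :
    ∃ γ : ℂ ≃ₜ ℂ, Nice γ ∧ ∀ z : ℂ, ‖z‖ ≤ R → ‖γ z - f z‖ < ε := by
  -- the square
  obtain ⟨L, hL0, hLR⟩ : ∃ L : ℝ, 0 < L ∧ R ≤ L := ⟨|R| + 1, by positivity, by
    linarith [le_abs_self R]⟩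
  have hfc : UniformContinuousOn (⇑f) (Sq L) :=
    (Sq_compact L).uniformContinuousOn_of_continuous f.continuous.continuousOn
  rw [Metric.uniformContinuousOn_iff] at hfc
  -- the mesh of the grid
  obtain ⟨η, hη, hηf⟩ := hfc (ε / 4) (by positivity)
  obtain ⟨N, hN⟩ := exists_nat_gt (2 * L / η)
  have hN0 : (0 : ℝ) < N := lt_trans (by positivity) hN
  obtain ⟨s, hs⟩ : ∃ s : ℝ, s = L / N := ⟨_, rfl⟩
  have hs0 : 0 < s := by rw [hs]; positivity
  have hsN : s * N = L := by rw [hs]; field_simp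
  have hsη : 2 * s < η := by
    rw [div_lt_iff₀ hη] at hN
    have : 2 * s * N < η * N := by linarith
    exact lt_of_mul_lt_mul_right this hN0.le
  -- separation
  obtain ⟨ρ, hρ0, hρε, hρsep⟩ : ∃ ρ : ℝ, 0 < ρ ∧ ρ ≤ ε / 4 ∧ ∀ p m : ℂ, p ∈ Sq L → m ∈ Sq L →
      s / 2 ≤ ‖p - m‖ → ρ ≤ ‖f p - f m‖ := by
    have hcp : IsCompact ((Sq L ×ˢ Sq L) ∩ {x : ℂ × ℂ | s / 2 ≤ ‖x.1 - x.2‖}) := by
      apply ((Sq_compact L).prod (Sq_compact L)).inter_right
      exact isClosed_le continuous_const (by fun_prop)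
    rcases Set.eq_empty_or_nonempty ((Sq L ×ˢ Sq L) ∩ {x : ℂ × ℂ | s / 2 ≤ ‖x.1 - x.2‖}) with h | h
    · refine ⟨ε / 4, by positivity, le_rfl, fun p m hp hm hpm => ?_⟩
      exfalso
      have : (p, m) ∈ ((Sq L ×ˢ Sq L) ∩ {x : ℂ × ℂ | s / 2 ≤ ‖x.1 - x.2‖}) := ⟨⟨hp, hm⟩, hpm⟩
      rw [h] at this
      exact this
    · obtain ⟨x, hx, hmin⟩ := hcp.exists_isMinOn h (f := fun x : ℂ × ℂ => ‖f x.1 - f x.2‖) (by
        have := f.continuous
        fun_prop)
      have hx0 : 0 < ‖f x.1 - f x.2‖ := by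
        rw [norm_pos_iff, sub_ne_zero]
        intro e
        have e' := f.injective e
        have h1 : s / 2 ≤ ‖x.1 - x.2‖ := hx.2
        rw [e', sub_self, norm_zero] at h1
        linarith
      refine ⟨min ‖f x.1 - f x.2‖ (ε / 4), lt_min hx0 (by positivity), min_le_right _ _,
        fun p m hp hm hpm => ?_⟩
      have h1 : ‖f x.1 - f x.2‖ ≤ ‖f p - f m‖ := hmin (show (p, m) ∈ _ from ⟨⟨hp, hm⟩, hpm⟩)
      exact (min_le_left _ _).trans h1
  -- the fine mesh
  obtain ⟨η2, hη2, hηf2⟩ := hfc (ρ / 2) (by positivity)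
  obtain ⟨M', hM'⟩ := exists_nat_gt (s / η2)
  have hM'0 : (0 : ℝ) < M' := lt_trans (by positivity) hM'
  obtain ⟨t, ht⟩ : ∃ t : ℝ, t = s / (2 * M') := ⟨_, rfl⟩
  have ht0 : 0 < t := by rw [ht]; positivity
  have htM : t * M' = s / 2 := by rw [ht]; field_simp
  have htη : t < η2 := by
    rw [div_lt_iff₀ hη2] at hM'
    have : t * M' < η2 * M' := by linarith
    exact lt_of_mul_lt_mul_right this hM'0.le
  obtain ⟨M, hMd⟩ : ∃ M : ℤ, M = 2 * (M' : ℤ) := ⟨_, rfl⟩
  obtain ⟨K, hKd⟩ : ∃ K : ℕ, K = N * (2 * M') := ⟨_, rfl⟩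
  have hM'1 : 0 < M' := by exact_mod_cast hM'0
  have hN1 : 0 < N := by exact_mod_cast hN0
  have hK0 : 0 < K := by rw [hKd]; positivity
  have hMK : M ∣ (K : ℤ) := by
    rw [hMd, hKd]
    push_cast
    exact dvd_mul_left _ _
  have htK : t * K = L := by
    rw [hKd]
    push_cast
    calc t * (N * (2 * M')) = 2 * (t * M') * N := by ring
      _ = L := by rw [htM]; linarith
  have htK' : t * ((K : ℤ) : ℝ) = L := by push_cast; exact htK
  -- the arcs
  obtain ⟨A0, hA1, hA2, hA3⟩ := hgraph f (GE_finite t M K).toFinset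
    (fun e he => GE_ne ht0 ((GE_finite t M K).mem_toFinset.1 he))
    (fun e he e' he' hne => GE_int ht0 ((GE_finite t M K).mem_toFinset.1 he)
      ((GE_finite t M K).mem_toFinset.1 he') hne) (ρ / 2) (by positivity)
  simp only [Set.Finite.mem_toFinset] at hA1 hA2 hA3
  obtain ⟨A, hA, hAe⟩ := net_of (f := f) (fun x y => GE_asymm ht0)
    (fun e he => (hA1 e he).arc) hA3
  have hA' : Net (GA t M K) A f := hA
  -- the arcs are close to the images of the edges
  have hcl : ∀ x y, GA t M K x y → ∀ p ∈ segment ℝ x y, ∀ q ∈ A x y, ‖q - f p‖ < ρ := by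
    have key : ∀ x y, (x, y) ∈ GE t M K → ∀ p ∈ segment ℝ x y, ∀ q ∈ A x y, ‖q - f p‖ < ρ := by
      intro x y hxy p hp q hq
      rw [hAe x y hxy] at hq
      obtain ⟨y', ⟨p', hp', rfl⟩, hd⟩ := Metric.mem_thickening_iff.1 (hA2 _ hxy hq)
      obtain ⟨g1, g2⟩ := GA_seg ht0 (Or.inl hxy : GA t M K x y)
      have h1 : dist (f p') (f p) < ρ / 2 := by
        apply hηf2
        · rw [← htK']; exact g1 p' hp'
        · rw [← htK']; exact g1 p hp
        · rw [dist_eq_norm]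
          exact (g2 p' hp' p hp).trans_lt htη
      rw [← dist_eq_norm]
      calc dist q (f p) ≤ dist q (f p') + dist (f p') (f p) := dist_triangle _ _ _
        _ < ρ := by linarith
    rintro x y (h | h) p hp q hq
    · exact key x y h p hp q hq
    · rw [segment_symm] at hp
      rw [hA'.comm x y (Or.inr h)] at hq
      exact key y x h p hp q hq
  have hsep : ∀ p m : ℂ, (-(t * ((K : ℤ) : ℝ)) ≤ p.re ∧ p.re ≤ t * ((K : ℤ) : ℝ) ∧
      -(t * ((K : ℤ) : ℝ)) ≤ p.im ∧ p.im ≤ t * ((K : ℤ) : ℝ)) →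
      (-(t * ((K : ℤ) : ℝ)) ≤ m.re ∧ m.re ≤ t * ((K : ℤ) : ℝ) ∧ -(t * ((K : ℤ) : ℝ)) ≤ m.im ∧
        m.im ≤ t * ((K : ℤ) : ℝ)) →
      t * ((M' : ℤ) : ℝ) ≤ ‖p - m‖ → ρ ≤ ‖f p - f m‖ := by
    intro p m hp hm hpm
    rw [htK'] at hp hm
    apply hρsep p m hp hm
    push_cast at hpm
    rw [htM] at hpm
    exact hpm
  -- the perimeter
  have hadj : ∀ i, i < 8 * K → GA t M K (pr t K i) (pr t K (i + 1)) := fun i hi =>
    pr_adj hK0 hMK hi
  have hC1 := (net_straight ht0).cyn (show 3 ≤ 8 * K by omega) (pr_inj ht0) (pr_cl hK0) hadj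
  have hC2 := hA'.cyn (show 3 ≤ 8 * K by omega) (pr_inj ht0) (pr_cl hK0) hadj
  obtain ⟨γ0, g1, g2, g3⟩ := loop_match hear hsl haff (show 2 ≤ 8 * K by omega) hC1 hC2 (by
    intro r0 hr0
    have hsub : (⋃ i < 8 * K, segment ℝ (pr t K i) (pr t K (i + 1))) ⊆ bdS L := by
      intro z hz
      simp only [mem_iUnion, exists_prop] at hz
      obtain ⟨i, hi, hz⟩ := hz
      have := pr_bd ht0 hi hz
      rwa [htK] at this
    obtain ⟨g, hg1, u, hg2, hg3⟩ := bump haff hL0 (hsub hr0)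
    exact ⟨g, hg1, u, hg2, fun z hz => hg3 z (image_mono hsub hz)⟩)
  have hmt : ∀ k, k < 8 * K → GA t M K (pr t K k) (pr t K (k + 1)) ∧
      Mt A f γ0 (pr t K k) (pr t K (k + 1)) := by
    intro k hk
    refine ⟨hadj k hk, g3 k hk, ?_, g2 k hk⟩
    rcases Nat.lt_or_ge (k + 1) (8 * K) with h | h
    · exact g3 (k + 1) h
    · have : k + 1 = 8 * K := by omega
      rw [this, pr_cl hK0]
      exact g3 0 (by omega)
  have hsym : ∀ x y, (GA t M K x y ∧ Mt A f γ0 x y) → (GA t M K y x ∧ Mt A f γ0 y x) :=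
    fun x y h => ⟨h.1.symm, h.2.symm hA' h.1⟩
  have hBE : ∀ x y, BE (V t) (-K) K (-K) K x y → Mt A f γ0 x y := by
    rintro x y (⟨a, b, h1, h2, h3, rfl, rfl⟩ | ⟨a, b, h1, h2, h3, rfl, rfl⟩)
    · have := bd_h (P := fun x y => GA t M K x y ∧ Mt A f γ0 x y) hmt hsym h1 h2
      rcases h3 with rfl | rfl
      · exact this.1.2
      · exact this.2.2
    · have := bd_v (P := fun x y => GA t M K x y ∧ Mt A f γ0 x y) hmt hsym h1 h2
      rcases h3 with rfl | rfl
      · exact this.1.2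
      · exact this.2.2
  have hBEadj : ∀ x y, BE (V t) (-K) K (-K) K x y → GA t M K x y := by
    rintro x y (⟨a, b, h1, h2, h3, rfl, rfl⟩ | ⟨a, b, h1, h2, h3, rfl, rfl⟩)
    · rcases h3 with rfl | rfl
      · exact GA_h h1 h2 (by omega) (by omega) (by rwa [dvd_neg])
      · exact GA_h h1 h2 (by omega) (by omega) hMK
    · rcases h3 with rfl | rfl
      · exact GA_v (by omega) (by omega) h1 h2 (by rwa [dvd_neg])
      · exact GA_v (by omega) (by omega) h1 h2 hMK
  -- γ0 is orientation preserving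
  have hγ0 : Nice γ0 := by
    rcases g1 with g1 | g1
    · exact g1
    · exfalso
      have hl1 := lat1 ht0 M K
      have h0st : (0 : ℂ) ∈ st (fun z => z.re) (fun z => z.im) (t * ((-(K:ℤ) : ℤ) : ℝ))
          (t * ((K : ℤ) : ℝ)) (t * ((-(K:ℤ) : ℤ) : ℝ)) (t * ((K : ℤ) : ℝ)) := by
        have e : t * ((-(K:ℤ) : ℤ) : ℝ) = -L := by push_cast; linarith
        rw [e, htK']
        refine ⟨?_, ?_, ?_, ?_⟩ <;> simp [hL0]
      refine hrev f γ0 (pg (fun z => z.re) (fun z => z.im) (t * ((-(K:ℤ) : ℤ) : ℝ))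
          (t * ((K : ℤ) : ℝ)) (t * ((-(K:ℤ) : ℤ) : ℝ)) (t * ((K : ℤ) : ℝ))) 0 hf g1
        (pg_convex hl1.crd.hu hl1.crd.hv) (hl1.crd.bd _ _ _ _)
        (interior_maximal st_sub (st_open hl1.crd.hu hl1.crd.hv) h0st) ?_
      intro x hx
      obtain ⟨h1, h2⟩ := frontier_pg hl1.crd.hu hl1.crd.hv hx
      obtain ⟨p, q, hpq, hxs⟩ := BE_cover hl1 ht0 (by omega) (by omega) h1 h2
      have h3 : ‖γ0 x - f x‖ < ρ := by
        apply hcl p q (hBEadj p q hpq) x hxs
        rw [← (hBE p q hpq).2.2]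
        exact ⟨x, hxs, rfl⟩
      refine h3.trans_le (hρsep x 0 ?_ ?_ ?_)
      · obtain ⟨c1, c2, c3, c4⟩ := h1
        have e : t * ((-(K:ℤ) : ℤ) : ℝ) = -L := by push_cast; linarith
        rw [e] at c1 c3
        rw [htK'] at c2 c4
        exact ⟨c1, c2, c3, c4⟩
      · refine ⟨?_, ?_, ?_, ?_⟩ <;> simp [hL0.le]
      · rw [sub_zero]
        by_contra hcon
        push Not at hcon
        apply h2
        have e : t * ((-(K:ℤ) : ℤ) : ℝ) = -L := by push_cast; linarith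
        have hsL : s ≤ L := by
          rw [← hsN]
          have : (1 : ℝ) ≤ N := by exact_mod_cast hN1
          nlinarith
        have h4 := Complex.abs_re_le_norm x
        have h5 := Complex.abs_im_le_norm x
        have h6 := le_abs_self x.re
        have h7 := neg_abs_le x.re
        have h8 := le_abs_self x.im
        have h9 := neg_abs_le x.im
        show _ < _ ∧ _ < _ ∧ _ < _ ∧ _ < _
        rw [e, htK']
        refine ⟨?_, ?_, ?_, ?_⟩ <;> linarith
  -- rectangle induction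
  have hM'z : (0 : ℤ) < (M' : ℤ) := by exact_mod_cast hM'1
  obtain ⟨γ, r1, r2, r3, r4⟩ := rect_ind hear hsl hface hf ht0 hM'z hMd hA' hcl hsep
    (4 * K) (-K) K (-K) K le_rfl le_rfl le_rfl le_rfl (by rwa [dvd_neg]) hMK
    (by rwa [dvd_neg]) hMK (by omega) (by omega) (by push_cast; omega) γ0 hγ0 hBE
  refine ⟨γ, r1, fun z hz => ?_⟩
  -- the cell of z
  have hzre := (Complex.abs_re_le_norm z).trans (hz.trans hLR)
  have hzim := (Complex.abs_im_le_norm z).trans (hz.trans hLR)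
  rw [abs_le] at hzre hzim
  have hcell : ∀ x : ℝ, -L ≤ x → x ≤ L → ∃ c : ℤ, -(K : ℤ) ≤ M * c ∧ M * c + M ≤ K ∧
      t * ((M * c : ℤ) : ℝ) ≤ x ∧ x ≤ t * ((M * c + M : ℤ) : ℝ) := by
    intro x hx1 hx2
    obtain ⟨c, c1, c2, c3, c4⟩ := int_cover (t := s) (a := -(N : ℤ)) (b := N) (x := x) hs0
      (by omega) (by push_cast; linarith) (by push_cast; linarith)
    have hM0 : (0 : ℤ) ≤ M := by omega
    have e1 : (K : ℤ) = M * N := by rw [hKd, hMd]; push_cast; ring
    have e2 : t * (M : ℝ) = s := by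
      rw [hMd]
      push_cast
      linarith
    refine ⟨c, ?_, ?_, ?_, ?_⟩
    · rw [e1]
      have := mul_le_mul_of_nonneg_left c1 hM0
      linarith
    · rw [e1]
      have := mul_le_mul_of_nonneg_left c2 hM0
      linarith
    · push_cast
      rw [← mul_assoc, e2]
      exact c3
    · push_cast
      have : t * ((M : ℝ) * c + M) = s * (c + 1) := by rw [← e2]; ring
      rw [this]
      exact c4
  obtain ⟨a, a1, a2, a3, a4⟩ := hcell z.re hzre.1 hzre.2
  obtain ⟨b, b1, b2, b3, b4⟩ := hcell z.im hzim.1 hzim.2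
  have hl1 := lat1 ht0 M K
  have hMa : M ∣ M * a := dvd_mul_right _ _
  have hMb : M ∣ M * b := dvd_mul_right _ _
  have hMa' : M ∣ M * a + M := dvd_add hMa (dvd_refl M)
  have hMb' : M ∣ M * b + M := dvd_add hMb (dvd_refl M)
  have htMs : t * (M : ℝ) = s := by
    rw [hMd]
    push_cast
    linarith
  have hmain := max_bdry γ (C := pg (fun z => z.re) (fun z => z.im) (t * ((M * a : ℤ) : ℝ))
    (t * ((M * a + M : ℤ) : ℝ)) (t * ((M * b : ℤ) : ℝ)) (t * ((M * b + M : ℤ) : ℝ)))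
    (O := st (fun z => z.re) (fun z => z.im) (t * ((M * a : ℤ) : ℝ))
    (t * ((M * a + M : ℤ) : ℝ)) (t * ((M * b : ℤ) : ℝ)) (t * ((M * b + M : ℤ) : ℝ)))
    (hl1.crd.bd _ _ _ _) (st_open hl1.crd.hu hl1.crd.hv) st_sub (y := f z) (s := ε) hε (by
      intro x hx1 hx2
      obtain ⟨p, q, hpq, hxs⟩ := BE_cover hl1 ht0 (by omega) (by omega) hx1 hx2
      obtain ⟨hadj', hmat⟩ : GA t M K p q ∧ Mt A f γ p q := by
        rcases hpq with ⟨c, d, h1, h2, h3, rfl, rfl⟩ | ⟨c, d, h1, h2, h3, rfl, rfl⟩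
        · rcases h3 with rfl | rfl
          · exact ⟨GA_h (by omega) (by omega) (by omega) (by omega) hMb,
              r3 _ _ (by omega) (by omega) (by omega) (by omega) hMb⟩
          · exact ⟨GA_h (by omega) (by omega) (by omega) (by omega) hMb',
              r3 _ _ (by omega) (by omega) (by omega) (by omega) hMb'⟩
        · rcases h3 with rfl | rfl
          · exact ⟨GA_v (by omega) (by omega) (by omega) (by omega) hMa,
              r4 _ _ (by omega) (by omega) (by omega) (by omega) hMa⟩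
          · exact ⟨GA_v (by omega) (by omega) (by omega) (by omega) hMa',
              r4 _ _ (by omega) (by omega) (by omega) (by omega) hMa'⟩
      have h3 : ‖γ x - f x‖ < ρ := by
        apply hcl p q hadj' x hxs
        rw [← hmat.2.2]
        exact ⟨x, hxs, rfl⟩
      have hxS : x ∈ Sq L := by
        have := (GA_seg ht0 hadj').1 x hxs
        rwa [htK'] at this
      have h4 : dist (f x) (f z) < ε / 4 := by
        apply hηf x hxS z ⟨hzre.1, hzre.2, hzim.1, hzim.2⟩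
        rw [dist_eq_norm]
        refine (Complex.norm_le_abs_re_add_abs_im _).trans_lt ?_
        obtain ⟨x1, x2, x3, x4⟩ := hx1
        have e1 : t * ((M * a + M : ℤ) : ℝ) = t * ((M * a : ℤ) : ℝ) + s := by
          push_cast; rw [← htMs]; ring
        have e2 : t * ((M * b + M : ℤ) : ℝ) = t * ((M * b : ℤ) : ℝ) + s := by
          push_cast; rw [← htMs]; ring
        rw [e1] at x2 a4
        rw [e2] at x4 b4
        have h5 : |(x - z).re| ≤ s := by
          rw [Complex.sub_re, abs_le]; constructor <;> linarith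
        have h6 : |(x - z).im| ≤ s := by
          rw [Complex.sub_im, abs_le]; constructor <;> linarith
        linarith
      rw [← dist_eq_norm] at h3 ⊢
      calc dist (γ x) (f z) ≤ dist (γ x) (f x) + dist (f x) (f z) := dist_triangle _ _ _
        _ < ε := by linarith)
  exact hmain z ⟨a3, a4, b3, b4⟩

end Pool.Agent.V8H80
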